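import Pool.Agent.HYG.Defs
import Pool.Agent.GT.Fld

/-!
# Adjoining roots to the function field of a curve
-/

set_option autoImplicit false

noncomputable section

namespace Pool.Agent.HYG

open Pool.Agent.ZCyc Pool.Agent.Dess Pool.Agent.GT Pool.Agent.TInc
open scoped Classical LinearAlgebra.Projectivization

variable {k : Type} [Field k]

/-- A finite extension of the function field of a curve is the function field of a curve: if `t` is
transcendental and `K` is finite over `k(t)` then `φ t` is transcendental and `K'` is finite over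
`k(φ t)` (tower of finite extensions; compare `fld_isCurve` in `Pool/Agent/GT/Fld.lean`). -/
theorem isCurve_of_finite {K K' : Type} [Field K] [Algebra k K] [Field K'] [Algebra k K']
    (hK : IsCurve k K) (φ : K →ₐ[k] K') (h : (φ : K →+* K').Finite) : IsCurve k K' := by
  obtain ⟨t, ht, hfin⟩ := hK
  let _ : Algebra K K' := (φ : K →+* K').toAlgebra
  have hKK : Module.Finite K K' := h
  set E := IntermediateField.adjoin k {t} with hE
  set E' := IntermediateField.adjoin k {φ t} with hE'
  have hmap : E.map φ = E' := by
    rw [hE, IntermediateField.adjoin_map, Set.image_singleton]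
  refine ⟨φ t, ?_, ?_⟩
  · exact fun h1 => ht ((isAlgebraic_algHom_iff φ (φ : K →+* K').injective).1 h1)
  · have hmem : ∀ x ∈ E, φ x ∈ E' := by
      intro x hx
      rw [← hmap]
      exact ⟨x, hx, rfl⟩
    let ψ : E →+* E' :=
      { toFun := fun x => ⟨φ x, hmem x x.2⟩
        map_one' := Subtype.ext (map_one φ)
        map_zero' := Subtype.ext (map_zero φ)
        map_mul' := fun x y => Subtype.ext (map_mul φ _ _)
        map_add' := fun x y => Subtype.ext (map_add φ _ _) }
    let _ : Algebra E E' := ψ.toAlgebra
    have hEK' : Module.Finite E K' := Module.Finite.trans K K'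
    have htow : IsScalarTower E E' K' := IsScalarTower.of_algebraMap_eq fun x => rfl
    exact Module.Finite.of_restrictScalars_finite E E' K'

/-- Adjoin roots of finitely many elements: inside an algebraic closure of `K`, let `K'` be the
field generated over `K` by roots `w i` of `a i` (`IsAlgClosed.exists_pow_nat_eq`). It is finite over
`K` (`IntermediateField.finiteDimensional_adjoin`), use `isCurve_of_finite`. -/
theorem exists_roots {K : Type} [Field K] [Algebra k K] (hK : IsCurve k K) {r : ℕ} {M : Fin r → ℕ}
    (hM : ∀ i, 0 < M i) (a : Fin r → K) : ∃ (K' : Type) (_ : Field K') (_ : Algebra k K') (_ : IsCurve k K')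
      (φ : K →ₐ[k] K') (w : Fin r → K'), ∀ i, w i ^ M i = φ (a i) := by
  have hex : ∀ i, ∃ w : AlgebraicClosure K, w ^ M i = algebraMap K (AlgebraicClosure K) (a i) :=
    fun i => IsAlgClosed.exists_pow_nat_eq _ (hM i)
  choose w hw using hex
  set K' := IntermediateField.adjoin K (Set.range w) with hK'
  have hfin : Finite (Set.range w) := Set.finite_range w
  have hfd : FiniteDimensional K K' :=
    IntermediateField.finiteDimensional_adjoin fun x _ => Algebra.IsIntegral.isIntegral x
  let φ : K →ₐ[k] K' := IsScalarTower.toAlgHom k K K'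
  have hφ : ((φ : K →ₐ[k] K') : K →+* K').Finite := by
    show (algebraMap K K').Finite
    exact RingHom.finite_algebraMap.2 hfd
  refine ⟨K', inferInstance, inferInstance, isCurve_of_finite hK φ hφ, φ,
    fun i => ⟨w i, IntermediateField.subset_adjoin K _ ⟨i, rfl⟩⟩, fun i => ?_⟩
  exact Subtype.ext (hw i)

/-- the rational function field is the function field of a curve -/
theorem isCurve_ratFunc : IsCurve k (RatFunc k) := by
  refine ⟨RatFunc.X, RatFunc.transcendental_X, ?_⟩
  rw [RatFunc.adjoin_X]
  exact RingHom.finite_algebraMap.1 (RingHom.Finite.of_surjective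
    (algebraMap (⊤ : IntermediateField k (RatFunc k)) (RatFunc k)) fun x =>
      ⟨⟨x, trivial⟩, rfl⟩)

/-- every place of a curve has a place above it in a finite extension (`TInc.exists_above`,
`TInc.exists_below` with an embedding of `K'` into `Om k`, `exists_embed`; compare `cvr_below`) -/
theorem exists_over [IsAlgClosed k] [CharZero k] {K K' : Type} [Field K] [Algebra k K] [Field K']
    [Algebra k K'] (hK : IsCurve k K) (hK' : IsCurve k K') (φ : K →ₐ[k] K') (v : Place k K) :
    ∃ w : Place k K', w.ring.comap (φ : K →+* K') = v.ring := by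
  obtain ⟨t, ht, hfin⟩ := id hK'
  have h1 := Pool.Agent.TInc.card_emb hK' ht (ψ := VFP.tt k) Pool.Agent.VFP.tt_transc
  have h2 : 0 < {σ : K' →ₐ[k] VFP.Om k | σ t = VFP.tt k}.ncard := by
    rw [h1.2]
    exact Module.finrank_pos
  obtain ⟨σ, -⟩ := Set.nonempty_of_ncard_ne_zero h2.ne'
  obtain ⟨V, hV⟩ := TInc.exists_above hK v (σ.comp φ)
  obtain ⟨c, hc⟩ := TInc.exists_below hK' V σ
  refine ⟨c, ?_⟩
  rw [← hc, ← hV]
  rfl

end Pool.Agent.HYG
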