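import Pool.Agent.HYG.AVal
import Pool.Agent.HYG.Roots

/-!
# The core: from the function field to almost all points
-/

set_option autoImplicit false

noncomputable section

namespace Pool.Agent.HYG.Chn

open Pool.Agent.ZCyc Pool.Agent.Dess Pool.Agent.GT Pool.Agent.TInc Matrix
open scoped Classical

variable {k : Type} [Field k] [IsAlgClosed k] [CharZero k] {K : Type} [Field K] [Algebra k K]
  {m : ℕ}

/-- Finitely many nonzero functions have finite nonzero values at a place above `T = t`, for almost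
all `t`: `S` contains the values of `T` at the (finitely many, `finite_ord`) places where one of the
functions has a zero or a pole; `ZCyc.exists_place` (places above `T = t`), `ord_eq_zero_iff`,
`Dess.exists_at`. -/
theorem exists_good (hK : IsCurve k K) {T : K} (hT : Transcendental k T) {ι : Type} [Finite ι]
    (g : ι → K) (hg : ∀ i, g i ≠ 0) :
    ∃ S : Finset k, ∀ t ∉ S, ∃ v : Place k K, v.At T t ∧ ∀ i, ∃ c, c ≠ 0 ∧ v.At (g i) c := by
  have hfin : (⋃ i, {v : Place k K | ord v (g i) ≠ 0}).Finite :=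
    Set.finite_iUnion fun i => finite_ord hK (g i)
  refine ⟨hfin.toFinset.image fun v => if h : ∃ t, v.At T t then h.choose else 0, ?_⟩
  intro t ht
  obtain ⟨v, hv⟩ := exists_place (F := K) hT t
  refine ⟨v, hv, fun i => ?_⟩
  have hv0 : ord v (g i) = 0 := by
    by_contra hne
    apply ht
    rw [Finset.mem_image]
    refine ⟨v, ?_, ?_⟩
    · rw [Set.Finite.mem_toFinset, Set.mem_iUnion]
      exact ⟨i, hne⟩
    · have hex : ∃ t, v.At T t := ⟨t, hv⟩
      rw [dif_pos hex]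
      exact hex.choose_spec.unique hv
  obtain ⟨h1, h2⟩ := (ord_eq_zero_iff hK (hg i)).1 hv0
  obtain ⟨c, hc⟩ := Dess.exists_at hK v h1
  refine ⟨c, ?_, hc⟩
  rintro rfl
  have h3 := Place.at_zero_iff.1 hc
  rw [Place.vanishes_iff_or] at h3
  rcases h3 with h3 | h3
  · exact hg i h3
  · exact h3 h2

/-- A system of solutions in general position over `K` gives such a system over `k` for almost all
`t`. Apply `exists_good` to all `μ i`, `μ' i`, `s i`, `X J i`, `r J i`, `(A X_J)_i` (`i₀ ∉ J`) and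
`pol` (the index type is finite; put `1` for the `J` with `i₀ ∈ J`), and take the values
(`Sol.value`, `at_mulVec`, `at_pol`, `Place.At.unique`). -/
theorem Gen.values (hK : IsCurve k K) {T : K} (hT : Transcendental k T)
    {A B : Matrix (Fin m) (Fin m) k} {i₀ : Fin m} {μ μ' s : Fin m → K}
    {X r : Finset (Fin m) → Fin m → K}
    (h : Gen (A.map (algebraMap k K)) (B.map (algebraMap k K)) i₀ μ μ' s X r)
    (hμ : ∀ i, μ i ≠ 0) (hμ' : ∀ i, μ' i ≠ 0) :
    ∃ S : Finset k, ∀ t ∉ S, ∃ (v : Place k K) (μ₀ μ'₀ s₀ : Fin m → k)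
      (X₀ r₀ : Finset (Fin m) → Fin m → k), v.At T t ∧ (∀ i, v.At (μ i) (μ₀ i)) ∧
      (∀ i, v.At (μ' i) (μ'₀ i)) ∧ (∀ i, μ₀ i ≠ 0) ∧ (∀ i, μ'₀ i ≠ 0) ∧
      (∀ J, i₀ ∉ J → ∀ i, v.At (X J i) (X₀ J i)) ∧ Gen A B i₀ μ₀ μ'₀ s₀ X₀ r₀ := by
  let A' := A.map (algebraMap k K)
  let B' := B.map (algebraMap k K)
  let g : Fin 7 × Finset (Fin m) × Fin m → K := fun q =>
    ![μ q.2.2, μ' q.2.2, s q.2.2,
      if i₀ ∉ q.2.1 then X q.2.1 q.2.2 else 1,
      if i₀ ∉ q.2.1 then r q.2.1 q.2.2 else 1,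
      if i₀ ∉ q.2.1 then (A' *ᵥ X q.2.1) q.2.2 else 1,
      if i₀ ∉ q.2.1 ∧ q.2.2 ≠ i₀ ∧ q.2.2 ∉ q.2.1 then
        pol A' B' μ μ' q.2.2 (X (insert q.2.2 q.2.1)) (r (insert q.2.2 q.2.1))
          (X q.2.1) (r q.2.1) else 1] q.1
  have hg : ∀ q, g q ≠ 0 := by
    rintro ⟨n, J, i⟩
    fin_cases n
    · exact hμ i
    · exact hμ' i
    · exact h.sne i
    · change (if i₀ ∉ J then X J i else 1) ≠ 0
      by_cases hJ : i₀ ∉ J
      · rw [if_pos hJ]
        exact (h.intr J hJ i).1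
      · rw [if_neg hJ]
        exact one_ne_zero
    · change (if i₀ ∉ J then r J i else 1) ≠ 0
      by_cases hJ : i₀ ∉ J
      · rw [if_pos hJ]
        exact h.rne J i hJ
      · rw [if_neg hJ]
        exact one_ne_zero
    · change (if i₀ ∉ J then (A' *ᵥ X J) i else 1) ≠ 0
      by_cases hJ : i₀ ∉ J
      · rw [if_pos hJ]
        exact (h.intr J hJ i).2
      · rw [if_neg hJ]
        exact one_ne_zero
    · change (if i₀ ∉ J ∧ i ≠ i₀ ∧ i ∉ J then
        pol A' B' μ μ' i (X (insert i J)) (r (insert i J)) (X J) (r J) else 1) ≠ 0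
      split_ifs with hJ
      · exact h.pne J i hJ.1 hJ.2.1 hJ.2.2
      · exact one_ne_zero
  obtain ⟨S, hS⟩ := exists_good hK hT g hg
  refine ⟨S, fun t ht => ?_⟩
  obtain ⟨v, hv, hval⟩ := hS t ht
  choose c hc0 hc using hval
  have e3 : ∀ J, i₀ ∉ J → ∀ i, v.At (X J i) (c (3, J, i)) := by
    intro J hJ i
    have h1 := hc (3, J, i)
    change v.At (if i₀ ∉ J then X J i else 1) _ at h1
    rwa [if_pos hJ] at h1
  have e4 : ∀ J, i₀ ∉ J → ∀ i, v.At (r J i) (c (4, J, i)) := by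
    intro J hJ i
    have h1 := hc (4, J, i)
    change v.At (if i₀ ∉ J then r J i else 1) _ at h1
    rwa [if_pos hJ] at h1
  have e5 : ∀ J, i₀ ∉ J → ∀ i, v.At ((A' *ᵥ X J) i) (c (5, J, i)) := by
    intro J hJ i
    have h1 := hc (5, J, i)
    change v.At (if i₀ ∉ J then (A' *ᵥ X J) i else 1) _ at h1
    rwa [if_pos hJ] at h1
  have e6 : ∀ J i, i₀ ∉ J → i ≠ i₀ → i ∉ J →
      v.At (pol A' B' μ μ' i (X (insert i J)) (r (insert i J)) (X J) (r J))
        (c (6, J, i)) := by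
    intro J i hJ hi hiJ
    have h1 := hc (6, J, i)
    change v.At (if i₀ ∉ J ∧ i ≠ i₀ ∧ i ∉ J then
        pol A' B' μ μ' i (X (insert i J)) (r (insert i J)) (X J) (r J) else 1) _ at h1
    rwa [if_pos ⟨hJ, hi, hiJ⟩] at h1
  have e0 : ∀ i, v.At (μ i) (c (0, ∅, i)) := fun i => hc (0, ∅, i)
  have e1 : ∀ i, v.At (μ' i) (c (1, ∅, i)) := fun i => hc (1, ∅, i)
  have e2 : ∀ i, v.At (s i) (c (2, ∅, i)) := fun i => hc (2, ∅, i)
  refine ⟨v, fun i => c (0, ∅, i), fun i => c (1, ∅, i), fun i => c (2, ∅, i),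
    fun J i => c (3, J, i), fun J i => c (4, J, i), hv, e0, e1, fun i => hc0 _,
    fun i => hc0 _, e3, ?_⟩
  constructor
  · intro J hJ
    exact (h.sol J hJ).value e0 e1 e2 (e3 J hJ) (e4 J hJ)
  · intro J hJ i
    refine ⟨hc0 _, ?_⟩
    rw [← (e5 J hJ i).unique (at_mulVec A (e3 J hJ) i)]
    exact hc0 _
  · intro J l hJ
    exact hc0 _
  · intro l
    exact hc0 _
  · intro J l hJ hl hlJ
    have hJ' : i₀ ∉ insert l J := by
      rw [Finset.mem_insert, not_or]
      exact ⟨fun h1 => hl h1.symm, hJ⟩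
    rw [← (e6 J l hJ hl hlJ).unique (at_pol A B e0 e1 (e3 _ hJ') (e4 _ hJ') (e3 J hJ)
      (e4 J hJ) l)]
    exact hc0 _

end Pool.Agent.HYG.Chn
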