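import Pool.Agent.HYG.ADefs

/-!
# The core: values at places
-/

set_option autoImplicit false

noncomputable section

namespace Pool.Agent.HYG.Chn

open Pool.Agent.ZCyc Pool.Agent.Dess Pool.Agent.GT Pool.Agent.TInc Matrix
open scoped Classical

variable {k : Type} [Field k] {K : Type} [Field K] [Algebra k K] {m : ℕ} {v : Place k K}

/-- `Place.At.sum`, `Place.At.mul`, `Place.at_const` -/
theorem at_mulVec (A : Matrix (Fin m) (Fin m) k) {X : Fin m → K} {x : Fin m → k}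
    (h : ∀ i, v.At (X i) (x i)) (i : Fin m) :
    v.At ((A.map (algebraMap k K) *ᵥ X) i) ((A *ᵥ x) i) := by
  have h1 : (A.map (algebraMap k K) *ᵥ X) i = ∑ j, algebraMap k K (A i j) * X j := rfl
  have h2 : (A *ᵥ x) i = ∑ j, A i j * x j := rfl
  rw [h1, h2]
  exact Place.At.sum fun j _ => (Place.at_const (A i j)).mul (h j)

theorem at_vecMul (A : Matrix (Fin m) (Fin m) k) {X : Fin m → K} {x : Fin m → k}
    (h : ∀ i, v.At (X i) (x i)) (i : Fin m) :
    v.At ((X ᵥ* A.map (algebraMap k K)) i) ((x ᵥ* A) i) := by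
  have h1 : (X ᵥ* A.map (algebraMap k K)) i = ∑ j, X j * algebraMap k K (A j i) := rfl
  have h2 : (x ᵥ* A) i = ∑ j, x j * A j i := rfl
  rw [h1, h2]
  exact Place.At.sum fun j _ => (h j).mul (Place.at_const (A j i))

/-- values of `ν(X)` -/
theorem at_nu (A : Matrix (Fin m) (Fin m) k) {X : Fin m → K} {x : Fin m → k}
    (h : ∀ i, v.At (X i) (x i)) (i : Fin m) (hx : x i ≠ 0) :
    v.At (nu (A.map (algebraMap k K)) X i) (nu A x i) := by
  exact (at_mulVec A h i).div (h i) hx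

/-- the class function at a place where all coordinates have nonzero values (`Place.At.unique`) -/
theorem GG_at {W : Type} [AddCommGroup W] (G : (Fin m → k) → (Fin m → k) → W) {μ C : Fin m → K}
    {μ₀ c : Fin m → k} (h₁ : ∀ i, v.At (μ i) (μ₀ i)) (h₂ : ∀ i, v.At (C i) (c i))
    (h₃ : ∀ i, μ₀ i ≠ 0) (h₄ : ∀ i, c i ≠ 0) : GG G v μ C = G μ₀ c := by
  have he : ∃ p : (Fin m → k) × (Fin m → k), (∀ i, v.At (μ i) (p.1 i)) ∧
      (∀ i, v.At (C i) (p.2 i)) ∧ (∀ i, p.1 i ≠ 0) ∧ ∀ i, p.2 i ≠ 0 :=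
    ⟨(μ₀, c), h₁, h₂, h₃, h₄⟩
  unfold GG
  rw [dif_pos he]
  have h5 : he.choose.1 = μ₀ := funext fun i => (he.choose_spec.1 i).unique (h₁ i)
  have h6 : he.choose.2 = c := funext fun i => (he.choose_spec.2.1 i).unique (h₂ i)
  rw [h5, h6]

/-- the class function is zero at a place where one coordinate `C i` has no value -/
theorem GG_none {W : Type} [AddCommGroup W] (G : (Fin m → k) → (Fin m → k) → W) {μ C : Fin m → K}
    (i : Fin m) (h : ∀ c, ¬ v.At (C i) c) : GG G v μ C = 0 := by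
  unfold GG
  rw [dif_neg]
  rintro ⟨p, _, h2, _⟩
  exact h (p.2 i) (h2 i)

/-- Scaling does not change `ν(X)`. -/
theorem nu_smul (A : Matrix (Fin m) (Fin m) K) {X : Fin m → K} {a : K} (ha : a ≠ 0) :
    nu A (fun i => a * X i) = nu A X := by
  funext i
  have h1 : (A *ᵥ fun j => a * X j) i = a * (A *ᵥ X) i := by
    have h2 : (fun j => a * X j) = a • X := rfl
    rw [h2, Matrix.mulVec_smul]
    rfl
  unfold nu
  rw [h1, mul_div_mul_left _ _ ha]

/-- Scaling does not change the system. -/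
theorem Sol.smul {A B : Matrix (Fin m) (Fin m) K} {μ μ' s : Fin m → K} {J : Finset (Fin m)}
    {X r : Fin m → K} (h : Sol A B μ μ' s J X r) (a : K) :
    Sol A B μ μ' s J (fun i => a * X i) (fun i => a * r i) := by
  have h1 : ∀ i, (A *ᵥ fun j => a * X j) i = a * (A *ᵥ X) i := by
    intro i
    have h2 : (fun j => a * X j) = a • X := rfl
    rw [h2, Matrix.mulVec_smul]
    rfl
  have h3 : ∀ i, ((fun j => a * r j) ᵥ* B) i = a * (r ᵥ* B) i := by
    intro i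
    have h2 : (fun j => a * r j) = a • r := rfl
    rw [h2, Matrix.smul_vecMul]
    rfl
  refine ⟨fun j hj => ?_, fun j hj => ?_, fun i hi => ?_, fun i hi => ?_⟩
  · rw [h1, h.inA j hj]
    ring
  · rw [h3, h.inB j hj]
    ring
  · rw [h1, h.outA i hi]
    ring
  · rw [h3, h.outB i hi]
    ring

/-- The values of a solution are a solution for the values. -/
theorem Sol.value {A B : Matrix (Fin m) (Fin m) k} {μ μ' s X r : Fin m → K}
    {J : Finset (Fin m)} (h : Sol (A.map (algebraMap k K)) (B.map (algebraMap k K)) μ μ' s J X r)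
    {μ₀ μ'₀ s₀ X₀ r₀ : Fin m → k} (hμ : ∀ i, v.At (μ i) (μ₀ i)) (hμ' : ∀ i, v.At (μ' i) (μ'₀ i))
    (hs : ∀ i, v.At (s i) (s₀ i)) (hX : ∀ i, v.At (X i) (X₀ i)) (hr : ∀ i, v.At (r i) (r₀ i)) :
    Sol A B μ₀ μ'₀ s₀ J X₀ r₀ := by
  refine ⟨fun j hj => ?_, fun j hj => ?_, fun i hi => ?_, fun i hi => ?_⟩
  · have h1 := at_mulVec A hX j
    rw [h.inA j hj] at h1
    exact h1.unique ((hμ j).mul (hX j))
  · have h1 := at_vecMul B hr j
    rw [h.inB j hj] at h1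
    exact h1.unique ((hμ' j).mul (hr j))
  · have h1 := hr i
    rw [h.outA i hi] at h1
    exact h1.unique ((hs i).mul (at_mulVec A hX i)).neg
  · have h1 := at_vecMul B hr i
    rw [h.outB i hi] at h1
    exact h1.unique (((hs i).mul ((hμ i).mul (hμ' i))).mul (hX i)).neg

/-- the values of the polar form -/
theorem at_pol (A B : Matrix (Fin m) (Fin m) k) {μ μ' X₁ r₁ X₂ r₂ : Fin m → K}
    {μ₀ μ'₀ X₁₀ r₁₀ X₂₀ r₂₀ : Fin m → k} (hμ : ∀ i, v.At (μ i) (μ₀ i))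
    (hμ' : ∀ i, v.At (μ' i) (μ'₀ i)) (hX₁ : ∀ i, v.At (X₁ i) (X₁₀ i))
    (hr₁ : ∀ i, v.At (r₁ i) (r₁₀ i)) (hX₂ : ∀ i, v.At (X₂ i) (X₂₀ i))
    (hr₂ : ∀ i, v.At (r₂ i) (r₂₀ i)) (l : Fin m) :
    v.At (pol (A.map (algebraMap k K)) (B.map (algebraMap k K)) μ μ' l X₁ r₁ X₂ r₂)
      (pol A B μ₀ μ'₀ l X₁₀ r₁₀ X₂₀ r₂₀) := by
  unfold pol
  exact (((at_mulVec A hX₁ l).mul (at_vecMul B hr₂ l)).add
    ((at_mulVec A hX₂ l).mul (at_vecMul B hr₁ l))).sub
    (((hμ l).mul (hμ' l)).mul (((hX₁ l).mul (hr₂ l)).add ((hX₂ l).mul (hr₁ l))))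

end Pool.Agent.HYG.Chn
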