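import Pool.Agent.HYG.AAlg
import Pool.Agent.HYG.AVal

/-!
# The core: the limit at a vertex, part A

`v` is a place, `e ≠ 0` a function which vanishes at `v`, `wt e i₀ i = e` for `i ≠ i₀` and
`wt e i₀ i₀ = 1`. All vectors `X` have the form `X_i = wt_i * (function with a value at v)`, so that
`(A X)_i` has the value `A i i₀ * (value of X_(i₀))` at `v`.
-/

set_option autoImplicit false

noncomputable section

namespace Pool.Agent.HYG.Chn

open Pool.Agent.ZCyc Pool.Agent.Dess Pool.Agent.GT Pool.Agent.TInc Matrix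
open scoped Classical

variable {k : Type} [Field k] {K : Type} [Field K] [Algebra k K] {m : ℕ} {v : Place k K}

/-- the weights: `e` for `i ≠ i₀`, and `1` for `i₀` -/
def wt (e : K) (i₀ i : Fin m) : K := if i = i₀ then 1 else e

theorem wt_ne {e : K} (he0 : e ≠ 0) (i₀ i : Fin m) : wt e i₀ i ≠ 0 := by
  unfold wt
  split_ifs
  · exact one_ne_zero
  · exact he0

/-- `X_i = wt_i * (X_i / wt_i)` has the value `0` for `i ≠ i₀`. -/
theorem at_of_wt {e : K} (he : v.At e 0) (he0 : e ≠ 0) {i₀ : Fin m} {X : Fin m → K}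
    {ξ : Fin m → k} (hX : ∀ i, v.At (X i / wt e i₀ i) (ξ i)) (i : Fin m) :
    v.At (X i) (if i = i₀ then ξ i₀ else 0) := by
  by_cases h : i = i₀
  · subst h
    have h1 := hX i
    rw [wt, if_pos rfl, div_one] at h1
    rw [if_pos rfl]
    exact h1
  · have h1 := (hX i).mul he
    rw [wt, if_neg h, div_mul_cancel₀ _ he0, mul_zero] at h1
    rw [if_neg h]
    exact h1

/-- the value of `(A X)_i` (`at_of_wt`, `at_mulVec`) -/
theorem at_mulVec_wt (A : Matrix (Fin m) (Fin m) k) {e : K} (he : v.At e 0) (he0 : e ≠ 0)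
    {i₀ : Fin m} {X : Fin m → K} {ξ : Fin m → k} (hX : ∀ i, v.At (X i / wt e i₀ i) (ξ i))
    (i : Fin m) : v.At ((A.map (algebraMap k K) *ᵥ X) i) (A i i₀ * ξ i₀) := by
  have h1 := at_mulVec A (at_of_wt he he0 hX) i
  have h2 : (A *ᵥ fun i => if i = i₀ then ξ i₀ else 0) i = A i i₀ * ξ i₀ := by
    simp [Matrix.mulVec, dotProduct]
  rwa [h2] at h1

/-- the value of `(r A)_i` -/
theorem at_vecMul_wt (A : Matrix (Fin m) (Fin m) k) {e : K} (he : v.At e 0) (he0 : e ≠ 0)
    {i₀ : Fin m} {X : Fin m → K} {ξ : Fin m → k} (hX : ∀ i, v.At (X i / wt e i₀ i) (ξ i))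
    (i : Fin m) : v.At ((X ᵥ* A.map (algebraMap k K)) i) (A i₀ i * ξ i₀) := by
  have h1 := at_vecMul A (at_of_wt he he0 hX) i
  have h2 : ((fun i => if i = i₀ then ξ i₀ else 0) ᵥ* A) i = A i₀ i * ξ i₀ := by
    simp [Matrix.vecMul, dotProduct, mul_comm]
  rwa [h2] at h1

/-- `μ_i wt_i = (A x)_i / (x_i / wt_i)` has the value `A i i₀ / lam_i` -/
theorem at_nu_wt (A : Matrix (Fin m) (Fin m) k) {e : K} (he : v.At e 0) (he0 : e ≠ 0)
    {i₀ : Fin m} {x : Fin m → K} {lam : Fin m → k} (hx : ∀ i, v.At (x i / wt e i₀ i) (lam i))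
    (h1 : lam i₀ = 1) (hlam : ∀ i, lam i ≠ 0) (i : Fin m) :
    v.At (nu (A.map (algebraMap k K)) x i * wt e i₀ i) (A i i₀ / lam i) := by
  have h2 := (at_mulVec_wt A he he0 hx i).div (hx i) (hlam i)
  rw [h1, mul_one] at h2
  have h3 : nu (A.map (algebraMap k K)) x i * wt e i₀ i =
      (A.map (algebraMap k K) *ᵥ x) i / (x i / wt e i₀ i) := by
    rw [nu, div_div_eq_mul_div, div_mul_eq_mul_div]
  rwa [h3]

/-- all coordinates of `x` and of `A x` are different from zero (the value of `x_i / wt_i` is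
`lam_i ≠ 0`, the value of `(A x)_i` is `A i i₀ * lam i₀ ≠ 0`) -/
theorem intr_wt {A : Matrix (Fin m) (Fin m) k} {e : K} (he : v.At e 0) (he0 : e ≠ 0)
    {i₀ : Fin m} (hA : ∀ i, A i i₀ ≠ 0) {x : Fin m → K} {lam : Fin m → k}
    (hx : ∀ i, v.At (x i / wt e i₀ i) (lam i)) (hlam : ∀ i, lam i ≠ 0) :
    Intr (A.map (algebraMap k K)) x := by
  have key : ∀ (f : K) (c : k), v.At f c → c ≠ 0 → f ≠ 0 := by
    rintro f c hf hc rfl
    apply hc
    have h1 := Place.at_const (v := v) (0 : k)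
    rw [map_zero] at h1
    exact hf.unique h1
  intro i
  constructor
  · intro h
    apply key _ _ (hx i) (hlam i)
    rw [h, zero_div]
  · exact key _ _ (at_mulVec_wt A he he0 hx i) (mul_ne_zero (hA i) (hlam i₀))

/-- Scaling of a nonzero vector: `exists_scale` (`GT/Val.lean`), with `hasRes_of_isCurve`. -/
theorem exists_scaled [IsAlgClosed k] [CharZero k] (hK : IsCurve k K) (v : Place k K) {ι : Type}
    [Finite ι] {X : ι → K} (hX : X ≠ 0) :
    ∃ (l : K) (ξ : ι → k), l ≠ 0 ∧ ξ ≠ 0 ∧ ∀ i, v.At (l * X i) (ξ i) := by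
  have := hasRes_of_isCurve hK
  exact exists_scale v X hX

/-- Left null vectors. Let `ys ≠ 0` be a left null vector of `A - diag (ν(y))` (`exists_left`),
scaled so that the `ys_i / wt_i` have values `ρ_i`, not all zero. The equations
`(ys A)_j = ν_j(y) ys_j = (ν_j(y) wt_j) (ys_j / wt_j)` have the values
`A i₀ j * ρ_(i₀) = (A j i₀ / lam_j) ρ_j`. So `ρ_(i₀) ≠ 0`, divide `ys` by the constant `ρ_(i₀)`. -/
theorem exists_left_wt [IsAlgClosed k] [CharZero k] (hK : IsCurve k K)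
    {A : Matrix (Fin m) (Fin m) k} {e : K} (he : v.At e 0) (he0 : e ≠ 0) {i₀ : Fin m}
    (hA : ∀ j, A i₀ j ≠ 0 ∧ A j i₀ ≠ 0)
    {y : Fin m → K} {lam : Fin m → k} (hy : ∀ i, v.At (y i / wt e i₀ i) (lam i))
    (h1 : lam i₀ = 1) (hlam : ∀ i, lam i ≠ 0) :
    ∃ ys : Fin m → K, (∀ j, (ys ᵥ* A.map (algebraMap k K)) j =
        nu (A.map (algebraMap k K)) y j * ys j) ∧
      ∀ i, v.At (ys i / wt e i₀ i) (lam i * (A i₀ i / A i i₀)) := by
  have hI : Intr (A.map (algebraMap k K)) y := intr_wt he he0 (fun i => (hA i).2) hy hlam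
  have hy0 : y ≠ 0 := by
    intro h
    exact (hI i₀).1 (congrFun h i₀)
  obtain ⟨z, hz0, hz⟩ := exists_left (A := A.map (algebraMap k K))
    (μ := nu (A.map (algebraMap k K)) y) hy0 fun i => by
      rw [nu, div_mul_cancel₀ _ (hI i).1]
  have hz1 : (fun i => z i / wt e i₀ i) ≠ 0 := by
    intro h
    apply hz0
    funext i
    have h2 := congrFun h i
    exact (div_eq_zero_iff.1 h2).resolve_right (wt_ne he0 i₀ i)
  obtain ⟨l, ρ, hl, hρ, hlz⟩ := exists_scaled hK v hz1
  have hval : ∀ i, v.At ((l * z i) / wt e i₀ i) (ρ i) := by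
    intro i
    rw [mul_div_assoc]
    exact hlz i
  have heq : ∀ j, A i₀ j * ρ i₀ = A j i₀ / lam j * ρ j := by
    intro j
    have h2 := at_vecMul_wt A he he0 hval j
    have h3 := (at_nu_wt A he he0 hy h1 hlam j).mul (hval j)
    have h4 : ((fun i => l * z i) ᵥ* A.map (algebraMap k K)) j =
        nu (A.map (algebraMap k K)) y j * wt e i₀ j * (l * z j / wt e i₀ j) := by
      have h5 : ((fun i => l * z i) ᵥ* A.map (algebraMap k K)) j =
          l * (z ᵥ* A.map (algebraMap k K)) j := by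
        simp only [Matrix.vecMul, dotProduct, Finset.mul_sum, mul_assoc]
      rw [h5, hz j]
      have h6 := wt_ne he0 i₀ j
      field_simp
    rw [← h4] at h3
    exact h2.unique h3
  have hρ0 : ρ i₀ ≠ 0 := by
    intro h
    apply hρ
    funext j
    have h2 := heq j
    rw [h, mul_zero] at h2
    exact (mul_eq_zero.1 h2.symm).resolve_left (div_ne_zero (hA j).2 (hlam j))
  refine ⟨fun i => algebraMap k K (ρ i₀)⁻¹ * (l * z i), fun j => ?_, fun i => ?_⟩
  · have h5 : ((fun i => algebraMap k K (ρ i₀)⁻¹ * (l * z i)) ᵥ* A.map (algebraMap k K)) j =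
        algebraMap k K (ρ i₀)⁻¹ * (l * (z ᵥ* A.map (algebraMap k K)) j) := by
      simp only [Matrix.vecMul, dotProduct, Finset.mul_sum, mul_assoc]
    rw [h5, hz j]
    ring
  · have h2 := (Place.at_const (v := v) (ρ i₀)⁻¹).mul (hval i)
    rw [← mul_div_assoc] at h2
    have h3 : (ρ i₀)⁻¹ * ρ i = lam i * (A i₀ i / A i i₀) := by
      have h4 := heq i
      have h5 := hlam i
      have h6 := (hA i).2
      field_simp
      field_simp at h4
      linear_combination -h4
    rwa [h3] at h2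

end Pool.Agent.HYG.Chn
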