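import Pool.Agent.HYG.CoreDefs

/-!
# Points of the hypersurface: kernel vectors
-/

set_option autoImplicit false

noncomputable section

namespace Pool.Agent.HYG

open Pool.Agent.ZCyc Pool.Agent.Dess Pool.Agent.GT Pool.Agent.TInc
open scoped Classical LinearAlgebra.Projectivization

variable {k : Type} [Field k] {m : ℕ}

/-- A vector of a subspace of `k ^ m` (`k` infinite) with all coordinates nonzero exists, if for every
coordinate there is a vector of the subspace for which it is nonzero: the subspace is not the
union of finitely many proper subspaces (`Subspace.biUnion_ne_univ_of_top_notMem` or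
`Submodule.iUnion_ne_univ_of_...`; or induction, adding a general multiple of the next vector). -/
theorem exists_all_ne [Infinite k] (V : Submodule k (Fin m → k)) (h : ∀ i, ∃ x ∈ V, x i ≠ 0) :
    ∃ x ∈ V, ∀ i, x i ≠ 0 := by
  have key : ∀ s : Finset (Fin m), ∃ x ∈ V, ∀ i ∈ s, x i ≠ 0 := by
    intro s
    induction s using Finset.induction_on with
    | empty => exact ⟨0, V.zero_mem, fun i hi => absurd hi (Finset.notMem_empty i)⟩
    | insert j s hj ih =>
      obtain ⟨x, hx, hxs⟩ := ih
      obtain ⟨y, hy, hyj⟩ := h j
      obtain ⟨c, hc⟩ := Infinite.exists_notMem_finset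
        ((insert j s).image fun i => -x i / y i)
      refine ⟨x + c • y, V.add_mem hx (V.smul_mem c hy), fun i hi h0 => ?_⟩
      rw [Pi.add_apply, Pi.smul_apply, smul_eq_mul] at h0
      by_cases hyi : y i = 0
      · rw [hyi, mul_zero, add_zero] at h0
        rcases Finset.mem_insert.1 hi with h1 | h1
        · rw [h1] at hyi
          exact hyj hyi
        · exact hxs i h1 h0
      · apply hc
        rw [Finset.mem_image]
        refine ⟨i, hi, ?_⟩
        rw [div_eq_iff hyi]
        linear_combination -h0
  obtain ⟨x, hx, hxs⟩ := key Finset.univ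
  exact ⟨x, hx, fun i => hxs i (Finset.mem_univ i)⟩

private theorem moveA_mulVec {K : Type} [Field K] [Algebra k K] (A : Matrix (Fin m) (Fin m) k)
    (μ : Fin m → K) (v : Fin m → K) (i : Fin m) :
    (matK A μ).mulVec v i = lin A v i - μ i * v i := by
  rw [matK, Matrix.sub_mulVec, Pi.sub_apply, Matrix.mulVec_diagonal]
  rfl

/-- If `det (A - diag μ) = 0` and all `μ_i ≠ 0` then either `μ = ν(x)` for an interior `x`, or there is a
coordinate `i` such that `det (A - diag μ)` is zero for all values of `μ_i`: if all vectors of the
kernel have `x_i = 0` then a vector `x ≠ 0` of the kernel remains in the kernel when `μ_i` is changed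
(also over an extension field). Use `exists_all_ne` for the kernel, `Matrix.exists_mulVec_eq_zero_iff`. -/
theorem kernel_or_free [Infinite k] {A : Matrix (Fin m) (Fin m) k} {μ : Fin m → k}
    (hμ : ∀ i, μ i ≠ 0) (h : (matK A μ).det = 0) :
    (∃ x : Fin m → k, Intr A x ∧ nu A x = μ) ∨
      ∃ i, ∀ (K : Type) [Field K] [Algebra k K] (s : K),
        (matK A (Function.update (fun j => algebraMap k K (μ j)) i s)).det = 0 := by
  obtain ⟨v, hv0, hv⟩ := Matrix.exists_mulVec_eq_zero_iff.2 h
  by_cases hall : ∀ i, ∃ x ∈ LinearMap.ker (matK A μ).mulVecLin, x i ≠ 0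
  · left
    obtain ⟨x, hx, hxi⟩ := exists_all_ne _ hall
    rw [LinearMap.mem_ker, Matrix.mulVecLin_apply] at hx
    have hl : ∀ i, lin A x i = μ i * x i := by
      intro i
      have h1 := congrFun hx i
      rw [moveA_mulVec, Pi.zero_apply] at h1
      exact sub_eq_zero.1 h1
    refine ⟨x, fun i => ⟨hxi i, ?_⟩, ?_⟩
    · rw [hl]
      exact mul_ne_zero (hμ i) (hxi i)
    · funext i
      rw [nu, hl, mul_div_assoc, div_self (hxi i), mul_one]
  · right
    push Not at hall
    obtain ⟨i, hi⟩ := hall
    have hvi : v i = 0 := hi v (by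
      rw [LinearMap.mem_ker, Matrix.mulVecLin_apply]
      exact hv)
    refine ⟨i, fun K _ _ s => ?_⟩
    refine Matrix.exists_mulVec_eq_zero_iff.1 ⟨fun j => algebraMap k K (v j), ?_, ?_⟩
    · intro h0
      apply hv0
      funext j
      have h1 := congrFun h0 j
      rw [Pi.zero_apply] at h1
      exact (map_eq_zero (algebraMap k K)).1 h1
    · funext j
      rw [moveA_mulVec, Pi.zero_apply]
      have h1 := congrFun hv j
      rw [moveA_mulVec, Pi.zero_apply] at h1
      have h2 : lin A (fun j => algebraMap k K (v j)) j = algebraMap k K (lin A v j) := by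
        simp only [lin, Matrix.mulVec, dotProduct, Matrix.map_apply, map_sum, map_mul,
          Algebra.algebraMap_self, RingHom.id_apply]
      rw [h2, sub_eq_zero.1 h1]
      by_cases hij : j = i
      · subst hij
        rw [hvi]
        simp
      · rw [Function.update_of_ne hij, map_mul, sub_self]

end Pool.Agent.HYG
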