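import Pool.Agent.HYG.Defs

/-!
# Class functions: boundary points, and the coordinates `μ`, `c`
-/

set_option autoImplicit false

noncomputable section

namespace Pool.Agent.HYG

open Pool.Agent.ZCyc Pool.Agent.Dess Pool.Agent.GT Pool.Agent.TInc
open scoped Classical LinearAlgebra.Projectivization

variable {k : Type} [Field k] [IsAlgClosed k] [CharZero k] {m : ℕ} {A A' : Matrix (Fin m) (Fin m) k}
  {M : Fin m → ℕ} {R W : Type} [Field R] [AddCommGroup W] [Module R W] {χ : Fin m → k → R}
  {E : (Fin m → Option k) → (Fin m → Option k) → W}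

omit [IsAlgClosed k] [CharZero k] in
private lemma bd_zero {a : R} {x : W} (ha : a ≠ 1) (h : x = a • x) : x = 0 := by
  have h1 : (a - 1) • x = 0 := by
    rw [sub_smul, ← h, one_smul, sub_self]
  exact (smul_eq_zero.1 h1).resolve_left (sub_ne_zero.2 ha)

omit [CharZero k] in
private lemma bd_rt {M : ℕ} (hM : 0 < M) (a : k) : rt M a ^ M = a := by
  have h : ∃ r : k, r ^ M = a := IsAlgClosed.exists_pow_nat_eq a hM
  unfold rt
  rw [dif_pos h]
  exact h.choose_spec

/-- the coordinates in `s` are multiplied by `u` -/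
private def bdS (s : Finset (Fin m)) (u : Fin m → k) (P : Fin m → Option k) : Fin m → Option k :=
  fun i => if i ∈ s then (P i).map fun w => u i * w else P i

omit [IsAlgClosed k] [CharZero k] in
private lemma bdS_empty (u : Fin m → k) (P : Fin m → Option k) : bdS ∅ u P = P := by
  funext i
  exact if_neg (Finset.notMem_empty i)

omit [IsAlgClosed k] [CharZero k] in
private lemma bdS_univ (u : Fin m → k) (P : Fin m → Option k) :
    bdS Finset.univ u P = fun i => (P i).map fun w => u i * w := by
  funext i
  exact if_pos (Finset.mem_univ i)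

omit [IsAlgClosed k] [CharZero k] in
private lemma bdS_insert (u : Fin m → k) (P : Fin m → Option k) {a : Fin m} {s : Finset (Fin m)}
    (ha : a ∉ s) : bdS (insert a s) u P = rot a (u a) (bdS s u P) := by
  funext i
  unfold rot
  by_cases hi : i = a
  · subst hi
    have h1 : bdS s u P i = P i := if_neg ha
    have h2 : bdS (insert i s) u P i = (P i).map fun w => u i * w :=
      if_pos (Finset.mem_insert_self i s)
    rw [Function.update_self, h1, h2]
  · rw [Function.update_of_ne hi]
    unfold bdS
    by_cases his : i ∈ s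
    · rw [if_pos his, if_pos (Finset.mem_insert_of_mem his)]
    · rw [if_neg his, if_neg (fun h => (Finset.mem_insert.1 h).elim hi his)]

/-- For `u` with `χ i u ≠ 1` the point `rot i u P` is equal to `P`, so `E P Q = χ i u • E P Q`. -/
theorem left_zero (hχ : Chars M χ) (hE : IsCls A A' M χ E) {P Q : Fin m → Option k} {i : Fin m}
    (h : P i = none ∨ P i = some 0) : E P Q = 0 := by
  obtain ⟨u, hu, hu1⟩ := hχ.nontriv i
  have h1 : rot i u P = P := by
    unfold rot
    rcases h with h | h
    · rw [h, Option.map_none, ← h, Function.update_eq_self]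
    · rw [h, Option.map_some, mul_zero, ← h, Function.update_eq_self]
  exact bd_zero hu1 (by rw [← hE.left P Q i u hu, h1])

theorem right_zero (hχ : Chars M χ) (hE : IsCls A A' M χ E) {P Q : Fin m → Option k} {i : Fin m}
    (h : Q i = none ∨ Q i = some 0) : E P Q = 0 := by
  obtain ⟨u, hu, hu1⟩ := hχ.nontriv i
  have h1 : rot i u Q = Q := by
    unfold rot
    rcases h with h | h
    · rw [h, Option.map_none, ← h, Function.update_eq_self]
    · rw [h, Option.map_some, mul_zero, ← h, Function.update_eq_self]
  exact bd_zero hu1 (by rw [← hE.right P Q i u hu, h1])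

/-- induction on the number of `i` with `u i ≠ 1` (`Chars.one`) -/
theorem left_all (hχ : Chars M χ) (hE : IsCls A A' M χ E) (P Q : Fin m → Option k) {u : Fin m → k}
    (hu : ∀ i, u i ^ M i = 1) :
    E (fun i => (P i).map fun w => u i * w) Q = (∏ i, χ i (u i)) • E P Q := by
  have key : ∀ s : Finset (Fin m), E (bdS s u P) Q = (∏ i ∈ s, χ i (u i)) • E P Q := by
    intro s
    induction s using Finset.induction_on with
    | empty => rw [bdS_empty, Finset.prod_empty, one_smul]
    | insert a s ha ih =>
      rw [bdS_insert u P ha, hE.left _ _ _ _ (hu a), ih, Finset.prod_insert ha, smul_smul]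
  have h1 := key Finset.univ
  rwa [bdS_univ] at h1

theorem right_all (hχ : Chars M χ) (hE : IsCls A A' M χ E) (P Q : Fin m → Option k) {u : Fin m → k}
    (hu : ∀ i, u i ^ M i = 1) :
    E P (fun i => (Q i).map fun w => u i * w) = (∏ i, χ i (u i)) • E P Q := by
  have key : ∀ s : Finset (Fin m), E P (bdS s u Q) = (∏ i ∈ s, χ i (u i)) • E P Q := by
    intro s
    induction s using Finset.induction_on with
    | empty => rw [bdS_empty, Finset.prod_empty, one_smul]
    | insert a s ha ih =>
      rw [bdS_insert u Q ha, hE.right _ _ _ _ (hu a), ih, Finset.prod_insert ha, smul_smul]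
  have h1 := key Finset.univ
  rwa [bdS_univ] at h1

/-- `χ i u * χ i u⁻¹ = 1` -/
theorem chars_inv (hχ : Chars M χ) (i : Fin m) (hM : 0 < M i) {u : k}
    (hu : u ^ M i = 1) :
    χ i u * χ i u⁻¹ = 1 := by
  have hu0 : u ≠ 0 := by
    rintro rfl
    rw [zero_pow hM.ne'] at hu
    exact zero_ne_one hu
  rw [← hχ.mul i u u⁻¹ hu (by rw [inv_pow, hu, inv_one]), mul_inv_cancel₀ hu0, hχ.one]

/-- The class depends only on the `μ_i` and `c_i`: `w_i = u_i rt (μ_i)` with `u_i ^ M i = 1`, so
`c_i / w_i = u_i⁻¹ (c_i / rt (μ_i))`. -/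
theorem desc_eq (hM : ∀ i, 0 < M i) (hχ : Chars M χ) (hE : IsCls A A' M χ E)
    {μ c w : Fin m → k} (hw : ∀ i, w i ^ M i = μ i) (hμ : ∀ i, μ i ≠ 0) :
    E (fun i => some (w i)) (fun i => some (c i / w i)) = desc M E μ c := by
  have hr : ∀ i, rt (M i) (μ i) ^ M i = μ i := fun i => bd_rt (hM i) _
  have hr0 : ∀ i, rt (M i) (μ i) ≠ 0 := by
    intro i h
    apply hμ i
    rw [← hr i, h, zero_pow (hM i).ne']
  have hw0 : ∀ i, w i ≠ 0 := by
    intro i h
    apply hμ i
    rw [← hw i, h, zero_pow (hM i).ne']
  have hu : ∀ i, (w i / rt (M i) (μ i)) ^ M i = 1 := by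
    intro i
    rw [div_pow, hw, hr, div_self (hμ i)]
  have hu' : ∀ i, (w i / rt (M i) (μ i))⁻¹ ^ M i = 1 := by
    intro i
    rw [inv_pow, hu, inv_one]
  have e1 : (fun i => some (w i)) = fun i => (some (rt (M i) (μ i))).map fun a =>
      w i / rt (M i) (μ i) * a := by
    funext i
    rw [Option.map_some, div_mul_cancel₀ _ (hr0 i)]
  have e2 : (fun i => some (c i / w i)) = fun i => (some (c i / rt (M i) (μ i))).map fun a =>
      (w i / rt (M i) (μ i))⁻¹ * a := by
    funext i
    rw [Option.map_some]
    congr 1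
    have h1 := hr0 i
    have h2 := hw0 i
    field_simp
  rw [e1, e2]
  have h1 := left_all hχ hE (fun i => some (rt (M i) (μ i)))
    (fun i => (some (c i / rt (M i) (μ i))).map fun a => (w i / rt (M i) (μ i))⁻¹ * a) hu
  have h2 := right_all hχ hE (fun i => some (rt (M i) (μ i)))
    (fun i => some (c i / rt (M i) (μ i))) hu'
  rw [h1, h2, smul_smul, ← Finset.prod_mul_distrib, Finset.prod_eq_one, one_smul]
  · rfl
  · intro i _
    exact chars_inv hχ i (hM i) (hu i)

/-- multiplication of `c i` by a root of unity -/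
theorem desc_tw (hχ : Chars M χ) (hE : IsCls A A' M χ E) (μ c : Fin m → k) (i : Fin m) {u : k}
    (hu : u ^ M i = 1) :
    desc M E μ (Function.update c i (u * c i)) = χ i u • desc M E μ c := by
  have h1 : (fun j => some (Function.update c i (u * c i) j / rt (M j) (μ j))) =
      rot i u fun j => some (c j / rt (M j) (μ j)) := by
    funext j
    unfold rot
    by_cases hj : j = i
    · subst hj
      rw [Function.update_self, Function.update_self, Option.map_some, mul_div_assoc]
    · rw [Function.update_of_ne hj, Function.update_of_ne hj]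
  unfold desc
  rw [h1, hE.right _ _ _ _ hu]

/-- The exchange of the two points, for a class function `E` for `(A, A')`: `E' P Q = E Q P` is a class
function for `(A', A)`. -/
theorem isCls_swap (hE : IsCls A A' M χ E) : IsCls A' A M χ fun P Q => E Q P :=
  ⟨fun K _ _ hK w w' f hf h h' => hE.rel K hK w' w f hf h' h, fun P Q i u hu => hE.right Q P i u hu,
    fun P Q i u hu => hE.left Q P i u hu⟩

/-- linear combinations of class functions -/
theorem isCls_sub {E' : (Fin m → Option k) → (Fin m → Option k) → W} (hE : IsCls A A' M χ E)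
    (hE' : IsCls A A' M χ E') (a : R) : IsCls A A' M χ fun P Q => E P Q - a • E' P Q := by
  refine ⟨fun K _ _ hK w w' f hf h h' => ?_, fun P Q i u hu => ?_, fun P Q i u hu => ?_⟩
  · have h1 := hE.rel K hK w w' f hf h h'
    have h2 := hE'.rel K hK w w' f hf h h'
    rw [Finsupp.sum] at h1 h2 ⊢
    have h3 : ∀ v ∈ (dv hK f).support,
        (dv hK f) v • (E (fun i => vl v (w i)) (fun i => vl v (w' i)) -
          a • E' (fun i => vl v (w i)) (fun i => vl v (w' i))) =
        (dv hK f) v • E (fun i => vl v (w i)) (fun i => vl v (w' i)) -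
          a • ((dv hK f) v • E' (fun i => vl v (w i)) (fun i => vl v (w' i))) := by
      intro v _
      rw [smul_sub, smul_comm a]
    rw [Finset.sum_congr rfl h3, Finset.sum_sub_distrib, ← Finset.smul_sum, h1, h2, smul_zero,
      sub_zero]
  · show E (rot i u P) Q - a • E' (rot i u P) Q = χ i u • (E P Q - a • E' P Q)
    rw [hE.left P Q i u hu, hE'.left P Q i u hu, smul_sub, smul_comm a]
  · show E P (rot i u Q) - a • E' P (rot i u Q) = χ i u • (E P Q - a • E' P Q)
    rw [hE.right P Q i u hu, hE'.right P Q i u hu, smul_sub, smul_comm a]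

/-- The exchange of the two points: `w'_i = c_i / w_i` has `w'_i ^ M i = c_i ^ M i / μ_i`, and
`c_i / w'_i = w_i`. -/
theorem desc_snd (hM : ∀ i, 0 < M i) (hχ : Chars M χ) (hE : IsCls A A' M χ E)
    {μ c w : Fin m → k} (hw : ∀ i, w i ^ M i = μ i) (hμ : ∀ i, μ i ≠ 0) (hc : ∀ i, c i ≠ 0) :
    E (fun i => some (c i / w i)) (fun i => some (w i)) = desc M E (snd M μ c) c := by
  have hw0 : ∀ i, w i ≠ 0 := by
    intro i h
    apply hμ i
    rw [← hw i, h, zero_pow (hM i).ne']
  have h1 := desc_eq hM hχ hE (μ := snd M μ c) (c := c)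
    (w := fun i => c i / w i) (fun i => by
      unfold snd
      rw [div_pow, hw]) (fun i => div_ne_zero (pow_ne_zero _ (hc i)) (hμ i))
  rw [← h1]
  congr 1
  funext i
  congr 1
  have h2 := hw0 i
  have h3 := hc i
  field_simp

end Pool.Agent.HYG
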