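import Pool.Agent.HYG.Defs

/-!
# Points of projective space and points of the hypersurface
-/

set_option autoImplicit false

noncomputable section

namespace Pool.Agent.HYG

open Pool.Agent.ZCyc Pool.Agent.Dess Pool.Agent.GT Pool.Agent.TInc
open scoped Classical LinearAlgebra.Projectivization

variable {k : Type} [Field k] {m : ℕ} {K : Type} [Field K] [Algebra k K]

/-- the linear forms `a_i(x)` -/
def lin (A : Matrix (Fin m) (Fin m) k) (x : Fin m → K) : Fin m → K :=
  (A.map (algebraMap k K)).mulVec x

/-- `ν_i(x) = a_i(x) / x_i` -/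
def nu (A : Matrix (Fin m) (Fin m) k) (x : Fin m → K) : Fin m → K := fun i => lin A x i / x i

/-- all coordinates and all `a_i(x)` are different from zero -/
def Intr (A : Matrix (Fin m) (Fin m) k) (x : Fin m → K) : Prop := ∀ i, x i ≠ 0 ∧ lin A x i ≠ 0

/-- the curve `x_i + T` for `i < n`, `x_n + T ^ 2` -/
def path {n : ℕ} (x : Fin (n + 1) → k) (T : K) : Fin (n + 1) → K :=
  fun i => algebraMap k K (x i) + if i = Fin.last n then T ^ 2 else T

/-- the last row and the last column have no zero entry -/
def LastNZ {n : ℕ} (A : Matrix (Fin (n + 1)) (Fin (n + 1)) k) : Prop :=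
  ∀ j, A (Fin.last n) j ≠ 0 ∧ A j (Fin.last n) ≠ 0

end Pool.Agent.HYG
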