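import Pool.Agent.HYG.Val
import Pool.Agent.HYG.Bd
import Pool.Agent.HYG.Roots
import Pool.Agent.HYG.CoreDefs

/-!
# Points with a free coordinate
-/

set_option autoImplicit false

noncomputable section

namespace Pool.Agent.HYG

open Pool.Agent.ZCyc Pool.Agent.Dess Pool.Agent.GT Pool.Agent.TInc
open scoped Classical LinearAlgebra.Projectivization

variable {k : Type} [Field k] [IsAlgClosed k] [CharZero k] {m : ℕ} {A A' : Matrix (Fin m) (Fin m) k}
  {M : Fin m → ℕ} {R W : Type} [Field R] [CharZero R] [AddCommGroup W] [Module R W]
  {χ : Fin m → k → R} {E : (Fin m → Option k) → (Fin m → Option k) → W}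

/-- If the coordinate `i` of the point `w` is free then the class is zero. Take the rational function
field `K = k(t)` (`isCurve_ratFunc`), `w_i(t) = t`, the other coordinates and the second point constant, and
`f = t - w_i`: it has a simple zero at `t = w_i`, where the value of `E` is `E P Q`; its other zeros
and poles: only `t = ∞`, where `w_i(t)` has the value `∞` and `E` is zero (`left_zero`). Simplest:
all places `v` with `ord v f ≠ 0` have `vl v t = some (w i)` or `none`, and the sum of the orders over
the first ones is positive (`f` is not constant; the sum of all orders is zero and a function without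
zeros is constant). -/
theorem free_left (hM : ∀ i, 0 < M i) (hχ : Chars M χ) (hE : IsCls A A' M χ E) {w w' : Fin m → k}
    {i : Fin m} (hw' : (matK A' fun j => w' j ^ M j).det = 0)
    (h : ∀ (K : Type) [Field K] [Algebra k K] (s : K),
      (matK A (Function.update (fun j => algebraMap k K (w j ^ M j)) i s)).det = 0) :
    E (fun j => some (w j)) (fun j => some (w' j)) = 0 := by
  have hK : IsCurve k (RatFunc k) := isCurve_ratFunc
  set t : RatFunc k := RatFunc.X with ht
  have htr : Transcendental k t := RatFunc.transcendental_X
  have hf0 : t - algebraMap k (RatFunc k) (w i) ≠ 0 := by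
    intro h0
    apply htr
    rw [sub_eq_zero.1 h0]
    exact isAlgebraic_algebraMap _
  set W1 : Fin m → RatFunc k := Function.update (fun j => algebraMap k (RatFunc k) (w j)) i t
    with hW1
  have hd1 : (matK A fun j => W1 j ^ M j).det = 0 := by
    have e : (fun j => W1 j ^ M j) =
        Function.update (fun j => algebraMap k (RatFunc k) (w j ^ M j)) i (t ^ M i) := by
      funext j
      by_cases hj : j = i
      · subst hj
        rw [hW1, Function.update_self, Function.update_self]
      · rw [hW1, Function.update_of_ne hj, Function.update_of_ne hj, map_pow]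
    rw [e]
    exact h _ _
  have hd2 : (matK A' fun j => algebraMap k (RatFunc k) (w' j) ^ M j).det = 0 := by
    have e : matK A' (fun j => algebraMap k (RatFunc k) (w' j) ^ M j) =
        (algebraMap k (RatFunc k)).mapMatrix (matK A' fun j => w' j ^ M j) := by
      ext a b
      simp only [matK, Matrix.sub_apply, Matrix.map_apply, RingHom.mapMatrix_apply,
        Algebra.algebraMap_self, RingHom.id_apply, map_sub, Matrix.diagonal_apply]
      split_ifs <;> simp
    rw [e, ← RingHom.map_det, hw', map_zero]
  have h1 := hE.rel (RatFunc k) hK W1 (fun j => algebraMap k (RatFunc k) (w' j))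
    (t - algebraMap k (RatFunc k) (w i)) hf0 hd1 hd2
  set e0 := E (fun j => some (w j)) (fun j => some (w' j)) with he0
  -- the value of `E` at a place
  have hval : ∀ v : Place k (RatFunc k), ∀ c : k, v.At t c → c = w i →
      E (fun j => vl v (W1 j)) (fun j => vl v (algebraMap k (RatFunc k) (w' j))) = e0 := by
    intro v c hv hc
    rw [he0]
    congr 1
    · funext j
      by_cases hj : j = i
      · subst hj
        rw [hW1, Function.update_self, vl_of_at hv, hc]
      · rw [hW1, Function.update_of_ne hj]
        exact vl_const _
    · funext j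
      exact vl_const _
  have hterm : ∀ v ∈ (dv hK (t - algebraMap k (RatFunc k) (w i))).support,
      dv hK (t - algebraMap k (RatFunc k) (w i)) v •
        E (fun j => vl v (W1 j)) (fun j => vl v (algebraMap k (RatFunc k) (w' j))) =
      (if v.At t (w i) then dv hK (t - algebraMap k (RatFunc k) (w i)) v else 0) • e0 := by
    intro v hv
    rw [Finsupp.mem_support_iff] at hv
    by_cases hmem : t ∈ v.ring
    · obtain ⟨c, hc⟩ := exists_at hK v hmem
      have hcw : c = w i := by
        by_contra hne
        apply hv
        exact ord_of_at hK (hc.sub (Place.at_const (w i))) (sub_ne_zero.2 hne)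
      rw [hval v c hc hcw, if_pos (hcw ▸ hc)]
    · have hn : vl v t = none := (vl_none_iff hK).2 hmem
      rw [if_neg (fun h2 => hmem h2.mem), zero_smul, left_zero hχ hE (i := i), smul_zero]
      left
      rw [hW1, Function.update_self, hn]
  rw [Finsupp.sum, Finset.sum_congr rfl hterm, ← Finset.sum_smul] at h1
  have hnn : ∀ v ∈ (dv hK (t - algebraMap k (RatFunc k) (w i))).support, 0 ≤
      if v.At t (w i) then dv hK (t - algebraMap k (RatFunc k) (w i)) v else 0 := by
    intro v _
    split_ifs with h2
    · exact ((vanishes_iff_ord hK hf0).1 h2).le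
    · exact le_rfl
  obtain ⟨u, hu⟩ := exists_place htr (w i)
  have hu1 : 0 < ord u (t - algebraMap k (RatFunc k) (w i)) := (vanishes_iff_ord hK hf0).1 hu
  have hpos : 0 < ∑ v ∈ (dv hK (t - algebraMap k (RatFunc k) (w i))).support,
      (if v.At t (w i) then dv hK (t - algebraMap k (RatFunc k) (w i)) v else 0) := by
    apply Finset.sum_pos' hnn
    refine ⟨u, Finsupp.mem_support_iff.2 hu1.ne', ?_⟩
    rw [if_pos hu]
    exact hu1
  rw [← Int.cast_smul_eq_zsmul R] at h1
  exact (smul_eq_zero.1 h1).resolve_left (Int.cast_ne_zero.2 hpos.ne')

/-- the same for the second point (`isCls_swap`) -/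
theorem free_right (hM : ∀ i, 0 < M i) (hχ : Chars M χ) (hE : IsCls A A' M χ E) {w w' : Fin m → k}
    {i : Fin m} (hw : (matK A fun j => w j ^ M j).det = 0)
    (h : ∀ (K : Type) [Field K] [Algebra k K] (s : K),
      (matK A' (Function.update (fun j => algebraMap k K (w' j ^ M j)) i s)).det = 0) :
    E (fun j => some (w j)) (fun j => some (w' j)) = 0 :=
  free_left hM hχ (isCls_swap hE) hw h

end Pool.Agent.HYG
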