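import Pool.Agent.HYG.SwapI
import Pool.Agent.HYG.MoveA
import Pool.Agent.HYG.MoveB

/-!
# Exchange of two points
-/

set_option autoImplicit false

noncomputable section

namespace Pool.Agent.HYG

open Pool.Agent.ZCyc Pool.Agent.Dess Pool.Agent.GT Pool.Agent.TInc
open scoped Classical LinearAlgebra.Projectivization

variable {k : Type} [Field k] [IsAlgClosed k] [CharZero k] {n : ℕ}
  {A : Matrix (Fin (n + 1)) (Fin (n + 1)) k} {M : Fin (n + 1) → ℕ} {R W : Type} [Field R]
  [CharZero R] [AddCommGroup W] [Module R W] {χ : Fin (n + 1) → k → R}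
  {E : (Fin (n + 1) → Option k) → (Fin (n + 1) → Option k) → W}

omit [IsAlgClosed k] [CharZero k] in
private theorem swapAll_mat (w : Fin (n + 1) → k) :
    mat A M (fun i => some (w i)) = matK A fun i => w i ^ M i := by
  ext i j
  simp only [mat, matK, Matrix.sub_apply, Matrix.map_apply, Matrix.diagonal_apply,
    Algebra.algebraMap_self, RingHom.id_apply]

omit [IsAlgClosed k] [CharZero k] in
private theorem swapAll_pt {P : Fin (n + 1) → Option k}
    (h : ¬ ∃ i, P i = none ∨ P i = some 0) :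
    ∃ w : Fin (n + 1) → k, P = (fun i => some (w i)) ∧ ∀ i, w i ≠ 0 := by
  have h1 : ∀ i, ∃ a : k, P i = some a ∧ a ≠ 0 := by
    intro i
    rcases hp : P i with _ | a
    · exact absurd ⟨i, Or.inl hp⟩ h
    · refine ⟨a, rfl, ?_⟩
      rintro rfl
      exact h ⟨i, Or.inr hp⟩
  choose w hw hw0 using h1
  exact ⟨w, funext hw, hw0⟩

/-- If a coordinate of `P` or `Q` is `0` or `∞` then both sides are zero (`left_zero`,
`right_zero`). Otherwise `P = some ∘ w`, `Q = some ∘ w'`, and `mat A M P = matK A (w ^ M)`; use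
`kernel_or_free` for both points, and `free_left`, `free_right` or `swap_intr`. -/
theorem swap_last (hA : LastNZ A) (hM : ∀ i, 0 < M i) (hχ : Chars M χ) (hE : IsCls A A M χ E)
    {P Q : Fin (n + 1) → Option k} (hP : OnY A M P) (hQ : OnY A M Q) :
    E Q P = (-1 : R) ^ n • E P Q := by
  by_cases h1 : ∃ i, P i = none ∨ P i = some 0
  · obtain ⟨i, hi⟩ := h1
    rw [left_zero hχ hE (P := P) (Q := Q) hi, right_zero hχ hE (P := Q) (Q := P) hi, smul_zero]
  by_cases h2 : ∃ i, Q i = none ∨ Q i = some 0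
  · obtain ⟨i, hi⟩ := h2
    rw [left_zero hχ hE (P := Q) (Q := P) hi, right_zero hχ hE (P := P) (Q := Q) hi, smul_zero]
  obtain ⟨w, rfl, hw⟩ := swapAll_pt h1
  obtain ⟨w', rfl, hw'⟩ := swapAll_pt h2
  have hP' : (matK A fun i => w i ^ M i).det = 0 := by
    rw [← swapAll_mat]
    exact hP
  have hQ' : (matK A fun i => w' i ^ M i).det = 0 := by
    rw [← swapAll_mat]
    exact hQ
  rcases kernel_or_free (fun i => pow_ne_zero (M i) (hw i)) hP' with ⟨x, hx, hx'⟩ | ⟨i, hi⟩
  · rcases kernel_or_free (fun i => pow_ne_zero (M i) (hw' i)) hQ' with ⟨y, hy, hy'⟩ | ⟨i, hi⟩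
    · exact swap_intr hA hM hχ hE hx hy (fun i => (congrFun hx' i).symm)
        fun i => (congrFun hy' i).symm
    · rw [free_right hM hχ hE hP' hi, free_left hM hχ hE hP' hi, smul_zero]
  · rw [free_right hM hχ hE hQ' hi, free_left hM hχ hE hQ' hi, smul_zero]

/-- **Exchange of two points.** Let `σ` be the transposition of `i₀` and `n`. `swap_last` for the
matrix `A (σ i) (σ j)`, the exponents `M ∘ σ`, the characters `χ ∘ σ` and the class function
`E' P Q = E (P ∘ σ⁻¹) (Q ∘ σ⁻¹)` (`Matrix.det_submatrix_equiv_self`). -/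
theorem swap_all {i₀ : Fin (n + 1)} (hA : ∀ j, A i₀ j ≠ 0 ∧ A j i₀ ≠ 0) (hM : ∀ i, 0 < M i)
    (hχ : Chars M χ) (hE : IsCls A A M χ E) {P Q : Fin (n + 1) → Option k} (hP : OnY A M P)
    (hQ : OnY A M Q) : E Q P = (-1 : R) ^ n • E P Q := by
  obtain ⟨σ, hσ⟩ : ∃ σ : Equiv.Perm (Fin (n + 1)), σ (Fin.last n) = i₀ :=
    ⟨Equiv.swap i₀ (Fin.last n), Equiv.swap_apply_right _ _⟩
  have hA' : LastNZ (A.submatrix σ σ) := by
    intro j
    rw [Matrix.submatrix_apply, Matrix.submatrix_apply, hσ]
    exact hA (σ j)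
  have hχ' : Chars (fun i => M (σ i)) fun i => χ (σ i) :=
    ⟨fun i => hχ.mul (σ i), fun i => hχ.nontriv (σ i), fun i => hχ.one (σ i)⟩
  have hmat : ∀ (K : Type) [Field K] [Algebra k K] (w : Fin (n + 1) → K),
      (matK (A.submatrix σ σ) fun i => w i ^ M (σ i)).det = 0 →
      (matK A fun i => w (σ.symm i) ^ M i).det = 0 := by
    intro K _ _ w h
    rw [← Matrix.det_submatrix_equiv_self σ]
    convert h using 2
    ext i j
    simp only [matK, Matrix.submatrix_apply, Matrix.sub_apply, Matrix.map_apply,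
      Matrix.diagonal_apply, Equiv.symm_apply_apply, σ.injective.eq_iff]
  have hrot : ∀ (P : Fin (n + 1) → Option k) i (u : k),
      (fun j => rot i u P (σ.symm j)) = rot (σ i) u fun j => P (σ.symm j) := by
    intro P i u
    funext j
    unfold rot
    by_cases hj : j = σ i
    · subst hj
      rw [Equiv.symm_apply_apply, Function.update_self, Function.update_self]
      simp only [Equiv.symm_apply_apply]
    · have hj' : σ.symm j ≠ i := fun h => hj (by rw [← h, Equiv.apply_symm_apply])
      rw [Function.update_of_ne hj', Function.update_of_ne hj]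
  have hE' : IsCls (A.submatrix σ σ) (A.submatrix σ σ) (fun i => M (σ i)) (fun i => χ (σ i))
      fun P Q => E (fun i => P (σ.symm i)) fun i => Q (σ.symm i) := by
    refine ⟨fun K _ _ hK w w' f hf h h' => ?_, fun P Q i u hu => ?_, fun P Q i u hu => ?_⟩
    · exact hE.rel K hK (fun i => w (σ.symm i)) (fun i => w' (σ.symm i)) f hf
        (hmat K w h) (hmat K w' h')
    · simp only [hrot]
      exact hE.left _ _ _ _ hu
    · simp only [hrot]
      exact hE.right _ _ _ _ hu
  have hOn : ∀ P : Fin (n + 1) → Option k, OnY A M P →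
      OnY (A.submatrix σ σ) (fun i => M (σ i)) fun i => P (σ i) := by
    intro P h
    unfold OnY at h ⊢
    have h2 := Matrix.det_submatrix_equiv_self σ (mat A M P)
    rw [h] at h2
    rw [← h2]
    congr 1
    ext i j
    simp only [mat, Matrix.submatrix_apply, σ.injective.eq_iff]
  have h1 := swap_last hA' (fun i => hM (σ i)) hχ' hE' (hOn P hP) (hOn Q hQ)
  simp only [Equiv.apply_symm_apply] at h1
  exact h1

end Pool.Agent.HYG
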