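import Pool.Agent.HYG.CKer
import Pool.Agent.GT.Mov
import Pool.Agent.ZCyc.Places

/-!
# Project HYG, block C: places of `Om k`

`Om k` is the algebraic closure of `k(t)`, `t = tt k`; the residue fields of its places are `k`
(`GT.HasRes`).

* `exists_place_tt`: for example `TInc.exists_above` for the subfield `k(t)` and its place
  `t = c`, or a valuation ring dominating the localisation of `k[t]` (see the other folders, e.g.
  `exists_place`).
* `at_root`: if `f` had a pole then `f ^ M` had a pole. The value `r` of `f` has `r ^ M = c`.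
* `exists_root_om`: `Om k` is algebraically closed.
* `root_limit`: `f` has a value `r`, `r ^ M = c ^ M`; take `u = c / r` (or `u = 1` if `c = 0`).
* `none_of_pow`: if `f ^ M` has a pole then `f` has a pole.
* `at_ratio`: `At.div`. `none_ratio`: the inverse vanishes.
* `at_det`: determinants are polynomials in the entries (`Matrix.det_apply`, `At.sum`, `At.prod`).
-/

set_option autoImplicit false

noncomputable section

namespace Pool.Agent.HYG

open Pool.Agent.ZCyc Pool.Agent.Dess Pool.Agent.GT Pool.Agent.TInc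
open Pool.Agent.VFP (Om tt)
open scoped Classical

variable {k : Type} [Field k] [IsAlgClosed k] [CharZero k]

private lemma tt_transc_CVal : Transcendental k (tt k) := by
  have h1 : Transcendental k (RatFunc.X : RatFunc k) := by
    rw [← RatFunc.algebraMap_X]
    exact (transcendental_algebraMap_iff (IsFractionRing.injective (Polynomial k) _)).2
      (Polynomial.transcendental_X k)
  exact (transcendental_algebraMap_iff (algebraMap (RatFunc k) (Om k)).injective).2 h1

/-- a place above every value of `t` -/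
theorem exists_place_tt (c : k) : ∃ v : Place k (Om k), v.At (tt k) c :=
  ZCyc.exists_place tt_transc_CVal c

theorem vl_none_om {v : Place k (Om k)} {f : Om k} : vl v f = none ↔ f ∉ v.ring := by
  rw [vl_none]
  constructor
  · intro h hf
    obtain ⟨c, hc⟩ := HasRes.res v f hf
    exact h c hc
  · intro h c hc
    exact h hc.mem

/-- the value of an `M`-th root -/
theorem at_root {v : Place k (Om k)} {f : Om k} {M : ℕ} (hM : 0 < M) {c : k}
    (h : v.At (f ^ M) c) : ∃ r : k, r ^ M = c ∧ v.At f r := by
  have hf : f ∈ v.ring := by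
    by_contra hf
    have h1 : v.Vanishes f⁻¹ := (v.vanishes_iff_or _).2 (Or.inr (by rwa [inv_inv]))
    have h2 : v.Vanishes (f ^ M)⁻¹ := by
      rw [← inv_pow]
      exact h1.pow v hM.ne'
    rcases (v.vanishes_iff_or _).1 h2 with h3 | h3
    · have h4 : f = 0 := by
        by_contra h5
        exact inv_ne_zero (pow_ne_zero M h5) h3
      exact hf (h4 ▸ zero_mem v.ring)
    · rw [inv_inv] at h3
      exact h3 h.mem
  obtain ⟨r, hr⟩ := HasRes.res v f hf
  exact ⟨r, (hr.pow M).unique h, hr⟩

/-- if `f ^ M` has the value `c ^ M` then `f` has the value `u * c` with a root of unity `u` -/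
theorem root_limit {v : Place k (Om k)} {f : Om k} {M : ℕ} (hM : 0 < M) {c : k}
    (h : v.At (f ^ M) (c ^ M)) : ∃ u : k, u ^ M = 1 ∧ v.At f (u * c) := by
  obtain ⟨r, hr, hfr⟩ := at_root hM h
  by_cases hc : c = 0
  · refine ⟨1, one_pow M, ?_⟩
    rw [hc, zero_pow hM.ne'] at hr
    rw [hc, mul_zero, ← eq_zero_of_pow_eq_zero hr]
    exact hfr
  · refine ⟨r / c, ?_, ?_⟩
    · rw [div_pow, hr, div_self (pow_ne_zero M hc)]
    · rwa [div_mul_cancel₀ r hc]

theorem none_of_pow {v : Place k (Om k)} {f : Om k} {M : ℕ} (hM : 0 < M)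
    (h : f ^ M ∉ v.ring) : vl v f = none := by
  rw [vl_none_om]
  intro hf
  exact h (pow_mem hf M)

theorem none_ratio {v : Place k (Om k)} {f g : Om k} {c : k} (hf : v.At f c) (hc : c ≠ 0)
    (hg : v.Vanishes g) (hg0 : g ≠ 0) : f / g ∉ v.ring := by
  have hf0 : f ≠ 0 := by
    rintro rfl
    have h1 : v.At (0 : Om k) 0 := Place.at_zero_iff.2 v.vanishes_zero
    exact hc (hf.unique h1)
  have h1 : v.Vanishes (g / f) := by
    rw [div_eq_mul_inv]
    exact hg.mul v (hf.inv hc).mem
  rcases (v.vanishes_iff_or _).1 h1 with h2 | h2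
  · exact absurd h2 (div_ne_zero hg0 hf0)
  · rwa [inv_div] at h2

/-- `Om k` is algebraically closed -/
theorem exists_root_om {M : ℕ} (hM : 0 < M) (f : Om k) : ∃ r : Om k, r ^ M = f :=
  IsAlgClosed.exists_pow_nat_eq f hM

/-- values of determinants -/
theorem at_det {v : Place k (Om k)} {ι : Type} [Fintype ι] [DecidableEq ι] {B : Matrix ι ι (Om k)}
    {B' : Matrix ι ι k} (h : ∀ i j, v.At (B i j) (B' i j)) : v.At B.det B'.det := by
  rw [Matrix.det_apply', Matrix.det_apply']
  refine Place.At.sum fun σ _ => ?_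
  refine Place.At.mul ?_ (Place.At.prod fun i _ => h _ _)
  have h1 := Place.at_const (v := v) (((Equiv.Perm.sign σ : ℤˣ) : ℤ) : k)
  rwa [map_intCast] at h1

private lemma at_matK_CVal {ι : Type} [DecidableEq ι] {A : Matrix ι ι k} {v : Place k (Om k)}
    {μ : ι → Om k} {c : ι → k} {i j : ι} (h : i = j → v.At (μ i) (c i)) :
    v.At (matK A μ i j) (matK A c i j) := by
  unfold matK
  rw [Matrix.sub_apply, Matrix.sub_apply, Matrix.map_apply, Matrix.map_apply]
  refine Place.At.sub (Place.at_const _) ?_
  by_cases hij : i = j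
  · subst hij
    rw [Matrix.diagonal_apply_eq, Matrix.diagonal_apply_eq]
    exact h rfl
  · rw [Matrix.diagonal_apply_ne _ hij, Matrix.diagonal_apply_ne _ hij]
    exact Place.at_zero_iff.2 v.vanishes_zero

/-- values of the equations -/
theorem onK_at {X : Dat k} {v : Place k (Om k)} {w : Fin X.N → Om k} (hw : OnK X w)
    {c : Fin X.N → k} (hc : ∀ i, v.At (w i) (c i)) : OnK X c := by
  intro b
  have h1 : v.At (Matrix.toSquareBlock (matK X.A fun i => w i ^ X.M i) X.β b).det
      (Matrix.toSquareBlock (matK X.A fun i => c i ^ X.M i) X.β b).det :=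
    at_det fun i j => at_matK_CVal fun _ => (hc _).pow _
  rw [hw b] at h1
  have h2 : v.At (0 : Om k) 0 := Place.at_zero_iff.2 v.vanishes_zero
  exact h1.unique h2

/-- values of the minors -/
theorem at_mnr {X : Dat k} {v : Place k (Om k)} {b : Fin X.n} {j : Fin X.N} {μ : Fin X.N → Om k}
    {c : Fin X.N → k} (hc : ∀ i, X.β i = b → i ≠ j → v.At (μ i) (c i)) :
    v.At (mnr X b j μ) (mnr X b j c) := by
  unfold mnr
  exact at_det fun p p' => at_matK_CVal fun _ => hc _ p.2.1 p.2.2

private lemma at_eval_CVal {v : Place k (Om k)} {p : Polynomial (Om k)} {q : Polynomial k}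
    (h : ∀ n, v.At (p.coeff n) (q.coeff n)) (c : k) :
    v.At (p.eval (algebraMap k (Om k) c)) (q.eval c) := by
  have hp : p.natDegree < max p.natDegree q.natDegree + 1 := by omega
  have hq : q.natDegree < max p.natDegree q.natDegree + 1 := by omega
  rw [Polynomial.eval_eq_sum_range' hp, Polynomial.eval_eq_sum_range' hq]
  exact Place.At.sum fun i _ => (h i).mul ((Place.at_const c).pow i)

/-- the factors of the quotient of two values of a polynomial -/
private lemma factor_CVal {v : Place k (Om k)} {c c' : k} {r : Om k} (h : ¬ v.At r c)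
    (h' : ¬ v.At r c') : ∃ d : k, d ≠ 0 ∧
      v.At ((algebraMap k (Om k) c - r) / (algebraMap k (Om k) c' - r)) d := by
  by_cases hr : r ∈ v.ring
  · obtain ⟨e, he⟩ := HasRes.res v r hr
    have h1 : c - e ≠ 0 := fun h0 => h (by rwa [sub_eq_zero.1 h0])
    have h2 : c' - e ≠ 0 := fun h0 => h' (by rwa [sub_eq_zero.1 h0])
    exact ⟨(c - e) / (c' - e), div_ne_zero h1 h2,
      ((Place.at_const c).sub he).div ((Place.at_const c').sub he) h2⟩
  · have hr0 : r ≠ 0 := by
      rintro rfl
      exact hr (zero_mem v.ring)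
    have h1 : v.At r⁻¹ 0 :=
      Place.at_zero_iff.2 ((v.vanishes_iff_or _).2 (Or.inr (by rwa [inv_inv])))
    have h2 : ∀ a : k, v.At (algebraMap k (Om k) a * r⁻¹ - 1) (-1) := by
      intro a
      have h3 := ((Place.at_const (v := v) a).mul h1).sub (Place.at_const (v := v) (1 : k))
      rw [mul_zero, zero_sub, map_one] at h3
      exact h3
    have h4 := (h2 c).div (h2 c') (neg_ne_zero.2 one_ne_zero)
    refine ⟨-1 / -1, div_ne_zero (neg_ne_zero.2 one_ne_zero) (neg_ne_zero.2 one_ne_zero), ?_⟩
    have h5 : ∀ a : k, algebraMap k (Om k) a - r = (algebraMap k (Om k) a * r⁻¹ - 1) * r := by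
      intro a
      rw [sub_mul, mul_assoc, inv_mul_cancel₀ hr0, mul_one, one_mul]
    rw [h5 c, h5 c', mul_div_mul_right _ _ hr0]
    exact h4

private lemma prod_CVal {v : Place k (Om k)} {f : Om k → Om k} (s : Multiset (Om k))
    (h : ∀ r ∈ s, ∃ d : k, d ≠ 0 ∧ v.At (f r) d) : ∃ d : k, d ≠ 0 ∧ v.At (s.map f).prod d := by
  induction s using Multiset.induction_on with
  | empty =>
    refine ⟨1, one_ne_zero, ?_⟩
    have h1 := Place.at_const (v := v) (1 : k)
    rw [map_one] at h1
    rwa [Multiset.map_zero, Multiset.prod_zero]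
  | cons a s ih =>
    obtain ⟨d, hd, h1⟩ := ih fun r hr => h r (Multiset.mem_cons_of_mem hr)
    obtain ⟨d', hd', h2⟩ := h a (Multiset.mem_cons_self a s)
    refine ⟨d' * d, mul_ne_zero hd' hd, ?_⟩
    rw [Multiset.map_cons, Multiset.prod_cons]
    exact h2.mul h1

private lemma mul_prod_CVal {a b : Om k} (s : Multiset (Om k)) (h : ∀ r ∈ s, b - r ≠ 0) :
    (s.map fun r => a - r).prod = (s.map fun r => b - r).prod *
      (s.map fun r => (a - r) / (b - r)).prod := by
  rw [← Multiset.prod_map_mul]
  refine congrArg Multiset.prod (Multiset.map_congr rfl fun r hr => ?_)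
  rw [mul_div_cancel₀ _ (h r hr)]

/-- continuity of roots: if a polynomial over the valuation ring has the nonzero value `q` at `v`
and `q c = 0` then it has a root with the value `c`. Proof: let `p = a ∏ (T - r_i)` (`Om k` is
algebraically closed, `p ≠ 0`), and suppose that no `r_i` has the value `c`. Choose a constant
`c'` with `q(c') ≠ 0` which is not the value of an `r_i`. Then `(c - r_i) / (c' - r_i)` is a unit
at `v` for all `i` (if `r_i` has the value `e` then `e ≠ c, c'`; if `r_i` has a pole then the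
quotient has the value `1`), so `p(c) / p(c')` is a unit at `v`. But `p(c')` has the value
`q(c') ≠ 0` and `p(c)` has the value `q(c) = 0`. -/
theorem root_at_om {v : Place k (Om k)} {p : Polynomial (Om k)} {q : Polynomial k}
    (hq : q ≠ 0) (h : ∀ n, v.At (p.coeff n) (q.coeff n)) {c : k} (hc : q.eval c = 0) :
    ∃ r : Om k, p.eval r = 0 ∧ v.At r c := by
  by_contra hcon
  push Not at hcon
  -- a constant which is not a value of a root
  obtain ⟨c', hc'⟩ := Infinite.exists_notMem_finset (q.roots.toFinset ∪
    p.roots.toFinset.image fun r => (vl v r).getD 0)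
  rw [Finset.mem_union, not_or] at hc'
  have hqc : q.eval c' ≠ 0 := by
    intro h0
    exact hc'.1 (Multiset.mem_toFinset.2 ((Polynomial.mem_roots hq).2 h0))
  have hpc : p.eval (algebraMap k (Om k) c') ≠ 0 := by
    intro h0
    have h1 := at_eval_CVal h c'
    rw [h0] at h1
    have h2 : v.At (0 : Om k) 0 := Place.at_zero_iff.2 v.vanishes_zero
    exact hqc (h1.unique h2)
  have hp : p ≠ 0 := by
    rintro rfl
    exact hpc Polynomial.eval_zero
  have hroot : ∀ r ∈ p.roots, p.eval r = 0 := fun r hr => (Polynomial.mem_roots hp).1 hr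
  have hval : ∀ r ∈ p.roots, ¬ v.At r c' := by
    intro r hr h0
    refine hc'.2 (Finset.mem_image.2 ⟨r, Multiset.mem_toFinset.2 hr, ?_⟩)
    rw [vl_of_at h0]
    rfl
  have hev : ∀ x : Om k, p.eval x = p.leadingCoeff * (p.roots.map fun r => x - r).prod := by
    intro x
    conv_lhs => rw [(IsAlgClosed.splits p).eq_prod_roots]
    rw [Polynomial.eval_mul, Polynomial.eval_C, Polynomial.eval_multiset_prod, Multiset.map_map]
    congr 3
    funext r
    simp
  have hne : ∀ r ∈ p.roots, algebraMap k (Om k) c' - r ≠ 0 := by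
    intro r hr h0
    rw [sub_eq_zero.1 h0] at hpc
    exact hpc (hroot r hr)
  obtain ⟨d, hd, h1⟩ := prod_CVal p.roots fun r hr =>
    factor_CVal (hcon r (hroot r hr)) (hval r hr)
  have h2 : p.eval (algebraMap k (Om k) c) = p.eval (algebraMap k (Om k) c') *
      (p.roots.map fun r =>
        (algebraMap k (Om k) c - r) / (algebraMap k (Om k) c' - r)).prod := by
    rw [hev, hev, mul_prod_CVal p.roots hne, mul_assoc]
  have h3 := (at_eval_CVal h c').mul h1
  rw [← h2] at h3
  have h4 := h3.unique (at_eval_CVal h c)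
  rw [hc] at h4
  exact mul_ne_zero hqc hd h4

end Pool.Agent.HYG
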