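import Pool.Agent.HYG.Defs
import Pool.Agent.GT.Presc

/-!
# A class function which is zero at general points of a curve
-/

set_option autoImplicit false

noncomputable section

namespace Pool.Agent.HYG

open Pool.Agent.ZCyc Pool.Agent.Dess Pool.Agent.GT Pool.Agent.TInc
open scoped Classical LinearAlgebra.Projectivization

variable {k : Type} [Field k] [IsAlgClosed k] [CharZero k]

/-- Let `F` be a function on the places of a curve with `∑ ord_v(f) F(v) = 0` for all `f ≠ 0`, and
`T` a transcendental element. If `F v = 0` for all places with a finite value of `T` outside of the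
finite set `S` then `F = 0`. Proof: only finitely many places have a value of `T` in `S` or a pole of
`T` (`finite_ord` for `T - s`); take `f` from `GT.exists_prescribed` for `v₀` and these places. -/
theorem eq_zero_of_general {K : Type} [Field K] [Algebra k K] (hK : IsCurve k K) {W : Type}
    [AddCommGroup W] {F : Place k K → W}
    (hF : ∀ f : K, f ≠ 0 → ((dv hK f).sum fun v a => a • F v) = 0) {T : K}
    (hT : Transcendental k T) (S : Finset k)
    (h : ∀ (v : Place k K) (t : k), v.At T t → t ∉ S → F v = 0) (v₀ : Place k K) : F v₀ = 0 := by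
  have hne : ∀ s : k, T - algebraMap k K s ≠ 0 := by
    intro s hs
    apply hT
    rw [sub_eq_zero.1 hs]
    exact isAlgebraic_algebraMap s
  have hfin : (⋃ s ∈ (insert (0 : k) S : Finset k),
      {v : Place k K | ord v (T - algebraMap k K s) ≠ 0}).Finite :=
    Set.Finite.biUnion (Finset.finite_toSet _) fun s _ => finite_ord hK _
  have hout : ∀ v : Place k K, v ∉ hfin.toFinset → F v = 0 := by
    intro v hv
    rw [Set.Finite.mem_toFinset] at hv
    have h1 : ∀ s ∈ (insert (0 : k) S : Finset k), ord v (T - algebraMap k K s) = 0 := by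
      intro s hs
      by_contra h2
      exact hv (Set.mem_iUnion₂.2 ⟨s, hs, h2⟩)
    have h2 := h1 0 (Finset.mem_insert_self _ _)
    rw [map_zero, sub_zero] at h2
    have hT0 : T ≠ 0 := by
      have h3 := hne 0
      rwa [map_zero, sub_zero] at h3
    have h3 := at_val hK ((mem_iff_ord hK (v := v) hT0).2 h2.ge)
    refine h v _ h3 fun h4 => ?_
    have h5 := h1 _ (Finset.mem_insert_of_mem h4)
    have h6 : v.Vanishes (T - algebraMap k K (val v T)) := h3
    rw [vanishes_iff_ord hK (hne _)] at h6
    omega
  obtain ⟨f, hf, hf1, hf2⟩ := exists_prescribed hK v₀ hfin.toFinset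
  have h1 := hF f hf
  rw [Finsupp.sum, Finset.sum_eq_single v₀] at h1
  · rw [dv_apply, hf1, one_smul] at h1
    exact h1
  · intro v _ hv
    by_cases hvB : v ∈ hfin.toFinset
    · rw [dv_apply, hf2 v hvB hv, zero_smul]
    · rw [hout v hvB, smul_zero]
  · intro h2
    rw [Finsupp.notMem_support_iff] at h2
    rw [h2, zero_smul]

end Pool.Agent.HYG
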