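import Pool.Agent.HYG.CEx
import Pool.Agent.HYG.SwapAll

/-!
# The exchange of two points, in the form used for products
-/

set_option autoImplicit false

noncomputable section

namespace Pool.Agent.HYG

open Pool.Agent.ZCyc Pool.Agent.Dess Pool.Agent.GT Pool.Agent.TInc
open scoped Classical LinearAlgebra.Projectivization

theorem swapAll_holds (k : Type) [Field k] [IsAlgClosed k] [CharZero k] : SwapAll k := by
  intro m A M χ W _ _ E hA hM hχ hE P Q hP hQ
  obtain ⟨i, hi⟩ := hA
  cases m with
  | zero => exact i.elim0
  | succ n =>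
    rw [show (-1 : k) ^ (n + 1 + 1) = (-1 : k) ^ n by ring]
    exact swap_all (R := k) (i₀ := i) hi hM hχ hE hP hQ

end Pool.Agent.HYG
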