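import Pool.Agent.HYG.CKillA

/-!
# Project HYG, block C: combinations of automorphisms which kill all forms

Extension of scalars: `W' = k ⊗[ℚ] W`, `E' P = 1 ⊗ E P` is a class function (`IsCF.map` for the additive map
`W → W'`). By `kill_k` `∑ γ_g • (1 ⊗ E (g P)) = 1 ⊗ ∑ γ_g E (g P)` is zero, and `W → W'` is
injective (`W` is a free, hence flat `ℚ`-module, `ℚ → k` is injective;
for example `TensorProduct.mk_injective`-type lemma, `Module.Flat`, `Algebra.TensorProduct`, or: a
`ℚ`-linear map `r : k → ℚ` with `r 1 = 1` gives `k ⊗ W → W`, `c ⊗ w ↦ r c • w`, which is a left inverse).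
-/

set_option autoImplicit false

noncomputable section

namespace Pool.Agent.HYG

open Pool.Agent.ZCyc Pool.Agent.Dess Pool.Agent.GT Pool.Agent.TInc
open scoped Classical TensorProduct

variable {k : Type} [Field k] [IsAlgClosed k] [CharZero k] {X : Dat k}

/-- **The main theorem of block C.** A combination `γ` of automorphisms which kills all holomorphic
forms kills all class functions. -/
theorem kill_all (hS : SwapAll k) (hM : ∀ i, 0 < X.M i) (hG : Gnl X) {W : Type} [AddCommGroup W]
    [Module ℚ W] {E : (Fin X.N → Option k) → W} (hE : IsCF X E) {γ : Mon X →₀ ℚ}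
    (hγ : KillsForms γ) {P : Fin X.N → Option k} (hP : OnB X P) :
    γ.sum (fun g c => c • E (g.app P)) = 0 := by
  have hinj : Function.Injective (TensorProduct.mk ℚ k W 1) := by
    have h1 : Function.Injective (LinearMap.rTensor W (Algebra.linearMap ℚ k)) :=
      Module.Flat.rTensor_preserves_injective_linearMap _ (algebraMap ℚ k).injective
    intro x y hxy
    apply (TensorProduct.lid ℚ W).symm.injective
    apply h1
    simpa using hxy
  have h2 := kill_k (W := TensorProduct ℚ k W) hS hM hG
    (hE.map (TensorProduct.mk ℚ k W 1).toAddMonoidHom) hγ hP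
  apply hinj
  rw [map_zero, ← h2, Finsupp.sum, Finsupp.sum, map_sum]
  refine Finset.sum_congr rfl fun g _ => ?_
  change (1 : k) ⊗ₜ[ℚ] (γ g • E (g.app P)) = ((γ g : ℚ) : k) • ((1 : k) ⊗ₜ[ℚ] E (g.app P))
  rw [TensorProduct.smul_tmul', ← TensorProduct.smul_tmul, smul_eq_mul, mul_one]
  congr 1
  rw [Rat.smul_def, mul_one]

end Pool.Agent.HYG
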