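import Pool.Agent.HYG.Defs

/-!
# Values of functions at places
-/

set_option autoImplicit false

noncomputable section

namespace Pool.Agent.HYG

open Pool.Agent.ZCyc Pool.Agent.Dess Pool.Agent.GT Pool.Agent.TInc
open scoped Classical LinearAlgebra.Projectivization

variable {k : Type} [Field k] {K : Type} [Field K] [Algebra k K] {v : Place k K}

/-- `Place.At.unique` -/
theorem vl_eq {f : K} {c : k} : vl v f = some c ↔ v.At f c := by
  unfold vl
  constructor
  · intro h
    by_cases he : ∃ c : k, v.At f c
    · rw [dif_pos he] at h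
      have h1 := Option.some.inj h
      rw [← h1]
      exact he.choose_spec
    · rw [dif_neg he] at h
      exact absurd h (by simp)
  · intro h
    have he : ∃ c : k, v.At f c := ⟨c, h⟩
    rw [dif_pos he]
    exact congrArg some (Place.At.unique he.choose_spec h)

theorem vl_of_at {f : K} {c : k} (h : v.At f c) : vl v f = some c := vl_eq.2 h

theorem vl_none {f : K} : vl v f = none ↔ ∀ c, ¬ v.At f c := by
  constructor
  · intro h c hc
    rw [vl_of_at hc] at h
    exact absurd h (by simp)
  · intro h
    unfold vl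
    rw [dif_neg]
    rintro ⟨c, hc⟩
    exact h c hc

theorem vl_const (c : k) : vl v (algebraMap k K c) = some c := vl_of_at (Place.at_const c)

/-- multiplication with a nonzero constant -/
theorem vl_smul {u : k} (hu : u ≠ 0) (f : K) :
    vl v (algebraMap k K u * f) = (vl v f).map fun w => u * w := by
  by_cases he : ∃ c : k, v.At f c
  · obtain ⟨c, hc⟩ := he
    rw [vl_of_at hc, vl_of_at ((Place.at_const u).mul hc)]
    rfl
  · have h1 : vl v f = none := vl_none.2 fun c hc => he ⟨c, hc⟩
    rw [h1]
    apply vl_none.2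
    intro c hc
    apply he
    refine ⟨u⁻¹ * c, ?_⟩
    have h2 := (Place.at_const (v := v) u⁻¹).mul hc
    rwa [← mul_assoc, ← map_mul, inv_mul_cancel₀ hu, map_one, one_mul] at h2

/-- values at places above each other (`ValuationSubring.mem_comap`; `v.At f c` says that
`f - c` is in the maximal ideal, i.e. it is zero or its inverse is not in the ring,
`Place.vanishes_iff_or`) -/
theorem vl_below {K' : Type} [Field K'] [Algebra k K'] {φ : K →ₐ[k] K'} {w : Place k K'}
    (h : w.ring.comap (φ : K →+* K') = v.ring) (f : K) : vl w (φ f) = vl v f := by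
  have hm : ∀ x : K, φ x ∈ w.ring ↔ x ∈ v.ring := by
    intro x
    rw [← h]
    exact Iff.rfl
  have hv : ∀ g : K, w.Vanishes (φ g) ↔ v.Vanishes g := by
    intro g
    rw [Place.vanishes_iff_or, Place.vanishes_iff_or, ← map_inv₀, hm, map_eq_zero]
  have ha : ∀ c : k, w.At (φ f) c ↔ v.At f c := by
    intro c
    unfold Place.At
    rw [← hv, map_sub, AlgHom.commutes]
  by_cases he : ∃ c : k, v.At f c
  · obtain ⟨c, hc⟩ := he
    rw [vl_of_at hc, vl_of_at ((ha c).2 hc)]
  · rw [vl_none.2 fun c hc => he ⟨c, hc⟩, vl_none.2 fun c hc => he ⟨c, (ha c).1 hc⟩]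

section Closed

variable [IsAlgClosed k] [CharZero k]

/-- `Dess.exists_at` and `At.mem` -/
theorem vl_none_iff (hK : IsCurve k K) {f : K} : vl v f = none ↔ f ∉ v.ring := by
  rw [vl_none]
  constructor
  · intro h hf
    obtain ⟨c, hc⟩ := exists_at hK v hf
    exact h c hc
  · intro h c hc
    exact h hc.mem

/-- a pole of `f` is a zero of `f⁻¹` -/
theorem vl_inv (hK : IsCurve k K) {f : K} (hf : f ≠ 0) : vl v f = none ↔ v.At f⁻¹ 0 := by
  rw [vl_none_iff hK, Place.at_zero_iff, Place.vanishes_iff_or, inv_inv]
  constructor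
  · intro h
    exact Or.inr h
  · rintro (h | h)
    · exact absurd (inv_eq_zero.1 h) hf
    · exact h

end Closed

end Pool.Agent.HYG
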