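import Pool.Agent.HYG.RatGenS
import Pool.Agent.HYG.Val

/-!
# Divisors of functions on curves and `MPC.ratEquiv`, for products of projective lines

The values of functions are elements of `Option k`, `toP` maps them to points of the projective line.
-/

set_option autoImplicit false

noncomputable section

namespace Pool.Agent.HYG

open Pool.Agent.ZCyc Pool.Agent.Dess Pool.Agent.GT Pool.Agent.TInc
open scoped Classical LinearAlgebra.Projectivization

variable {k : Type} [Field k] [IsAlgClosed k] [CharZero k] {K : Type} [Field K] [Algebra k K]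

/-- the value of the function `f`, as a point of the projective line -/
theorem isValue_toP (hK : IsCurve k K) (v : Place k K) (f : K) :
    DCI57.IsValue v ![f, 1] (toP (vl v f)) := by
  by_cases h : ∃ c, v.At f c
  · obtain ⟨c, hc⟩ := h
    rw [vl_eq.2 hc]
    obtain ⟨a, -, h1⟩ := DCI57.mk_rep_exists (x := ![c, 1]) (by
      intro h
      have h1 := congrFun h 1
      simp at h1)
    refine DCI57.isValue_iff.2 ⟨algebraMap k K a, fun j => ?_⟩
    have h2 : (toP (some c)).rep j = a * ![c, 1] j := h1 j
    rw [h2]
    fin_cases j
    · exact (Place.at_const (v := v) a).mul hc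
    · simpa using Place.at_const (v := v) a
  · have h0 : vl v f = none := dif_neg h
    have hf : f ∉ v.ring := (vl_none_iff hK).1 h0
    have hf0 : f ≠ 0 := by
      rintro rfl
      exact hf v.ring.zero_mem
    have h3 : v.At f⁻¹ 0 := (vl_inv hK hf0).1 h0
    rw [h0]
    obtain ⟨a, -, h1⟩ := DCI57.mk_rep_exists (x := ![(1 : k), 0]) (by
      intro h
      have h1 := congrFun h 0
      simp at h1)
    refine DCI57.isValue_iff.2 ⟨algebraMap k K a * f⁻¹, fun j => ?_⟩
    have h2 : (toP (none : Option k)).rep j = a * ![(1 : k), 0] j := h1 j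
    rw [h2]
    fin_cases j
    · have h4 : algebraMap k K a * f⁻¹ * ![f, 1] 0 = algebraMap k K a := by
        rw [Matrix.cons_val_zero, inv_mul_cancel_right₀ hf0]
      change v.At (algebraMap k K a * f⁻¹ * ![f, 1] 0) (a * ![(1 : k), 0] 0)
      rw [h4]
      simpa using Place.at_const (v := v) a
    · have h4 := (Place.at_const (v := v) a).mul h3
      simpa using h4

/-- The divisor of a function `f ≠ 0` on a curve, mapped to the product of projective lines by the
functions `w i` such that all values are in `S`, is rationally equivalent to zero. -/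
theorem rat_gen_opt (hK : IsCurve k K) {r : ℕ} (S : Set (Fin r → ℙ k (Fin 2 → k))) (w : Fin r → K)
    (hS : ∀ v : Place k K, (fun i => toP (vl v (w i))) ∈ S) {f : K} (hf : f ≠ 0) :
    ((dv hK f).sum fun v a => Finsupp.single (fun i => toP (vl v (w i))) (a : ℚ)) ∈
      MPC.ratEquiv (J := fun _ : Fin r => Fin 2) ℚ S :=
  rat_gen_set (J := fun _ : Fin r => Fin 2) S hK (fun i => ![w i, 1])
    (fun v i => toP (vl v (w i))) (fun v i => isValue_toP hK v (w i)) hS hf

end Pool.Agent.HYG
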