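import Pool.Agent.HYG.Val

/-!
# The values of a point at the places of a curve
-/

set_option autoImplicit false

noncomputable section

namespace Pool.Agent.HYG

open Pool.Agent.ZCyc Pool.Agent.Dess Pool.Agent.GT Pool.Agent.TInc
open scoped Classical LinearAlgebra.Projectivization

variable {k : Type} [Field k] [IsAlgClosed k] [CharZero k] {K : Type} [Field K] [Algebra k K]

omit [IsAlgClosed k] [CharZero k] in
/-- values of determinants -/
private theorem det_at_ValY {ι : Type} [Fintype ι] [DecidableEq ι] {v : Place k K}
    {N : Matrix ι ι K} {N₀ : Matrix ι ι k} (h : ∀ i j, v.At (N i j) (N₀ i j)) :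
    v.At N.det N₀.det := by
  rw [Matrix.det_apply', Matrix.det_apply']
  refine Place.At.sum fun σ _ => ?_
  have h1 := Place.at_const (v := v) (((Equiv.Perm.sign σ : ℤˣ) : ℤ) : k)
  rw [map_intCast] at h1
  exact h1.mul (Place.At.prod fun i _ => h (σ i) i)

/-- The row `i` of `A - diag (w_i ^ M_i)`, multiplied with `g_i = 1` if `w_i` is regular at `v`,
and with `g_i = - w_i ^ (- M_i)` if `w_i` has a pole (`vl_none_iff`, `vl_inv`), has entries
regular at `v`, with the values the entries of the row `i` of `mat A M (vl v w)`. The determinant
is a polynomial in the entries (`Matrix.det_apply`, `At.sum`, `At.prod`), so the value of the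
determinant of the multiplied matrix, `(∏ g_i) * 0`, is `det (mat A M (vl v w))`
(`Matrix.det_mul_column` or `det_mul_row`). Here for a square block. -/
theorem det_vl (hK : IsCurve k K) {ι : Type} [Fintype ι] [DecidableEq ι] (A : Matrix ι ι k)
    {M : ι → ℕ} (hM : ∀ i, 0 < M i) {w : ι → K} (h : (matK A fun i => w i ^ M i).det = 0)
    (v : Place k K) : (mat A M fun i => vl v (w i)).det = 0 := by
  let g : ι → K := fun i => if vl v (w i) = none then -(w i ^ M i)⁻¹ else 1
  have hg : ∀ i j, v.At (g i * matK A (fun i => w i ^ M i) i j)
      (mat A M (fun i => vl v (w i)) i j) := by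
    intro i j
    have h1 : matK A (fun i => w i ^ M i) i j =
        algebraMap k K (A i j) - if i = j then w i ^ M i else 0 := by
      rw [matK, Matrix.sub_apply, Matrix.map_apply, Matrix.diagonal_apply]
    rw [h1]
    cases hc : vl v (w i) with
    | none =>
      have h2 : g i = -(w i ^ M i)⁻¹ := if_pos hc
      have hw : w i ≠ 0 := by
        intro h3
        have h4 := vl_const (v := v) (K := K) (0 : k)
        rw [map_zero, ← h3, hc] at h4
        exact absurd h4 (by simp)
      have h3 : v.At ((w i ^ M i)⁻¹) 0 := by
        have h4 := ((vl_inv hK hw).1 hc).pow (M i)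
        rw [inv_pow, zero_pow (hM i).ne'] at h4
        exact h4
      have h5 : mat A M (fun i => vl v (w i)) i j = if i = j then 1 else 0 := by
        unfold mat
        simp only [hc]
      have h6 : g i * (algebraMap k K (A i j) - if i = j then w i ^ M i else 0) =
          -(w i ^ M i)⁻¹ * algebraMap k K (A i j) + algebraMap k K (if i = j then 1 else 0) := by
        rw [h2]
        split_ifs
        · rw [map_one]
          have h7 := pow_ne_zero (M i) hw
          field_simp
          ring
        · rw [map_zero]
          ring
      rw [h5, h6]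
      have h7 := (h3.neg.mul (Place.at_const (v := v) (A i j))).add
        (Place.at_const (v := v) (if i = j then (1 : k) else 0))
      rw [neg_zero, zero_mul, zero_add] at h7
      exact h7
    | some c =>
      have h2 : g i = 1 := if_neg (by rw [hc]; simp)
      have h5 : mat A M (fun i => vl v (w i)) i j = A i j - if i = j then c ^ M i else 0 := by
        unfold mat
        simp only [hc]
      rw [h5, h2, one_mul]
      refine (Place.at_const (v := v) (A i j)).sub ?_
      split_ifs
      · exact (vl_eq.1 hc).pow (M i)
      · have h7 := Place.at_const (v := v) (0 : k)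
        rwa [map_zero] at h7
  have h1 := det_at_ValY (N := fun i j => g i * matK A (fun i => w i ^ M i) i j) hg
  have h2 : Matrix.det (fun i j => g i * matK A (fun i => w i ^ M i) i j) = 0 := by
    have h3 := Matrix.det_mul_column g (matK A fun i => w i ^ M i)
    rw [h, mul_zero] at h3
    exact h3
  rw [h2] at h1
  have h3 := Place.at_const (v := v) (0 : k)
  rw [map_zero] at h3
  exact h1.unique h3

/-- the values of a point of the hypersurface -/
theorem onY_vl (hK : IsCurve k K) {m : ℕ} {A : Matrix (Fin m) (Fin m) k} {M : Fin m → ℕ}
    (hM : ∀ i, 0 < M i) {w : Fin m → K} (h : (matK A fun i => w i ^ M i).det = 0)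
    (v : Place k K) : OnY A M fun i => vl v (w i) := det_vl hK A hM h v

/-- the values of a point of a product of hypersurfaces: `det_vl` for the blocks of `A` -/
theorem onB_vl (hK : IsCurve k K) {X : Dat k} (hM : ∀ i, 0 < X.M i) {w : Fin X.N → K}
    (h : OnK X w) (v : Place k K) : OnB X fun i => vl v (w i) := by
  intro b
  have h1 : Matrix.toSquareBlock (matK X.A fun i => w i ^ X.M i) X.β b =
      matK (Matrix.toSquareBlock X.A X.β b) fun i : {i // X.β i = b} => w i ^ X.M i := by
    funext i j
    change X.A.map (algebraMap k K) i.1 j.1 - Matrix.diagonal (fun i => w i ^ X.M i) i.1 j.1 =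
      (Matrix.toSquareBlock X.A X.β b).map (algebraMap k K) i j -
        Matrix.diagonal (fun i : {i // X.β i = b} => w i ^ X.M i) i j
    rw [Matrix.diagonal_apply, Matrix.diagonal_apply]
    simp only [Subtype.ext_iff]
    rfl
  have h2 : Matrix.toSquareBlock (mat X.A X.M fun i => vl v (w i)) X.β b =
      mat (Matrix.toSquareBlock X.A X.β b) (fun i : {i // X.β i = b} => X.M i)
        fun i : {i // X.β i = b} => vl v (w i) := by
    funext i j
    change mat X.A X.M (fun i => vl v (w i)) i.1 j.1 = _
    unfold mat
    simp only [Subtype.ext_iff]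
    rfl
  have h3 := h b
  rw [h1] at h3
  rw [h2]
  exact det_vl hK (Matrix.toSquareBlock X.A X.β b)
    (M := fun i : {i // X.β i = b} => X.M i) (w := fun i : {i // X.β i = b} => w i)
    (fun i => hM i) h3 v

end Pool.Agent.HYG
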