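import Pool.Agent.HYG.YPts
import Pool.Agent.HYG.ValY
import Pool.Agent.HYG.RatOpt

/-!
# Project HYG, block D: the class of a point modulo rational equivalence

`cls X P` is the class of the point `P` of the product of hypersurfaces in the group of zero-cycles
modulo rational equivalence. It is a class function (`cls_isCF`).
-/

set_option autoImplicit false

noncomputable section

namespace Pool.Agent.HYG

open Pool.Agent.ZCyc Pool.Agent.Dess Pool.Agent.GT Pool.Agent.TInc
open scoped Classical LinearAlgebra.Projectivization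

variable {k : Type} [Field k]

/-- the zero-cycles with rational coefficients on the product of projective lines, modulo the cycles
on the product of hypersurfaces which are rationally equivalent to zero -/
abbrev CHY (X : Dat k) : Type :=
  ((Fin X.N → ℙ k (Fin 2 → k)) →₀ ℚ) ⧸
    (MPC.ratEquiv (J := fun _ : Fin X.N => Fin 2) ℚ (YP X))

/-- the class of a point -/
def cls (X : Dat k) (P : Fin X.N → Option k) : CHY X :=
  (MPC.ratEquiv (J := fun _ : Fin X.N => Fin 2) ℚ (YP X)).mkQ
    (Finsupp.single (fun i => toP (P i)) 1)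

theorem smul_cls (X : Dat k) (P : Fin X.N → Option k) (c : ℚ) :
    c • cls X P = (MPC.ratEquiv (J := fun _ : Fin X.N => Fin 2) ℚ (YP X)).mkQ
      (Finsupp.single (fun i => toP (P i)) c) := by
  unfold cls
  rw [← map_smul, Finsupp.smul_single, smul_eq_mul, mul_one]

theorem cls_isCF [IsAlgClosed k] [CharZero k] {X : Dat k} (hM : ∀ i, 0 < X.M i) :
    IsCF X (cls X) := by
  intro K _ _ hK w f hf hw
  have h1 := rat_gen_opt hK (YP X) w (fun v => (toP_mem hM).2 (onB_vl hK hM hw v)) hf
  rw [← Submodule.Quotient.mk_eq_zero, ← Submodule.mkQ_apply, Finsupp.sum, map_sum] at h1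
  refine Eq.trans (Finset.sum_congr rfl fun v _ => ?_) h1
  rw [← smul_cls, Int.cast_smul_eq_zsmul]

/-! ### The automorphisms of the product of projective lines -/

/-- The automorphism `g` of the product of projective lines: the coordinate `i` of the image of `p`
is `[h_i x : y]`, where `[x : y]` is the coordinate `τ i` of `p` (`Mon.act_eq`). -/
def Mon.act {X : Dat k} (g : Mon X) (p : Fin X.N → ℙ k (Fin 2 → k)) :
    Fin X.N → ℙ k (Fin 2 → k) := fun i => toP ((ofP (p (g.τ i))).map fun w => g.h i * w)

theorem Mon.h_ne {X : Dat k} (hM : ∀ i, 0 < X.M i) (g : Mon X) (i : Fin X.N) : g.h i ≠ 0 := by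
  intro h
  have h1 := g.pow i
  rw [h, zero_pow (hM i).ne'] at h1
  exact zero_ne_one h1

theorem Mon.act_toP {X : Dat k} (g : Mon X) (P : Fin X.N → Option k) :
    g.act (fun i => toP (P i)) = fun i => toP (g.app P i) := by
  funext i
  unfold Mon.act Mon.app
  rw [ofP_toP]

theorem Mon.act_eq {X : Dat k} (hM : ∀ i, 0 < X.M i) (g : Mon X)
    (p : Fin X.N → ℙ k (Fin 2 → k)) (i : Fin X.N) : ∃ h, g.act p i =
      Projectivization.mk k ![g.h i * (p (g.τ i)).rep 0, (p (g.τ i)).rep 1] h := by
  have h1 := mulP_toP (g.h_ne hM i) (ofP (p (g.τ i)))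
  rw [toP_ofP] at h1
  exact ⟨_, h1.symm⟩

/-- combinations of classes which vanish -/
theorem sum_cls_eq_zero {X : Dat k} {γ : Mon X →₀ ℚ} {P : Fin X.N → Option k}
    (h : (γ.sum fun g c => c • cls X (g.app P)) = 0) :
    (γ.sum fun g c => Finsupp.single (fun i => toP (g.app P i)) c) ∈
      MPC.ratEquiv (J := fun _ : Fin X.N => Fin 2) ℚ (YP X) := by
  rw [← Submodule.Quotient.mk_eq_zero, ← Submodule.mkQ_apply, Finsupp.sum, map_sum]
  exact Eq.trans (Finset.sum_congr rfl fun g _ => (smul_cls X _ _).symm) h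

/-- combinations of points: the same with the automorphisms of the product of projective lines -/
theorem sum_act_mem {X : Dat k} (hM : ∀ i, 0 < X.M i) {γ : Mon X →₀ ℚ}
    (h : ∀ P, OnB X P → (γ.sum fun g c => c • cls X (g.app P)) = 0)
    {p : Fin X.N → ℙ k (Fin 2 → k)} (hp : p ∈ YP X) :
    (γ.sum fun g c => Finsupp.single (g.act p) c) ∈
      MPC.ratEquiv (J := fun _ : Fin X.N => Fin 2) ℚ (YP X) := by
  obtain ⟨P, hP, rfl⟩ := exists_toP hM hp
  have h1 := sum_cls_eq_zero (h P hP)
  simp only [← Mon.act_toP] at h1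
  exact h1

end Pool.Agent.HYG
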