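import Pool.Agent.DWG.Gal
import Pool.Agent.DWG.Cnt
import Pool.Agent.DWG.OrdS
import Pool.Agent.DCI57.Relation
import Pool.Agent.MPC.Defs
import Pool.Agent.GT.Lim

/-!
# Divisors of functions on curves and `MPC.ratEquiv`, for arbitrary sets of points

`rat_gen_set`: `K` is the function field of a curve, `x i j` are functions (homogeneous coordinates of
a map to a product of projective spaces), all values `y v` of the map at the places `v` are in the set
`S`, and `f ≠ 0` is a function. Then `∑ v, ord v f • [y v]` is in `MPC.ratEquiv ℚ S`. (The proof of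
`DWG.rat_gen`, without the special varieties.)
-/

set_option autoImplicit false

noncomputable section

namespace Pool.Agent.HYG

open Pool.Agent.ZCyc Pool.Agent.GT Pool.Agent.DWK
open Pool.Agent.VFP (Om tt)
open scoped Classical LinearAlgebra.Projectivization

open Pool.Agent.Dess Pool.Agent.TInc

variable {k : Type} [Field k] [IsAlgClosed k] [CharZero k]

omit [IsAlgClosed k] [CharZero k] in
private theorem sub_C_RatGenS (F : IntermediateField (RatFunc k) (Om k)) (a : k) :
    algebraMap (RatFunc k) F (RatFunc.X - RatFunc.C a) =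
      algebraMap (RatFunc k) F RatFunc.X - algebraMap k F a := by
  rw [map_sub]
  congr 1

omit [IsAlgClosed k] [CharZero k] in
/-- the place of `K` below a place of `F` -/
private theorem exists_bel_RatGenS {K : Type} [Field K] [Algebra k K] {g : K}
    (F : IntermediateField (RatFunc k) (Om k)) [FiniteDimensional (RatFunc k) F]
    (j : K →ₐ[k] F) (hj : j g = algebraMap (RatFunc k) F RatFunc.X) (w : Place k F) :
    ∃ v : Place k K, w.ring.comap (j : K →+* F) = v.ring := by
  refine ⟨⟨w.ring.comap (j : K →+* F), fun c => ?_, fun htop => ?_⟩, rfl⟩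
  · rw [ValuationSubring.mem_comap]
    have h1 : (j : K →+* F) (algebraMap k K c) = algebraMap k F c := j.commutes c
    rw [h1]
    exact w.const_mem _
  · have hr : ∀ z : K, j z ∈ w.ring := by
      intro z
      have : z ∈ w.ring.comap (j : K →+* F) := by
        rw [htop]
        exact ValuationSubring.mem_top z
      exact ValuationSubring.mem_comap.1 this
    have hp : ∀ p : Polynomial k, algebraMap (RatFunc k) F (algebraMap (Polynomial k)
        (RatFunc k) p) = j (Polynomial.aeval g p) := by
      intro p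
      rw [← Polynomial.aeval_algHom_apply, hj]
      induction p using Polynomial.induction_on' with
      | add p q hp hq => rw [map_add, map_add, map_add, hp, hq]
      | monomial n a =>
        rw [Polynomial.aeval_monomial, ← Polynomial.C_mul_X_pow_eq_monomial, map_mul,
          map_mul, map_pow, map_pow, RatFunc.algebraMap_X]
        congr 1
    have hq : ∀ q : RatFunc k, algebraMap (RatFunc k) F q ∈ w.ring := by
      intro q
      rw [← RatFunc.num_div_denom q, map_div₀, hp, hp, ← map_div₀]
      exact hr _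
    apply w.ne_top
    ext z
    refine ⟨fun _ => ValuationSubring.mem_top z, fun _ => ?_⟩
    have hz : IsIntegral (RatFunc k) z := Algebra.IsIntegral.isIntegral z
    obtain ⟨p, hp1, hp0⟩ := hz
    let ι : RatFunc k →+* w.ring :=
      (algebraMap (RatFunc k) F).codRestrict w.ring.toSubring fun x => hq x
    have h1 : IsIntegral w.ring z := by
      refine ⟨p.map ι, hp1.map ι, ?_⟩
      rw [Polynomial.eval₂_map]
      exact hp0
    obtain ⟨y, hy⟩ := IsIntegrallyClosed.isIntegral_iff.1 h1
    rw [← hy]
    exact y.2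

omit [IsAlgClosed k] [CharZero k] in
/-- values at places above each other -/
private theorem at_bel_RatGenS {K : Type} [Field K] [Algebra k K]
    {F : IntermediateField (RatFunc k) (Om k)} {j : K →ₐ[k] F} {w : Place k F} {v : Place k K}
    (h : w.ring.comap (j : K →+* F) = v.ring) (f : K) (c : k) (hf : v.At f c) :
    w.At (j f) c := by
  unfold Place.At at hf ⊢
  rw [Place.vanishes_iff_or] at hf ⊢
  rw [← j.commutes c, ← map_sub, ← map_inv₀, map_eq_zero]
  rw [← h, ValuationSubring.mem_comap] at hf
  exact hf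

/-- The divisor of a function `f ≠ 0` on a curve, mapped to a product of projective spaces such that
all values are in `S`, is rationally equivalent to zero in the sense of `MPC.ratEquiv`. -/
theorem rat_gen_set {r : ℕ} {J : Fin r → Type} (S : Set (∀ i, ℙ k (J i → k))) {K : Type}
    [Field K] [Algebra k K] (hK : IsCurve k K) (x : ∀ i, J i → K)
    (y : Place k K → ∀ i, ℙ k (J i → k)) (hy : ∀ v, MPC.IsValue v x (y v)) (hS : ∀ v, y v ∈ S)
    {f : K} (hf : f ≠ 0) :
    ((dv hK f).sum fun v a => Finsupp.single (y v) (a : ℚ)) ∈ MPC.ratEquiv (J := J) ℚ S := by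
  have hD : ∀ v, dv hK f v = ord v f := fun v => rfl
  by_cases hconst : ∃ c : k, f = algebraMap k K c
  · obtain ⟨c, rfl⟩ := hconst
    have hD0 : dv hK (algebraMap k K c) = 0 := by
      ext v
      rw [hD, ord_const hK v c]
      rfl
    rw [hD0, Finsupp.sum_zero_index]
    exact Submodule.zero_mem _
  have hc0 : ∀ c : k, f ≠ algebraMap k K c := fun c h => hconst ⟨c, h⟩
  have hft : Transcendental k f := transc_of_ne hK hc0
  have hf1 : f + 1 ≠ 0 := by
    intro h
    apply hc0 (-1)
    rw [map_neg, map_one]
    exact eq_neg_of_add_eq_zero_left h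
  have hgt : Transcendental k (f / (f + 1)) := by
    apply transc_of_ne hK
    intro a ha
    rw [div_eq_iff hf1] at ha
    by_cases ha1 : a = 1
    · rw [ha1, map_one, one_mul] at ha
      exact one_ne_zero (left_eq_add.1 ha)
    · apply hc0 (a / (1 - a))
      have h1 : (1 - algebraMap k K a) ≠ 0 := by
        intro h
        apply ha1
        apply (algebraMap k K).injective
        rw [map_one]
        exact (sub_eq_zero.1 h).symm
      rw [map_div₀, map_sub, map_one, eq_div_iff h1]
      linear_combination ha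
  set g : K := f / (f + 1) with hg
  obtain ⟨F, hfin, hgal, j, hj⟩ := DWG.exists_gal hK hgt
  have hXt : Transcendental k (algebraMap (RatFunc k) F RatFunc.X) := by
    rw [← hj]
    intro h
    exact hgt ((isAlgebraic_algHom_iff j j.toRingHom.injective).1 h)
  obtain ⟨w₀, hw₀⟩ := exists_place hXt (0 : k)
  obtain ⟨w₁, hw₁⟩ := exists_place hXt (1 : k)
  have hw₀' : w₀.Vanishes (algebraMap (RatFunc k) F (RatFunc.X - RatFunc.C (0 : k))) := by
    rw [sub_C_RatGenS]
    exact hw₀
  have hw₁' : w₁.Vanishes (algebraMap (RatFunc k) F (RatFunc.X - RatFunc.C (1 : k))) := by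
    rw [sub_C_RatGenS]
    exact hw₁
  choose bel hbel using exists_bel_RatGenS (K := K) F j hj
  obtain ⟨N, hN, hcount⟩ := DWG.count hK F j hj
  have hgen : (∑ τ : F ≃ₐ[RatFunc k] F,
      (Finsupp.single (y (bel (w₀.map (τ.restrictScalars k)))) (1 : ℚ) -
        Finsupp.single (y (bel (w₁.map (τ.restrictScalars k)))) (1 : ℚ))) ∈
      MPC.ratEquiv (J := J) ℚ S := by
    refine Submodule.subset_span ?_
    refine ⟨F, inferInstance, inferInstance, inferInstance, inferInstance, hfin, hgal,
      fun i l => j (x i l), fun w => y (bel w), ?_, fun w => hS (bel w), 0, 1, w₀, w₁,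
      hw₀', hw₁', rfl⟩
    intro w i
    obtain ⟨l, hl⟩ := hy (bel w) i
    refine ⟨j l, fun a => ?_⟩
    have h1 := at_bel_RatGenS (hbel w) _ _ (hl a)
    rw [map_mul] at h1
    exact h1
  have hsum : ∀ (T : Finset (Place k K)) (w : Place k F)
      (_ : ∀ τ : F ≃ₐ[RatFunc k] F, bel (w.map (τ.restrictScalars k)) ∈ T),
      (∑ τ : F ≃ₐ[RatFunc k] F,
        Finsupp.single (y (bel (w.map (τ.restrictScalars k)))) (1 : ℚ)) =
      ∑ v ∈ T, ((Nat.card {τ : F ≃ₐ[RatFunc k] F //
          (w.map (τ.restrictScalars k)).ring.comap (j : K →+* F) = v.ring} : ℤ) : ℚ) •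
        Finsupp.single (y v) (1 : ℚ) := by
    intro T w hT
    rw [← Finset.sum_fiberwise_of_maps_to (s := Finset.univ) (t := T)
      (g := fun τ : F ≃ₐ[RatFunc k] F => bel (w.map (τ.restrictScalars k)))
      (fun τ _ => hT τ)]
    refine Finset.sum_congr rfl fun v _ => ?_
    have h1 : ∀ τ ∈ Finset.univ.filter (fun τ : F ≃ₐ[RatFunc k] F =>
        bel (w.map (τ.restrictScalars k)) = v),
        Finsupp.single (y (bel (w.map (τ.restrictScalars k)))) (1 : ℚ) =
          Finsupp.single (y v) (1 : ℚ) := by
      intro τ hτ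
      rw [(Finset.mem_filter.1 hτ).2]
    rw [Finset.sum_congr rfl h1, Finset.sum_const]
    have h2 : (Nat.card {τ : F ≃ₐ[RatFunc k] F //
        (w.map (τ.restrictScalars k)).ring.comap (j : K →+* F) = v.ring}) =
        (Finset.univ.filter (fun τ : F ≃ₐ[RatFunc k] F =>
          bel (w.map (τ.restrictScalars k)) = v)).card := by
      rw [Nat.card_eq_fintype_card, Fintype.card_subtype]
      congr 1
      ext τ
      simp only [Finset.mem_filter, Finset.mem_univ, true_and]
      rw [hbel, Place.ext_iff]
    rw [h2, Int.cast_natCast, Nat.cast_smul_eq_nsmul]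
  set T : Finset (Place k K) := (dv hK f).support ∪
    (Finset.univ.image (fun τ : F ≃ₐ[RatFunc k] F => bel (w₀.map (τ.restrictScalars k))) ∪
      Finset.univ.image (fun τ : F ≃ₐ[RatFunc k] F => bel (w₁.map (τ.restrictScalars k))))
    with hTdef
  have hT0 : ∀ τ : F ≃ₐ[RatFunc k] F, bel (w₀.map (τ.restrictScalars k)) ∈ T := fun τ =>
    Finset.mem_union_right _ (Finset.mem_union_left _
      (Finset.mem_image_of_mem _ (Finset.mem_univ τ)))
  have hT1 : ∀ τ : F ≃ₐ[RatFunc k] F, bel (w₁.map (τ.restrictScalars k)) ∈ T := fun τ =>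
    Finset.mem_union_right _ (Finset.mem_union_right _
      (Finset.mem_image_of_mem _ (Finset.mem_univ τ)))
  rw [Finset.sum_sub_distrib, hsum T w₀ hT0, hsum T w₁ hT1, ← Finset.sum_sub_distrib] at hgen
  have hz : ((dv hK f).sum fun v a => Finsupp.single (y v) (a : ℚ)) =
      ∑ v ∈ T, Finsupp.single (y v) ((dv hK f v : ℤ) : ℚ) := by
    rw [Finsupp.sum_of_support_subset (dv hK f) (Finset.subset_union_left) _ (by simp)]
  rw [hz]
  have hNq : (N : ℚ) ≠ 0 := by exact_mod_cast hN.ne'
  have hfin2 : (∑ v ∈ T, Finsupp.single (y v) ((dv hK f v : ℤ) : ℚ)) = (N : ℚ)⁻¹ •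
      ∑ v ∈ T, ((((Nat.card {τ : F ≃ₐ[RatFunc k] F //
          (w₀.map (τ.restrictScalars k)).ring.comap (j : K →+* F) = v.ring} : ℤ) : ℚ) •
        Finsupp.single (y v) (1 : ℚ)) -
        (((Nat.card {τ : F ≃ₐ[RatFunc k] F //
          (w₁.map (τ.restrictScalars k)).ring.comap (j : K →+* F) = v.ring} : ℤ) : ℚ) •
        Finsupp.single (y v) (1 : ℚ))) := by
    rw [Finset.smul_sum]
    refine Finset.sum_congr rfl fun v _ => ?_
    have e0 := hcount 0 w₀ hw₀' v
    have e1 := hcount 1 w₁ hw₁' v
    rw [map_zero, sub_zero] at e0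
    rw [map_one] at e1
    rw [e0, e1, ← sub_smul, Finsupp.smul_single, Finsupp.smul_single]
    congr 1
    rw [hD, DWG.ord_split hK hft v, ← hg]
    push_cast
    rw [smul_eq_mul, smul_eq_mul]
    field_simp
  rw [hfin2]
  exact Submodule.smul_mem _ _ hgen

end Pool.Agent.HYG
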