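import Pool.Agent.HYG.Defs

/-!
# The core: the two point lemma
-/

set_option autoImplicit false

noncomputable section

namespace Pool.Agent.HYG.Chn

open Pool.Agent.ZCyc Pool.Agent.Dess Pool.Agent.GT Pool.Agent.TInc
open scoped Classical

variable {k : Type} [Field k] [IsAlgClosed k] [CharZero k] {K : Type} [Field K] [Algebra k K]

/-- the roots of unity of the extension are the images of the roots of unity -/
private lemma atwo_roots {M : ℕ} (hM : 0 < M) :
    Polynomial.nthRootsFinset M (1 : K) =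
      (Polynomial.nthRootsFinset M (1 : k)).image (algebraMap k K) := by
  have : NeZero M := ⟨hM.ne'⟩
  have : NeZero (M : k) := ⟨by exact_mod_cast hM.ne'⟩
  obtain ⟨z, hz⟩ := HasEnoughRootsOfUnity.exists_primitiveRoot k M
  have hz' : IsPrimitiveRoot (algebraMap k K z) M :=
    hz.map_of_injective (algebraMap k K).injective
  symm
  apply Finset.eq_of_subset_of_card_le
  · intro x hx
    obtain ⟨y, hy, rfl⟩ := Finset.mem_image.1 hx
    rw [Polynomial.mem_nthRootsFinset hM] at hy ⊢
    rw [← map_pow, hy, map_one]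
  · rw [Finset.card_image_of_injective _ (algebraMap k K).injective,
      hz.card_nthRootsFinset, hz'.card_nthRootsFinset]

/-- `∏ (ζ η - 1)` over the `M`-th roots of unity is `± (η ^ M - 1)`
(`IsPrimitiveRoot.pow_sub_pow_eq_prod_sub_mul`, `ζ η - 1 = - ζ (ζ⁻¹ - η)`), so the sum of the orders
of the functions `ζ η - 1` is the order of `η ^ M - 1` (`ord_prod`, `ord_const`, `ord_neg`). -/
theorem sum_ord_roots (hK : IsCurve k K) (v : Place k K) {M : ℕ} (hM : 0 < M) {η : K}
    (h : η ^ M ≠ 1) :
    ∑ ζ ∈ Polynomial.nthRootsFinset M (1 : k), ord v (algebraMap k K ζ * η - 1) =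
      ord v (η ^ M - 1) := by
  have : NeZero M := ⟨hM.ne'⟩
  have : NeZero (M : k) := ⟨by exact_mod_cast hM.ne'⟩
  obtain ⟨z, hz⟩ := HasEnoughRootsOfUnity.exists_primitiveRoot k M
  have hz' : IsPrimitiveRoot (algebraMap k K z) M :=
    hz.map_of_injective (algebraMap k K).injective
  have e := hz'.pow_sub_pow_eq_prod_sub_mul 1 η hM
  rw [atwo_roots (k := k) hM, Finset.prod_image
    (fun x _ y _ hxy => (algebraMap k K).injective hxy), one_pow] at e
  have hne : ∀ ζ ∈ Polynomial.nthRootsFinset M (1 : k), (1 : K) - algebraMap k K ζ * η ≠ 0 := by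
    intro ζ hζ h0
    rw [Polynomial.mem_nthRootsFinset hM] at hζ
    apply h
    have h1 : (algebraMap k K ζ * η) ^ M = 1 := by
      rw [← sub_eq_zero.1 h0, one_pow]
    rwa [mul_pow, ← map_pow, hζ, map_one, one_mul] at h1
  have h2 := ord_prod hK v (Polynomial.nthRootsFinset M (1 : k))
    (fun ζ => (1 : K) - algebraMap k K ζ * η) hne
  rw [← e] at h2
  rw [← neg_sub, ord_neg hK] at h2
  rw [h2]
  apply Finset.sum_congr rfl
  intro ζ _
  rw [← neg_sub, ord_neg hK]

/-- If `η` has the value `a` at `v`, then `ζ η - 1` has order zero for `ζ a ≠ 1`. So if `a ^ M ≠ 1`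
all orders are zero, and if `a ^ M = 1` only `ζ = a⁻¹` contributes. (`ord_of_at`) -/
theorem ord_root_zero (hK : IsCurve k K) {v : Place k K} {η : K} {a ζ : k} (h : v.At η a)
    (hne : ζ * a ≠ 1) : ord v (algebraMap k K ζ * η - 1) = 0 := by
  have h1 := ((Place.at_const (v := v) ζ).mul h).sub (Place.at_const (v := v) (1 : k))
  rw [map_one] at h1
  exact ord_of_at hK h1 (sub_ne_zero.2 hne)

/-- the contribution of a place -/
private lemma atwo_contrib (hK : IsCurve k K) {W : Type} [AddCommGroup W] [Module ℚ W] {M : ℕ}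
    (hM : 0 < M) {t u η : K} (ht0 : t ≠ 0) (hu0 : u ≠ 0) (hη : η ^ M = 1 + t * u)
    (hu₁ : ∀ v : Place k K, v.At t 0 → ∃ d, d ≠ 0 ∧ v.At u d)
    (hu₂ : ∀ v : Place k K, t ∉ v.ring → ∃ d, d ≠ 0 ∧ v.At (t ^ 2 * u) d)
    (hu₃ : ∀ v : Place k K, t ∈ v.ring → u⁻¹ ∈ v.ring)
    (F : k → Place k K → W) {g₁ g₂ : W}
    (hF0 : ∀ (ζ : k) (v : Place k K), η ∉ v.ring → F ζ v = 0)
    (hF1 : ∀ (ζ : k) (v : Place k K), ζ ^ M = 1 → v.At t 0 → v.At (algebraMap k K ζ * η) 1 →
      F ζ v = g₁)
    (hF2 : ∀ (ζ : k) (v : Place k K), ζ ^ M = 1 → t ∉ v.ring → v.At (algebraMap k K ζ * η) 1 →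
      F ζ v = g₂) (v : Place k K) :
    ∑ ζ ∈ Polynomial.nthRootsFinset M (1 : k), ord v (algebraMap k K ζ * η - 1) • F ζ v =
      (if v.Vanishes t then ord v t • g₁ else 0) +
        if t ∉ v.ring then (-ord v t) • g₂ else 0 := by
  have htu0 : t * u ≠ 0 := mul_ne_zero ht0 hu0
  have hη1 : η ^ M ≠ 1 := by
    intro h
    apply htu0
    rw [h] at hη
    exact (left_eq_add.1 hη)
  -- at a zero or a pole of `t` the function `t u` vanishes
  have hz : v.Vanishes t ∨ t ∉ v.ring → v.At (t * u) 0 := by
    rintro (h | h)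
    · obtain ⟨d, _, hd⟩ := hu₁ v (Place.at_zero_iff.2 h)
      have h1 := (Place.at_zero_iff.2 h).mul hd
      rwa [zero_mul] at h1
    · obtain ⟨d, _, hd⟩ := hu₂ v h
      have h1 : v.Vanishes t⁻¹ := by
        rw [Place.vanishes_iff_or, inv_inv]
        exact Or.inr h
      have h2 := hd.mul (Place.at_zero_iff.2 h1)
      rw [mul_zero] at h2
      have e : t ^ 2 * u * t⁻¹ = t * u := by
        field_simp
      rwa [e] at h2
  have hz1 : v.Vanishes t ∨ t ∉ v.ring → v.At (η ^ M) 1 := by
    intro h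
    have h1 := (Place.at_const (v := v) (1 : k)).add (hz h)
    rw [map_one, add_zero, ← hη] at h1
    exact h1
  by_cases hηv : η ∈ v.ring
  · obtain ⟨a, ha⟩ := exists_at hK v hηv
    have haM : v.At (η ^ M) (a ^ M) := ha.pow M
    by_cases haM1 : a ^ M = 1
    · -- one root of unity contributes
      have ha0 : a ≠ 0 := by
        rintro rfl
        rw [zero_pow hM.ne'] at haM1
        exact zero_ne_one haM1
      have hζ0 : (a⁻¹) ^ M = 1 := by rw [inv_pow, haM1, inv_one]
      have hmem : a⁻¹ ∈ Polynomial.nthRootsFinset M (1 : k) :=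
        (Polynomial.mem_nthRootsFinset hM _).2 hζ0
      have hoth : ∀ ζ ∈ Polynomial.nthRootsFinset M (1 : k), ζ ≠ a⁻¹ →
          ord v (algebraMap k K ζ * η - 1) = 0 := by
        intro ζ _ hζ
        apply ord_root_zero hK ha
        intro h
        exact hζ (eq_inv_of_mul_eq_one_left h)
      have h1 : ∑ ζ ∈ Polynomial.nthRootsFinset M (1 : k),
          ord v (algebraMap k K ζ * η - 1) • F ζ v =
          ord v (algebraMap k K a⁻¹ * η - 1) • F a⁻¹ v := by
        apply Finset.sum_eq_single_of_mem _ hmem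
        intro ζ hζ hne
        rw [hoth ζ hζ hne, zero_smul]
      have h2 : ord v (algebraMap k K a⁻¹ * η - 1) = ord v (t * u) := by
        rw [← Finset.sum_eq_single_of_mem (f := fun ζ => ord v (algebraMap k K ζ * η - 1)) _ hmem
          hoth, sum_ord_roots hK v hM hη1, hη, add_sub_cancel_left]
      have hval : v.At (algebraMap k K a⁻¹ * η) 1 := by
        have h3 := (Place.at_const (v := v) a⁻¹).mul ha
        rwa [inv_mul_cancel₀ ha0] at h3
      rw [h1, h2]
      by_cases htv : t ∈ v.ring
      · have hvt : v.Vanishes t := by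
          obtain ⟨b, hb⟩ := exists_at hK v htv
          by_cases hb0 : b = 0
          · rw [hb0] at hb
            exact Place.at_zero_iff.1 hb
          · exfalso
            have h3 : v.At (t * u) 0 := by
              have h4 := haM.sub (Place.at_const (v := v) (1 : k))
              rw [haM1, sub_self, map_one, hη, add_sub_cancel_left] at h4
              exact h4
            have h4 := h3.mul (hb.inv hb0)
            have e : t * u * t⁻¹ = u := by
              field_simp
            rw [e, zero_mul, Place.at_zero_iff, Place.vanishes_iff_or] at h4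
            rcases h4 with h4 | h4
            · exact hu0 h4
            · exact h4 (hu₃ v htv)
        obtain ⟨d, hd0, hd⟩ := hu₁ v (Place.at_zero_iff.2 hvt)
        rw [if_pos hvt, if_neg (not_not.2 htv), add_zero, ord_mul hK v ht0 hu0,
          ord_of_at hK hd hd0, add_zero, hF1 _ v hζ0 (Place.at_zero_iff.2 hvt) hval]
      · have hvt : ¬ v.Vanishes t := fun h => htv (Place.Vanishes.mem v h)
        obtain ⟨d, hd0, hd⟩ := hu₂ v htv
        have h3 := ord_of_at hK hd hd0
        rw [ord_mul hK v (pow_ne_zero 2 ht0) hu0, ord_pow hK] at h3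
        have h4 : ord v (t * u) = -ord v t := by
          rw [ord_mul hK v ht0 hu0]
          push_cast at h3
          omega
        rw [if_neg hvt, if_pos htv, zero_add, h4, hF2 _ v hζ0 htv hval]
    · -- nothing contributes
      have hno : ¬ (v.Vanishes t ∨ t ∉ v.ring) := fun h => haM1 (haM.unique (hz1 h))
      rw [not_or] at hno
      rw [if_neg hno.1, if_neg hno.2, add_zero]
      apply Finset.sum_eq_zero
      intro ζ hζ
      rw [Polynomial.mem_nthRootsFinset hM] at hζ
      rw [ord_root_zero hK ha, zero_smul]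
      intro h
      apply haM1
      have h1 : (ζ * a) ^ M = 1 := by rw [h, one_pow]
      rwa [mul_pow, hζ, one_mul] at h1
  · -- poles of `η`
    have hno : ¬ (v.Vanishes t ∨ t ∉ v.ring) := by
      intro h
      apply hηv
      have h1 := (hz1 h).mem
      have hη0 : η ≠ 0 := by
        rintro rfl
        exact hηv (zero_mem _)
      rw [mem_iff_ord hK (pow_ne_zero M hη0), ord_pow hK] at h1
      rw [mem_iff_ord hK hη0]
      have hM' : (0 : ℤ) < M := by exact_mod_cast hM
      exact nonneg_of_mul_nonneg_right h1 hM'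
    rw [not_or] at hno
    rw [if_neg hno.1, if_neg hno.2, add_zero]
    apply Finset.sum_eq_zero
    intro ζ _
    rw [hF0 ζ v hηv, smul_zero]

/-- TWO POINT LEMMA. Let `η ^ M = 1 + t u`, where `t` is not constant, `u` has a nonzero value at the
zeros of `t`, `t ^ 2 u` has a nonzero value at the poles of `t`, and `u⁻¹` is regular where `t` is
regular. For every `M`-th root of unity `ζ` let `F ζ` be a function on the places with
`∑ v, ord v (ζ η - 1) • F ζ v = 0`, which is zero at the poles of `η`. If `F ζ v = g₁` at all zeros of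
`t` with `ζ η (v) = 1`, and `F ζ v = g₂` at all poles of `t` with `ζ η (v) = 1`, then `g₁ + g₂ = 0`.

Proof. Add the relations for all `ζ`. The contribution of a place `v` is
`∑ ζ, ord v (ζ η - 1) • F ζ v`. It is zero at the poles of `η`. Let `η` have the value `a` at `v`
(`exists_at`). If `a ^ M ≠ 1` it is zero by `ord_root_zero`. If `a ^ M = 1` then `η ^ M - 1 = t u`
vanishes at `v`, so `v` is a zero of `t` (if `t` has a value `b ≠ 0` then `u = (t u) / t` vanishes, but
`u⁻¹` is regular) or a pole of `t`, and the contribution is `ord v (η ^ M - 1) • g₁` resp.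
`ord v (η ^ M - 1) • g₂` by `sum_ord_roots` and `ord_root_zero` (only `ζ = a⁻¹` contributes), and
`ord v (η ^ M - 1) = ord v (t u) = ord v t` resp. `= ord v (t ^ 2 u) - ord v t = - ord v t`. At a zero
of `t` we have `t u → 0`, so `a ^ M = 1` (the value exists, `η` has no pole there); the same at a pole
of `t`: `t u = (t ^ 2 u) t⁻¹ → 0`. So the sum is
`(∑ zeros of t, ord v t) • g₁ + (∑ poles of t, - ord v t) • g₂ = N • (g₁ + g₂)`,
`N = finrank (k(t)) K > 0` (`deg_zeros'`, `deg_poles'`). -/
theorem two_point (hK : IsCurve k K) {W : Type} [AddCommGroup W] [Module ℚ W] {M : ℕ} (hM : 0 < M)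
    {t u η : K} (ht : Transcendental k t) (hη : η ^ M = 1 + t * u)
    (hu₁ : ∀ v : Place k K, v.At t 0 → ∃ d, d ≠ 0 ∧ v.At u d)
    (hu₂ : ∀ v : Place k K, t ∉ v.ring → ∃ d, d ≠ 0 ∧ v.At (t ^ 2 * u) d)
    (hu₃ : ∀ v : Place k K, t ∈ v.ring → u⁻¹ ∈ v.ring)
    (F : k → Place k K → W) {g₁ g₂ : W}
    (hF : ∀ ζ : k, ζ ^ M = 1 → ((dv hK (algebraMap k K ζ * η - 1)).sum fun v a => a • F ζ v) = 0)
    (hF0 : ∀ (ζ : k) (v : Place k K), η ∉ v.ring → F ζ v = 0)
    (hF1 : ∀ (ζ : k) (v : Place k K), ζ ^ M = 1 → v.At t 0 → v.At (algebraMap k K ζ * η) 1 →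
      F ζ v = g₁)
    (hF2 : ∀ (ζ : k) (v : Place k K), ζ ^ M = 1 → t ∉ v.ring → v.At (algebraMap k K ζ * η) 1 →
      F ζ v = g₂) : g₁ + g₂ = 0 := by
  have ht0 : t ≠ 0 := by
    rintro rfl
    exact ht isAlgebraic_zero
  have := fin_adjoin hK ht
  have hN : 0 < Module.finrank (IntermediateField.adjoin k {t}) K := Module.finrank_pos
  -- zeros and poles of `t`
  set S := (finite_ord hK t).toFinset with hS
  set Z := S.filter fun v => v.Vanishes t with hZ
  set P := S.filter fun v => t ∉ v.ring with hP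
  have hZ' : ∀ v, v ∈ Z ↔ v.Vanishes t := by
    intro v
    rw [hZ, Finset.mem_filter, hS, Set.Finite.mem_toFinset]
    constructor
    · exact fun h => h.2
    · intro h
      refine ⟨?_, h⟩
      have := (vanishes_iff_ord hK ht0).1 h
      exact ne_of_gt this
  have hP' : ∀ v, v ∈ P ↔ t ∉ v.ring := by
    intro v
    rw [hP, Finset.mem_filter, hS, Set.Finite.mem_toFinset]
    constructor
    · exact fun h => h.2
    · intro h
      refine ⟨?_, h⟩
      rw [mem_iff_ord hK ht0, not_le] at h
      exact ne_of_lt h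
  have hdZ := deg_zeros' hK ht Z hZ'
  have hdP := deg_poles' hK ht P hP'
  -- `u ≠ 0`
  have hu0 : u ≠ 0 := by
    have hne : Z.Nonempty := by
      rw [Finset.nonempty_iff_ne_empty]
      intro h
      rw [h, Finset.sum_empty] at hdZ
      omega
    obtain ⟨v, hv⟩ := hne
    obtain ⟨d, hd0, hd⟩ := hu₁ v (Place.at_zero_iff.2 ((hZ' v).1 hv))
    rintro rfl
    have h0 := Place.at_const (v := v) (0 : k)
    rw [map_zero] at h0
    exact hd0 (hd.unique h0)
  have hc := atwo_contrib hK hM ht0 hu0 hη hu₁ hu₂ hu₃ F hF0 hF1 hF2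
  -- the sum of all relations
  set R := Polynomial.nthRootsFinset M (1 : k) with hR
  set T := R.biUnion (fun ζ => (dv hK (algebraMap k K ζ * η - 1)).support) ∪ (Z ∪ P) with hT
  have hsum : ∀ ζ ∈ R, ∑ v ∈ T, ord v (algebraMap k K ζ * η - 1) • F ζ v = 0 := by
    intro ζ hζ
    have h1 := hF ζ ((Polynomial.mem_nthRootsFinset hM _).1 hζ)
    rw [Finsupp.sum_of_support_subset (s := T)] at h1
    · exact h1
    · intro v hv
      rw [hT]
      apply Finset.mem_union_left
      rw [Finset.mem_biUnion]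
      exact ⟨ζ, hζ, hv⟩
    · intro v _
      exact zero_smul ℤ _
  have htot : ∑ v ∈ T, ((if v.Vanishes t then ord v t • g₁ else 0) +
      if t ∉ v.ring then (-ord v t) • g₂ else 0) = 0 := by
    rw [← Finset.sum_congr rfl (fun v _ => hc v), Finset.sum_comm]
    exact Finset.sum_eq_zero hsum
  have hfZ : T.filter (fun v => v.Vanishes t) = Z := by
    ext v
    rw [Finset.mem_filter, hZ']
    constructor
    · exact fun h => h.2
    · intro h
      exact ⟨Finset.mem_union_right _ (Finset.mem_union_left _ ((hZ' v).2 h)), h⟩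
  have hfP : T.filter (fun v => t ∉ v.ring) = P := by
    ext v
    rw [Finset.mem_filter, hP']
    constructor
    · exact fun h => h.2
    · intro h
      exact ⟨Finset.mem_union_right _ (Finset.mem_union_right _ ((hP' v).2 h)), h⟩
  rw [Finset.sum_add_distrib, ← Finset.sum_filter, ← Finset.sum_filter, hfZ, hfP,
    ← Finset.sum_smul, ← Finset.sum_smul, hdZ, hdP, ← smul_add, ← Int.cast_smul_eq_zsmul ℚ] at htot
  rcases smul_eq_zero.1 htot with h | h
  · exfalso
    have h1 : Module.finrank (IntermediateField.adjoin k {t}) K = 0 := by exact_mod_cast h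
    omega
  · exact h

end Pool.Agent.HYG.Chn
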