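import Pool.Agent.HYG.CovA
import Pool.Agent.HYG.Roots

/-!
# From class functions of two points to class functions in the coordinates `μ`, `c`
-/

set_option autoImplicit false

noncomputable section

namespace Pool.Agent.HYG

open Pool.Agent.ZCyc Pool.Agent.Dess Pool.Agent.GT Pool.Agent.TInc
open scoped Classical LinearAlgebra.Projectivization

variable {k : Type} [Field k] [IsAlgClosed k] [CharZero k] {m : ℕ} {A A' : Matrix (Fin m) (Fin m) k}
  {M : Fin m → ℕ} {R W : Type} [Field R] [AddCommGroup W] [Module R W] {χ : Fin m → k → R}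
  {E : (Fin m → Option k) → (Fin m → Option k) → W}

omit [IsAlgClosed k] [CharZero k] in
/-- the values at places above each other (`vl_below`, `vl_eq`) -/
theorem GG_below (G : (Fin m → k) → (Fin m → k) → W) {K K' : Type} [Field K] [Algebra k K]
    [Field K'] [Algebra k K'] {φ : K →ₐ[k] K'} {v : Place k K} {w : Place k K'}
    (h : w.ring.comap (φ : K →+* K') = v.ring) (μ C : Fin m → K) :
    GG G w (fun i => φ (μ i)) (fun i => φ (C i)) = GG G v μ C := by
  have hat : ∀ (f : K) (c : k), w.At (φ f) c ↔ v.At f c := by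
    intro f c
    rw [← vl_eq, ← vl_eq, vl_below h]
  unfold GG
  simp only [hat]

/-- Take `K'`, `φ`, `w` from `exists_roots` for the `μ i`, and `w' i = φ (C i) / w i`. The relation of `E`
for `φ f` is `N` times the relation of `desc M E` for `f`, by `cls_value`, `GG_below` and
`GTC.cvr_div` (with `Module ℚ W` from `Module.compHom W (algebraMap ℚ R)`, `R` has
characteristic zero; `matK` commutes with `φ`). `tw` is `desc_tw`. -/
theorem relG_desc [CharZero R] (hM : ∀ i, 0 < M i) (hχ : Chars M χ) (hE : IsCls A A' M χ E) :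
    RelG A A' M χ (desc M E) := by
  refine ⟨?_, fun μ c i u hu => desc_tw hχ hE μ c i hu⟩
  intro K _ _ hK μ C f hf hμ hC hA hA'
  obtain ⟨K', iK', iA', hK', φ, w, hw⟩ := exists_roots hK hM μ
  have hφ : Function.Injective φ := (φ : K →+* K').injective
  have hφ0 : ∀ x : K, x ≠ 0 → φ x ≠ 0 := fun x hx h => hx (hφ (by rw [h, map_zero]))
  have hmat : ∀ (B : Matrix (Fin m) (Fin m) k) (ν : Fin m → K) (ν' : Fin m → K'),
      (∀ i, ν' i = φ (ν i)) → (matK B ν).det = 0 → (matK B ν').det = 0 := by
    intro B ν ν' hν h0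
    have h1 : matK B ν' = (φ : K →+* K').mapMatrix (matK B ν) := by
      ext i j
      simp only [matK, Matrix.sub_apply, Matrix.map_apply, RingHom.mapMatrix_apply,
        Matrix.diagonal_apply, map_sub, RingHom.coe_coe, AlgHom.commutes]
      congr 1
      split_ifs with h2
      · exact hν i
      · rw [map_zero]
    rw [h1, ← RingHom.map_det, h0, map_zero]
  have h1 := hE.rel K' hK' w (fun i => φ (C i) / w i) (φ f) (hφ0 f hf)
    (hmat A μ _ hw hA)
    (hmat A' (snd M μ C) _ (fun i => by
      unfold snd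
      rw [div_pow, hw, map_div₀, map_pow]) hA')
  have h2 : ∀ v : Place k K', E (fun i => vl v (w i)) (fun i => vl v (φ (C i) / w i)) =
      GG (desc M E) v (fun i => φ (μ i)) (fun i => φ (C i)) := fun v =>
    cls_value hM hχ hE hK' (fun i => hφ0 _ (hμ i)) (fun i => hφ0 _ (hC i)) hw v
  simp only [h2] at h1
  obtain ⟨N, hN, hdiv⟩ := GTC.cvr_div hK hK' φ
  letI : Module ℚ W := Module.compHom W (algebraMap ℚ R)
  have h3 := hdiv f hf (fun v => GG (desc M E) v μ C)
    (fun v => GG (desc M E) v (fun i => φ (μ i)) (fun i => φ (C i)))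
    (fun w' v hv => GG_below (desc M E) hv μ C)
  simp only [Int.cast_smul_eq_zsmul] at h3
  rw [h1] at h3
  have hN' : (N : ℚ) ≠ 0 := by exact_mod_cast hN.ne'
  have h4 := congrArg (fun x => (N : ℚ)⁻¹ • x) h3
  simp only [smul_zero, inv_smul_smul₀ hN'] at h4
  exact h4.symm

end Pool.Agent.HYG
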