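import Pool.Agent.HYG.Defs

/-!
# Project HYG, block D: points of the product of hypersurfaces in the product of projective lines
-/

set_option autoImplicit false

noncomputable section

namespace Pool.Agent.HYG

open Pool.Agent.ZCyc Pool.Agent.Dess Pool.Agent.GT Pool.Agent.TInc
open scoped Classical LinearAlgebra.Projectivization

variable {k : Type} [Field k]

/-- the homogeneous coordinates of `toP (some w)` -/
theorem toP_some (w : k) : ∃ a : k, a ≠ 0 ∧ (toP (some w)).rep 0 = a * w ∧
    (toP (some w)).rep 1 = a := by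
  obtain ⟨a, ha⟩ := Projectivization.exists_smul_eq_mk_rep k (![w, 1] : Fin 2 → k) (by
    intro h
    have h1 := congrFun h 1
    simp at h1)
  refine ⟨a, a.ne_zero, ?_, ?_⟩
  · change (Projectivization.mk k (![w, 1] : Fin 2 → k) _).rep 0 = _
    rw [← ha]
    rfl
  · change (Projectivization.mk k (![w, 1] : Fin 2 → k) _).rep 1 = _
    rw [← ha]
    change (a : k) * 1 = a
    rw [mul_one]

/-- the homogeneous coordinates of the point at infinity -/
theorem toP_none : ∃ a : k, a ≠ 0 ∧ (toP (none : Option k)).rep 0 = a ∧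
    (toP (none : Option k)).rep 1 = 0 := by
  obtain ⟨a, ha⟩ := Projectivization.exists_smul_eq_mk_rep k (![1, 0] : Fin 2 → k) (by
    intro h
    have h1 := congrFun h 0
    simp at h1)
  refine ⟨a, a.ne_zero, ?_, ?_⟩
  · change (Projectivization.mk k (![1, 0] : Fin 2 → k) _).rep 0 = _
    rw [← ha]
    change (a : k) * 1 = a
    rw [mul_one]
  · change (Projectivization.mk k (![1, 0] : Fin 2 → k) _).rep 1 = _
    rw [← ha]
    change (a : k) * 0 = 0
    rw [mul_zero]

/-- two points of the projective line with proportional coordinates are equal -/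
theorem eq_of_cross {p q : ℙ k (Fin 2 → k)} (h : p.rep 0 * q.rep 1 = q.rep 0 * p.rep 1) :
    p = q := by
  rw [← p.mk_rep, ← q.mk_rep, Projectivization.mk_eq_mk_iff']
  have hp := p.rep_nonzero
  have hq := q.rep_nonzero
  have key : ∀ v : Fin 2 → k, v ≠ 0 → v 0 ≠ 0 ∨ v 1 ≠ 0 := by
    intro v hv
    by_contra hc
    push Not at hc
    apply hv
    funext i
    fin_cases i
    · exact hc.1
    · exact hc.2
  rcases key _ hq with h0 | h1
  · refine ⟨p.rep 0 / q.rep 0, ?_⟩
    funext i
    fin_cases i
    · change p.rep 0 / q.rep 0 * q.rep 0 = p.rep 0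
      rw [div_mul_cancel₀ _ h0]
    · change p.rep 0 / q.rep 0 * q.rep 1 = p.rep 1
      rw [div_mul_eq_mul_div, h, mul_comm, mul_div_assoc, div_self h0, mul_one]
  · refine ⟨p.rep 1 / q.rep 1, ?_⟩
    funext i
    fin_cases i
    · change p.rep 1 / q.rep 1 * q.rep 0 = p.rep 0
      rw [div_mul_eq_mul_div, mul_comm (p.rep 1), ← h, mul_div_assoc, div_self h1, mul_one]
    · change p.rep 1 / q.rep 1 * q.rep 1 = p.rep 1
      rw [div_mul_cancel₀ _ h1]

/-- the coordinate of a point of the projective line -/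
def ofP (p : ℙ k (Fin 2 → k)) : Option k :=
  if p.rep 1 = 0 then none else some (p.rep 0 / p.rep 1)

theorem toP_ofP (p : ℙ k (Fin 2 → k)) : toP (ofP p) = p := by
  unfold ofP
  split_ifs with h
  · obtain ⟨a, -, h0, h1⟩ := toP_none (k := k)
    apply eq_of_cross
    rw [h1, h, mul_zero, mul_zero]
  · obtain ⟨a, -, h0, h1⟩ := toP_some (p.rep 0 / p.rep 1)
    apply eq_of_cross
    rw [h0, h1, mul_assoc, div_mul_cancel₀ _ h, mul_comm]

theorem ofP_toP (P : Option k) : ofP (toP P) = P := by
  unfold ofP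
  cases P with
  | none =>
    obtain ⟨a, ha, h0, h1⟩ := toP_none (k := k)
    rw [if_pos h1]
  | some w =>
    obtain ⟨a, ha, h0, h1⟩ := toP_some w
    rw [h1, if_neg ha, h0, mul_comm, mul_div_assoc, div_self ha, mul_one]

theorem toP_inj {P Q : Option k} (h : toP P = toP Q) : P = Q := by
  rw [← ofP_toP P, h, ofP_toP]

variable {X : Dat k}

/-- the row `i` of the matrix in the definition of `YP` -/
theorem toP_row {N : ℕ} (A : Matrix (Fin N) (Fin N) k) {M : Fin N → ℕ} (hM : ∀ i, 0 < M i)
    (P : Fin N → Option k) (i : Fin N) : ∃ s : k, s ≠ 0 ∧ ∀ j,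
      (toP (P i)).rep 1 ^ M i * A i j - (if i = j then (toP (P i)).rep 0 ^ M i else 0) =
        s * mat A M P i j := by
  unfold mat
  cases hP : P i with
  | none =>
    obtain ⟨a, ha, h0, h1⟩ := toP_none (k := k)
    refine ⟨-(a ^ M i), neg_ne_zero.2 (pow_ne_zero _ ha), fun j => ?_⟩
    rw [h0, h1, zero_pow (hM i).ne', zero_mul, zero_sub]
    split_ifs
    · rw [mul_one]
    · rw [neg_zero, mul_zero]
  | some w =>
    obtain ⟨a, ha, h0, h1⟩ := toP_some w
    refine ⟨a ^ M i, pow_ne_zero _ ha, fun j => ?_⟩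
    rw [h0, h1, mul_pow, mul_sub]
    split_ifs
    · rfl
    · rw [mul_zero]

/-- The points of the product of hypersurfaces. -/
theorem toP_mem (hM : ∀ i, 0 < X.M i) {P : Fin X.N → Option k} :
    (fun i => toP (P i)) ∈ YP X ↔ OnB X P := by
  choose s hs hr using toP_row X.A hM P
  have key : ∀ b, (Matrix.toSquareBlock (fun i j => (toP (P i)).rep 1 ^ X.M i * X.A i j -
      if i = j then (toP (P i)).rep 0 ^ X.M i else 0) X.β b).det =
      (∏ i : {i // X.β i = b}, s i) * (Matrix.toSquareBlock (mat X.A X.M P) X.β b).det := by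
    intro b
    rw [← Matrix.det_mul_column]
    congr 1
    funext i j
    exact hr i j
  constructor
  · intro h b
    have h1 := h b
    have h2 := key b
    rw [h1] at h2
    exact (mul_eq_zero.1 h2.symm).resolve_left (Finset.prod_ne_zero_iff.2 fun i _ => hs i)
  · intro h b
    refine (key b).trans ?_
    rw [h b, mul_zero]

/-- every point of the product of hypersurfaces has a coordinate function -/
theorem exists_toP (hM : ∀ i, 0 < X.M i) {p : Fin X.N → ℙ k (Fin 2 → k)} (hp : p ∈ YP X) :
    ∃ P : Fin X.N → Option k, OnB X P ∧ (fun i => toP (P i)) = p := by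
  have h : (fun i => toP (ofP (p i))) = p := funext fun i => toP_ofP (p i)
  refine ⟨fun i => ofP (p i), ?_, h⟩
  rw [← toP_mem hM, h]
  exact hp

/-! ### The automorphisms -/

/-- `[x : y] ↦ [u x : y]` -/
def mulP (u : k) (hu : u ≠ 0) (p : ℙ k (Fin 2 → k)) : ℙ k (Fin 2 → k) :=
  Projectivization.mk k ![u * p.rep 0, p.rep 1] (by
    intro h
    apply p.rep_nonzero
    have h0 := congrFun h 0
    have h1 := congrFun h 1
    funext i
    fin_cases i
    · have h2 : u * p.rep 0 = 0 := h0
      exact (mul_eq_zero.1 h2).resolve_left hu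
    · exact h1)

theorem mulP_toP {u : k} (hu : u ≠ 0) (P : Option k) :
    mulP u hu (toP P) = toP (P.map fun w => u * w) := by
  obtain ⟨c, hc⟩ := Projectivization.exists_smul_eq_mk_rep k
    (![u * (toP P).rep 0, (toP P).rep 1] : Fin 2 → k) (by
    intro h
    apply (toP P).rep_nonzero
    have h0 := congrFun h 0
    have h1 := congrFun h 1
    funext i
    fin_cases i
    · have h2 : u * (toP P).rep 0 = 0 := h0
      exact (mul_eq_zero.1 h2).resolve_left hu
    · exact h1)
  have e0 : (mulP u hu (toP P)).rep 0 = (c : k) * (u * (toP P).rep 0) := by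
    unfold mulP
    rw [← hc]
    rfl
  have e1 : (mulP u hu (toP P)).rep 1 = (c : k) * (toP P).rep 1 := by
    unfold mulP
    rw [← hc]
    rfl
  apply eq_of_cross
  rw [e0, e1]
  cases P with
  | none =>
    obtain ⟨a, ha, h0, h1⟩ := toP_none (k := k)
    change _ * (toP (none : Option k)).rep 1 = (toP (none : Option k)).rep 0 * _
    rw [h1, mul_zero, mul_zero, mul_zero]
  | some w =>
    obtain ⟨a, ha, h0, h1⟩ := toP_some w
    obtain ⟨b, hb, g0, g1⟩ := toP_some (u * w)
    change _ * (toP (some (u * w))).rep 1 = (toP (some (u * w))).rep 0 * _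
    rw [g0, g1, h0, h1]
    ring

end Pool.Agent.HYG
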