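import Pool.Agent.HYG.ADefs

/-!
# The core: linear algebra
-/

set_option autoImplicit false

noncomputable section

namespace Pool.Agent.HYG.Chn

open Matrix
open scoped Classical

variable {K : Type} [Field K] {m : ℕ}

/-- `X` is a null vector of `A - diag (ν(X))` (`Matrix.exists_mulVec_eq_zero_iff`; `X ≠ 0`, because
the coordinate `i₀` is not zero). -/
theorem det_nu {A : Matrix (Fin m) (Fin m) K} {X : Fin m → K} (hX : ∀ i, X i ≠ 0) (i₀ : Fin m) :
    (A - Matrix.diagonal (nu A X)).det = 0 := by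
  rw [← Matrix.exists_mulVec_eq_zero_iff]
  refine ⟨X, fun h => hX i₀ (congrFun h i₀), ?_⟩
  funext i
  rw [Matrix.sub_mulVec, Pi.sub_apply, Matrix.mulVec_diagonal, Pi.zero_apply]
  unfold nu
  rw [div_mul_cancel₀ _ (hX i), sub_self]

/-- `r` is a left null vector of `B - diag μ` (`Matrix.exists_vecMul_eq_zero_iff`). -/
theorem det_left {B : Matrix (Fin m) (Fin m) K} {μ r : Fin m → K} (hr : r ≠ 0)
    (h : ∀ i, (r ᵥ* B) i = μ i * r i) : (B - Matrix.diagonal μ).det = 0 := by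
  rw [← Matrix.exists_vecMul_eq_zero_iff]
  refine ⟨r, hr, ?_⟩
  funext i
  rw [Matrix.vecMul_sub, Pi.sub_apply, Matrix.vecMul_diagonal, Pi.zero_apply, h i]
  ring

/-- the linear system -/
private def sysMap (A B : Matrix (Fin m) (Fin m) K) (μ μ' s : Fin m → K) (J : Finset (Fin m)) :
    ((Fin m → K) × (Fin m → K)) →ₗ[K] ((Fin m → K) × (Fin m → K)) where
  toFun z := (fun i => if i ∈ J then (A *ᵥ z.1) i - μ i * z.1 i else z.2 i + s i * (A *ᵥ z.1) i,
    fun i => if i ∈ J then (z.2 ᵥ* B) i - μ' i * z.2 i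
      else (z.2 ᵥ* B) i + s i * (μ i * μ' i) * z.1 i)
  map_add' z w := by
    apply Prod.ext
    · funext i
      simp only [Prod.fst_add, Prod.snd_add, Matrix.mulVec_add, Pi.add_apply]
      split_ifs <;> ring
    · funext i
      simp only [Prod.fst_add, Prod.snd_add, Matrix.add_vecMul, Pi.add_apply]
      split_ifs <;> ring
  map_smul' c z := by
    apply Prod.ext
    · funext i
      simp only [Prod.smul_fst, Prod.smul_snd, Matrix.mulVec_smul, Pi.smul_apply, smul_eq_mul,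
        RingHom.id_apply]
      split_ifs <;> ring
    · funext i
      simp only [Prod.smul_fst, Prod.smul_snd, Matrix.smul_vecMul, Pi.smul_apply, smul_eq_mul,
        RingHom.id_apply]
      split_ifs <;> ring

private theorem sys_rel (A B : Matrix (Fin m) (Fin m) K) {μ μ' s xs y : Fin m → K}
    (hxs : ∀ i, (xs ᵥ* A) i = μ i * xs i) (hy : ∀ i, (B *ᵥ y) i = μ' i * y i)
    (hs : ∀ i, s i * (B *ᵥ y) i = xs i) (J : Finset (Fin m)) (z : (Fin m → K) × (Fin m → K)) :
    ∑ i, ((if i ∈ J then xs i else (B *ᵥ y) i) * (sysMap A B μ μ' s J z).1 i -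
      y i * (sysMap A B μ μ' s J z).2 i) = 0 := by
  have h1 : ∀ i, (if i ∈ J then xs i else (B *ᵥ y) i) * (sysMap A B μ μ' s J z).1 i -
      y i * (sysMap A B μ μ' s J z).2 i =
      (xs i * (A *ᵥ z.1) i - (μ i * xs i) * z.1 i) +
        (z.2 i * (B *ᵥ y) i - (z.2 ᵥ* B) i * y i) := by
    intro i
    change (if i ∈ J then xs i else (B *ᵥ y) i) *
      (if i ∈ J then (A *ᵥ z.1) i - μ i * z.1 i else z.2 i + s i * (A *ᵥ z.1) i) -
      y i * (if i ∈ J then (z.2 ᵥ* B) i - μ' i * z.2 i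
      else (z.2 ᵥ* B) i + s i * (μ i * μ' i) * z.1 i) = _
    have e1 := hs i
    have e2 := hy i
    split_ifs
    · rw [e2]
      ring
    · rw [← e1, e2]
      ring
  rw [Finset.sum_congr rfl (fun i _ => h1 i), Finset.sum_add_distrib, Finset.sum_sub_distrib,
    Finset.sum_sub_distrib]
  have h2 : ∑ i, xs i * (A *ᵥ z.1) i = ∑ i, (μ i * xs i) * z.1 i := by
    have h3 : xs ⬝ᵥ (A *ᵥ z.1) = (xs ᵥ* A) ⬝ᵥ z.1 := Matrix.dotProduct_mulVec _ _ _
    have h4 : ∑ i, (xs ᵥ* A) i * z.1 i = ∑ i, (μ i * xs i) * z.1 i :=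
      Finset.sum_congr rfl (fun i _ => by rw [hxs i])
    rw [← h4]
    exact h3
  have h5 : ∑ i, z.2 i * (B *ᵥ y) i = ∑ i, (z.2 ᵥ* B) i * y i :=
    Matrix.dotProduct_mulVec z.2 B y
  rw [h2, h5, sub_self, sub_self, add_zero]

/-- The system has a nonzero solution: the linear map `f (X, r) = (p, q)`,
`p_j = (A X)_j - μ_j X_j` (`j ∈ J`), `p_i = r_i + s_i (A X)_i` (`i ∉ J`),
`q_j = (r B)_j - μ'_j r_j` (`j ∈ J`), `q_i = (r B)_i + s_i μ_i μ'_i X_i` (`i ∉ J`) of
`(Fin m → K) × (Fin m → K)` satisfies the linear relation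
`∑ (i ∉ J), (B y)_i p_i + ∑ (j ∈ J), x*_j p_j - ∑ i, y_i q_i = 0`: the terms with `r` cancel by
`∑ i, y_i (r B)_i = ∑ i, r_i (B y)_i` and `(B y)_j = μ'_j y_j`, the terms with `X` are
`∑ i, x*_i (A X)_i - ∑ i, μ_i x*_i X_i = 0`, because `s_i (B y)_i = x*_i`. The relation is not trivial
(`y ≠ 0`), so `f` is not surjective, so it is not injective
(`LinearMap.injective_iff_surjective`). -/
theorem exists_sol (A B : Matrix (Fin m) (Fin m) K) {μ μ' s xs y : Fin m → K}
    (hxs : ∀ i, (xs ᵥ* A) i = μ i * xs i) (hy : ∀ i, (B *ᵥ y) i = μ' i * y i) (hy0 : y ≠ 0)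
    (hs : ∀ i, s i * (B *ᵥ y) i = xs i) (J : Finset (Fin m)) :
    ∃ X r : Fin m → K, (X ≠ 0 ∨ r ≠ 0) ∧ Sol A B μ μ' s J X r := by
  have hninj : ¬ Function.Injective (sysMap A B μ μ' s J) := by
    intro hinj
    have hsurj := LinearMap.injective_iff_surjective.1 hinj
    obtain ⟨i, hi⟩ : ∃ i, y i ≠ 0 := by
      by_contra hc
      push Not at hc
      exact hy0 (funext hc)
    obtain ⟨z, hz⟩ := hsurj (0, Pi.single i 1)
    have h1 := sys_rel A B hxs hy hs J z
    rw [hz] at h1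
    simp only [Pi.zero_apply, mul_zero, zero_sub, Finset.sum_neg_distrib, neg_eq_zero] at h1
    apply hi
    rw [← h1, Finset.sum_eq_single i]
    · rw [Pi.single_eq_same, mul_one]
    · intro j _ hj
      rw [Pi.single_eq_of_ne hj, mul_zero]
    · intro h
      exact absurd (Finset.mem_univ i) h
  rw [← LinearMap.ker_eq_bot, LinearMap.ker_eq_bot'] at hninj
  push Not at hninj
  obtain ⟨z, hz, hz0⟩ := hninj
  have hz1 : ∀ i, (if i ∈ J then (A *ᵥ z.1) i - μ i * z.1 i
      else z.2 i + s i * (A *ᵥ z.1) i) = 0 := fun i => congrFun (congrArg Prod.fst hz) i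
  have hz2 : ∀ i, (if i ∈ J then (z.2 ᵥ* B) i - μ' i * z.2 i
      else (z.2 ᵥ* B) i + s i * (μ i * μ' i) * z.1 i) = 0 :=
    fun i => congrFun (congrArg Prod.snd hz) i
  refine ⟨z.1, z.2, ?_, ?_, ?_, ?_, ?_⟩
  · by_contra hc
    push Not at hc
    exact hz0 (Prod.ext hc.1 hc.2)
  · intro j hj
    have := hz1 j
    rw [if_pos hj] at this
    exact sub_eq_zero.1 this
  · intro j hj
    have := hz2 j
    rw [if_pos hj] at this
    exact sub_eq_zero.1 this
  · intro j hj
    have := hz1 j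
    rw [if_neg hj] at this
    exact eq_neg_of_add_eq_zero_left this
  · intro j hj
    have := hz2 j
    rw [if_neg hj] at this
    rw [eq_neg_of_add_eq_zero_left this]

/-- The solution for `J` equal to all coordinates except `i₀`: `X = x` and `r = a y*`, where `y*` is a
left null vector of `B - diag μ'`, `y*_(i₀) ≠ 0`. -/
theorem sol_top (A B : Matrix (Fin m) (Fin m) K) {μ μ' s x ys : Fin m → K} (i₀ : Fin m)
    (hx : ∀ i, (A *ᵥ x) i = μ i * x i) (hys : ∀ i, (ys ᵥ* B) i = μ' i * ys i) (h0 : ys i₀ ≠ 0) :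
    Sol A B μ μ' s (Finset.univ.erase i₀) x (fun i => -(s i₀ * (A *ᵥ x) i₀) / ys i₀ * ys i) := by
  have hr : ∀ c : K, (fun i => c * ys i) ᵥ* B = fun i => c * (μ' i * ys i) := by
    intro c
    have h1 : (fun i => c * ys i) = c • ys := rfl
    rw [h1, Matrix.smul_vecMul]
    funext i
    rw [Pi.smul_apply, smul_eq_mul, hys i]
  refine ⟨?_, ?_, ?_, ?_⟩
  · intro j _
    exact hx j
  · intro j _
    rw [hr]
    ring
  · intro i hi
    have hii : i = i₀ := by
      by_contra hc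
      exact hi (Finset.mem_erase.2 ⟨hc, Finset.mem_univ i⟩)
    subst hii
    change -(s i * (A *ᵥ x) i) / ys i * ys i = _
    rw [div_mul_cancel₀ _ h0]
  · intro i hi
    have hii : i = i₀ := by
      by_contra hc
      exact hi (Finset.mem_erase.2 ⟨hc, Finset.mem_univ i⟩)
    subst hii
    rw [hr, hx i]
    field_simp

/-- For `A = B` and `J` empty the solution is `(y, - x*)`. -/
theorem sol_bot (A : Matrix (Fin m) (Fin m) K) {μ μ' s xs y : Fin m → K}
    (hxs : ∀ i, (xs ᵥ* A) i = μ i * xs i) (hy : ∀ i, (A *ᵥ y) i = μ' i * y i)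
    (hs : ∀ i, s i * (A *ᵥ y) i = xs i) :
    Sol A A μ μ' s ∅ y (fun i => -xs i) := by
  have hr : (fun i => -xs i) ᵥ* A = fun i => -(μ i * xs i) := by
    have h1 : (fun i => -xs i) = -xs := rfl
    rw [h1, Matrix.neg_vecMul]
    funext i
    rw [Pi.neg_apply, hxs i]
  refine ⟨?_, ?_, ?_, ?_⟩
  · intro j hj
    exact absurd hj (Finset.notMem_empty j)
  · intro j hj
    exact absurd hj (Finset.notMem_empty j)
  · intro i _
    rw [hs i]
  · intro i _
    rw [hr]
    change -(μ i * xs i) = _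
    rw [← hs i, hy i]
    ring

/-- a square matrix with determinant zero has a left null vector -/
theorem exists_left {A : Matrix (Fin m) (Fin m) K} {μ x : Fin m → K} (hx : x ≠ 0)
    (h : ∀ i, (A *ᵥ x) i = μ i * x i) : ∃ xs : Fin m → K, xs ≠ 0 ∧ ∀ i, (xs ᵥ* A) i = μ i * xs i := by
  have hdet : (A - Matrix.diagonal μ).det = 0 := by
    rw [← Matrix.exists_mulVec_eq_zero_iff]
    refine ⟨x, hx, ?_⟩
    funext i
    rw [Matrix.sub_mulVec, Pi.sub_apply, Matrix.mulVec_diagonal, Pi.zero_apply, h i, sub_self]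
  rw [← Matrix.exists_vecMul_eq_zero_iff] at hdet
  obtain ⟨v, hv, hv0⟩ := hdet
  refine ⟨v, hv, fun i => ?_⟩
  have h1 := congrFun hv0 i
  rw [Matrix.vecMul_sub, Pi.sub_apply, Matrix.vecMul_diagonal, Pi.zero_apply, sub_eq_zero] at h1
  rw [h1]
  ring

end Pool.Agent.HYG.Chn
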