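import Pool.Agent.HYG.AStep

/-!
# The core: the chain
-/

set_option autoImplicit false

noncomputable section

namespace Pool.Agent.HYG.Chn

open Pool.Agent.ZCyc Pool.Agent.Dess Pool.Agent.GT Pool.Agent.TInc Matrix
open scoped Classical

variable {k : Type} [Field k] [IsAlgClosed k] [CharZero k] {m : ℕ}
  {A B : Matrix (Fin m) (Fin m) k} {M : Fin m → ℕ} {R W : Type} [Field R] [CharZero R]
  [AddCommGroup W] [Module R W] {χ : Fin m → k → R} {G : (Fin m → k) → (Fin m → k) → W}

/-- THE CHAIN (`Finset.induction_on`, in every step one sign). -/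
theorem chain (hM : ∀ i, 0 < M i) (hG : RelG A B M χ G) {i₀ : Fin m} {μ μ' s c : Fin m → k}
    {X r : Finset (Fin m) → Fin m → k} (hc : ∀ i, c i ^ M i = μ i * μ' i) (hc0 : ∀ i, c i ≠ 0)
    (hgen : Gen A B i₀ μ μ' s X r) (J : Finset (Fin m)) (hJ : i₀ ∉ J) :
    G (nu A (X J)) c = (-1 : R) ^ J.card • G (nu A (X ∅)) c := by
  induction J using Finset.induction_on with
  | empty => simp
  | insert l J hl ih =>
    have hJ' : i₀ ∉ J := fun h => hJ (Finset.mem_insert_of_mem h)
    have hl0 : l ≠ i₀ := by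
      rintro rfl
      exact hJ (Finset.mem_insert_self _ _)
    have h1 := step hM hG hc hc0 hl (hgen.sol _ hJ) (hgen.sol _ hJ') (hgen.intr _ hJ)
      (hgen.intr _ hJ') (hgen.rne _ l hJ) (hgen.sne l) (hgen.pne J l hJ' hl0 hl)
    rw [ih hJ'] at h1
    rw [Finset.card_insert_of_notMem hl, pow_succ, mul_smul, neg_smul, one_smul, smul_neg]
    exact eq_neg_of_add_eq_zero_left h1

/-- `J` = all coordinates except `i₀` -/
theorem chain_all (hM : ∀ i, 0 < M i) (hG : RelG A B M χ G) {i₀ : Fin m} {μ μ' s c : Fin m → k}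
    {X r : Finset (Fin m) → Fin m → k} (hc : ∀ i, c i ^ M i = μ i * μ' i) (hc0 : ∀ i, c i ≠ 0)
    (hgen : Gen A B i₀ μ μ' s X r) :
    G (nu A (X ∅)) c = (-1 : R) ^ (m + 1) • G (nu A (X (Finset.univ.erase i₀))) c := by
  rw [chain hM hG hc hc0 hgen (Finset.univ.erase i₀) (Finset.notMem_erase _ _), smul_smul,
    Finset.card_erase_of_mem (Finset.mem_univ _), Finset.card_univ, Fintype.card_fin, ← pow_add]
  have h : m + 1 + (m - 1) = 2 * m := by
    have := i₀.pos
    omega
  rw [h, pow_mul, neg_one_sq, one_pow, one_smul]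

end Pool.Agent.HYG.Chn
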