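import Pool.Agent.HYG.Defs

/-!
# The core: definitions

Coordinates `Fin m`, matrices `A` (for the first point) and `B` (for the second point). A vector `X`
gives the coordinates `ν_i(X) = (A X)_i / X_i`; then `det (A - diag (ν(X))) = 0`, because `X` is in
the kernel of this matrix.

Given are `μ = ν(x)`, `μ' = ν'(y)` (for the matrix `B`) and the vector `s_i = x*_i / (B y)_i`, where
`x*` is a left null vector of `A - diag μ`. For every set `J` of coordinates there is a system of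
`2 m` linear equations for `(X, r)` (`Sol`): for `j ∈ J` the equations `(A X)_j = μ_j X_j`,
`(r B)_j = μ'_j r_j`, for `i ∉ J` the equations `r_i = - s_i (A X)_i`,
`(r B)_i = - s_i μ_i μ'_i X_i`. They always have a solution `(X, r) ≠ 0` (`AAlg.lean`). For `J` equal
to all coordinates except one the solution is `(x, y*)`, for `A = B` and `J` empty it is
`(y, - x*)`. If `(X₁, r₁)` is the solution for `J ∪ {l}` and `(X₂, r₂)` is the solution for `J`, then
the class function satisfies `G (ν(X₁)) c + G (ν(X₂)) c = 0` (`AStep.lean`): along the line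
`X(t) = X₁ + t X₂`, `r(t) = r₁ + t r₂` the vector `r(t)` is a left null vector of `B - diag μ''`, where
`μ''_i = μ_i μ'_i / ν_i(X(t))` for `i ≠ l`, and
`(A X(t))_l (r(t) B)_l - μ_l μ'_l X(t)_l r(t)_l = t * pol`.
-/

set_option autoImplicit false

noncomputable section

namespace Pool.Agent.HYG.Chn

open Pool.Agent.ZCyc Pool.Agent.Dess Pool.Agent.GT Pool.Agent.TInc Matrix
open scoped Classical

section Vec

variable {K : Type} [Field K] {m : ℕ}

/-- the coordinates `(A X)_i / X_i` -/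
def nu (A : Matrix (Fin m) (Fin m) K) (X : Fin m → K) : Fin m → K := fun i => (A *ᵥ X) i / X i

/-- no coordinate of `X` and of `A X` is zero -/
def Intr (A : Matrix (Fin m) (Fin m) K) (X : Fin m → K) : Prop :=
  ∀ i, X i ≠ 0 ∧ (A *ᵥ X) i ≠ 0

/-- the system of linear equations for `(X, r)` -/
structure Sol (A B : Matrix (Fin m) (Fin m) K) (μ μ' s : Fin m → K) (J : Finset (Fin m))
    (X r : Fin m → K) : Prop where
  inA : ∀ j ∈ J, (A *ᵥ X) j = μ j * X j
  inB : ∀ j ∈ J, (r ᵥ* B) j = μ' j * r j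
  outA : ∀ i, i ∉ J → r i = -(s i * (A *ᵥ X) i)
  outB : ∀ i, i ∉ J → (r ᵥ* B) i = -(s i * (μ i * μ' i) * X i)

/-- the polar form of `(A X)_l (r B)_l - μ_l μ'_l X_l r_l` -/
def pol (A B : Matrix (Fin m) (Fin m) K) (μ μ' : Fin m → K) (l : Fin m)
    (X₁ r₁ X₂ r₂ : Fin m → K) : K :=
  (A *ᵥ X₁) l * (r₂ ᵥ* B) l + (A *ᵥ X₂) l * (r₁ ᵥ* B) l -
    μ l * μ' l * (X₁ l * r₂ l + X₂ l * r₁ l)

/-- Solutions for all sets `J` of coordinates which do not contain `i₀`, in general position. -/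
structure Gen (A B : Matrix (Fin m) (Fin m) K) (i₀ : Fin m) (μ μ' s : Fin m → K)
    (X r : Finset (Fin m) → Fin m → K) : Prop where
  sol : ∀ J, i₀ ∉ J → Sol A B μ μ' s J (X J) (r J)
  intr : ∀ J, i₀ ∉ J → Intr A (X J)
  rne : ∀ J l, i₀ ∉ J → r J l ≠ 0
  sne : ∀ l, s l ≠ 0
  pne : ∀ J l, i₀ ∉ J → l ≠ i₀ → l ∉ J →
    pol A B μ μ' l (X (insert l J)) (r (insert l J)) (X J) (r J) ≠ 0

end Vec

end Pool.Agent.HYG.Chn
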