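import Pool.Agent.HYG.ALimA

/-!
# The core: the limit at a vertex, part B: the solutions for all sets `J`
-/

set_option autoImplicit false

noncomputable section

namespace Pool.Agent.HYG.Chn

open Pool.Agent.ZCyc Pool.Agent.Dess Pool.Agent.GT Pool.Agent.TInc Matrix
open scoped Classical

variable {k : Type} [Field k] {K : Type} [Field K] [Algebra k K] {m : ℕ} {v : Place k K}

/-- the limit of `X_i / wt_i` -/
def XL (lam : Fin m → k) (J : Finset (Fin m)) (i : Fin m) : k := if i ∈ J then 1 else lam i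

/-- the limit of `r_i / wt_i` -/
def rL (A : Matrix (Fin m) (Fin m) k) (i₀ : Fin m) (lam : Fin m → k) (J : Finset (Fin m))
    (i : Fin m) : k := -((if i ∈ J then lam i else 1) * (A i₀ i / A i i₀))

/-- Let `(X, r)` be a nonzero solution, scaled so that all `X_i / wt_i`, `r_i / wt_i` have values
`ξ_i`, `ρ_i`, not all zero. The values of the equations (divided by `wt_j` where necessary) are,
with `a = ξ_(i₀)`: `A j i₀ a = A j i₀ ξ_j` (`j ∈ J`, from `(A X)_j = (μ_j wt_j) (X_j / wt_j)`), so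
`ξ_j = a`; `A i₀ j ρ_(i₀) = (A j i₀ / lam_j) ρ_j` (`j ∈ J`); `ρ_i = - (A i₀ i / A i i₀ ^ 2) A i i₀
a` (`i ∉ J`, from `r_i / wt_i = - (s_i / wt_i) (A X)_i`); `A i₀ i ρ_(i₀) = - (A i₀ i / A i i₀ ^ 2)
A i i₀ (A i i₀ / lam_i) ξ_i` (`i ∉ J`, from `(r A)_i = - (s_i / wt_i) (μ_i wt_i) (μ'_i wt_i) (X_i
/ wt_i)`), so `ξ_i = - lam_i ρ_(i₀)`. For `i = i₀`: `a = - ρ_(i₀)`. So `ξ = a XL`, `ρ = a rL`, in
particular `a ≠ 0`. Divide by `a`. -/
theorem sol_wt [IsAlgClosed k] [CharZero k] (hK : IsCurve k K) {A : Matrix (Fin m) (Fin m) k}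
    {e : K} (he : v.At e 0) (he0 : e ≠ 0) {i₀ : Fin m} (hA : ∀ j, A i₀ j ≠ 0 ∧ A j i₀ ≠ 0)
    {μ μ' s : Fin m → K} {lam : Fin m → k} (h1 : lam i₀ = 1) (hlam : ∀ i, lam i ≠ 0)
    (hμ : ∀ i, v.At (μ i * wt e i₀ i) (A i i₀))
    (hμ' : ∀ i, v.At (μ' i * wt e i₀ i) (A i i₀ / lam i))
    (hs : ∀ i, v.At (s i / wt e i₀ i) (A i₀ i / A i i₀ ^ 2)) {J : Finset (Fin m)} (hJ : i₀ ∉ J)
    {X r : Fin m → K} (h0 : X ≠ 0 ∨ r ≠ 0)
    (h : Sol (A.map (algebraMap k K)) (A.map (algebraMap k K)) μ μ' s J X r) :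
    ∃ X' r' : Fin m → K,
      Sol (A.map (algebraMap k K)) (A.map (algebraMap k K)) μ μ' s J X' r' ∧
      (∀ i, v.At (X' i / wt e i₀ i) (XL lam J i)) ∧
      ∀ i, v.At (r' i / wt e i₀ i) (rL A i₀ lam J i) := by
  have hwt := wt_ne he0 i₀
  obtain ⟨l, ζ, hl, hζ, hlζ⟩ := exists_scaled hK v
    (X := Sum.elim (fun i => X i / wt e i₀ i) (fun i => r i / wt e i₀ i)) (by
      intro hz
      rcases h0 with hX | hr
      · apply hX
        funext i
        have h2 := congrFun hz (Sum.inl i)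
        exact (div_eq_zero_iff.1 h2).resolve_right (hwt i)
      · apply hr
        funext i
        have h2 := congrFun hz (Sum.inr i)
        exact (div_eq_zero_iff.1 h2).resolve_right (hwt i))
  have hX : ∀ i, v.At ((l * X i) / wt e i₀ i) (ζ (Sum.inl i)) := by
    intro i
    rw [mul_div_assoc]
    exact hlζ (Sum.inl i)
  have hr : ∀ i, v.At ((l * r i) / wt e i₀ i) (ζ (Sum.inr i)) := by
    intro i
    rw [mul_div_assoc]
    exact hlζ (Sum.inr i)
  have hS := h.smul l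
  have e1 : ∀ j ∈ J, ζ (Sum.inl j) = ζ (Sum.inl i₀) := by
    intro j hj
    have h2 := at_mulVec_wt A he he0 hX j
    have h3 := (hμ j).mul (hX j)
    have h4 : (A.map (algebraMap k K) *ᵥ fun i => l * X i) j =
        μ j * wt e i₀ j * (l * X j / wt e i₀ j) := by
      rw [hS.inA j hj]
      have h6 := hwt j
      field_simp
    rw [← h4] at h3
    exact (mul_left_cancel₀ (hA j).2 (h2.unique h3)).symm
  have e2 : ∀ j ∈ J, A i₀ j * ζ (Sum.inr i₀) = A j i₀ / lam j * ζ (Sum.inr j) := by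
    intro j hj
    have h2 := at_vecMul_wt A he he0 hr j
    have h3 := (hμ' j).mul (hr j)
    have h4 : ((fun i => l * r i) ᵥ* A.map (algebraMap k K)) j =
        μ' j * wt e i₀ j * (l * r j / wt e i₀ j) := by
      rw [hS.inB j hj]
      have h6 := hwt j
      field_simp
    rw [← h4] at h3
    exact h2.unique h3
  have e3 : ∀ i, i ∉ J → ζ (Sum.inr i) = -(A i₀ i / A i i₀ * ζ (Sum.inl i₀)) := by
    intro i hi
    have h3 := ((hs i).mul (at_mulVec_wt A he he0 hX i)).neg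
    have h4 : l * r i / wt e i₀ i =
        -(s i / wt e i₀ i * (A.map (algebraMap k K) *ᵥ fun i => l * X i) i) := by
      rw [hS.outA i hi]
      ring
    rw [← h4] at h3
    rw [(hr i).unique h3]
    have h5 := (hA i).2
    field_simp
  have e4 : ∀ i, i ∉ J → ζ (Sum.inl i) = -(lam i * ζ (Sum.inr i₀)) := by
    intro i hi
    have h2 := at_vecMul_wt A he he0 hr i
    have h3 := ((((hs i).mul (hμ i)).mul (hμ' i)).mul (hX i)).neg
    have h4 : ((fun i => l * r i) ᵥ* A.map (algebraMap k K)) i =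
        -(s i / wt e i₀ i * (μ i * wt e i₀ i) * (μ' i * wt e i₀ i) * (l * X i / wt e i₀ i)) := by
      rw [hS.outB i hi]
      have h6 := hwt i
      field_simp
    rw [← h4] at h3
    have h5 := h2.unique h3
    have h6 := hlam i
    have h7 := (hA i).1
    have h8 := (hA i).2
    have h9 : A i₀ i * ζ (Sum.inr i₀) = A i₀ i * (-(ζ (Sum.inl i) / lam i)) := by
      rw [h5]
      field_simp
    have h10 := mul_left_cancel₀ h7 h9
    rw [h10]
    field_simp
  have e5 : ζ (Sum.inr i₀) = -ζ (Sum.inl i₀) := by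
    rw [e3 i₀ hJ, div_self (hA i₀).1, one_mul]
  set a := ζ (Sum.inl i₀) with ha
  have hx1 : ∀ i, ζ (Sum.inl i) = a * XL lam J i := by
    intro i
    unfold XL
    split_ifs with hi
    · rw [e1 i hi, mul_one]
    · rw [e4 i hi, e5]
      ring
  have hr1 : ∀ i, ζ (Sum.inr i) = a * rL A i₀ lam J i := by
    intro i
    unfold rL
    split_ifs with hi
    · have h2 := e2 i hi
      rw [e5] at h2
      have h6 := hlam i
      have h8 := (hA i).2
      field_simp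
      field_simp at h2
      linear_combination -h2
    · rw [e3 i hi]
      ring
  have ha0 : a ≠ 0 := by
    intro h2
    apply hζ
    funext i
    rcases i with i | i
    · rw [hx1, h2, zero_mul]
      rfl
    · rw [hr1, h2, zero_mul]
      rfl
  have hS2 := hS.smul (algebraMap k K a⁻¹)
  refine ⟨_, _, hS2, fun i => ?_, fun i => ?_⟩
  · have h2 := (Place.at_const (v := v) a⁻¹).mul (hX i)
    rw [← mul_div_assoc, hx1, inv_mul_cancel_left₀ ha0] at h2
    exact h2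
  · have h2 := (Place.at_const (v := v) a⁻¹).mul (hr i)
    rw [← mul_div_assoc, hr1, inv_mul_cancel_left₀ ha0] at h2
    exact h2

/-- the value of `pol` for `J ∪ {l}` and `J`:
`(A X₁)_l (r₂ A)_l → - A l i₀ A i₀ l` (`at_mulVec_wt`, `at_vecMul_wt`, `rL J i₀ = -1`), the same for
`(A X₂)_l (r₁ A)_l`, and `μ_l μ'_l X_l r_l = (μ_l wt_l) (μ'_l wt_l) (X_l / wt_l) (r_l / wt_l)`. -/
theorem at_pol_wt {A : Matrix (Fin m) (Fin m) k} {e : K} (he : v.At e 0) (he0 : e ≠ 0)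
    {i₀ : Fin m} (hA : ∀ j, A i₀ j ≠ 0 ∧ A j i₀ ≠ 0) {μ μ' : Fin m → K} {lam : Fin m → k}
    (h1 : lam i₀ = 1) (hlam : ∀ i, lam i ≠ 0) (hμ : ∀ i, v.At (μ i * wt e i₀ i) (A i i₀))
    (hμ' : ∀ i, v.At (μ' i * wt e i₀ i) (A i i₀ / lam i)) {J : Finset (Fin m)} (hJ : i₀ ∉ J)
    {l : Fin m} (hl : l ∉ J) (hl0 : l ≠ i₀) {X₁ r₁ X₂ r₂ : Fin m → K}
    (hX₁ : ∀ i, v.At (X₁ i / wt e i₀ i) (XL lam (insert l J) i))
    (hr₁ : ∀ i, v.At (r₁ i / wt e i₀ i) (rL A i₀ lam (insert l J) i))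
    (hX₂ : ∀ i, v.At (X₂ i / wt e i₀ i) (XL lam J i))
    (hr₂ : ∀ i, v.At (r₂ i / wt e i₀ i) (rL A i₀ lam J i)) :
    v.At (pol (A.map (algebraMap k K)) (A.map (algebraMap k K)) μ μ' l X₁ r₁ X₂ r₂)
      (A l i₀ * A i₀ l * (1 - lam l) ^ 2 / lam l) := by
  have hJ' : i₀ ∉ insert l J := by
    rw [Finset.mem_insert]
    rintro (h | h)
    · exact hl0 h.symm
    · exact hJ h
  have hw := wt_ne he0 i₀ l
  have h2 := at_mulVec_wt A he he0 hX₁ l
  have h3 := at_vecMul_wt A he he0 hr₂ l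
  have h4 := at_mulVec_wt A he he0 hX₂ l
  have h5 := at_vecMul_wt A he he0 hr₁ l
  have h6 := ((hμ l).mul (hμ' l)).mul ((hX₁ l).mul (hr₂ l))
  have h7 := ((hμ l).mul (hμ' l)).mul ((hX₂ l).mul (hr₁ l))
  have h8 := ((h2.mul h3).add (h4.mul h5)).sub (h6.add h7)
  have h9 : (A.map (algebraMap k K) *ᵥ X₁) l * (r₂ ᵥ* A.map (algebraMap k K)) l +
      (A.map (algebraMap k K) *ᵥ X₂) l * (r₁ ᵥ* A.map (algebraMap k K)) l -
      (μ l * wt e i₀ l * (μ' l * wt e i₀ l) * (X₁ l / wt e i₀ l * (r₂ l / wt e i₀ l)) +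
        μ l * wt e i₀ l * (μ' l * wt e i₀ l) * (X₂ l / wt e i₀ l * (r₁ l / wt e i₀ l))) =
      pol (A.map (algebraMap k K)) (A.map (algebraMap k K)) μ μ' l X₁ r₁ X₂ r₂ := by
    unfold pol
    field_simp
  rw [h9] at h8
  have h10 : A l i₀ * XL lam (insert l J) i₀ * (A i₀ l * rL A i₀ lam J i₀) +
      A l i₀ * XL lam J i₀ * (A i₀ l * rL A i₀ lam (insert l J) i₀) -
      (A l i₀ * (A l i₀ / lam l) * (XL lam (insert l J) l * rL A i₀ lam J l) +
        A l i₀ * (A l i₀ / lam l) * (XL lam J l * rL A i₀ lam (insert l J) l)) =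
      A l i₀ * A i₀ l * (1 - lam l) ^ 2 / lam l := by
    unfold XL rL
    rw [if_neg hJ', if_neg hJ, if_neg hJ, if_neg hJ', if_pos (Finset.mem_insert_self l J),
      if_neg hl, if_neg hl, if_pos (Finset.mem_insert_self l J), h1, div_self (hA i₀).1]
    have h11 := hlam l
    have h12 := (hA l).2
    field_simp
    ring
  rwa [h10] at h8

end Pool.Agent.HYG.Chn
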