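import Pool.Agent.HYG.ALimB

/-!
# The core: the limit at a vertex, part C: general position
-/

set_option autoImplicit false

noncomputable section

namespace Pool.Agent.HYG.Chn

open Pool.Agent.ZCyc Pool.Agent.Dess Pool.Agent.GT Pool.Agent.TInc Matrix
open scoped Classical

variable {k : Type} [Field k] {K : Type} [Field K] [Algebra k K] {m : ℕ} {v : Place k K}

/-- Let `μ = ν(x)`, `μ' = ν(y)`, let `xs`, `ys` be the left null vectors of `exists_left_wt` (for
`x` with `lam = 1`), and `s_i = xs_i / (A y)_i`, so `s_i / wt_i` has the value `A i₀ i / A i i₀ ^ 2`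
(`at_mulVec_wt`). For every `J` with `i₀ ∉ J` there is a solution `(X, r)` with `X_i / wt_i → XL_i`,
`r_i / wt_i → rL_i`, and `X = x` for `J` equal to all coordinates except `i₀` (`sol_top`, `r = -
(s_(i₀) (A x)_(i₀) / ys_(i₀)) ys`, the coefficient has the value `- 1`), `X = y` for `J = ∅`
(`sol_bot`), and from `exists_sol` and `sol_wt` for the other `J`. (If `Finset.univ.erase i₀ = ∅`,
i.e. `m = 1`, the point `x` and the point `y` are proportional; so this case is excluded here.) -/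
theorem exists_sols [IsAlgClosed k] [CharZero k] (hK : IsCurve k K) {A : Matrix (Fin m) (Fin m) k}
    {e : K} (he : v.At e 0) (he0 : e ≠ 0) {i₀ : Fin m} (hA : ∀ j, A i₀ j ≠ 0 ∧ A j i₀ ≠ 0)
    (hm : (Finset.univ.erase i₀).Nonempty) {x y : Fin m → K} {lam : Fin m → k} (h1 : lam i₀ = 1)
    (hlam : ∀ i, lam i ≠ 0) (hx : ∀ i, v.At (x i / wt e i₀ i) 1)
    (hy : ∀ i, v.At (y i / wt e i₀ i) (lam i)) :
    ∃ (s : Fin m → K) (X r : Finset (Fin m) → Fin m → K), (∀ i, s i ≠ 0) ∧
      X (Finset.univ.erase i₀) = x ∧ X ∅ = y ∧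
      ∀ J, i₀ ∉ J → Sol (A.map (algebraMap k K)) (A.map (algebraMap k K))
        (nu (A.map (algebraMap k K)) x) (nu (A.map (algebraMap k K)) y) s J (X J) (r J) ∧
        (∀ i, v.At (X J i / wt e i₀ i) (XL lam J i)) ∧
        ∀ i, v.At (r J i / wt e i₀ i) (rL A i₀ lam J i) := by
  have hA' : ∀ i, A i i₀ ≠ 0 := fun i => (hA i).2
  have hw : ∀ i, wt e i₀ i ≠ 0 := fun i => wt_ne he0 i₀ i
  have hw0 : wt e i₀ i₀ = 1 := if_pos rfl
  have hix := intr_wt (A := A) he he0 hA' (lam := fun _ => 1) hx fun _ => one_ne_zero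
  have hiy := intr_wt (A := A) he he0 hA' hy hlam
  obtain ⟨xs, hxs, hxs'⟩ := exists_left_wt (A := A) hK he he0 hA (lam := fun _ => 1) hx rfl
    fun _ => one_ne_zero
  obtain ⟨ys, hys, hys'⟩ := exists_left_wt (A := A) hK he he0 hA hy h1 hlam
  have hAy := at_mulVec_wt A he he0 hy
  have hAx := at_mulVec_wt A he he0 (ξ := fun _ => 1) hx
  have hμ := at_nu_wt A he he0 (lam := fun _ => 1) hx rfl fun _ => one_ne_zero
  have hμ' := at_nu_wt A he he0 hy h1 hlam
  simp only [div_one] at hμ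
  simp only [h1, mul_one] at hAy
  simp only [mul_one] at hAx
  simp only [one_mul] at hxs'
  set A' := A.map (algebraMap k K) with hA'def
  obtain ⟨s, hs⟩ : ∃ s : Fin m → K, ∀ i, s i = xs i / (A' *ᵥ y) i := ⟨_, fun _ => rfl⟩
  have hs1 : ∀ i, s i * (A' *ᵥ y) i = xs i := by
    intro i
    rw [hs, div_mul_cancel₀ _ (hiy i).2]
  have hs2 : ∀ i, v.At (s i / wt e i₀ i) (A i₀ i / A i i₀ ^ 2) := by
    intro i
    have h2 := (hxs' i).mul ((hAy i).inv (hA' i))
    have h3 : xs i / wt e i₀ i * ((A' *ᵥ y) i)⁻¹ = s i / wt e i₀ i := by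
      rw [hs, div_eq_mul_inv, div_eq_mul_inv, div_eq_mul_inv]
      ring
    have h4 : A i₀ i / A i i₀ * (A i i₀)⁻¹ = A i₀ i / A i i₀ ^ 2 := by
      have := hA' i
      field_simp
    rwa [h3, h4] at h2
  have hs3 : ∀ i, s i ≠ 0 := by
    intro i h0
    have h2 := hs2 i
    rw [h0, zero_div] at h2
    have h3 := Place.at_const (v := v) (0 : k)
    rw [map_zero] at h3
    exact div_ne_zero (hA i).1 (pow_ne_zero 2 (hA' i)) (h2.unique h3)
  have hxe : ∀ i, (A' *ᵥ x) i = nu A' x i * x i := fun i =>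
    (div_mul_cancel₀ _ (hix i).1).symm
  have hye : ∀ i, (A' *ᵥ y) i = nu A' y i * y i := fun i =>
    (div_mul_cancel₀ _ (hiy i).1).symm
  have hys0 : v.At (ys i₀) 1 := by
    have h2 := hys' i₀
    rwa [hw0, div_one, h1, one_mul, div_self (hA' i₀)] at h2
  have hys00 : ys i₀ ≠ 0 := by
    intro h0
    rw [h0] at hys0
    have h3 := Place.at_const (v := v) (0 : k)
    rw [map_zero] at h3
    exact one_ne_zero (hys0.unique h3)
  have hy0 : y ≠ 0 := fun h0 => (hiy i₀).1 (by rw [h0]; rfl)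
  have key : ∀ J : Finset (Fin m), ∃ X r : Fin m → K,
      (J = Finset.univ.erase i₀ → X = x) ∧ (J = ∅ → X = y) ∧
      (i₀ ∉ J → Sol A' A' (nu A' x) (nu A' y) s J X r ∧
        (∀ i, v.At (X i / wt e i₀ i) (XL lam J i)) ∧
        ∀ i, v.At (r i / wt e i₀ i) (rL A i₀ lam J i)) := by
    intro J
    by_cases hJ1 : J = Finset.univ.erase i₀
    · subst hJ1
      refine ⟨x, fun i => -(s i₀ * (A' *ᵥ x) i₀) / ys i₀ * ys i, fun _ => rfl,
        fun h0 => absurd h0 hm.ne_empty, fun _ => ⟨sol_top A' A' i₀ hxe hys hys00,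
          fun i => ?_, fun i => ?_⟩⟩
      · have h2 : XL lam (Finset.univ.erase i₀) i = 1 := by
          unfold XL
          by_cases hi : i = i₀
          · rw [hi, h1, ite_self]
          · rw [if_pos (Finset.mem_erase.2 ⟨hi, Finset.mem_univ _⟩)]
        rw [h2]
        exact hx i
      · have h2 : rL A i₀ lam (Finset.univ.erase i₀) i = -1 * (lam i * (A i₀ i / A i i₀)) := by
          unfold rL
          by_cases hi : i = i₀
          · rw [hi, h1, ite_self]
            ring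
          · rw [if_pos (Finset.mem_erase.2 ⟨hi, Finset.mem_univ _⟩)]
            ring
        have h3 : v.At (-(s i₀ * (A' *ᵥ x) i₀) / ys i₀) (-1) := by
          have h4 := hs2 i₀
          rw [hw0, div_one] at h4
          have h5 := ((h4.mul (hAx i₀)).neg).mul (hys0.inv one_ne_zero)
          have h6 : -(A i₀ i₀ / A i₀ i₀ ^ 2 * A i₀ i₀) * (1 : k)⁻¹ = -1 := by
            have := hA' i₀
            field_simp
          rwa [h6, ← div_eq_mul_inv] at h5
        rw [h2, mul_div_assoc]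
        exact h3.mul (hys' i)
    by_cases hJ2 : J = ∅
    · subst hJ2
      refine ⟨y, fun i => -xs i, fun h0 => absurd h0 hJ1, fun _ => rfl,
        fun _ => ⟨sol_bot A' hxs hye hs1, fun i => ?_, fun i => ?_⟩⟩
      · have h2 : XL lam ∅ i = lam i := if_neg (Finset.notMem_empty i)
        rw [h2]
        exact hy i
      · have h2 : rL A i₀ lam ∅ i = -(A i₀ i / A i i₀) := by
          unfold rL
          rw [if_neg (Finset.notMem_empty i), one_mul]
        rw [h2, neg_div]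
        exact (hxs' i).neg
    by_cases hJ : i₀ ∈ J
    · exact ⟨x, x, fun h0 => absurd h0 hJ1, fun h0 => absurd h0 hJ2, fun h0 => absurd hJ h0⟩
    · obtain ⟨X, r, h0, hsol⟩ := exists_sol A' A' hxs hye hy0 hs1 J
      obtain ⟨X', r', h2, h3, h4⟩ := sol_wt hK he he0 hA h1 hlam hμ hμ' hs2 hJ h0 hsol
      exact ⟨X', r', fun h0 => absurd h0 hJ1, fun h0 => absurd h0 hJ2, fun _ => ⟨h2, h3, h4⟩⟩
  choose X r hX1 hX2 hX3 using key
  exact ⟨s, X, r, hs3, hX1 _ rfl, hX2 _ rfl, hX3⟩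

/-- General position over `K` (`exists_sols`, `intr_wt`, `at_pol_wt`; an element with a nonzero
value is not zero). -/
theorem exists_gen [IsAlgClosed k] [CharZero k] (hK : IsCurve k K) {A : Matrix (Fin m) (Fin m) k}
    {e : K} (he : v.At e 0) (he0 : e ≠ 0) {i₀ : Fin m} (hA : ∀ j, A i₀ j ≠ 0 ∧ A j i₀ ≠ 0)
    (hm : (Finset.univ.erase i₀).Nonempty) {x y : Fin m → K} {lam : Fin m → k} (h1 : lam i₀ = 1)
    (hlam : ∀ i, lam i ≠ 0) (hlam1 : ∀ i, i ≠ i₀ → lam i ≠ 1)
    (hx : ∀ i, v.At (x i / wt e i₀ i) 1) (hy : ∀ i, v.At (y i / wt e i₀ i) (lam i)) :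
    ∃ (s : Fin m → K) (X r : Finset (Fin m) → Fin m → K),
      X (Finset.univ.erase i₀) = x ∧ X ∅ = y ∧
      Gen (A.map (algebraMap k K)) (A.map (algebraMap k K)) i₀ (nu (A.map (algebraMap k K)) x)
        (nu (A.map (algebraMap k K)) y) s X r := by
  obtain ⟨s, X, r, hs, hX1, hX2, h⟩ := exists_sols (A := A) hK he he0 hA hm h1 hlam hx hy
  have hμ := at_nu_wt A he he0 (lam := fun _ => 1) hx rfl fun _ => one_ne_zero
  have hμ' := at_nu_wt A he he0 hy h1 hlam
  simp only [div_one] at hμ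
  have hzero : ∀ {f : K} {c : k}, v.At f c → c ≠ 0 → f ≠ 0 := by
    intro f c hf hc h0
    rw [h0] at hf
    have h3 := Place.at_const (v := v) (0 : k)
    rw [map_zero] at h3
    exact hc (hf.unique h3)
  refine ⟨s, X, r, hX1, hX2, fun J hJ => (h J hJ).1, fun J hJ => ?_, fun J l hJ => ?_, hs,
    fun J l hJ hl0 hl => ?_⟩
  · refine intr_wt he he0 (fun i => (hA i).2) (h J hJ).2.1 fun i => ?_
    unfold XL
    by_cases hi : i ∈ J
    · rw [if_pos hi]
      exact one_ne_zero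
    · rw [if_neg hi]
      exact hlam i
  · intro h0
    have h2 := (h J hJ).2.2 l
    have h3 : rL A i₀ lam J l ≠ 0 := by
      unfold rL
      refine neg_ne_zero.2 (mul_ne_zero ?_ (div_ne_zero (hA l).1 (hA l).2))
      by_cases hi : l ∈ J
      · rw [if_pos hi]
        exact hlam l
      · rw [if_neg hi]
        exact one_ne_zero
    refine hzero h2 h3 ?_
    rw [h0, zero_div]
  · have hJ' : i₀ ∉ insert l J := by
      rw [Finset.mem_insert, not_or]
      exact ⟨hl0.symm, hJ⟩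
    refine hzero (at_pol_wt he he0 hA h1 hlam hμ hμ' hJ hl hl0 (h _ hJ').2.1 (h _ hJ').2.2
      (h J hJ).2.1 (h J hJ).2.2) ?_
    exact div_ne_zero (mul_ne_zero (mul_ne_zero (hA l).2 (hA l).1)
      (pow_ne_zero 2 (sub_ne_zero.2 (hlam1 l hl0).symm))) (hlam l)

end Pool.Agent.HYG.Chn
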