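import Pool.Agent.HYG.AAlg

/-!
# The core: the line through two solutions
-/

set_option autoImplicit false

noncomputable section

namespace Pool.Agent.HYG.Chn

open Matrix
open scoped Classical

variable {K : Type} [Field K] {m : ℕ}

private theorem aline_mul (A : Matrix (Fin m) (Fin m) K) (X₁ X₂ : Fin m → K) (t : K) (i : Fin m) :
    (A *ᵥ (X₁ + t • X₂)) i = (A *ᵥ X₁) i + t * (A *ᵥ X₂) i := by
  rw [Matrix.mulVec_add, Matrix.mulVec_smul]
  rfl

private theorem aline_vec (B : Matrix (Fin m) (Fin m) K) (r₁ r₂ : Fin m → K) (t : K) (i : Fin m) :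
    ((r₁ + t • r₂) ᵥ* B) i = (r₁ ᵥ* B) i + t * (r₂ ᵥ* B) i := by
  rw [Matrix.add_vecMul, Matrix.smul_vecMul]
  rfl

private theorem aline_app (X₁ X₂ : Fin m → K) (t : K) (i : Fin m) :
    (X₁ + t • X₂) i = X₁ i + t * X₂ i := rfl

/-- The line through the solutions for `J ∪ {l}` and `J`: for every `t` with
`X = X₁ + t X₂`, `r = r₁ + t r₂` the equations for the coordinates `i ≠ l` are satisfied. -/
theorem line_eqs {A B : Matrix (Fin m) (Fin m) K} {μ μ' s : Fin m → K} {J : Finset (Fin m)}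
    {l : Fin m} (hl : l ∉ J) {X₁ r₁ X₂ r₂ : Fin m → K}
    (h₁ : Sol A B μ μ' s (insert l J) X₁ r₁) (h₂ : Sol A B μ μ' s J X₂ r₂) (t : K) :
    (∀ j ∈ J, (A *ᵥ (X₁ + t • X₂)) j = μ j * (X₁ + t • X₂) j ∧
      ((r₁ + t • r₂) ᵥ* B) j = μ' j * (r₁ + t • r₂) j) ∧
    ∀ i, i ∉ J → i ≠ l → (r₁ + t • r₂) i = -(s i * (A *ᵥ (X₁ + t • X₂)) i) ∧
      ((r₁ + t • r₂) ᵥ* B) i = -(s i * (μ i * μ' i) * (X₁ + t • X₂) i) := by
  constructor
  · intro j hj
    rw [aline_mul, aline_vec, aline_app, aline_app, h₁.inA j (Finset.mem_insert_of_mem hj),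
      h₂.inA j hj, h₁.inB j (Finset.mem_insert_of_mem hj), h₂.inB j hj]
    constructor <;> ring
  · intro i hi hil
    have hi' : i ∉ insert l J := fun h => by
      rcases Finset.mem_insert.1 h with h | h
      · exact hil h
      · exact hi h
    rw [aline_mul, aline_vec, aline_app, aline_app, h₁.outA i hi', h₂.outA i hi, h₁.outB i hi',
      h₂.outB i hi]
    constructor <;> ring

/-- `(A X)_l (r B)_l - μ_l μ'_l X_l r_l = t * pol` for `X = X₁ + t X₂`, `r = r₁ + t r₂` (the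
coefficients of `1` and `t ^ 2` vanish). -/
theorem line_pol {A B : Matrix (Fin m) (Fin m) K} {μ μ' s : Fin m → K} {J : Finset (Fin m)}
    {l : Fin m} (hl : l ∉ J) {X₁ r₁ X₂ r₂ : Fin m → K}
    (h₁ : Sol A B μ μ' s (insert l J) X₁ r₁) (h₂ : Sol A B μ μ' s J X₂ r₂) (t : K) :
    (A *ᵥ (X₁ + t • X₂)) l * ((r₁ + t • r₂) ᵥ* B) l =
      μ l * μ' l * ((X₁ + t • X₂) l * (r₁ + t • r₂) l) + t * pol A B μ μ' l X₁ r₁ X₂ r₂ := by
  rw [aline_mul, aline_vec, aline_app, aline_app]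
  unfold pol
  rw [h₁.inA l (Finset.mem_insert_self l J), h₁.inB l (Finset.mem_insert_self l J),
    h₂.outA l hl, h₂.outB l hl]
  ring

/-- The second determinant: let `μ₂ i = μ_i μ'_i / ν_i` for `i ≠ l`, where `ν_i = (A X)_i / X_i`,
`X = X₁ + t X₂`, and `μ₂ l = (r B)_l / r_l`, `r = r₁ + t r₂`. Then `r` is a left null vector of
`B - diag μ₂`. For `j ∈ J` we have `ν_j = μ_j`; for `i ∉ J`, `i ≠ l` use `line_eqs`. -/
theorem line_det {A B : Matrix (Fin m) (Fin m) K} {μ μ' s : Fin m → K} {J : Finset (Fin m)}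
    {l : Fin m} (hl : l ∉ J) {X₁ r₁ X₂ r₂ : Fin m → K}
    (h₁ : Sol A B μ μ' s (insert l J) X₁ r₁) (h₂ : Sol A B μ μ' s J X₂ r₂) (t : K)
    (hX : Intr A (X₁ + t • X₂)) (hr : (r₁ + t • r₂) l ≠ 0) {μ₂ : Fin m → K}
    (hμ : ∀ i, i ≠ l → μ₂ i = μ i * μ' i / nu A (X₁ + t • X₂) i)
    (hμl : μ₂ l = ((r₁ + t • r₂) ᵥ* B) l / (r₁ + t • r₂) l) :
    (B - Matrix.diagonal μ₂).det = 0 := by
  obtain ⟨e1, e2⟩ := line_eqs hl h₁ h₂ t
  refine det_left (r := r₁ + t • r₂) (fun h => hr (by rw [h]; rfl)) fun i => ?_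
  by_cases hil : i = l
  · subst hil
    rw [hμl, div_mul_cancel₀ _ hr]
  · rw [hμ i hil]
    unfold nu
    obtain ⟨hX1, hX2⟩ := hX i
    by_cases hi : i ∈ J
    · obtain ⟨e3, e4⟩ := e1 i hi
      rw [e4]
      have h3 : μ i ≠ 0 := by
        intro h4
        rw [e3, h4, zero_mul] at hX2
        exact hX2 rfl
      rw [e3]
      field_simp
    · obtain ⟨e3, e4⟩ := e2 i hi hil
      rw [e4, e3]
      field_simp

end Pool.Agent.HYG.Chn
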