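import Pool.Agent.HYG.ALine
import Pool.Agent.HYG.AVal
import Pool.Agent.HYG.ATwo
import Pool.Agent.HYG.Roots

/-!
# The core: one step of the chain
-/

set_option autoImplicit false

noncomputable section

namespace Pool.Agent.HYG.Chn

open Pool.Agent.ZCyc Pool.Agent.Dess Pool.Agent.GT Pool.Agent.TInc Matrix
open scoped Classical

section Aux

variable {k : Type} [Field k] {K : Type} [Field K] [Algebra k K] {m : ℕ}

private theorem map_mulVec_AStep (A : Matrix (Fin m) (Fin m) k) (x : Fin m → k) (i : Fin m) :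
    (A.map (algebraMap k K) *ᵥ fun j => algebraMap k K (x j)) i = algebraMap k K ((A *ᵥ x) i) := by
  have h := RingHom.map_mulVec (algebraMap k K) A x i
  rw [h]
  rfl

private theorem map_vecMul_AStep (A : Matrix (Fin m) (Fin m) k) (x : Fin m → k) (i : Fin m) :
    ((fun j => algebraMap k K (x j)) ᵥ* A.map (algebraMap k K)) i = algebraMap k K ((x ᵥ* A) i) := by
  have h := RingHom.map_vecMul (algebraMap k K) A x i
  rw [h]
  rfl

private theorem sol_map_AStep {A B : Matrix (Fin m) (Fin m) k} {μ μ' s X r : Fin m → k}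
    {J : Finset (Fin m)} (h : Sol A B μ μ' s J X r) :
    Sol (A.map (algebraMap k K)) (B.map (algebraMap k K)) (fun i => algebraMap k K (μ i))
      (fun i => algebraMap k K (μ' i)) (fun i => algebraMap k K (s i)) J
      (fun i => algebraMap k K (X i)) (fun i => algebraMap k K (r i)) where
  inA j hj := by rw [map_mulVec_AStep, h.inA j hj, map_mul]
  inB j hj := by rw [map_vecMul_AStep, h.inB j hj, map_mul]
  outA i hi := by rw [map_mulVec_AStep, h.outA i hi, map_neg, map_mul]
  outB i hi := by rw [map_vecMul_AStep, h.outB i hi, map_neg, map_mul, map_mul, map_mul]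

private theorem pol_map_AStep (A B : Matrix (Fin m) (Fin m) k) (μ μ' : Fin m → k) (l : Fin m)
    (X₁ r₁ X₂ r₂ : Fin m → k) :
    pol (A.map (algebraMap k K)) (B.map (algebraMap k K)) (fun i => algebraMap k K (μ i))
      (fun i => algebraMap k K (μ' i)) l (fun i => algebraMap k K (X₁ i))
      (fun i => algebraMap k K (r₁ i)) (fun i => algebraMap k K (X₂ i))
      (fun i => algebraMap k K (r₂ i)) = algebraMap k K (pol A B μ μ' l X₁ r₁ X₂ r₂) := by
  unfold pol
  rw [map_mulVec_AStep, map_mulVec_AStep, map_vecMul_AStep, map_vecMul_AStep]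
  simp only [map_add, map_sub, map_mul]

/-- a nonconstant function is different from `a + t b`-zero -/
private theorem lin_ne_AStep {t : K} (ht : Transcendental k t) {a b : k} (h : a ≠ 0) :
    algebraMap k K a + t * algebraMap k K b ≠ 0 := by
  intro h0
  by_cases hb : b = 0
  · subst hb
    rw [map_zero, mul_zero, add_zero, map_eq_zero] at h0
    exact h h0
  · apply ht
    have h1 : t = algebraMap k K (-a / b) := by
      rw [map_div₀, map_neg, eq_div_iff ((map_ne_zero _).2 hb)]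
      linear_combination h0
    rw [h1]
    exact isAlgebraic_algebraMap _

end Aux

variable {k : Type} [Field k] [IsAlgClosed k] [CharZero k] {m : ℕ}
  {A B : Matrix (Fin m) (Fin m) k} {M : Fin m → ℕ} {R W : Type} [Field R] [CharZero R]
  [AddCommGroup W] [Module R W] {χ : Fin m → k → R} {G : (Fin m → k) → (Fin m → k) → W}

/-- ONE STEP OF THE CHAIN. Let `K₀ = k(t)` be the rational function field (`isCurve_ratFunc`), and
`X = X₁ + t X₂`, `r = r₁ + t r₂` (constants are mapped to `K₀`). All `X_i`, `(A X)_i`, `r_l` are different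
from zero (they have nonzero values at `t = 0`). Let
`u = pol / (μ_l μ'_l X_l r_l)`, so `1 + t u = (A X)_l (r B)_l / (μ_l μ'_l X_l r_l)` by `line_pol`. Let
`K` be a curve over `K₀` which contains `η` with `η ^ (M l) = 1 + t u` (`exists_roots` with `r = 1`).
For a root of unity `ζ` let `C_i = c_i` (`i ≠ l`) and `C_l = c_l ζ η`. The point `ν(X)`, `C` satisfies
the equations: `det_nu` and `line_det` with `snd M (ν(X)) C`, because
`C_i ^ M_i / ν_i = μ_i μ'_i / ν_i` for `i ≠ l` and `C_l ^ M_l / ν_l = (r B)_l / r_l`. Apply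
`two_point` with `F ζ v = GG G v (ν(X)) C`: the hypotheses are satisfied, because
(u₁) at `t = 0` the value of `u` is `pol / (μ_l μ'_l X₁_l r₁_l) ≠ 0`,
(u₂) at a pole of `t` we have `t⁻¹ X → X₂`, `t⁻¹ r → r₂`, `r₂_l = - s_l (A X₂)_l ≠ 0`, so
`t ^ 2 u = pol / (μ_l μ'_l (t⁻¹ X_l) (t⁻¹ r_l)) → pol / (μ_l μ'_l X₂_l r₂_l) ≠ 0`,
(u₃) `u⁻¹` is a polynomial in `t`,
(F0) at a pole of `η` the function `C_l` has a pole (`GG_none`),
(F1) at `t = 0` the values of `ν(X)` are `ν(X₁)`, and `C → c` (`GG_at`),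
(F2) at `t = ∞` we have `ν(X) = ν(t⁻¹ X)` with the values `ν(X₂)`, and `C → c`.
The relation of `F` is `RelG.rel`. `μ_l μ'_l = c_l ^ M_l ≠ 0`. `Module ℚ W` is
`Module.compHom W (algebraMap ℚ R)`. -/
theorem step (hM : ∀ i, 0 < M i) (hG : RelG A B M χ G) {μ μ' s c : Fin m → k}
    (hc : ∀ i, c i ^ M i = μ i * μ' i) (hc0 : ∀ i, c i ≠ 0) {J : Finset (Fin m)} {l : Fin m}
    (hl : l ∉ J) {X₁ r₁ X₂ r₂ : Fin m → k} (h₁ : Sol A B μ μ' s (insert l J) X₁ r₁)
    (h₂ : Sol A B μ μ' s J X₂ r₂) (i₁ : Intr A X₁) (i₂ : Intr A X₂) (hr : r₁ l ≠ 0)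
    (hs : s l ≠ 0) (hp : pol A B μ μ' l X₁ r₁ X₂ r₂ ≠ 0) :
    G (nu A X₁) c + G (nu A X₂) c = 0 := by
  let _ : Module ℚ W := Module.compHom W (algebraMap ℚ R)
  set p : k := pol A B μ μ' l X₁ r₁ X₂ r₂ with hpdef
  have hP : μ l * μ' l ≠ 0 := by
    rw [← hc l]
    exact pow_ne_zero _ (hc0 l)
  have hr2 : r₂ l ≠ 0 := by
    rw [h₂.outA l hl]
    exact neg_ne_zero.2 (mul_ne_zero hs (i₂ l).2)
  -- the curve
  obtain ⟨K, _, _, hK, t, η, ht, hη⟩ : ∃ (K : Type) (_ : Field K) (_ : Algebra k K)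
      (_ : IsCurve k K) (t η : K), Transcendental k t ∧
      η ^ M l = 1 + t * (algebraMap k K p / (algebraMap k K (μ l * μ' l) *
        ((algebraMap k K (X₁ l) + t * algebraMap k K (X₂ l)) *
          (algebraMap k K (r₁ l) + t * algebraMap k K (r₂ l))))) := by
    obtain ⟨K, i1, i2, hK, φ, w, hw⟩ := exists_roots (k := k) (isCurve_ratFunc (k := k)) (r := 1)
      (M := fun _ => M l) (fun _ => hM l)
      (fun _ => 1 + RatFunc.X * (algebraMap k (RatFunc k) p /
        (algebraMap k (RatFunc k) (μ l * μ' l) *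
        ((algebraMap k (RatFunc k) (X₁ l) + RatFunc.X * algebraMap k (RatFunc k) (X₂ l)) *
          (algebraMap k (RatFunc k) (r₁ l) + RatFunc.X * algebraMap k (RatFunc k) (r₂ l))))))
    refine ⟨K, i1, i2, hK, φ RatFunc.X, w 0, fun h =>
      RatFunc.transcendental_X ((isAlgebraic_algHom_iff φ (φ : RatFunc k →+* K).injective).1 h), ?_⟩
    rw [hw 0]
    simp only [map_add, map_one, map_mul, map_div₀, AlgHom.commutes]
  have hres : HasRes k K := hasRes_of_isCurve hK
  have ht0 : t ≠ 0 := by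
    rintro rfl
    exact ht isAlgebraic_zero
  set al : k →+* K := algebraMap k K with hal
  set XX : Fin m → K := (fun i => al (X₁ i)) + t • (fun i => al (X₂ i)) with hXX
  set rr : Fin m → K := (fun i => al (r₁ i)) + t • (fun i => al (r₂ i)) with hrr
  have hXa : ∀ i, XX i = al (X₁ i) + t * al (X₂ i) := fun i => rfl
  have hra : ∀ i, rr i = al (r₁ i) + t * al (r₂ i) := fun i => rfl
  set u : K := al p / (al (μ l * μ' l) * (XX l * rr l)) with hu
  rw [← hXa, ← hra, ← hu] at hη
  have hAX : ∀ i, (A.map al *ᵥ XX) i = al ((A *ᵥ X₁) i) + t * al ((A *ᵥ X₂) i) := by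
    intro i
    rw [hXX, Matrix.mulVec_add, Matrix.mulVec_smul, Pi.add_apply, Pi.smul_apply,
      map_mulVec_AStep, map_mulVec_AStep, smul_eq_mul]
  have hX0 : ∀ i, XX i ≠ 0 := fun i => lin_ne_AStep ht (i₁ i).1
  have hAX0 : ∀ i, (A.map al *ᵥ XX) i ≠ 0 := fun i => by
    rw [hAX]
    exact lin_ne_AStep ht (i₁ i).2
  have hr0 : rr l ≠ 0 := lin_ne_AStep ht hr
  have hint : Intr (A.map al) XX := fun i => ⟨hX0 i, hAX0 i⟩
  have hP' : al (μ l * μ' l) ≠ 0 := (map_ne_zero _).2 hP
  have hp' : al p ≠ 0 := (map_ne_zero _).2 hp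
  have hden : al (μ l * μ' l) * (XX l * rr l) ≠ 0 := mul_ne_zero hP' (mul_ne_zero (hX0 l) hr0)
  have hu0 : u ≠ 0 := div_ne_zero hp' hden
  have s₁ := sol_map_AStep (K := K) h₁
  have s₂ := sol_map_AStep (K := K) h₂
  -- the polynomial identity
  have hpol : (A.map al *ᵥ XX) l * (rr ᵥ* B.map al) l = al (μ l * μ' l) * (XX l * rr l) + t * al p := by
    have h := line_pol hl s₁ s₂ t
    rw [pol_map_AStep] at h
    rw [map_mul]
    exact h
  have hone : 1 + t * u = (A.map al *ᵥ XX) l * (rr ᵥ* B.map al) l /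
      (al (μ l * μ' l) * (XX l * rr l)) := by
    rw [hpol, hu, add_div, div_self hden, mul_div_assoc]
  have hηne : η ^ M l ≠ 1 := by
    rw [hη]
    intro h
    have : t * u = 0 := by linear_combination h
    rcases mul_eq_zero.1 this with h | h
    · exact ht0 h
    · exact hu0 h
  -- nonzero
  have hrB : (rr ᵥ* B.map al) l ≠ 0 := by
    have e : (rr ᵥ* B.map al) l = al ((r₁ ᵥ* B) l) + t * al ((r₂ ᵥ* B) l) := by
      rw [hrr, Matrix.add_vecMul, Matrix.smul_vecMul, Pi.add_apply, Pi.smul_apply,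
        map_vecMul_AStep, map_vecMul_AStep, smul_eq_mul]
    rw [e]
    refine lin_ne_AStep ht ?_
    rw [h₁.inB l (Finset.mem_insert_self l J)]
    exact mul_ne_zero (right_ne_zero_of_mul hP) hr
  have hη0 : η ≠ 0 := by
    intro h
    rw [h, zero_pow (hM l).ne', hone, eq_comm, div_eq_zero_iff] at hη
    rcases hη with h | h
    · rcases mul_eq_zero.1 h with h | h
      · exact hAX0 l h
      · exact hrB h
    · exact hden h
  -- the functions C
  let C : k → Fin m → K := fun ζ i => if i = l then al (c i) * (al ζ * η) else al (c i)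
  have hCl : ∀ ζ, C ζ l = al (c l) * (al ζ * η) := fun ζ => if_pos rfl
  have hCi : ∀ ζ i, i ≠ l → C ζ i = al (c i) := fun ζ i hi => if_neg hi
  have hrel : ∀ ζ : k, ζ ^ M l = 1 →
      ((dv hK (al ζ * η - 1)).sum fun v a => a • GG G v (nu (A.map al) XX) (C ζ)) = 0 := by
    intro ζ hζ
    have hζ0 : ζ ≠ 0 := by
      rintro rfl
      rw [zero_pow (hM l).ne'] at hζ
      exact zero_ne_one hζ
    have hζη : (al ζ * η) ^ M l = η ^ M l := by
      rw [mul_pow, ← map_pow, hζ, map_one, one_mul]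
    refine hG.rel K hK (nu (A.map al) XX) (C ζ) _ ?_ ?_ ?_ ?_ ?_
    · intro h
      apply hηne
      rw [← hζη, sub_eq_zero.1 h, one_pow]
    · intro i
      exact div_ne_zero (hAX0 i) (hX0 i)
    · intro i
      by_cases hi : i = l
      · rw [hi, hCl]
        exact mul_ne_zero ((map_ne_zero _).2 (hc0 l)) (mul_ne_zero ((map_ne_zero _).2 hζ0) hη0)
      · rw [hCi ζ i hi]
        exact (map_ne_zero _).2 (hc0 i)
    · exact det_nu hX0 l
    · refine line_det hl s₁ s₂ t hint hr0 (fun i hi => ?_) ?_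
      · show C ζ i ^ M i / nu (A.map al) XX i = _
        rw [hCi ζ i hi, ← map_pow, hc i, map_mul]
      · show C ζ l ^ M l / nu (A.map al) XX l = (rr ᵥ* B.map al) l / rr l
        rw [hCl, mul_pow, hζη, hη, hone, ← map_pow, hc l]
        unfold nu
        have h1 := hX0 l
        have h2 := hAX0 l
        field_simp
  -- values
  have hat0 : ∀ v : Place k K, v.At t 0 → ∀ i, v.At (XX i) (X₁ i) := by
    intro v hv i
    have h := (Place.at_const (v := v) (X₁ i)).add (hv.mul (Place.at_const (v := v) (X₂ i)))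
    rw [zero_mul, add_zero] at h
    exact h
  have hat1 : ∀ v : Place k K, v.At t 0 → v.At (rr l) (r₁ l) := by
    intro v hv
    have h := (Place.at_const (v := v) (r₁ l)).add (hv.mul (Place.at_const (v := v) (r₂ l)))
    rw [zero_mul, add_zero] at h
    exact h
  have hinv : ∀ v : Place k K, t ∉ v.ring → v.At t⁻¹ 0 := by
    intro v hv
    rw [Place.at_zero_iff, Place.vanishes_iff_or, inv_inv]
    exact Or.inr hv
  have hat2 : ∀ v : Place k K, t ∉ v.ring → ∀ i, v.At (t⁻¹ * XX i) (X₂ i) := by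
    intro v hv i
    have h := (Place.at_const (v := v) (X₂ i)).add ((hinv v hv).mul (Place.at_const (v := v) (X₁ i)))
    rw [zero_mul, add_zero] at h
    have e : t⁻¹ * XX i = algebraMap k K (X₂ i) + t⁻¹ * algebraMap k K (X₁ i) := by
      rw [hXa]
      field_simp
      ring
    rw [e]
    exact h
  have hat3 : ∀ v : Place k K, t ∉ v.ring → v.At (t⁻¹ * rr l) (r₂ l) := by
    intro v hv
    have h := (Place.at_const (v := v) (r₂ l)).add ((hinv v hv).mul (Place.at_const (v := v) (r₁ l)))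
    rw [zero_mul, add_zero] at h
    have e : t⁻¹ * rr l = algebraMap k K (r₂ l) + t⁻¹ * algebraMap k K (r₁ l) := by
      rw [hra]
      field_simp
      ring
    rw [e]
    exact h
  have hCat : ∀ (ζ : k) (v : Place k K), v.At (al ζ * η) 1 → ∀ i, v.At (C ζ i) (c i) := by
    intro ζ v hv i
    by_cases hi : i = l
    · subst hi
      rw [hCl]
      have h := (Place.at_const (v := v) (c i)).mul hv
      rwa [mul_one] at h
    · rw [hCi ζ i hi]
      exact Place.at_const (v := v) (c i)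
  refine two_point hK (hM l) ht hη ?_ ?_ ?_
    (fun ζ v => if ζ ^ M l = 1 then GG G v (nu (A.map al) XX) (C ζ) else 0) ?_ ?_ ?_ ?_
  · intro v hv
    refine ⟨p / (μ l * μ' l * (X₁ l * r₁ l)), div_ne_zero hp
      (mul_ne_zero hP (mul_ne_zero (i₁ l).1 hr)), ?_⟩
    exact (Place.at_const (v := v) p).div ((Place.at_const (v := v) (μ l * μ' l)).mul
      ((hat0 v hv l).mul (hat1 v hv))) (mul_ne_zero hP (mul_ne_zero (i₁ l).1 hr))
  · intro v hv
    refine ⟨p / (μ l * μ' l * (X₂ l * r₂ l)), div_ne_zero hp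
      (mul_ne_zero hP (mul_ne_zero (i₂ l).1 hr2)), ?_⟩
    have e : t ^ 2 * u = al p / (al (μ l * μ' l) * ((t⁻¹ * XX l) * (t⁻¹ * rr l))) := by
      rw [hu]
      have h1 := hX0 l
      field_simp
    rw [e]
    exact (Place.at_const (v := v) p).div ((Place.at_const (v := v) (μ l * μ' l)).mul
      ((hat2 v hv l).mul (hat3 v hv))) (mul_ne_zero hP (mul_ne_zero (i₂ l).1 hr2))
  · intro v hv
    have e : u⁻¹ = al (μ l * μ' l) * (XX l * rr l) * al p⁻¹ := by
      rw [hu, inv_div, map_inv₀, div_eq_mul_inv]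
    rw [e]
    have hc' : ∀ a : k, al a ∈ v.ring := v.const_mem
    have h1 : XX l ∈ v.ring := by
      rw [hXa]
      exact add_mem (hc' _) (mul_mem hv (hc' _))
    have h2 : rr l ∈ v.ring := by
      rw [hra]
      exact add_mem (hc' _) (mul_mem hv (hc' _))
    exact mul_mem (mul_mem (hc' _) (mul_mem h1 h2)) (hc' _)
  · intro ζ hζ
    simp only [if_pos hζ]
    exact hrel ζ hζ
  · intro ζ v hv
    by_cases hζ : ζ ^ M l = 1
    · rw [if_pos hζ]
      have hζ0 : ζ ≠ 0 := by
        rintro rfl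
        rw [zero_pow (hM l).ne'] at hζ
        exact zero_ne_one hζ
      refine GG_none G l fun a ha => hv ?_
      rw [hCl] at ha
      have h1 := (Place.at_const (v := v) (c l * ζ)⁻¹).mul ha
      have e : algebraMap k K (c l * ζ)⁻¹ * (al (c l) * (al ζ * η)) = η := by
        have h2 : al (c l) ≠ 0 := (map_ne_zero _).2 (hc0 l)
        have h3 : al ζ ≠ 0 := (map_ne_zero _).2 hζ0
        rw [map_inv₀, map_mul]
        show (al (c l) * al ζ)⁻¹ * (al (c l) * (al ζ * η)) = η
        field_simp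
      rw [e] at h1
      exact h1.mem
    · rw [if_neg hζ]
  · intro ζ v hζ hv hv1
    rw [if_pos hζ]
    exact GG_at G (fun i => at_nu A (hat0 v hv) i (i₁ i).1) (hCat ζ v hv1)
      (fun i => div_ne_zero (i₁ i).2 (i₁ i).1) hc0
  · intro ζ v hζ hv hv1
    rw [if_pos hζ]
    have e : nu (A.map al) XX = nu (A.map al) (fun i => t⁻¹ * XX i) :=
      (nu_smul (A.map al) (inv_ne_zero ht0)).symm
    rw [e]
    exact GG_at G (fun i => at_nu A (hat2 v hv) i (i₂ i).1) (hCat ζ v hv1)
      (fun i => div_ne_zero (i₂ i).2 (i₂ i).1) hc0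

end Pool.Agent.HYG.Chn
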