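import Pool.Agent.HYG.CKer

/-!
# Project HYG, block C: operations on class functions and on points

All statements are direct: the class function `F` is applied to the values of a curve `w : Fin N → K`
with `OnK X w`; then `OnK` holds for the changed curve (permutation of the coordinates which exchanges
equal factors; coordinates of one block replaced by constants; coordinates multiplied by constants
which are roots of unity), and the values are the changed values (`vl_const`, `vl_smul`).

`IsPm X σ` (the conditions in `Mon` on the permutation): if `x` is a kernel vector of the block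
`X.β (σ i)` for `w` then `x ∘ σ` is a kernel vector of the block `X.β i` for `w ∘ σ`, because
`σ` maps the block of `i` bijectively onto the block of `σ i` and `A (σ i) (σ j) = A i j`,
`M (σ i) = M i` (`onK_iff`, `onB_iff`; `Finset.sum_bij` or `Equiv.sum_comp` for the sum in `lin`). For a
block `b` which is empty the equation is `1 = 0`, so there are no empty blocks if `OnK` or `OnB` holds.
-/

set_option autoImplicit false

noncomputable section

namespace Pool.Agent.HYG

open Pool.Agent.ZCyc Pool.Agent.Dess Pool.Agent.GT Pool.Agent.TInc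
open Pool.Agent.VFP (Om tt)
open scoped Classical

variable {k : Type} [Field k] {X : Dat k} {W : Type} [AddCommGroup W]
  {F F' : (Fin X.N → Option k) → W}

private lemma ai_CCf {N : ℕ} (σ : Equiv.Perm (Fin N)) (i : Fin N) : σ (σ⁻¹ i) = i :=
  σ.apply_symm_apply i

private lemma ia_CCf {N : ℕ} (σ : Equiv.Perm (Fin N)) (i : Fin N) : σ⁻¹ (σ i) = i :=
  σ.symm_apply_apply i

/-- the permutation exchanges equal factors -/
structure IsPm (X : Dat k) (σ : Equiv.Perm (Fin X.N)) : Prop where
  blk : ∀ i j, X.β i = X.β j ↔ X.β (σ i) = X.β (σ j)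
  mono : ∀ i j, X.β i = X.β j → i < j → σ i < σ j
  mat : ∀ i j, X.β i = X.β j → X.A (σ i) (σ j) = X.A i j
  exp : ∀ i, X.M (σ i) = X.M i

omit [Field k] in
theorem IsPm.mul {σ τ : Equiv.Perm (Fin X.N)} (hσ : IsPm X σ) (hτ : IsPm X τ) :
    IsPm X (σ * τ) where
  blk i j := (hτ.blk i j).trans (hσ.blk (τ i) (τ j))
  mono i j h h' := hσ.mono (τ i) (τ j) ((hτ.blk i j).1 h) (hτ.mono i j h h')
  mat i j h := (hσ.mat (τ i) (τ j) ((hτ.blk i j).1 h)).trans (hτ.mat i j h)
  exp i := (hσ.exp (τ i)).trans (hτ.exp i)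

omit [Field k] in
theorem IsPm.inv {σ : Equiv.Perm (Fin X.N)} (hσ : IsPm X σ) : IsPm X σ⁻¹ where
  blk i j := by
    have h := hσ.blk (σ⁻¹ i) (σ⁻¹ j)
    simp only [ai_CCf] at h
    exact h.symm
  mono i j h h' := by
    have hb := hσ.blk (σ⁻¹ i) (σ⁻¹ j)
    simp only [ai_CCf] at hb
    rcases lt_trichotomy (σ⁻¹ i) (σ⁻¹ j) with h1 | h1 | h1
    · exact h1
    · exact absurd (σ⁻¹.injective h1) h'.ne
    · have h2 := hσ.mono (σ⁻¹ j) (σ⁻¹ i) (hb.2 h).symm h1
      simp only [ai_CCf] at h2
      exact absurd h2 (not_lt.2 h'.le)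
  mat i j h := by
    have hb := hσ.blk (σ⁻¹ i) (σ⁻¹ j)
    simp only [ai_CCf] at hb
    have h2 := hσ.mat (σ⁻¹ i) (σ⁻¹ j) (hb.2 h)
    simp only [ai_CCf] at h2
    exact h2.symm
  exp i := by
    have h2 := hσ.exp (σ⁻¹ i)
    simp only [ai_CCf] at h2
    exact h2.symm

theorem Mon.isPm (g : Mon X) : IsPm X g.τ := ⟨g.blk, g.mono, g.mat, g.exp⟩

private lemma lin_perm_CCf {K : Type} [Field K] [Algebra k K] {σ : Equiv.Perm (Fin X.N)}
    (hσ : IsPm X σ) (x : Fin X.N → K) (i : Fin X.N) :
    linB X i (fun j => x (σ j)) = linB X (σ i) x := by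
  unfold linB
  refine Finset.sum_nbij' (fun j => σ j) (fun j => σ⁻¹ j) ?_ ?_ ?_ ?_ ?_
  · intro j hj
    rw [Finset.mem_filter_univ] at hj ⊢
    exact (hσ.blk j i).1 hj
  · intro j hj
    rw [Finset.mem_filter_univ] at hj ⊢
    rw [hσ.blk, ai_CCf]
    exact hj
  · intro j _
    exact ia_CCf σ j
  · intro j _
    exact ai_CCf σ j
  · intro j hj
    rw [Finset.mem_filter_univ] at hj
    rw [hσ.mat i j hj.symm]

omit [Field k] in
private lemma blk_perm_CCf {σ : Equiv.Perm (Fin X.N)} (hσ : IsPm X σ) {i₀ j : Fin X.N}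
    (h : X.β j = X.β (σ i₀)) : X.β (σ⁻¹ j) = X.β i₀ := by
  rw [hσ.blk, ai_CCf]
  exact h

private lemma congr_CCf {P P' : Fin X.N → Option k} {b : Fin X.n}
    (h : ∀ i, X.β i = b → P i = P' i) :
    Matrix.toSquareBlock (mat X.A X.M P) X.β b = Matrix.toSquareBlock (mat X.A X.M P') X.β b := by
  ext i j
  simp only [Matrix.toSquareBlock_def, Matrix.of_apply, mat]
  rw [h i i.2]

/-- all coordinates are multiplied by constants -/
def rotA {N : ℕ} (u : Fin N → k) (P : Fin N → Option k) : Fin N → Option k :=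
  fun i => (P i).map fun w => u i * w

/-- the coordinates of the block `b` are replaced by the constants `o i` -/
def setB (X : Dat k) (b : Fin X.n) (o : Fin X.N → k) (P : Fin X.N → Option k) :
    Fin X.N → Option k := fun i => if X.β i = b then some (o i) else P i

theorem OnK.perm {K : Type} [Field K] [Algebra k K] {w : Fin X.N → K} (hw : OnK X w)
    {σ : Equiv.Perm (Fin X.N)} (hσ : IsPm X σ) : OnK X fun i => w (σ i) := by
  rw [onK_iff] at hw ⊢
  intro b
  obtain ⟨_, ⟨i₀, hi₀, _⟩, _⟩ := hw b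
  obtain ⟨x, ⟨j, hj, hxj⟩, hx⟩ := hw (X.β (σ i₀))
  refine ⟨fun i => x (σ i), ⟨σ⁻¹ j, (blk_perm_CCf hσ hj).trans hi₀, ?_⟩, fun i hi => ?_⟩
  · simp only [ai_CCf]
    exact hxj
  · rw [lin_perm_CCf hσ, hx (σ i) ((hσ.blk i i₀).1 (hi.trans hi₀.symm)), hσ.exp]

theorem OnB.perm {P : Fin X.N → Option k} (hP : OnB X P)
    {σ : Equiv.Perm (Fin X.N)} (hσ : IsPm X σ) : OnB X fun i => P (σ i) := by
  rw [onB_iff] at hP ⊢
  intro b
  obtain ⟨_, ⟨i₀, hi₀, _⟩, _⟩ := hP b
  obtain ⟨x, ⟨j, hj, hxj⟩, hx⟩ := hP (X.β (σ i₀))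
  refine ⟨fun i => x (σ i), ⟨σ⁻¹ j, (blk_perm_CCf hσ hj).trans hi₀, ?_⟩, fun i hi => ?_⟩
  · simp only [ai_CCf]
    exact hxj
  · have h1 := hx (σ i) ((hσ.blk i i₀).1 (hi.trans hi₀.symm))
    refine ⟨fun w hw => ?_, fun hn => h1.2 hn⟩
    rw [lin_perm_CCf hσ, h1.1 w hw, hσ.exp]

theorem OnB.rotate {P : Fin X.N → Option k} (hP : OnB X P) {u : Fin X.N → k}
    (hu : ∀ i, u i ^ X.M i = 1) : OnB X (rotA u P) := by
  have h : mat X.A X.M (rotA u P) = mat X.A X.M P := by
    ext i j
    cases hP : P i with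
    | none => simp only [mat, rotA, hP, Option.map_none]
    | some w => simp only [mat, rotA, hP, Option.map_some, mul_pow, hu, one_mul]
  intro b
  rw [h]
  exact hP b

theorem OnB.set {P : Fin X.N → Option k} (hP : OnB X P) {b : Fin X.n} {o : Fin X.N → k}
    (ho : OnKb X b o) : OnB X (setB X b o P) := by
  intro b'
  by_cases hb : b' = b
  · subst hb
    have h1 : Matrix.toSquareBlock (mat X.A X.M (setB X b' o P)) X.β b' =
        Matrix.toSquareBlock (matK X.A fun i => o i ^ X.M i) X.β b' := by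
      rw [congr_CCf (P' := fun i => some (o i)) fun i hi => by rw [setB, if_pos hi]]
      ext i j
      simp only [Matrix.toSquareBlock_def, Matrix.of_apply, mat, matK, Matrix.sub_apply,
        Matrix.map_apply, Matrix.diagonal_apply, Algebra.algebraMap_self, RingHom.id_apply]
    rw [h1]
    exact ho
  · rw [congr_CCf (P' := P) fun i hi => by rw [setB, if_neg (by rw [hi]; exact hb)]]
    exact hP b'

/-- the equations are equations for the blocks -/
theorem OnB.glue {P P' Q : Fin X.N → Option k} (hP : OnB X P) (hP' : OnB X P')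
    (h : ∀ b, (∀ i, X.β i = b → Q i = P i) ∨ ∀ i, X.β i = b → Q i = P' i) : OnB X Q := by
  intro b
  rcases h b with h | h
  · rw [congr_CCf h]
    exact hP b
  · rw [congr_CCf h]
    exact hP' b

section

variable [IsAlgClosed k] [CharZero k]

theorem IsCF.add (hF : IsCF X F) (hF' : IsCF X F') : IsCF X fun P => F P + F' P := by
  intro K _ _ hK w f hf hw
  simp only [smul_add, Finsupp.sum_add]
  rw [hF K hK w f hf hw, hF' K hK w f hf hw, add_zero]

theorem IsCF.sub (hF : IsCF X F) (hF' : IsCF X F') : IsCF X fun P => F P - F' P := by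
  intro K _ _ hK w f hf hw
  simp only [smul_sub, Finsupp.sum_sub]
  rw [hF K hK w f hf hw, hF' K hK w f hf hw, sub_zero]

theorem IsCF.sum {ι : Type} (s : Finset ι) {G : ι → (Fin X.N → Option k) → W}
    (hG : ∀ j ∈ s, IsCF X (G j)) : IsCF X fun P => ∑ j ∈ s, G j P := by
  intro K _ _ hK w f hf hw
  have h : ∀ j ∈ s, ((dv hK f).sum fun v a => a • G j fun i => vl v (w i)) = 0 :=
    fun j hj => hG j hj K hK w f hf hw
  unfold Finsupp.sum at h ⊢
  simp only [Finset.smul_sum]
  rw [Finset.sum_comm]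
  exact Finset.sum_eq_zero h

/-- additive functions of class functions -/
theorem IsCF.map {W' : Type} [AddCommGroup W'] (φ : W →+ W') (hF : IsCF X F) :
    IsCF X fun P => φ (F P) := by
  intro K _ _ hK w f hf hw
  have h := congrArg φ (hF K hK w f hf hw)
  unfold Finsupp.sum at h ⊢
  rw [map_sum, map_zero] at h
  rw [← h]
  exact Finset.sum_congr rfl fun v _ => (map_zsmul φ _ _).symm

theorem IsCF.perm (hF : IsCF X F) {σ : Equiv.Perm (Fin X.N)} (hσ : IsPm X σ) :
    IsCF X fun P => F fun i => P (σ i) := by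
  intro K _ _ hK w f hf hw
  exact hF K hK (fun i => w (σ i)) f hf (hw.perm hσ)

theorem IsCF.rotate (hM : ∀ i, 0 < X.M i) (hF : IsCF X F) {u : Fin X.N → k}
    (hu : ∀ i, u i ^ X.M i = 1) : IsCF X fun P => F (rotA u P) := by
  intro K _ _ hK w f hf hw
  have hu0 : ∀ i, u i ≠ 0 := by
    intro i h
    have h1 := hu i
    rw [h, zero_pow (hM i).ne'] at h1
    exact zero_ne_one h1
  have hw' : OnK X fun i => algebraMap k K (u i) * w i := by
    have h : (fun i => (algebraMap k K (u i) * w i) ^ X.M i) = fun i => w i ^ X.M i := by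
      funext i
      rw [mul_pow, ← map_pow, hu, map_one, one_mul]
    intro b
    rw [h]
    exact hw b
  have h1 := hF K hK (fun i => algebraMap k K (u i) * w i) f hf hw'
  rw [← h1]
  refine Finset.sum_congr rfl fun v _ => ?_
  have h2 : rotA u (fun i => vl v (w i)) = fun i => vl v (algebraMap k K (u i) * w i) := by
    funext i
    rw [vl_smul (hu0 i)]
    rfl
  simp only [h2]

theorem IsCF.set (hF : IsCF X F) {b : Fin X.n} {o : Fin X.N → k}
    (ho : OnKb X b o) : IsCF X fun P => F (setB X b o P) := by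
  intro K _ _ hK w f hf hw
  have hw' : OnK X fun i => if X.β i = b then algebraMap k K (o i) else w i := by
    intro b'
    by_cases hb : b' = b
    · subst hb
      refine (onKb_congr (X := X) (w := fun i => algebraMap k K (o i)) fun i hi => ?_).1 ?_
      · rw [if_pos hi]
      · obtain ⟨x, ⟨j, hj, hxj⟩, hx⟩ := onKb_iff.1 ho
        refine onKb_iff.2 ⟨fun i => algebraMap k K (x i), ⟨j, hj, ?_⟩, fun i hi => ?_⟩
        · simpa using hxj
        · have h1 := congrArg (algebraMap k K) (hx i hi)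
          rw [map_mul, map_pow] at h1
          rw [← h1]
          unfold linB
          rw [map_sum]
          refine Finset.sum_congr rfl fun j _ => ?_
          rw [map_mul]
          rfl
    · exact (onKb_congr (X := X) (w := w) fun i hi => by
        rw [if_neg (by rw [hi]; exact hb)]).1 (hw b')
  have h1 := hF K hK _ f hf hw'
  rw [← h1]
  refine Finset.sum_congr rfl fun v _ => ?_
  have h2 : setB X b o (fun i => vl v (w i)) =
      fun i => vl v (if X.β i = b then algebraMap k K (o i) else w i) := by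
    funext i
    unfold setB
    split_ifs
    · rw [vl_const]
    · rfl
  simp only [h2]

end

end Pool.Agent.HYG
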