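import Pool.Agent.HYG.CEig

/-!
# Project HYG, block C: decomposition into eigenfunctions

`ea X a E` is the average of `E (u P)` over the rotations `u`, with the weights `∏ u_i ^ (- a_i)`.

* `ea_eig`: class function: `IsCF.rotate`, `IsCF.sum`, `IsCF.map`. Eigenfunction: substitute
  `u ↦ u v⁻¹` in the sum (`Finset.sum_bij` or `Finset.sum_nbij`, multiplication by a fixed tuple of
  roots of unity is a bijection of the index set; `rotA u (rotA v P) = rotA (u v) P`).
* `sum_ea`: exchange the sums; for one coordinate `∑_{a < M} u ^ (- a) = M` if `u = 1` and `0` for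
  the other `M`-th roots of unity `u` (`Finset.prod_univ_sum`: the sum over `a` of the products is the
  product of the sums over `a_i`); only `u = 1` contributes, `rotA 1 P = P`.
* `ea_app`: `g.app P = rotA g.h (P ∘ g.τ)`.
-/

set_option autoImplicit false

noncomputable section

namespace Pool.Agent.HYG

open Pool.Agent.ZCyc Pool.Agent.Dess Pool.Agent.GT Pool.Agent.TInc
open Pool.Agent.VFP (Om tt)
open scoped Classical

variable {k : Type} [Field k] [IsAlgClosed k] [CharZero k] {X : Dat k} {W : Type} [AddCommGroup W]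
  [Module k W] {a : Fin X.N → ℕ}

/-- the part of `E` with the exponents `a` -/
def ea (X : Dat k) (a : Fin X.N → ℕ) (E : (Fin X.N → Option k) → W) (P : Fin X.N → Option k) : W :=
  (∏ i, (X.M i : k))⁻¹ • ∑ u ∈ Fintype.piFinset fun i => Polynomial.nthRootsFinset (X.M i) (1 : k),
    (∏ i, (u i)⁻¹ ^ a i) • E (rotA u P)

omit [IsAlgClosed k] [CharZero k] in
private theorem rotA_rotA_CChar {N : ℕ} (u v : Fin N → k) (P : Fin N → Option k) :
    rotA u (rotA v P) = rotA (fun i => u i * v i) P := by
  funext i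
  simp only [rotA, Option.map_map]
  congr 1
  funext w
  simp only [Function.comp_apply, mul_assoc]

omit [IsAlgClosed k] [CharZero k] in
private theorem mem_CChar {N : ℕ} {M : Fin N → ℕ} (hM : ∀ i, 0 < M i) {u : Fin N → k} :
    (u ∈ Fintype.piFinset fun i => Polynomial.nthRootsFinset (M i) (1 : k)) ↔
      ∀ i, u i ^ M i = 1 := by
  rw [Fintype.mem_piFinset]
  exact forall_congr' fun i => Polynomial.mem_nthRootsFinset (hM i) (1 : k)

omit [IsAlgClosed k] [CharZero k] in
private theorem ne_zero_CChar {n : ℕ} (hn : 0 < n) {x : k} (hx : x ^ n = 1) : x ≠ 0 := by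
  rintro rfl
  rw [zero_pow hn.ne'] at hx
  exact zero_ne_one hx

private theorem map_CChar {E : (Fin X.N → Option k) → W} (hE : IsCF X E) (c : k) :
    IsCF X fun P => c • E P :=
  IsCF.map (DistribSMul.toAddMonoidHom W c) hE

theorem ea_eig (hM : ∀ i, 0 < X.M i) {E : (Fin X.N → Option k) → W} (hE : IsCF X E)
    (a : Fin X.N → ℕ) : Eig X a (ea X a E) := by
  refine ⟨?_, ?_⟩
  · refine map_CChar ?_ _
    refine IsCF.sum _ fun u hu => ?_
    exact map_CChar (IsCF.rotate hM hE ((mem_CChar hM).1 hu)) _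
  · intro u P hu
    have hu0 : ∀ i, u i ≠ 0 := fun i => ne_zero_CChar (hM i) (hu i)
    rw [ea, ea, smul_comm]
    congr 1
    rw [Finset.smul_sum]
    refine Finset.sum_nbij' (fun v i => v i * u i) (fun v i => v i * (u i)⁻¹) ?_ ?_ ?_ ?_ ?_
    · intro v hv
      rw [mem_CChar hM] at hv ⊢
      intro i
      rw [mul_pow, hv i, hu i, one_mul]
    · intro v hv
      rw [mem_CChar hM] at hv ⊢
      intro i
      rw [mul_pow, hv i, inv_pow, hu i, inv_one, one_mul]
    · intro v _
      funext i
      rw [mul_assoc, mul_inv_cancel₀ (hu0 i), mul_one]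
    · intro v _
      funext i
      rw [mul_assoc, inv_mul_cancel₀ (hu0 i), mul_one]
    · intro v _
      rw [rotA_rotA_CChar, smul_smul, ← Finset.prod_mul_distrib]
      congr 1
      refine Finset.prod_congr rfl fun i _ => ?_
      rw [← mul_pow, mul_inv, mul_comm (v i)⁻¹, ← mul_assoc, mul_inv_cancel₀ (hu0 i), one_mul]

omit [IsAlgClosed k] in
theorem sum_ea (hM : ∀ i, 0 < X.M i) (E : (Fin X.N → Option k) → W) (P : Fin X.N → Option k) :
    ∑ a ∈ Fintype.piFinset fun i => Finset.range (X.M i), ea X a E P = E P := by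
  simp only [ea]
  rw [← Finset.smul_sum, Finset.sum_comm]
  have h1 : ∀ u : Fin X.N → k,
      (∑ a ∈ Fintype.piFinset fun i => Finset.range (X.M i),
        (∏ i, (u i)⁻¹ ^ a i) • E (rotA u P)) =
      (∏ i, ∑ j ∈ Finset.range (X.M i), (u i)⁻¹ ^ j) • E (rotA u P) := by
    intro u
    rw [← Finset.sum_smul, Finset.prod_univ_sum]
  simp only [h1]
  rw [Finset.sum_eq_single (fun _ => (1 : k))]
  · have h2 : rotA (fun _ => (1 : k)) P = P := by
      funext i
      simp [rotA]
    have h3 : (∏ i, ∑ j ∈ Finset.range (X.M i), ((1 : k))⁻¹ ^ j) = ∏ i, (X.M i : k) := by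
      refine Finset.prod_congr rfl fun i _ => ?_
      simp
    rw [h2, h3, smul_smul, inv_mul_cancel₀, one_smul]
    rw [Finset.prod_ne_zero_iff]
    intro i _
    exact Nat.cast_ne_zero.2 (hM i).ne'
  · intro u hu hu1
    rw [mem_CChar hM] at hu
    obtain ⟨i, hi⟩ : ∃ i, u i ≠ 1 := by
      by_contra hcon
      push Not at hcon
      exact hu1 (funext hcon)
    have h4 : (∑ j ∈ Finset.range (X.M i), (u i)⁻¹ ^ j) = 0 := by
      rw [geom_sum_eq (fun h => hi (inv_eq_one.1 h)), inv_pow, hu i, inv_one, sub_self, zero_div]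
    rw [Finset.prod_eq_zero (Finset.mem_univ i) h4, zero_smul]
  · intro h
    exact absurd ((mem_CChar hM).2 fun i => one_pow _) h

theorem ea_app (hM : ∀ i, 0 < X.M i) {E : (Fin X.N → Option k) → W} (hE : IsCF X E) (g : Mon X)
    (P : Fin X.N → Option k) :
    ea X a E (g.app P) = (∏ i, g.h i ^ a i) • ea X a E fun i => P (g.τ i) :=
  (ea_eig hM hE a).rot g.h (fun i => P (g.τ i)) g.pow

end Pool.Agent.HYG
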