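import Pool.Agent.HYG.CCf

/-!
# Project HYG, block C: eigenfunctions

`Eig X a F`: `F` is a class function with `F (u P) = ∏ u_i ^ (a_i) • F P` for all rotations `u`.

* `Eig.rot1`: the rotation of one coordinate, `rotA u` with `u j = 1` for `j ≠ i`.
* `exists_nontriv`: a primitive `M`-th root of unity.
* `Eig.zero`: if `P i` is `0` or `∞` then the rotation of the coordinate `i` by a root of unity
  `ζ` with `ζ ^ (a i) ≠ 1` fixes `P`, so `F P = ζ ^ (a i) • F P`.
* `Eig.of_pow`: `w' i = u i * w i` with `u i ^ M i = 1` (`u i = 1` if `w i = 0`, and then `w' i = 0`).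
* `Eig.perm`: `rotA u P ∘ σ = rotA (u ∘ σ) (P ∘ σ)`.
-/

set_option autoImplicit false

noncomputable section

namespace Pool.Agent.HYG

open Pool.Agent.ZCyc Pool.Agent.Dess Pool.Agent.GT Pool.Agent.TInc
open Pool.Agent.VFP (Om tt)
open scoped Classical

variable {k : Type} [Field k] [IsAlgClosed k] [CharZero k] {X : Dat k} {W : Type} [AddCommGroup W]
  [Module k W]

/-- `F` is a class function and an eigenfunction with the exponents `a` for the rotations -/
structure Eig (X : Dat k) (a : Fin X.N → ℕ) (F : (Fin X.N → Option k) → W) : Prop where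
  cf : IsCF X F
  rot : ∀ (u : Fin X.N → k) (P : Fin X.N → Option k), (∀ i, u i ^ X.M i = 1) →
    F (rotA u P) = (∏ i, u i ^ a i) • F P

variable {a : Fin X.N → ℕ} {F : (Fin X.N → Option k) → W}

/-- vector spaces over a field of characteristic zero are torsion free -/
theorem tf (k : Type) [Field k] [CharZero k] {W : Type} [AddCommGroup W] [Module k W] (n : ℕ)
    (x : W) (hn : n ≠ 0) (h : n • x = 0) : x = 0 := by
  have h1 : (n : k) • x = 0 := by
    rw [Nat.cast_smul_eq_nsmul]
    exact h
  exact (smul_eq_zero.1 h1).resolve_left (Nat.cast_ne_zero.2 hn)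

/-- a root of unity on which the character is not trivial -/
theorem exists_nontriv {M c : ℕ} (h0 : c ≠ 0) (h1 : c < M) : ∃ u : k, u ^ M = 1 ∧ u ^ c ≠ 1 := by
  have hM : NeZero M := ⟨by omega⟩
  obtain ⟨ζ, hζ⟩ := HasEnoughRootsOfUnity.exists_primitiveRoot k M
  exact ⟨ζ, hζ.pow_eq_one, hζ.pow_ne_one_of_pos_of_lt h0 h1⟩

theorem Eig.rot1 (hF : Eig X a F) (i : Fin X.N) {u : k} (hu : u ^ X.M i = 1)
    (P : Fin X.N → Option k) :
    F (Function.update P i ((P i).map fun w => u * w)) = u ^ a i • F P := by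
  have h := hF.rot (Function.update 1 i u) P (by
    intro j
    by_cases hj : j = i
    · subst hj
      rw [Function.update_self]
      exact hu
    · rw [Function.update_of_ne hj, Pi.one_apply, one_pow])
  have h1 : rotA (Function.update 1 i u) P =
      Function.update P i ((P i).map fun w => u * w) := by
    funext j
    by_cases hj : j = i
    · subst hj
      rw [rotA, Function.update_self, Function.update_self]
    · rw [rotA, Function.update_of_ne hj, Function.update_of_ne hj, Pi.one_apply]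
      simp
  have h2 : (∏ j, (Function.update (1 : Fin X.N → k) i u) j ^ a j) = u ^ a i := by
    rw [Fintype.prod_eq_single i]
    · rw [Function.update_self]
    · intro j hj
      rw [Function.update_of_ne hj, Pi.one_apply, one_pow]
  rw [h1, h2] at h
  exact h

theorem Eig.zero (hF : Eig X a F) {i : Fin X.N} (h0 : a i ≠ 0) (h1 : a i < X.M i)
    {P : Fin X.N → Option k} (hP : P i = none ∨ P i = some 0) : F P = 0 := by
  obtain ⟨u, hu, hu1⟩ := exists_nontriv (k := k) h0 h1
  have h := hF.rot1 i hu P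
  have h2 : Function.update P i ((P i).map fun w => u * w) = P := by
    rw [Function.update_eq_self_iff]
    rcases hP with hP | hP
    · rw [hP]
      rfl
    · rw [hP, Option.map_some, mul_zero]
  rw [h2] at h
  have h3 : (1 - u ^ a i) • F P = 0 := by
    rw [sub_smul, one_smul, ← h, sub_self]
  exact (smul_eq_zero.1 h3).resolve_left (sub_ne_zero.2 hu1.symm)

omit [IsAlgClosed k] [CharZero k] in
private theorem exists_rot_CEig {N : ℕ} {M : Fin N → ℕ} (hM : ∀ i, 0 < M i) {w w' : Fin N → k}
    (h : ∀ i, w i ^ M i = w' i ^ M i) : ∃ u : Fin N → k, (∀ i, u i ^ M i = 1) ∧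
      (∀ i, w' i = u i * w i) ∧ ∀ i, w i = w' i → u i = 1 := by
  refine ⟨fun i => if w i = 0 then 1 else w' i / w i, fun i => ?_, fun i => ?_, fun i hi => ?_⟩ <;>
    beta_reduce
  · by_cases h0 : w i = 0
    · rw [if_pos h0, one_pow]
    · rw [if_neg h0, div_pow, ← h i, div_self (pow_ne_zero _ h0)]
  · by_cases h0 : w i = 0
    · have h1 := h i
      rw [h0, zero_pow (hM i).ne'] at h1
      rw [if_pos h0, h0, mul_zero]
      exact (pow_eq_zero_iff (hM i).ne').1 h1.symm
    · rw [if_neg h0, div_mul_cancel₀ _ h0]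
  · by_cases h0 : w i = 0
    · rw [if_pos h0]
    · rw [if_neg h0, ← hi, div_self h0]

/-- finite points whose coordinates have the same powers -/
theorem Eig.of_pow (hF : Eig X a F) (hM : ∀ i, 0 < X.M i) {w w' : Fin X.N → k}
    (h : ∀ i, w i ^ X.M i = w' i ^ X.M i) :
    ∃ c : k, c ≠ 0 ∧ F (fun i => some (w' i)) = c • F fun i => some (w i) := by
  obtain ⟨u, hu1, hu2, -⟩ := exists_rot_CEig hM h
  refine ⟨∏ i, u i ^ a i, ?_, ?_⟩
  · rw [Finset.prod_ne_zero_iff]
    intro i _
    apply pow_ne_zero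
    intro h0
    have h1 := hu1 i
    rw [h0, zero_pow (hM i).ne'] at h1
    exact zero_ne_one h1
  · rw [← hF.rot u _ hu1]
    congr 1
    funext i
    rw [rotA, Option.map_some, hu2 i]

/-- the same, if `a_i = 0` for all coordinates which are changed -/
theorem Eig.eq_of_pow (hF : Eig X a F) (hM : ∀ i, 0 < X.M i) {w w' : Fin X.N → k}
    (h : ∀ i, w i ^ X.M i = w' i ^ X.M i) (h' : ∀ i, a i ≠ 0 → w i = w' i) :
    F (fun i => some (w i)) = F fun i => some (w' i) := by
  obtain ⟨u, hu1, hu2, hu3⟩ := exists_rot_CEig hM h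
  have h1 := hF.rot u (fun i => some (w i)) hu1
  have h2 : (∏ i, u i ^ a i) = 1 := by
    refine Finset.prod_eq_one fun i _ => ?_
    by_cases h0 : a i = 0
    · rw [h0, pow_zero]
    · rw [hu3 i (h' i h0), one_pow]
  rw [h2, one_smul] at h1
  rw [← h1]
  congr 1
  funext i
  rw [rotA, Option.map_some, hu2 i]

theorem Eig.perm (hF : Eig X a F) {σ : Equiv.Perm (Fin X.N)} (hσ : IsPm X σ)
    (ha : ∀ i, a (σ i) = a i) : Eig X a fun P => F fun i => P (σ i) := by
  refine ⟨hF.cf.perm hσ, fun u P hu => ?_⟩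
  have h1 := hF.rot (fun i => u (σ i)) (fun i => P (σ i)) (fun i => by
    rw [← hσ.exp i]
    exact hu (σ i))
  have h2 : (∏ i, u (σ i) ^ a i) = ∏ i, u i ^ a i := by
    rw [← Equiv.prod_comp σ fun i => u i ^ a i]
    exact Finset.prod_congr rfl fun i _ => by rw [ha i]
  rw [h2] at h1
  exact h1

end Pool.Agent.HYG
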