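import Pool.Agent.HYG.CFin
import Pool.Agent.HYG.CEig

/-!
# Project HYG, block C: exchange of two equal factors

`SwapAll k` is the statement of the theorem on one hypersurface (block B of the project): for two points
`P`, `Q` of the hypersurface `Y_A` and a class function `E` with nontrivial characters
`E Q P = (-1) ^ (m + 1) E P Q`.

**`Eig.exch`.** `G P = F (P ∘ e) - (-1) ^ (m + 1) • F P` is a class function (`IsCF.perm`, `IsCF.map`,
`IsCF.sub`), so by `zero_of_fin` it is enough to consider a finite point `w`. Let `m` be the number of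
coordinates of the block `b`, `ε : Fin m ≃ {i // X.β i = b}` (`Fintype.equivFinOfCardEq` or
`Finset.equivFin`), `A' = A.submatrix ε ε`, `M' = M ∘ ε`, `χ_j(u) = u ^ a (ε j)`, and
`E P Q = F R`, where `R i = P (ε⁻¹ i)` if `X.β i = b`, `R i = Q (ε⁻¹ (e i))` if `X.β i = b'`, and
`R i = some (w i)` otherwise. `IsCls A' A' M' χ E`: for curves `w₁`, `w₂` the combined family is on
the product: the block `b` of its matrix is the matrix for `w₁`, with index type changed by `ε`
(`Matrix.det_submatrix_equiv_self`), the block `b'` is the matrix for `w₂`, with the index type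
changed by `e ∘ ε` (`A (e i) (e j) = A i j`, `M (e i) = M i` by `IsPm`), and the other coordinates are
the constants `w i` (`vl_const`). The rotations: `Eig.rot1`; `a (e i) = a i`. `Chars M' χ` by
`exists_nontriv`. The condition in `SwapAll` on a row and a column of `A'` without zeros is `Gnl`. Finally
`E (w ∘ ε) (w ∘ e ∘ ε) = F w` and `E (w ∘ e ∘ ε) (w ∘ ε) = F (w ∘ e)`.
-/

set_option autoImplicit false

noncomputable section

namespace Pool.Agent.HYG

open Pool.Agent.ZCyc Pool.Agent.Dess Pool.Agent.GT Pool.Agent.TInc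
open Pool.Agent.VFP (Om tt)
open scoped Classical

/-- The theorem on the exchange of two points of one hypersurface. -/
def SwapAll (k : Type) [Field k] [IsAlgClosed k] [CharZero k] : Prop :=
  ∀ (m : ℕ) (A : Matrix (Fin m) (Fin m) k) (M : Fin m → ℕ) (χ : Fin m → k → k) (W : Type)
    [AddCommGroup W] [Module k W] (E : (Fin m → Option k) → (Fin m → Option k) → W),
    (∃ i, ∀ j, A i j ≠ 0 ∧ A j i ≠ 0) → (∀ i, 0 < M i) → Chars M χ → IsCls A A M χ E →
      ∀ P Q, OnY A M P → OnY A M Q → E Q P = (-1 : k) ^ (m + 1) • E P Q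

variable {k : Type} [Field k] [IsAlgClosed k] [CharZero k] {X : Dat k} {W : Type} [AddCommGroup W]
  [Module k W] {a : Fin X.N → ℕ} {F : (Fin X.N → Option k) → W}

/-- the combined point -/
private def comb_CEx (X : Dat k) {b : Fin X.n} (b' : Fin X.n) {e : Equiv.Perm (Fin X.N)}
    (heb' : ∀ i, X.β i = b' → X.β (e i) = b) {m : ℕ} (ε : Fin m ≃ {i // X.β i = b}) {α : Type}
    (p q : Fin m → α) (r : Fin X.N → α) : Fin X.N → α := fun i =>
  if h : X.β i = b then p (ε.symm ⟨i, h⟩) else
    if h' : X.β i = b' then q (ε.symm ⟨e i, heb' i h'⟩) else r i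

section comb

variable {b b' : Fin X.n} {e : Equiv.Perm (Fin X.N)} {m : ℕ} {α : Type}

omit [Field k] [IsAlgClosed k] [CharZero k] in
private lemma ext_CEx (heb' : ∀ i, X.β i = b' → X.β (e i) = b)
    (hinv : ∀ i, e (e i) = i) (ε : Fin m ≃ {i // X.β i = b}) {g g' : Fin X.N → α}
    (h1 : ∀ j, g (ε j) = g' (ε j)) (h2 : ∀ j, g (e (ε j)) = g' (e (ε j)))
    (h3 : ∀ i, X.β i ≠ b → X.β i ≠ b' → g i = g' i) : g = g' := by
  funext i
  by_cases h : X.β i = b
  · have h4 := h1 (ε.symm ⟨i, h⟩)
    rwa [Equiv.apply_symm_apply] at h4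
  · by_cases h' : X.β i = b'
    · have h4 := h2 (ε.symm ⟨e i, heb' i h'⟩)
      rw [Equiv.apply_symm_apply] at h4
      rwa [hinv] at h4
    · exact h3 i h h'

omit [Field k] [IsAlgClosed k] [CharZero k] in
private lemma comb1_CEx (heb' : ∀ i, X.β i = b' → X.β (e i) = b)
    (ε : Fin m ≃ {i // X.β i = b}) (p q : Fin m → α) (r : Fin X.N → α) (j : Fin m) :
    comb_CEx X b' heb' ε p q r (ε j) = p j := by
  unfold comb_CEx
  rw [dif_pos (ε j).2]
  congr 1
  rw [Equiv.symm_apply_eq]

omit [Field k] [IsAlgClosed k] [CharZero k] in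
private lemma comb2_CEx (hbb : b ≠ b') (heb : ∀ i, X.β i = b → X.β (e i) = b')
    (heb' : ∀ i, X.β i = b' → X.β (e i) = b) (hinv : ∀ i, e (e i) = i)
    (ε : Fin m ≃ {i // X.β i = b}) (p q : Fin m → α) (r : Fin X.N → α) (j : Fin m) :
    comb_CEx X b' heb' ε p q r (e (ε j)) = q j := by
  have h1 := heb (ε j) (ε j).2
  have h2 : X.β (e (ε j)) ≠ b := fun h => hbb (h.symm.trans h1)
  unfold comb_CEx
  rw [dif_neg h2, dif_pos h1]
  congr 1
  rw [Equiv.symm_apply_eq]
  exact Subtype.ext (hinv _)

omit [Field k] [IsAlgClosed k] [CharZero k] in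
private lemma comb3_CEx (heb' : ∀ i, X.β i = b' → X.β (e i) = b)
    (ε : Fin m ≃ {i // X.β i = b}) (p q : Fin m → α) (r : Fin X.N → α) {i : Fin X.N}
    (h : X.β i ≠ b) (h' : X.β i ≠ b') : comb_CEx X b' heb' ε p q r i = r i := by
  unfold comb_CEx
  rw [dif_neg h, dif_neg h']

omit [Field k] [IsAlgClosed k] [CharZero k] in
private lemma comb_map_CEx (heb' : ∀ i, X.β i = b' → X.β (e i) = b)
    (ε : Fin m ≃ {i // X.β i = b}) {α' : Type} (f : α → α') (p q : Fin m → α)
    (r : Fin X.N → α) : (fun i => f (comb_CEx X b' heb' ε p q r i)) =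
      comb_CEx X b' heb' ε (fun i => f (p i)) (fun i => f (q i)) fun i => f (r i) := by
  funext i
  unfold comb_CEx
  by_cases h : X.β i = b
  · rw [dif_pos h, dif_pos h]
  · rw [dif_neg h, dif_neg h]
    by_cases h' : X.β i = b'
    · rw [dif_pos h', dif_pos h']
    · rw [dif_neg h', dif_neg h']

omit [Field k] [IsAlgClosed k] [CharZero k] in
private lemma comb_upd1_CEx (hbb : b ≠ b') (heb : ∀ i, X.β i = b → X.β (e i) = b')
    (heb' : ∀ i, X.β i = b' → X.β (e i) = b) (hinv : ∀ i, e (e i) = i)
    (ε : Fin m ≃ {i // X.β i = b}) (p q : Fin m → α) (r : Fin X.N → α) (i : Fin m) (x : α) :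
    comb_CEx X b' heb' ε (Function.update p i x) q r =
      Function.update (comb_CEx X b' heb' ε p q r) (ε i) x := by
  refine ext_CEx heb' hinv ε (fun j => ?_) (fun j => ?_) fun j h h' => ?_
  · rw [comb1_CEx]
    by_cases hj : j = i
    · subst hj
      rw [Function.update_self, Function.update_self]
    · rw [Function.update_of_ne hj, Function.update_of_ne, comb1_CEx]
      intro h
      exact hj (ε.injective (Subtype.ext h))
  · rw [comb2_CEx hbb heb heb' hinv, Function.update_of_ne, comb2_CEx hbb heb heb' hinv]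
    intro h
    apply hbb
    rw [← (ε i).2, ← h]
    exact heb _ (ε j).2
  · rw [comb3_CEx heb' ε _ _ _ h h', Function.update_of_ne, comb3_CEx heb' ε _ _ _ h h']
    rintro rfl
    exact h (ε i).2

omit [Field k] [IsAlgClosed k] [CharZero k] in
private lemma comb_upd2_CEx (hbb : b ≠ b') (heb : ∀ i, X.β i = b → X.β (e i) = b')
    (heb' : ∀ i, X.β i = b' → X.β (e i) = b) (hinv : ∀ i, e (e i) = i)
    (ε : Fin m ≃ {i // X.β i = b}) (p q : Fin m → α) (r : Fin X.N → α) (i : Fin m) (x : α) :
    comb_CEx X b' heb' ε p (Function.update q i x) r =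
      Function.update (comb_CEx X b' heb' ε p q r) (e (ε i)) x := by
  refine ext_CEx heb' hinv ε (fun j => ?_) (fun j => ?_) fun j h h' => ?_
  · rw [comb1_CEx, Function.update_of_ne, comb1_CEx]
    intro h
    apply hbb
    rw [← (ε j).2, h]
    exact heb _ (ε i).2
  · rw [comb2_CEx hbb heb heb' hinv]
    by_cases hj : j = i
    · subst hj
      rw [Function.update_self, Function.update_self]
    · rw [Function.update_of_ne hj, Function.update_of_ne, comb2_CEx hbb heb heb' hinv]
      intro h
      exact hj (ε.injective (Subtype.ext (e.injective h)))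
  · rw [comb3_CEx heb' ε _ _ _ h h', Function.update_of_ne, comb3_CEx heb' ε _ _ _ h h']
    rintro rfl
    exact h' (heb _ (ε i).2)

end comb

omit [IsAlgClosed k] [CharZero k] in
private lemma blk_CEx {c : Fin X.n} {m : ℕ} (δ : Fin m ≃ {i // X.β i = c})
    {A' : Matrix (Fin m) (Fin m) k} (hA : ∀ i j, A' i j = X.A (δ i) (δ j)) {K : Type} [Field K]
    [Algebra k K] (μ : Fin X.N → K) :
    (Matrix.toSquareBlock (matK X.A μ) X.β c).det = (matK A' fun i => μ (δ i)).det := by
  rw [← Matrix.det_submatrix_equiv_self δ]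
  congr 1
  ext i j
  simp only [Matrix.submatrix_apply, Matrix.toSquareBlock_def, Matrix.of_apply, matK,
    Matrix.sub_apply, Matrix.map_apply, Matrix.diagonal_apply, hA]
  congr 1
  by_cases h : i = j
  · subst h
    rw [if_pos rfl, if_pos rfl]
  · rw [if_neg h, if_neg]
    intro h1
    exact h (δ.injective (Subtype.ext h1))

omit [IsAlgClosed k] [CharZero k] in
private lemma mat_some_CEx {m : ℕ} (A' : Matrix (Fin m) (Fin m) k) (M' : Fin m → ℕ)
    (w : Fin m → k) : mat A' M' (fun i => some (w i)) = matK A' fun i => w i ^ M' i := by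
  ext i j
  simp only [mat, matK, Matrix.sub_apply, Matrix.map_apply, Matrix.diagonal_apply,
    Algebra.algebraMap_self, RingHom.id_apply]

theorem Eig.exch (hS : SwapAll k) (hF : Eig X a F) (hM : ∀ i, 0 < X.M i) (hG : Gnl X)
    (ha : ∀ i, a i < X.M i) {b b' : Fin X.n} (hbb : b ≠ b') {e : Equiv.Perm (Fin X.N)}
    (he : IsPm X e) (hinv : ∀ i, e (e i) = i) (heb : ∀ i, X.β i = b → X.β (e i) = b')
    (heb' : ∀ i, X.β i = b' → X.β (e i) = b)
    (hfix : ∀ i, X.β i ≠ b → X.β i ≠ b' → e i = i) (hab : ∀ i, X.β i = b → a i ≠ 0)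
    (hae : ∀ i, a (e i) = a i) {P : Fin X.N → Option k} (hP : OnB X P) :
    F (fun i => P (e i)) = (-1 : k) ^ ((Finset.univ.filter fun i => X.β i = b).card + 1) • F P := by
  classical
  -- the index set of the block
  set m := (Finset.univ.filter fun i => X.β i = b).card with hm
  have hcard : Fintype.card {i // X.β i = b} = m := by
    rw [Fintype.card_subtype]
  obtain ⟨ε⟩ : Nonempty (Fin m ≃ {i // X.β i = b}) := ⟨(Fintype.equivFinOfCardEq hcard).symm⟩
  -- the index set of the other block
  have hbij : Function.Bijective fun j : Fin m => (⟨e (ε j), heb _ (ε j).2⟩ :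
      {i // X.β i = b'}) := by
    constructor
    · intro i j h
      exact ε.injective (Subtype.ext (e.injective (congrArg Subtype.val h)))
    · rintro ⟨i, hi⟩
      refine ⟨ε.symm ⟨e i, heb' i hi⟩, Subtype.ext ?_⟩
      show e (ε (ε.symm ⟨e i, heb' i hi⟩)) = i
      rw [Equiv.apply_symm_apply]
      exact hinv i
  set δ : Fin m ≃ {i // X.β i = b'} := Equiv.ofBijective _ hbij with hδ
  have hδe : ∀ j, (δ j : Fin X.N) = e (ε j) := fun j => rfl
  set A' : Matrix (Fin m) (Fin m) k := fun i j => X.A (ε i) (ε j) with hA'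
  set M' : Fin m → ℕ := fun i => X.M (ε i) with hM'
  have hA1 : ∀ i j, A' i j = X.A (ε i) (ε j) := fun i j => rfl
  have hA2 : ∀ i j, A' i j = X.A (δ i) (δ j) := fun i j => by
    rw [hδe, hδe, he.mat _ _ ((ε i).2.trans (ε j).2.symm)]
  have hM2 : ∀ i, X.M (e (ε i)) = M' i := fun i => he.exp _
  -- the theorem at finite points
  have key : ∀ w : Fin X.N → k, OnK X w →
      F (fun i => some (w (e i))) = (-1 : k) ^ (m + 1) • F fun i => some (w i) := by
    intro w hw
    set E : (Fin m → Option k) → (Fin m → Option k) → W := fun P Q =>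
      F (comb_CEx X b' heb' ε P Q fun i => some (w i)) with hE
    have hcls : IsCls A' A' M' (fun i u => u ^ a (ε i)) E := by
      refine ⟨fun K _ _ hK w1 w2 f hf h1 h2 => ?_, fun P Q i u hu => ?_, fun P Q i u hu => ?_⟩
      · have hon : OnK X (comb_CEx X b' heb' ε w1 w2 fun i => algebraMap k K (w i)) := by
          intro c
          by_cases hc : c = b
          · subst hc
            rw [blk_CEx ε hA1]
            simp only [comb1_CEx]
            exact h1
          · by_cases hc' : c = b'
            · subst hc'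
              rw [blk_CEx δ hA2]
              simp only [hδe, comb2_CEx hbb heb heb' hinv, hM2]
              exact h2
            · have h3 : OnKb X c (fun i => algebraMap k K (w i)) := by
                have h4 := (onK_alg (Algebra.ofId k K)).2 hw
                exact h4 c
              refine (onKb_congr fun i hi => ?_).2 h3
              rw [comb3_CEx heb' ε _ _ _ (by rw [hi]; exact hc) (by rw [hi]; exact hc')]
        have h5 := hF.cf K hK _ f hf hon
        rw [← h5]
        refine Finsupp.sum_congr fun v _ => ?_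
        congr 1
        rw [hE]
        show F _ = F _
        congr 1
        rw [comb_map_CEx heb' ε (vl v)]
        congr 1
        funext i
        exact (vl_const _).symm
      · have h1 := hF.rot1 (ε i) hu (comb_CEx X b' heb' ε P Q fun i => some (w i))
        rw [← comb_upd1_CEx hbb heb heb' hinv, comb1_CEx] at h1
        exact h1
      · have h1 := hF.rot1 (e (ε i)) (u := u) (by rw [hM2]; exact hu)
          (comb_CEx X b' heb' ε P Q fun i => some (w i))
        rw [← comb_upd2_CEx hbb heb heb' hinv, comb2_CEx hbb heb heb' hinv, hae] at h1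
        exact h1
    have hch : Chars M' fun i (u : k) => u ^ a (ε i) :=
      ⟨fun i u u' _ _ => mul_pow _ _ _,
        fun i => exists_nontriv (hab _ (ε i).2) (ha _), fun i => one_pow _⟩
    have hgn : ∃ i, ∀ j, A' i j ≠ 0 ∧ A' j i ≠ 0 := by
      obtain ⟨i, hi, h⟩ := hG b
      refine ⟨ε.symm ⟨i, hi⟩, fun j => ?_⟩
      have h1 := h (ε j) (ε j).2
      rw [hA1, hA1, Equiv.apply_symm_apply]
      exact h1
    have hP1 : OnY A' M' fun i => some (w (ε i)) := by
      unfold OnY
      rw [mat_some_CEx]
      have h1 := hw b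
      rw [blk_CEx ε hA1] at h1
      exact h1
    have hP2 : OnY A' M' fun i => some (w (e (ε i))) := by
      unfold OnY
      rw [mat_some_CEx]
      have h1 := hw b'
      rw [blk_CEx δ hA2] at h1
      simp only [hδe, hM2] at h1
      exact h1
    have h1 := hS m A' M' (fun i u => u ^ a (ε i)) W E hgn (fun i => hM _) hch hcls _ _ hP1 hP2
    have h2 : comb_CEx X b' heb' ε (fun i => some (w (ε i))) (fun i => some (w (e (ε i))))
        (fun i => some (w i)) = fun i => some (w i) := by
      refine ext_CEx heb' hinv ε (fun j => ?_) (fun j => ?_) fun j h h' => ?_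
      · rw [comb1_CEx]
      · rw [comb2_CEx hbb heb heb' hinv]
      · rw [comb3_CEx heb' ε _ _ _ h h']
    have h3 : comb_CEx X b' heb' ε (fun i => some (w (e (ε i)))) (fun i => some (w (ε i)))
        (fun i => some (w i)) = fun i => some (w (e i)) := by
      refine ext_CEx heb' hinv ε (fun j => ?_) (fun j => ?_) fun j h h' => ?_
      · rw [comb1_CEx]
      · rw [comb2_CEx hbb heb heb' hinv, hinv]
      · rw [comb3_CEx heb' ε _ _ _ h h', hfix j h h']
    rw [hE] at h1
    simp only [h2, h3] at h1
    exact h1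
  -- all points
  have hcf : IsCF X fun P => F (fun i => P (e i)) - (-1 : k) ^ (m + 1) • F P :=
    (hF.cf.perm he).sub (hF.cf.map ({
      toFun := fun x => (-1 : k) ^ (m + 1) • x
      map_zero' := smul_zero _
      map_add' := smul_add _ } : W →+ W))
  have h1 := zero_of_fin hM hcf (fun w hw => by
    show F (fun i => some (w (e i))) - _ = 0
    rw [key w hw, sub_self]) hP
  exact sub_eq_zero.1 h1

end Pool.Agent.HYG
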