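import Pool.Agent.HYG.CMov
import Pool.Agent.HYG.CVal
import Pool.Agent.HYG.CCf

/-!
# Project HYG, block C: a curve through every point

**`exists_curve_onB`.** Let `v` be a place above `t = 0`, `t = tt k`. For every block `b` let `p_b` be the
determinant of the matrix of polynomials in a variable `s` over `Om k` (index type `{i // β i = b}`)
with the rows `(1 - s) A_i - (w ^ M_i + s (1 - w ^ M_i)) e_i` if `P i = some w`, and `t A_i - e_i` if
`P i = none`. Let `q_b` be the same determinant over `k`, with `t = 0`. The coefficients of `p_b` have the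
values the coefficients of `q_b` (they are polynomials in `t` with constant coefficients; or
`Polynomial.map` for the subring `v.ring` and its residue map; or: `p_b = r_b(t)` for a
polynomial `r_b` in two variables). `q_b(0) = 0`, because up to sign it is `det (mat A M P)`, and
`q_b(1) = det (- 1) ≠ 0`. So by `root_at_om` there is a root `s_b` of `p_b` with the value `0` at `v`.
Let `μ_i = (w ^ M_i + s_b (1 - w ^ M_i)) / (1 - s_b)` if `P i = some w` (the value is `w ^ M_i`), and
`μ_i = 1 / t` if `P i = none`. Then the rows of `A - diag μ` are the rows above divided by `1 - s_b`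
resp. `t`, so the determinants are zero. Take roots `W_i` with `W_i ^ M_i = μ_i` (`exists_root_om`); by
`root_limit` the value of `W_i` is `u w` with `u ^ M_i = 1`, and we replace `W_i` by `u⁻¹ W_i`;
`vl v (W_i) = none` if `P i = none` (`none_of_pow`).

**`zero_of_fin`.** Take a place `v` above `t = 0` (`exists_place_tt`) and `w` from `exists_curve_onB`, and
let `Γ` be the set of the `w i ≠ 0`. At places where the elements of `Γ` are units all `w i` have
finite values `c i`, and `OnK X c` (`onK_at`), so `F` is zero there by `h`. By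
`moving` `F (vl v w) = F P = 0`.
-/

set_option autoImplicit false

noncomputable section

namespace Pool.Agent.HYG

open Pool.Agent.ZCyc Pool.Agent.Dess Pool.Agent.GT Pool.Agent.TInc
open Pool.Agent.VFP (Om tt)
open scoped Classical

variable {k : Type} [Field k] [IsAlgClosed k] [CharZero k] {X : Dat k} {W : Type} [AddCommGroup W]
  {F : (Fin X.N → Option k) → W}

/-- the coefficients of the second polynomial are the values of the coefficients of the first one -/
private def Rd_CFin (v : Place k (Om k)) (p : Polynomial (Om k)) (q : Polynomial k) : Prop :=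
  ∀ n, v.At (p.coeff n) (q.coeff n)

section red

variable {v : Place k (Om k)}
set_option linter.unusedSectionVars false

private lemma zero_CFin : v.At (0 : Om k) 0 := Place.at_zero_iff.2 v.vanishes_zero

private lemma one_CFin : v.At (1 : Om k) 1 := by
  have h := Place.at_const (v := v) (1 : k)
  rwa [map_one] at h

private lemma C_CFin {a : Om k} {b : k} (h : v.At a b) :
    Rd_CFin v (Polynomial.C a) (Polynomial.C b) := by
  intro n
  rw [Polynomial.coeff_C, Polynomial.coeff_C]
  by_cases hn : n = 0
  · rw [if_pos hn, if_pos hn]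
    exact h
  · rw [if_neg hn, if_neg hn]
    exact zero_CFin

private lemma X_CFin : Rd_CFin v Polynomial.X Polynomial.X := by
  intro n
  rw [Polynomial.coeff_X, Polynomial.coeff_X]
  by_cases hn : 1 = n
  · rw [if_pos hn, if_pos hn]
    exact one_CFin
  · rw [if_neg hn, if_neg hn]
    exact zero_CFin

private lemma add_CFin {p p' : Polynomial (Om k)} {q q' : Polynomial k} (h : Rd_CFin v p q)
    (h' : Rd_CFin v p' q') : Rd_CFin v (p + p') (q + q') := by
  intro n
  rw [Polynomial.coeff_add, Polynomial.coeff_add]
  exact (h n).add (h' n)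

private lemma sub_CFin {p p' : Polynomial (Om k)} {q q' : Polynomial k} (h : Rd_CFin v p q)
    (h' : Rd_CFin v p' q') : Rd_CFin v (p - p') (q - q') := by
  intro n
  rw [Polynomial.coeff_sub, Polynomial.coeff_sub]
  exact (h n).sub (h' n)

private lemma mul_CFin {p p' : Polynomial (Om k)} {q q' : Polynomial k} (h : Rd_CFin v p q)
    (h' : Rd_CFin v p' q') : Rd_CFin v (p * p') (q * q') := by
  intro n
  rw [Polynomial.coeff_mul, Polynomial.coeff_mul]
  exact Place.At.sum fun x _ => (h x.1).mul (h' x.2)

private lemma prod_CFin {ι : Type} (s : Finset ι) {p : ι → Polynomial (Om k)}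
    {q : ι → Polynomial k} (h : ∀ i, Rd_CFin v (p i) (q i)) :
    Rd_CFin v (∏ i ∈ s, p i) (∏ i ∈ s, q i) := by
  induction s using Finset.induction_on with
  | empty =>
    rw [Finset.prod_empty, Finset.prod_empty, ← Polynomial.C_1, ← Polynomial.C_1]
    exact C_CFin one_CFin
  | insert i s hi ih =>
    rw [Finset.prod_insert hi, Finset.prod_insert hi]
    exact mul_CFin (h i) ih

private lemma det_CFin {ι : Type} [Fintype ι] [DecidableEq ι]
    {B : Matrix ι ι (Polynomial (Om k))} {B' : Matrix ι ι (Polynomial k)}
    (h : ∀ i j, Rd_CFin v (B i j) (B' i j)) : Rd_CFin v B.det B'.det := by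
  intro n
  rw [Matrix.det_apply', Matrix.det_apply', Polynomial.finsetSum_coeff,
    Polynomial.finsetSum_coeff]
  refine Place.At.sum fun σ _ => ?_
  refine mul_CFin ?_ (prod_CFin _ fun i => h _ _) n
  have h1 := C_CFin (Place.at_const (v := v) (((Equiv.Perm.sign σ : ℤˣ) : ℤ) : k))
  rwa [map_intCast, map_intCast, map_intCast] at h1

end red

/-- the matrix with the parameter `s` -/
private def mt_CFin (X : Dat k) (P : Fin X.N → Option k) {R : Type} [CommRing R] [Algebra k R]
    (t s : R) (b : Fin X.n) : Matrix {i // X.β i = b} {i // X.β i = b} R := fun i j =>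
  match P i with
  | some w => (1 - s) * algebraMap k R (X.A i j) -
      if i = j then algebraMap k R (w ^ X.M i) + s * (1 - algebraMap k R (w ^ X.M i)) else 0
  | none => t * algebraMap k R (X.A i j) - if i = j then 1 else 0

omit [IsAlgClosed k] [CharZero k] in
private lemma mt_some_CFin {P : Fin X.N → Option k} {R : Type} [CommRing R] [Algebra k R]
    (t s : R) (b : Fin X.n) (i j : {i // X.β i = b}) {w : k} (hw : P i = some w) :
    mt_CFin X P t s b i j = (1 - s) * algebraMap k R (X.A i j) -
      if i = j then algebraMap k R (w ^ X.M i) + s * (1 - algebraMap k R (w ^ X.M i)) else 0 := by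
  unfold mt_CFin
  rw [hw]

omit [IsAlgClosed k] [CharZero k] in
private lemma mt_none_CFin {P : Fin X.N → Option k} {R : Type} [CommRing R] [Algebra k R]
    (t s : R) (b : Fin X.n) (i j : {i // X.β i = b}) (hw : P i = none) :
    mt_CFin X P t s b i j = t * algebraMap k R (X.A i j) - if i = j then 1 else 0 := by
  unfold mt_CFin
  rw [hw]

omit [IsAlgClosed k] [CharZero k] in
private lemma mt_map_CFin {P : Fin X.N → Option k} {R R' : Type} [CommRing R] [Algebra k R]
    [CommRing R'] [Algebra k R'] (φ : R →+* R')
    (hφ : ∀ c, φ (algebraMap k R c) = algebraMap k R' c) (t s : R) (b : Fin X.n) :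
    φ (mt_CFin X P t s b).det = (mt_CFin X P (φ t) (φ s) b).det := by
  rw [RingHom.map_det]
  congr 1
  ext i j
  rw [RingHom.mapMatrix_apply, Matrix.map_apply]
  cases hP : P i with
  | none =>
    rw [mt_none_CFin _ _ _ _ _ hP, mt_none_CFin _ _ _ _ _ hP, map_sub, map_mul, hφ]
    by_cases hij : i = j
    · rw [if_pos hij, if_pos hij, map_one]
    · rw [if_neg hij, if_neg hij, map_zero]
  | some w =>
    rw [mt_some_CFin _ _ _ _ _ hP, mt_some_CFin _ _ _ _ _ hP, map_sub, map_mul, map_sub, map_one,
      hφ]
    by_cases hij : i = j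
    · rw [if_pos hij, if_pos hij, map_add, map_mul, map_sub, map_one, hφ]
    · rw [if_neg hij, if_neg hij, map_zero]

omit [IsAlgClosed k] [CharZero k] in
private lemma mt_zero_CFin {P : Fin X.N → Option k} (hP : OnB X P) (b : Fin X.n) :
    (mt_CFin X P (0 : k) 0 b).det = 0 := by
  have h1 : mt_CFin X P (0 : k) 0 b = Matrix.of fun (i j : {i // X.β i = b}) =>
      (match P i with | some _ => (1 : k) | none => -1) *
        Matrix.toSquareBlock (mat X.A X.M P) X.β b i j := by
    ext i j
    rw [Matrix.of_apply]
    have hm : Matrix.toSquareBlock (mat X.A X.M P) X.β b i j = mat X.A X.M P i j := rfl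
    rw [hm]
    cases hP : P i with
    | none =>
      rw [mt_none_CFin _ _ _ _ _ hP]
      simp only [mat, hP]
      by_cases hij : i = j
      · subst hij
        simp
      · rw [if_neg hij, if_neg fun h => hij (Subtype.ext h)]
        simp
    | some w =>
      rw [mt_some_CFin _ _ _ _ _ hP]
      simp only [mat, hP]
      by_cases hij : i = j
      · subst hij
        simp
      · rw [if_neg hij, if_neg fun h => hij (Subtype.ext h)]
        simp
  rw [h1, Matrix.det_mul_column, hP b, mul_zero]

omit [IsAlgClosed k] [CharZero k] in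
private lemma mt_one_CFin (P : Fin X.N → Option k) (b : Fin X.n) :
    (mt_CFin X P (0 : k) 1 b).det ≠ 0 := by
  have h1 : mt_CFin X P (0 : k) 1 b = -1 := by
    ext i j
    rw [Matrix.neg_apply, Matrix.one_apply]
    cases hP : P i with
    | none =>
      rw [mt_none_CFin _ _ _ _ _ hP]
      by_cases hij : i = j
      · rw [if_pos hij]
        simp
      · rw [if_neg hij]
        simp
    | some w =>
      rw [mt_some_CFin _ _ _ _ _ hP]
      by_cases hij : i = j
      · rw [if_pos hij, if_pos hij]
        simp
      · rw [if_neg hij, if_neg hij]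
        simp
  rw [h1, Matrix.det_neg, Matrix.det_one, mul_one]
  exact pow_ne_zero _ (neg_ne_zero.2 one_ne_zero)

private lemma tt_ne_CFin : tt k ≠ 0 := by
  intro h
  obtain ⟨v, hv⟩ := exists_place_tt (k := k) 1
  rw [h] at hv
  exact one_ne_zero (hv.unique zero_CFin)

/-- the root of the determinant with the value zero -/
private lemma root_CFin {P : Fin X.N → Option k} (hP : OnB X P) {v : Place k (Om k)}
    (hv : v.At (tt k) 0) (b : Fin X.n) :
    ∃ s : Om k, v.At s 0 ∧ (mt_CFin X P (tt k) s b).det = 0 := by
  set p : Polynomial (Om k) := (mt_CFin X P (Polynomial.C (tt k)) Polynomial.X b).det with hp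
  set q : Polynomial k := (mt_CFin X P (Polynomial.C 0) Polynomial.X b).det with hq
  have hev : ∀ s : Om k, p.eval s = (mt_CFin X P (tt k) s b).det := by
    intro s
    have h1 := mt_map_CFin (P := P) (Polynomial.evalRingHom s)
      (fun c => by
        rw [Polynomial.coe_evalRingHom, Polynomial.algebraMap_apply, Polynomial.eval_C])
      (Polynomial.C (tt k)) Polynomial.X b
    rw [Polynomial.coe_evalRingHom, Polynomial.eval_C, Polynomial.eval_X] at h1
    exact h1
  have hev' : ∀ s : k, q.eval s = (mt_CFin X P (0 : k) s b).det := by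
    intro s
    have h1 := mt_map_CFin (P := P) (Polynomial.evalRingHom s)
      (fun c => by
        rw [Polynomial.coe_evalRingHom, Polynomial.algebraMap_apply, Polynomial.eval_C])
      (Polynomial.C 0) Polynomial.X b
    rw [Polynomial.coe_evalRingHom, Polynomial.eval_C, Polynomial.eval_X] at h1
    exact h1
  have hq0 : q ≠ 0 := by
    intro h0
    have h1 := hev' 1
    rw [h0, Polynomial.eval_zero] at h1
    exact mt_one_CFin P b h1.symm
  have hc : ∀ c : k, Rd_CFin v (algebraMap k (Polynomial (Om k)) c)
      (algebraMap k (Polynomial k) c) := by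
    intro c
    rw [Polynomial.algebraMap_apply, Polynomial.algebraMap_apply]
    exact C_CFin (Place.at_const c)
  have h1 : Rd_CFin v (1 : Polynomial (Om k)) 1 := by
    rw [← Polynomial.C_1, ← Polynomial.C_1]
    exact C_CFin one_CFin
  have h0 : Rd_CFin v (0 : Polynomial (Om k)) 0 := by
    rw [← Polynomial.C_0, ← Polynomial.C_0]
    exact C_CFin zero_CFin
  have hred : Rd_CFin v p q := by
    refine det_CFin fun i j => ?_
    cases hPi : P i with
    | none =>
      rw [mt_none_CFin _ _ _ _ _ hPi, mt_none_CFin _ _ _ _ _ hPi]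
      refine sub_CFin (mul_CFin (C_CFin hv) (hc _)) ?_
      by_cases hij : i = j
      · rw [if_pos hij, if_pos hij]
        exact h1
      · rw [if_neg hij, if_neg hij]
        exact h0
    | some w =>
      rw [mt_some_CFin _ _ _ _ _ hPi, mt_some_CFin _ _ _ _ _ hPi]
      refine sub_CFin (mul_CFin (sub_CFin h1 X_CFin) (hc _)) ?_
      by_cases hij : i = j
      · rw [if_pos hij, if_pos hij]
        exact add_CFin (hc _) (mul_CFin X_CFin (sub_CFin h1 (hc _)))
      · rw [if_neg hij, if_neg hij]
        exact h0
  obtain ⟨r, hr1, hr2⟩ := root_at_om hq0 hred (c := 0) (by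
    rw [hev']
    exact mt_zero_CFin hP b)
  exact ⟨r, hr2, by rw [← hev]; exact hr1⟩

theorem exists_curve_onB (hM : ∀ i, 0 < X.M i) {P : Fin X.N → Option k} (hP : OnB X P)
    {v : Place k (Om k)} (hv : v.At (tt k) 0) :
    ∃ w : Fin X.N → Om k, OnK X w ∧ ∀ i, vl v (w i) = P i := by
  choose s hs hdet using root_CFin hP hv
  have ht0 : tt k ≠ 0 := tt_ne_CFin
  have hs1 : ∀ b, (1 : Om k) - s b ≠ 0 := by
    intro b h
    have h1 := one_CFin.sub (hs b)
    rw [h, sub_zero] at h1
    exact one_ne_zero (h1.unique zero_CFin)
  let μ : Fin X.N → Om k := fun i =>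
    match P i with
    | some w => (algebraMap k (Om k) (w ^ X.M i) +
        s (X.β i) * (1 - algebraMap k (Om k) (w ^ X.M i))) / (1 - s (X.β i))
    | none => (tt k)⁻¹
  have hμs : ∀ i w, P i = some w → μ i = (algebraMap k (Om k) (w ^ X.M i) +
      s (X.β i) * (1 - algebraMap k (Om k) (w ^ X.M i))) / (1 - s (X.β i)) := by
    intro i w h
    simp only [μ, h]
  have hμn : ∀ i, P i = none → μ i = (tt k)⁻¹ := by
    intro i h
    simp only [μ, h]
  have hW : ∀ i, ∃ w : Om k, w ^ X.M i = μ i ∧ vl v w = P i := by
    intro i
    cases hPi : P i with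
    | none =>
      obtain ⟨r, hr⟩ := exists_root_om (hM i) (μ i)
      refine ⟨r, hr, none_of_pow (hM i) ?_⟩
      rw [hr, hμn i hPi]
      have h1 := none_ratio one_CFin one_ne_zero (Place.at_zero_iff.1 hv) ht0
      rwa [one_div] at h1
    | some w =>
      have h1 : v.At (μ i) (w ^ X.M i) := by
        rw [hμs i w hPi]
        have h2 := ((Place.at_const (v := v) (w ^ X.M i)).add ((hs (X.β i)).mul
          (one_CFin.sub (Place.at_const (v := v) (w ^ X.M i))))).div (one_CFin.sub (hs (X.β i)))
          (by rw [sub_zero]; exact one_ne_zero)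
        rw [zero_mul, add_zero, sub_zero, div_one] at h2
        exact h2
      obtain ⟨r, hr⟩ := exists_root_om (hM i) (μ i)
      rw [← hr] at h1
      obtain ⟨u, hu1, hu2⟩ := root_limit (hM i) h1
      have hu0 : u ≠ 0 := by
        rintro rfl
        rw [zero_pow (hM i).ne'] at hu1
        exact zero_ne_one hu1
      refine ⟨algebraMap k (Om k) u⁻¹ * r, ?_, ?_⟩
      · rw [mul_pow, hr, ← map_pow, inv_pow, hu1, inv_one, map_one, one_mul]
      · apply vl_of_at
        have h2 := (Place.at_const (v := v) u⁻¹).mul hu2
        rwa [← mul_assoc, inv_mul_cancel₀ hu0, one_mul] at h2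
  choose w hw1 hw2 using hW
  refine ⟨w, fun b => ?_, hw2⟩
  have h1 : Matrix.toSquareBlock (matK X.A fun i => w i ^ X.M i) X.β b =
      Matrix.of fun (i j : {i // X.β i = b}) => (match P i with | some _ => (1 - s b)⁻¹ | none => (tt k)⁻¹) *
        mt_CFin X P (tt k) (s b) b i j := by
    ext i j
    rw [Matrix.of_apply]
    have hm : Matrix.toSquareBlock (matK X.A fun i => w i ^ X.M i) X.β b i j =
        algebraMap k (Om k) (X.A i j) - if i = j then μ i else 0 := by
      simp only [Matrix.toSquareBlock_def, Matrix.of_apply, matK, Matrix.sub_apply,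
        Matrix.map_apply, Matrix.diagonal_apply, hw1]
      by_cases hij : i = j
      · subst hij
        rw [if_pos rfl, if_pos rfl]
      · rw [if_neg hij, if_neg fun h => hij (Subtype.ext h)]
    rw [hm]
    have hsb := hs1 b
    cases hPi : P i with
    | none =>
      rw [mt_none_CFin _ _ _ _ _ hPi, hμn i hPi]
      by_cases hij : i = j
      · rw [if_pos hij, if_pos hij]
        field_simp
      · rw [if_neg hij, if_neg hij, sub_zero, sub_zero]
        field_simp
    | some x =>
      rw [mt_some_CFin _ _ _ _ _ hPi, hμs i x hPi, i.2]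
      by_cases hij : i = j
      · rw [if_pos hij, if_pos hij]
        field_simp
      · rw [if_neg hij, if_neg hij, sub_zero, sub_zero]
        field_simp
  rw [h1, Matrix.det_mul_column, hdet b, mul_zero]

/-- a class function which is zero at the points with finite coordinates is zero -/
theorem zero_of_fin (hM : ∀ i, 0 < X.M i) (hF : IsCF X F)
    (h : ∀ w : Fin X.N → k, OnK X w → F (fun i => some (w i)) = 0) {P : Fin X.N → Option k}
    (hP : OnB X P) : F P = 0 := by
  obtain ⟨v, hv⟩ := exists_place_tt (k := k) 0
  obtain ⟨w, hw, hwP⟩ := exists_curve_onB hM hP hv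
  have hP' : P = fun i => vl v (w i) := funext fun i => (hwP i).symm
  rw [hP']
  refine moving hF hw ((Finset.univ.image w).erase 0) (by simp) (fun v' hv' => ?_) v
  have hreg : ∀ i, ∃ c : k, v'.At (w i) c := by
    intro i
    by_cases h0 : w i = 0
    · exact ⟨0, by rw [h0]; exact zero_CFin⟩
    · exact HasRes.res v' (w i) (hv' (w i) (Finset.mem_erase.2
        ⟨h0, Finset.mem_image_of_mem w (Finset.mem_univ i)⟩)).1
  choose c hc using hreg
  have h1 : (fun i => vl v' (w i)) = fun i => some (c i) := funext fun i => vl_of_at (hc i)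
  rw [h1]
  exact h c (onK_at hw hc)

end Pool.Agent.HYG
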