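import Pool.Agent.HYG.CKer

/-!
# Project HYG, block C: a good vector

Let `o` be the coordinate of the block `b` from `Gnl`: `A o l ≠ 0` and `A l o ≠ 0` for all `l` in the
block. For `ε ∈ k`, `ε ≠ 0` let `g_o = 1`, `g_l = ε` for `l ≠ o`, and let `R = diag(g) A - diag(linB(g))`
be the matrix `A - diag (lin_l(g) / g_l)` with the row `l` multiplied by `g_l`. The minors without the
row and the column `j` differ by the nonzero factor `∏_{l ≠ j} g_l` (`Matrix.det_mul_column` or
`det_mul_row`, `Matrix.det_diagonal`).

**The case `j = o`.** The entries of `R` for `l, m ≠ o` are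
`ε A_lm - δ_lm (A_lo + ε ∑_{m' ≠ o} A_lm')`; at `ε = 0` the minor is `∏ (- A_lo) ≠ 0`.

**The case `j ≠ o`.** Let `R'` be the minor of `R`, with the column `o` divided by `ε`. The entries are
polynomials in `ε`; at `ε = 0` they are: `- δ_lm A_lo` for `l, m ≠ o`; `A_lo` in the row `l ≠ o` and
the column `o`; `A_om` in the row `o` and the column `m ≠ o`; and `- ∑_{m ≠ o} A_om` (the sum over the
whole block, with `j`) in the entry `(o, o)`. This matrix has no kernel: for a kernel vector `y` the row
`l` gives `y_l = y_o`, and then the row `o` gives `- A_oj y_o = 0`. So its determinant is not zero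
(`Matrix.exists_mulVec_eq_zero_iff`).

So in both cases the minor of `R` (divided by `ε` in the second case) is a polynomial in `ε` whose
value at `ε = 0` is not zero (use matrices with entries in `Polynomial k`, `RingHom.map_det` for the
evaluation), so it is not zero for some `ε ≠ 0` (`k` is infinite).
-/

set_option autoImplicit false

noncomputable section

namespace Pool.Agent.HYG

open Pool.Agent.ZCyc Pool.Agent.Dess Pool.Agent.GT Pool.Agent.TInc
open Pool.Agent.VFP (Om tt)
open scoped Classical

variable {k : Type} [Field k] [CharZero k] {X : Dat k}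

/-- a polynomial matrix which is regular at zero is regular at a nonzero point -/
private lemma eps_CGood {κ : Type} [Fintype κ] [DecidableEq κ] (P : Matrix κ κ (Polynomial k))
    (h : (P.map (Polynomial.eval 0)).det ≠ 0) :
    ∃ ε : k, ε ≠ 0 ∧ (P.map (Polynomial.eval ε)).det ≠ 0 := by
  have key : ∀ ε : k, (P.map (Polynomial.eval ε)).det = Polynomial.eval ε P.det := by
    intro ε
    have h1 := RingHom.map_det (Polynomial.evalRingHom ε) P
    rw [Polynomial.coe_evalRingHom] at h1
    rw [h1]
    rfl
  by_contra hcon
  push Not at hcon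
  have h1 : Polynomial.X * P.det = 0 := by
    apply Polynomial.funext
    intro ε
    rw [Polynomial.eval_mul, Polynomial.eval_X, Polynomial.eval_zero]
    by_cases h2 : ε = 0
    · rw [h2, zero_mul]
    · rw [← key, hcon ε h2, mul_zero]
  have h2 := (mul_eq_zero.1 h1).resolve_left Polynomial.X_ne_zero
  apply h
  rw [key, h2, Polynomial.eval_zero]

/-- the sum of the entries of a row outside of the column `o` -/
private def sg_CGood (X : Dat k) (b : Fin X.n) (o p : Fin X.N) : k :=
  ∑ m with X.β m = b ∧ m ≠ o, X.A p m

/-- the matrix of the text -/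
private def Rm_CGood (X : Dat k) (b : Fin X.n) (j o : Fin X.N) (ε : k) :
    Matrix {i : Fin X.N // X.β i = b ∧ i ≠ j} {i : Fin X.N // X.β i = b ∧ i ≠ j} k := fun p q =>
  if (q : Fin X.N) = o then (if (p : Fin X.N) = o then -sg_CGood X b o o else X.A p o)
  else (if (p : Fin X.N) = o then X.A o q else
    ε * X.A p q - if p = q then X.A p o + ε * sg_CGood X b o p else 0)

omit [CharZero k] in
private lemma lin_CGood {b : Fin X.n} {o p : Fin X.N} (hob : X.β o = b) (hp : X.β p = b) (ε : k) :
    linB X p (fun i => if i = o then 1 else ε) = X.A p o + ε * sg_CGood X b o p := by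
  unfold linB sg_CGood
  have h1 : (Finset.univ.filter fun m => X.β m = X.β p) =
      insert o (Finset.univ.filter fun m => X.β m = b ∧ m ≠ o) := by
    ext m
    rw [Finset.mem_insert, Finset.mem_filter, Finset.mem_filter, hp]
    by_cases hm : m = o
    · subst hm
      simp [hob]
    · simp [hm]
  rw [h1, Finset.sum_insert (by simp)]
  beta_reduce
  rw [if_pos rfl, mul_one, Finset.mul_sum]
  congr 1
  refine Finset.sum_congr rfl fun m hm => ?_
  rw [if_neg (Finset.mem_filter.1 hm).2.2, mul_comm]
  rfl

/-- at `ε = 0` the matrix has no kernel -/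
private lemma ker_CGood {b : Fin X.n} {j o : Fin X.N} (hj : X.β j = b) (hob : X.β o = b)
    (ho : ∀ l, X.β l = b → X.A o l ≠ 0 ∧ X.A l o ≠ 0) : (Rm_CGood X b j o 0).det ≠ 0 := by
  intro hdet
  obtain ⟨y, hy0, hy⟩ := Matrix.exists_mulVec_eq_zero_iff.2 hdet
  have hrow : ∀ p : {i : Fin X.N // X.β i = b ∧ i ≠ j}, ∑ q, Rm_CGood X b j o 0 p q * y q = 0 :=
    fun p => congrFun hy p
  -- the rows different from `o`
  have hne : ∀ p : {i : Fin X.N // X.β i = b ∧ i ≠ j}, (p : Fin X.N) ≠ o →
      ∑ q : {i : Fin X.N // X.β i = b ∧ i ≠ j}, (if (q : Fin X.N) = o then X.A p o * y q else 0) =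
        X.A p o * y p := by
    intro p hp
    have h1 := hrow p
    have h2 : ∀ q, Rm_CGood X b j o 0 p q * y q =
        (if (q : Fin X.N) = o then X.A p o * y q else 0) -
          (if p = q then X.A p o * y p else 0) := by
      intro q
      unfold Rm_CGood
      by_cases hq : (q : Fin X.N) = o
      · have hpq : p ≠ q := fun h => hp (h ▸ hq)
        rw [if_pos hq, if_neg hp, if_pos hq, if_neg hpq, sub_zero]
      · rw [if_neg hq, if_neg hp, if_neg hq]
        by_cases hpq : p = q
        · subst hpq
          rw [if_pos rfl, if_pos rfl]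
          ring
        · rw [if_neg hpq, if_neg hpq]
          ring
    rw [Finset.sum_congr rfl fun q _ => h2 q, Finset.sum_sub_distrib, Finset.sum_ite_eq,
      if_pos (Finset.mem_univ _), sub_eq_zero] at h1
    exact h1
  apply hy0
  by_cases hjo : o = j
  · -- `o` is not an index
    funext p
    have hp : (p : Fin X.N) ≠ o := fun h => p.2.2 (h.trans hjo)
    have h1 := hne p hp
    rw [Finset.sum_eq_zero fun q _ => if_neg fun h => q.2.2 (h.trans hjo)] at h1
    exact (mul_eq_zero.1 h1.symm).resolve_left (ho p p.2.1).2
  · set o' : {i : Fin X.N // X.β i = b ∧ i ≠ j} := ⟨o, hob, hjo⟩ with ho'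
    have h1 : ∀ p, y p = y o' := by
      intro p
      by_cases hp : (p : Fin X.N) = o
      · congr 1
        exact Subtype.ext hp
      · have h2 := hne p hp
        rw [Finset.sum_eq_single o' (fun q _ hq => if_neg fun h => hq (Subtype.ext h))
          fun h => absurd (Finset.mem_univ _) h, if_pos rfl] at h2
        exact (mul_left_cancel₀ (ho p p.2.1).2 h2).symm
    have h2 := hrow o'
    have h3 : ∀ q : {i : Fin X.N // X.β i = b ∧ i ≠ j}, Rm_CGood X b j o 0 o' q * y q =
        ((if (q : Fin X.N) = o then -sg_CGood X b o o else X.A o q)) * y o' := by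
      intro q
      rw [h1 q]
      unfold Rm_CGood
      by_cases hq : (q : Fin X.N) = o
      · rw [if_pos hq, if_pos rfl, if_pos hq]
      · rw [if_neg hq, if_pos rfl, if_neg hq]
    rw [Finset.sum_congr rfl fun q _ => h3 q, ← Finset.sum_mul] at h2
    have h4 : ∑ q : {i : Fin X.N // X.β i = b ∧ i ≠ j},
        (if (q : Fin X.N) = o then -sg_CGood X b o o else X.A o q) = -X.A o j := by
      have h5 : ∑ q : {i : Fin X.N // X.β i = b ∧ i ≠ j},
          (if (q : Fin X.N) = o then -sg_CGood X b o o else X.A o q) =
          ∑ i ∈ Finset.univ.filter (fun i => X.β i = b ∧ i ≠ j),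
            (if i = o then -sg_CGood X b o o else X.A o i) :=
        (Finset.sum_subtype _ (fun x => by rw [Finset.mem_filter_univ])
          fun i => if i = o then -sg_CGood X b o o else X.A o i).symm
      have h6 : (Finset.univ.filter fun i => X.β i = b ∧ i ≠ j) =
          insert o (Finset.univ.filter fun i => (X.β i = b ∧ i ≠ o) ∧ i ≠ j) := by
        ext i
        rw [Finset.mem_insert, Finset.mem_filter, Finset.mem_filter]
        by_cases hi : i = o
        · subst hi
          simp [hob, hjo]
        · simp [hi]
      have h7 : (Finset.univ.filter fun i => X.β i = b ∧ i ≠ o) =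
          insert j (Finset.univ.filter fun i => (X.β i = b ∧ i ≠ o) ∧ i ≠ j) := by
        ext i
        rw [Finset.mem_insert, Finset.mem_filter, Finset.mem_filter]
        by_cases hi : i = j
        · subst hi
          simp [hj, Ne.symm hjo]
        · simp [hi]
      rw [h5, h6, Finset.sum_insert (by simp), if_pos rfl]
      have h8 : sg_CGood X b o o = X.A o j +
          ∑ i ∈ Finset.univ.filter (fun i => (X.β i = b ∧ i ≠ o) ∧ i ≠ j), X.A o i := by
        unfold sg_CGood
        rw [h7, Finset.sum_insert (by simp)]
      rw [Finset.sum_congr rfl fun i hi => if_neg (Finset.mem_filter.1 hi).2.1.2, h8]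
      ring
    rw [h4] at h2
    have h5 : y o' = 0 := by
      refine (mul_eq_zero.1 h2).resolve_left ?_
      exact neg_ne_zero.2 (ho j hj).1
    funext p
    rw [h1 p, h5]
    rfl

theorem exists_good (hG : Gnl X) {b : Fin X.n} {j : Fin X.N} (hj : X.β j = b) :
    ∃ g : Fin X.N → k, (∀ i, X.β i = b → g i ≠ 0) ∧
      mnr X b j (fun i => linB X i g / g i) ≠ 0 := by
  obtain ⟨o, hob, ho⟩ := hG b
  set P : Matrix {i : Fin X.N // X.β i = b ∧ i ≠ j} {i : Fin X.N // X.β i = b ∧ i ≠ j}
      (Polynomial k) := fun p q =>
    if (q : Fin X.N) = o then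
      (if (p : Fin X.N) = o then Polynomial.C (-sg_CGood X b o o) else Polynomial.C (X.A p o))
    else (if (p : Fin X.N) = o then Polynomial.C (X.A o q) else
      Polynomial.X * Polynomial.C (X.A p q) -
        if p = q then Polynomial.C (X.A p o) + Polynomial.X * Polynomial.C (sg_CGood X b o p)
          else 0) with hP
  have hPe : ∀ ε : k, P.map (Polynomial.eval ε) = Rm_CGood X b j o ε := by
    intro ε
    ext p q
    rw [Matrix.map_apply, hP]
    unfold Rm_CGood
    dsimp only
    split_ifs
    · rw [Polynomial.eval_C]
    · rw [Polynomial.eval_C]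
    · rw [Polynomial.eval_C]
    · rw [Polynomial.eval_sub, Polynomial.eval_mul, Polynomial.eval_add, Polynomial.eval_mul,
        Polynomial.eval_X, Polynomial.eval_C, Polynomial.eval_C, Polynomial.eval_C]
    · rw [Polynomial.eval_sub, Polynomial.eval_mul, Polynomial.eval_X, Polynomial.eval_C,
        Polynomial.eval_zero]
  obtain ⟨ε, hε, hdet⟩ := eps_CGood P (by rw [hPe]; exact ker_CGood hj hob ho)
  rw [hPe] at hdet
  refine ⟨fun i => if i = o then 1 else ε, fun i _ => ?_, ?_⟩
  · dsimp only
    split_ifs
    · exact one_ne_zero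
    · exact hε
  · set g : Fin X.N → k := fun i => if i = o then 1 else ε with hg
    have hg0 : ∀ i, g i ≠ 0 := by
      intro i
      rw [hg]
      dsimp only
      split_ifs
      · exact one_ne_zero
      · exact hε
    unfold mnr
    set N := (matK X.A fun i => linB X i g / g i).submatrix
      (fun p : {i // X.β i = b ∧ i ≠ j} => p.1) fun p : {i // X.β i = b ∧ i ≠ j} => p.1 with hN
    have hmul : Matrix.diagonal (fun p : {i // X.β i = b ∧ i ≠ j} => g p) * N =
        Rm_CGood X b j o ε * Matrix.diagonal
          (fun p : {i // X.β i = b ∧ i ≠ j} => if (p : Fin X.N) = o then ε else 1) := by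
      ext p q
      rw [Matrix.diagonal_mul, Matrix.mul_diagonal]
      have e1 : N p q = X.A p q - if p = q then linB X p g / g p else 0 := by
        rw [hN, Matrix.submatrix_apply]
        unfold matK
        rw [Matrix.sub_apply, Matrix.map_apply, Matrix.diagonal_apply]
        simp only [Subtype.ext_iff]
        rfl
      rw [e1, lin_CGood hob p.2.1]
      unfold Rm_CGood
      rw [hg]
      dsimp only
      by_cases hq : (q : Fin X.N) = o
      · by_cases hp : (p : Fin X.N) = o
        · have hpq : p = q := Subtype.ext (hp.trans hq.symm)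
          subst hpq
          rw [if_pos rfl, if_pos hp, if_pos hp, if_pos hp, if_pos hp, hp]
          ring
        · have hpq : p ≠ q := fun h => hp (h ▸ hq)
          rw [if_neg hpq, if_neg hp, if_pos hq, if_neg hp, if_pos hq, hq]
          ring
      · by_cases hp : (p : Fin X.N) = o
        · have hpq : p ≠ q := fun h => hq (h ▸ hp)
          rw [if_neg hpq, if_pos hp, if_neg hq, if_pos hp, if_neg hq, hp]
          ring
        · rw [if_neg hp, if_neg hq, if_neg hp, if_neg hq]
          by_cases hpq : p = q
          · subst hpq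
            rw [if_pos rfl, if_pos rfl]
            field_simp
          · rw [if_neg hpq, if_neg hpq]
            ring
    intro h0
    have h1 := congrArg Matrix.det hmul
    rw [Matrix.det_mul, Matrix.det_mul, h0, mul_zero, Matrix.det_diagonal] at h1
    refine mul_ne_zero hdet (Finset.prod_ne_zero_iff.2 fun p _ => ?_) h1.symm
    split_ifs
    · exact hε
    · exact one_ne_zero

end Pool.Agent.HYG
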