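import Pool.Agent.HYG.CLine
import Pool.Agent.HYG.CFin

/-!
# Project HYG, block C: independence of the blocks with `a = 0`

Let `a_i = 0` for all `i` in the block `b`. Let `g_i = 1`, and let `o_i` be a root of
`o_i ^ M_i = lin_i(g)` for `i` in the block (`k` is algebraically closed); `OnKb X b o` (`g` is a kernel
vector; the block is not empty, as there is a kernel vector for `P`).

The function `G P = F P - F (setB X b o P)` is a class function (`IsCF.sub`, `IsCF.set`, `hF.cf`). It
vanishes at the finite points `w`: let `x` be a kernel vector of the block `b` (`onK_iff`) and `V` from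
`exists_line`; `bridge` for `F` and `V` with `t = 0` (`line_zero'`) and `t = 1` (`line_one` for the
point `o'`, `o'_i = o_i` in the block and `w_i` outside of it). By `zero_of_fin` `G = 0`.
So `F P = F (setB X b o P) = F (setB X b o P') = F P'`.
-/

set_option autoImplicit false

noncomputable section

namespace Pool.Agent.HYG

open Pool.Agent.ZCyc Pool.Agent.Dess Pool.Agent.GT Pool.Agent.TInc
open Pool.Agent.VFP (Om tt)
open scoped Classical

variable {k : Type} [Field k] [IsAlgClosed k] [CharZero k] {X : Dat k} {W : Type} [AddCommGroup W]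
  [Module k W] {a : Fin X.N → ℕ} {F : (Fin X.N → Option k) → W}

private theorem tf_CInd (k : Type) [Field k] [CharZero k] {W : Type} [AddCommGroup W]
    [Module k W] (n : ℕ) (x : W) (hn : n ≠ 0) (h : n • x = 0) : x = 0 := by
  rw [← Nat.cast_smul_eq_nsmul k] at h
  exact (smul_eq_zero.1 h).resolve_left (Nat.cast_ne_zero.2 hn)

theorem Eig.indep (hF : Eig X a F) (hM : ∀ i, 0 < X.M i) {b : Fin X.n}
    (ha : ∀ i, X.β i = b → a i = 0) {P P' : Fin X.N → Option k} (hP : OnB X P) (hP' : OnB X P')
    (h : ∀ i, X.β i ≠ b → P i = P' i) : F P = F P' := by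
  -- the block is not empty
  obtain ⟨x₀, ⟨i₀, hi₀, -⟩, -⟩ := onB_iff.1 hP b
  -- the constants
  have hroot : ∀ i : Fin X.N, ∃ r : k, r ^ X.M i = linB X i (fun _ => (1 : k)) := fun i =>
    IsAlgClosed.exists_pow_nat_eq _ (hM i)
  choose o ho using hroot
  have hob : OnKb X b o := by
    rw [onKb_iff]
    refine ⟨fun _ => 1, ⟨i₀, hi₀, one_ne_zero⟩, fun i _ => ?_⟩
    rw [mul_one, ho]
  have hG : IsCF X fun Q => F Q - F (setB X b o Q) := hF.cf.sub (hF.cf.set hob)
  have hfin : ∀ w : Fin X.N → k, OnK X w →
      F (fun i => some (w i)) - F (setB X b o fun i => some (w i)) = 0 := by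
    intro w hw
    obtain ⟨x, hx⟩ := onK_iff.1 hw b
    have hg : ∀ i, X.β i = b → (fun _ : Fin X.N => (1 : k)) i ≠ 0 := fun _ _ => one_ne_zero
    obtain ⟨V, hV⟩ := exists_line hM hw hx hg
    have h1 : F (fun i => some (w i)) =
        F fun i => some (if X.β i = b then o i else w i) := by
      refine bridge hF.cf (tf_CInd k) hV.on (c₀ := 0) (c₁ := 1) (fun v hv => ?_)
        (fun v hv => ?_)
      · exact line_zero' hM hF hw hx hg hV hv ha
      · refine line_one hM hF hw hx hg hV hv ha (fun i hi => if_neg hi) (fun i hi => ?_)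
        rw [if_pos hi, ho, div_one]
    have h2 : (setB X b o fun i => some (w i)) =
        fun i => some (if X.β i = b then o i else w i) := by
      funext i
      unfold setB
      split_ifs <;> rfl
    rw [h2, h1, sub_self]
  have key : ∀ Q : Fin X.N → Option k, OnB X Q → F Q = F (setB X b o Q) := fun Q hQ =>
    sub_eq_zero.1 (zero_of_fin hM hG hfin hQ)
  have hset : setB X b o P = setB X b o P' := by
    funext i
    unfold setB
    split_ifs with hi
    · rfl
    · exact h i hi
  rw [key P hP, key P' hP', hset]

end Pool.Agent.HYG
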