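import Pool.Agent.HYG.Val

/-!
# Project HYG, block C: kernel vectors

A square matrix over a field has determinant zero if and only if there is a nonzero vector in its
kernel (`Matrix.exists_mulVec_eq_zero_iff`). For the square block `b` (index type
`{i // X.β i = b}`) the vector is extended by zero to `Fin X.N`, and sums over the subtype are sums over
`Finset.univ.filter (X.β · = b)` (`Finset.sum_subtype`).

* `IsKer X b x w`: `x` is a kernel vector of the block `b` of `A - diag (w_i ^ M_i)`.
* `onK_iff`, `onB_iff`: the rows of `A - diag (w_i ^ M_i)` resp. of `mat A M P`.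
* `onK_alg`: homomorphisms of fields commute with determinants and are injective.
* `det_upd`: the determinant is linear in the row `j`, and `w_j ^ M_j` is subtracted in the entry
  `(j, j)` only (`Matrix.det_updateRow_add`, `det_updateRow_smul`, and the expansion along the row
  `e_j`: `Matrix.det_succ_row`, or `det_of_upperTriangular`-type block argument
  `Matrix.det_fromBlocks_zero₂₁`; an equivalence `{i // β i = b} ≃ Unit ⊕ {i // β i = b ∧ i ≠ j}`).
-/

set_option autoImplicit false

noncomputable section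

namespace Pool.Agent.HYG

open Pool.Agent.ZCyc Pool.Agent.Dess Pool.Agent.GT Pool.Agent.TInc
open Pool.Agent.VFP (Om tt)
open scoped Classical

variable {k : Type} [Field k] {X : Dat k} {K : Type} [Field K] [Algebra k K]

/-- the value at the vector `x` of the linear form given by the row `i` of the block of `i` -/
def linB (X : Dat k) {K : Type} [Field K] [Algebra k K] (i : Fin X.N) (x : Fin X.N → K) : K :=
  ∑ j with X.β j = X.β i, algebraMap k K (X.A i j) * x j

/-- `x` is a nonzero kernel vector of the block `b` of the matrix `A - diag (w_i ^ M_i)` -/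
def IsKer (X : Dat k) {K : Type} [Field K] [Algebra k K] (b : Fin X.n) (x w : Fin X.N → K) : Prop :=
  (∃ i, X.β i = b ∧ x i ≠ 0) ∧ ∀ i, X.β i = b → linB X i x = w i ^ X.M i * x i

private lemma lin_sub_CKer {b : Fin X.n} {i : Fin X.N} (hi : X.β i = b) (y : Fin X.N → K) :
    linB X i y = ∑ p : {i // X.β i = b}, algebraMap k K (X.A i p) * y p := by
  unfold linB
  rw [hi]
  exact Finset.sum_subtype _ (fun x => by rw [Finset.mem_filter_univ]) _

private lemma mv_CKer (b : Fin X.n) (μ : Fin X.N → K) (x : {i // X.β i = b} → K)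
    (i : {i // X.β i = b}) :
    (Matrix.toSquareBlock (matK X.A μ) X.β b).mulVec x i =
      ∑ p : {i // X.β i = b}, algebraMap k K (X.A i p) * x p - μ i * x i := by
  have h1 : (Matrix.toSquareBlock (matK X.A μ) X.β b).mulVec x i =
      ∑ p : {i // X.β i = b}, (algebraMap k K (X.A i p) * x p - if i = p then μ i * x i else 0) := by
    change ∑ p, Matrix.toSquareBlock (matK X.A μ) X.β b i p * x p = _
    refine Finset.sum_congr rfl fun p _ => ?_
    have h2 : Matrix.toSquareBlock (matK X.A μ) X.β b i p =
        algebraMap k K (X.A i p) - if (i : Fin X.N) = p then μ i else 0 := by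
      simp only [Matrix.toSquareBlock_def, Matrix.of_apply, matK, Matrix.sub_apply,
        Matrix.map_apply, Matrix.diagonal_apply]
    rw [h2, sub_mul]
    by_cases hp : i = p
    · subst hp
      rw [if_pos rfl, if_pos rfl]
    · rw [if_neg (fun h => hp (Subtype.ext h)), if_neg hp, zero_mul]
  rw [h1, Finset.sum_sub_distrib, Finset.sum_ite_eq, if_pos (Finset.mem_univ _)]

/-- extension by zero -/
private def ext_CKer (b : Fin X.n) (x : {i // X.β i = b} → K) : Fin X.N → K :=
  fun i => if h : X.β i = b then x ⟨i, h⟩ else 0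

omit [Field k] [Algebra k K] in
private lemma ext_apply_CKer (b : Fin X.n) (x : {i // X.β i = b} → K) (p : {i // X.β i = b}) :
    ext_CKer b x p = x p := dif_pos p.2

private lemma onKb_iff_CKer {b : Fin X.n} {w : Fin X.N → K} :
    (Matrix.toSquareBlock (matK X.A fun i => w i ^ X.M i) X.β b).det = 0 ↔
      ∃ x, IsKer X b x w := by
  rw [← Matrix.exists_mulVec_eq_zero_iff]
  constructor
  · rintro ⟨x, hx0, hx⟩
    refine ⟨ext_CKer b x, ?_, fun i hi => ?_⟩
    · obtain ⟨p, hp⟩ := Function.ne_iff.1 hx0
      exact ⟨p, p.2, by rw [ext_apply_CKer]; exact hp⟩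
    · have h1 := congrFun hx ⟨i, hi⟩
      rw [mv_CKer, Pi.zero_apply, sub_eq_zero] at h1
      rw [lin_sub_CKer hi]
      have h2 : ext_CKer b x i = x ⟨i, hi⟩ := dif_pos hi
      rw [h2, ← h1]
      exact Finset.sum_congr rfl fun p _ => by rw [ext_apply_CKer]
  · rintro ⟨x, ⟨i, hi, hxi⟩, hx⟩
    refine ⟨fun p => x p, ?_, ?_⟩
    · intro h
      exact hxi (congrFun h ⟨i, hi⟩)
    · funext p
      rw [mv_CKer, Pi.zero_apply, sub_eq_zero, ← lin_sub_CKer p.2]
      exact hx p p.2

theorem onK_iff {w : Fin X.N → K} : OnK X w ↔ ∀ b, ∃ x, IsKer X b x w :=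
  forall_congr' fun _ => onKb_iff_CKer

private lemma mvP_CKer (b : Fin X.n) (P : Fin X.N → Option k) (x : {i // X.β i = b} → k)
    (i : {i // X.β i = b}) :
    ((∀ w, P i = some w → (Matrix.toSquareBlock (mat X.A X.M P) X.β b).mulVec x i =
      ∑ p : {i // X.β i = b}, algebraMap k k (X.A i p) * x p - w ^ X.M i * x i)) ∧
    (P i = none → (Matrix.toSquareBlock (mat X.A X.M P) X.β b).mulVec x i = x i) := by
  constructor
  · intro w hw
    have h1 : (Matrix.toSquareBlock (mat X.A X.M P) X.β b).mulVec x i =
        ∑ p : {i // X.β i = b},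
          (algebraMap k k (X.A i p) * x p - if i = p then w ^ X.M i * x i else 0) := by
      change ∑ p, Matrix.toSquareBlock (mat X.A X.M P) X.β b i p * x p = _
      refine Finset.sum_congr rfl fun p _ => ?_
      have h2 : Matrix.toSquareBlock (mat X.A X.M P) X.β b i p =
          algebraMap k k (X.A i p) - if (i : Fin X.N) = p then w ^ X.M i else 0 := by
        simp only [Matrix.toSquareBlock_def, Matrix.of_apply, mat, hw, Algebra.algebraMap_self,
          RingHom.id_apply]
      rw [h2, sub_mul]
      by_cases hp : i = p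
      · subst hp
        rw [if_pos rfl, if_pos rfl]
      · rw [if_neg (fun h => hp (Subtype.ext h)), if_neg hp, zero_mul]
    rw [h1, Finset.sum_sub_distrib, Finset.sum_ite_eq, if_pos (Finset.mem_univ _)]
  · intro hn
    have h1 : (Matrix.toSquareBlock (mat X.A X.M P) X.β b).mulVec x i =
        ∑ p : {i // X.β i = b}, if i = p then x i else 0 := by
      change ∑ p, Matrix.toSquareBlock (mat X.A X.M P) X.β b i p * x p = _
      refine Finset.sum_congr rfl fun p _ => ?_
      have h2 : Matrix.toSquareBlock (mat X.A X.M P) X.β b i p =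
          if (i : Fin X.N) = p then 1 else 0 := by
        simp only [Matrix.toSquareBlock_def, Matrix.of_apply, mat, hn]
      rw [h2]
      by_cases hp : i = p
      · subst hp
        rw [if_pos rfl, if_pos rfl, one_mul]
      · rw [if_neg (fun h => hp (Subtype.ext h)), if_neg hp, zero_mul]
    rw [h1, Finset.sum_ite_eq, if_pos (Finset.mem_univ _)]

theorem onB_iff {P : Fin X.N → Option k} : OnB X P ↔ ∀ b, ∃ x : Fin X.N → k,
    (∃ i, X.β i = b ∧ x i ≠ 0) ∧ ∀ i, X.β i = b →
      (∀ w, P i = some w → linB X i x = w ^ X.M i * x i) ∧ (P i = none → x i = 0) := by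
  refine forall_congr' fun b => ?_
  rw [← Matrix.exists_mulVec_eq_zero_iff]
  constructor
  · rintro ⟨x, hx0, hx⟩
    refine ⟨ext_CKer b x, ?_, fun i hi => ⟨fun w hw => ?_, fun hn => ?_⟩⟩
    · obtain ⟨p, hp⟩ := Function.ne_iff.1 hx0
      exact ⟨p, p.2, by rw [ext_apply_CKer]; exact hp⟩
    · have h1 := congrFun hx ⟨i, hi⟩
      rw [(mvP_CKer b P x ⟨i, hi⟩).1 w hw, Pi.zero_apply, sub_eq_zero] at h1
      rw [lin_sub_CKer hi]
      have h2 : ext_CKer b x i = x ⟨i, hi⟩ := dif_pos hi
      rw [h2, ← h1]
      exact Finset.sum_congr rfl fun p _ => by rw [ext_apply_CKer]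
    · have h1 := congrFun hx ⟨i, hi⟩
      rw [(mvP_CKer b P x ⟨i, hi⟩).2 hn, Pi.zero_apply] at h1
      have h2 : ext_CKer b x i = x ⟨i, hi⟩ := dif_pos hi
      rw [h2, h1]
  · rintro ⟨x, ⟨i, hi, hxi⟩, hx⟩
    refine ⟨fun p => x p, ?_, ?_⟩
    · intro h
      exact hxi (congrFun h ⟨i, hi⟩)
    · funext p
      rw [Pi.zero_apply]
      cases hP : P p with
      | none => rw [(mvP_CKer b P _ p).2 hP, (hx p p.2).2 hP]
      | some w =>
        rw [(mvP_CKer b P _ p).1 w hP, sub_eq_zero, ← lin_sub_CKer p.2]
        exact (hx p p.2).1 w hP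

/-- points with finite coordinates -/
theorem onB_some {w : Fin X.N → k} : OnB X (fun i => some (w i)) ↔ OnK X w := by
  have h : mat X.A X.M (fun i => some (w i)) = matK X.A fun i => w i ^ X.M i := by
    ext i j
    simp only [mat, matK, Matrix.sub_apply, Matrix.map_apply, Matrix.diagonal_apply,
      Algebra.algebraMap_self, RingHom.id_apply]
  unfold OnB OnK
  rw [h]

theorem onK_alg {K' : Type} [Field K'] [Algebra k K'] (φ : K →ₐ[k] K') {w : Fin X.N → K} :
    OnK X (fun i => φ (w i)) ↔ OnK X w := by
  refine forall_congr' fun b => ?_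
  have h : Matrix.toSquareBlock (matK X.A fun i => φ (w i) ^ X.M i) X.β b =
      (φ : K →+* K').mapMatrix (Matrix.toSquareBlock (matK X.A fun i => w i ^ X.M i) X.β b) := by
    ext i j
    simp only [Matrix.toSquareBlock_def, Matrix.of_apply, RingHom.mapMatrix_apply,
      Matrix.map_apply, matK, Matrix.sub_apply, Matrix.diagonal_apply, RingHom.coe_coe, map_sub,
      AlgHom.commutes]
    split_ifs <;> simp
  rw [h, ← RingHom.map_det, map_eq_zero]

/-- the equation of one block, for coordinates in an extension field -/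
def OnKb (X : Dat k) {K : Type} [Field K] [Algebra k K] (b : Fin X.n) (w : Fin X.N → K) : Prop :=
  (Matrix.toSquareBlock (matK X.A fun i => w i ^ X.M i) X.β b).det = 0

theorem onKb_iff {b : Fin X.n} {w : Fin X.N → K} : OnKb X b w ↔ ∃ x, IsKer X b x w :=
  onKb_iff_CKer

/-- the equation of the block `b` depends only on the coordinates of this block -/
theorem onKb_congr {b : Fin X.n} {w w' : Fin X.N → K} (h : ∀ i, X.β i = b → w i = w' i) :
    OnKb X b w ↔ OnKb X b w' := by
  have e : Matrix.toSquareBlock (matK X.A fun i => w i ^ X.M i) X.β b =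
      Matrix.toSquareBlock (matK X.A fun i => w' i ^ X.M i) X.β b := by
    ext i j
    simp only [Matrix.toSquareBlock_def, Matrix.of_apply, matK, Matrix.sub_apply,
      Matrix.map_apply, Matrix.diagonal_apply]
    rw [h i i.2]
  unfold OnKb
  rw [e]

/-- the minor without the row and the column `j` of the block `b` of `A - diag μ` -/
def mnr (X : Dat k) {K : Type} [Field K] [Algebra k K] (b : Fin X.n) (j : Fin X.N)
    (μ : Fin X.N → K) : K :=
  ((matK X.A μ).submatrix (fun p : {i // X.β i = b ∧ i ≠ j} => p.1)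
    fun p : {i // X.β i = b ∧ i ≠ j} => p.1).det

/-- the rows and columns different from `j` of the block `b` -/
private def eqv_CKer (X : Dat k) {b : Fin X.n} {j : Fin X.N} (hj : X.β j = b) :
    {p : {i // X.β i = b} // p ≠ ⟨j, hj⟩} ≃ {i // X.β i = b ∧ i ≠ j} where
  toFun p := ⟨p.1.1, p.1.2, fun h => p.2 (Subtype.ext h)⟩
  invFun q := ⟨⟨q.1, q.2.1⟩, fun h => q.2.2 (congrArg Subtype.val h)⟩
  left_inv _ := rfl
  right_inv _ := rfl

private lemma minor_CKer {b : Fin X.n} {j : Fin X.N} (hj : X.β j = b) (μ : Fin X.N → K) :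
    (Matrix.updateRow (Matrix.toSquareBlock (matK X.A (Function.update μ j 0)) X.β b) ⟨j, hj⟩
      (Pi.single ⟨j, hj⟩ 1)).det = mnr X b j μ := by
  rw [Matrix.twoBlockTriangular_det _ fun p => p ≠ ⟨j, hj⟩]
  · have h1 : (Matrix.toSquareBlockProp
        (Matrix.updateRow (Matrix.toSquareBlock (matK X.A (Function.update μ j 0)) X.β b) ⟨j, hj⟩
          (Pi.single ⟨j, hj⟩ 1)) fun p => ¬p ≠ ⟨j, hj⟩).det = 1 := by
      have : Subsingleton {p : {i // X.β i = b} // ¬p ≠ ⟨j, hj⟩} := by
        constructor
        rintro ⟨p, hp⟩ ⟨q, hq⟩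
        exact Subtype.ext ((not_not.1 hp).trans (not_not.1 hq).symm)
      rw [Matrix.det_eq_elem_of_subsingleton _ ⟨⟨j, hj⟩, not_not.2 rfl⟩]
      simp [Matrix.toSquareBlockProp_def]
    rw [h1, mul_one]
    unfold mnr
    rw [← Matrix.det_submatrix_equiv_self (eqv_CKer X hj)]
    congr 1
    ext p q
    have h2 : (p.1 : Fin X.N) ≠ j := fun h => p.2 (Subtype.ext h)
    simp only [Matrix.toSquareBlockProp_def, Matrix.of_apply, Matrix.submatrix_apply]
    rw [Matrix.updateRow_ne p.2]
    simp only [Matrix.toSquareBlock_def, Matrix.of_apply, matK, Matrix.sub_apply,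
      Matrix.map_apply, Matrix.diagonal_apply]
    rw [Function.update_of_ne h2]
    rfl
  · intro p hp q hq
    rw [not_not.1 hp, Matrix.updateRow_self]
    exact Pi.single_eq_of_ne hq _

/-- the determinant is an affine function of `μ_j` -/
theorem det_upd {b : Fin X.n} {j : Fin X.N} (hj : X.β j = b) (μ : Fin X.N → K) :
    (Matrix.toSquareBlock (matK X.A μ) X.β b).det =
      (Matrix.toSquareBlock (matK X.A (Function.update μ j 0)) X.β b).det -
        μ j * mnr X b j μ := by
  set B := Matrix.toSquareBlock (matK X.A (Function.update μ j 0)) X.β b with hB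
  have h1 : Matrix.toSquareBlock (matK X.A μ) X.β b =
      Matrix.updateRow B ⟨j, hj⟩ (B ⟨j, hj⟩ + (-μ j) • Pi.single ⟨j, hj⟩ 1) := by
    ext p q
    by_cases hp : p = ⟨j, hj⟩
    · subst hp
      rw [Matrix.updateRow_self, hB]
      simp only [Matrix.toSquareBlock_def, Matrix.of_apply, matK, Matrix.sub_apply,
        Matrix.map_apply, Matrix.diagonal_apply, Pi.add_apply, Pi.smul_apply,
        Function.update_self]
      by_cases hq : q = ⟨j, hj⟩
      · subst hq
        simp
        ring
      · have h2 : j ≠ (q : Fin X.N) := fun h => hq (Subtype.ext h.symm)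
        rw [if_neg h2, if_neg h2, Pi.single_eq_of_ne hq]
        simp
    · rw [Matrix.updateRow_ne hp, hB]
      have h2 : (p : Fin X.N) ≠ j := fun h => hp (Subtype.ext h)
      simp only [Matrix.toSquareBlock_def, Matrix.of_apply, matK, Matrix.sub_apply,
        Matrix.map_apply, Matrix.diagonal_apply]
      rw [Function.update_of_ne h2]
  rw [h1, Matrix.det_updateRow_add, Matrix.det_updateRow_smul, Matrix.updateRow_eq_self, hB,
    minor_CKer hj]
  ring

end Pool.Agent.HYG
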