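import Pool.Agent.HYG.CLine
import Pool.Agent.HYG.CFin
import Pool.Agent.HYG.CGood

/-!
# Project HYG, block C: mixed characters

**`mixed_pair`.** Let `w` be a finite point, `i ≠ j` in the block `b`, `a_i ≠ 0`, `a_j = 0`, and
suppose that the minor `D_j` without `j` (`mnr`) is not zero at `w`. Consider the family `V_i = (1 -
t) w_i`, `V_l = w_l` for `l ≠ i, j`, and `V_j ^ M_j = μ_j := det_0 / D_j`, where `det_0` is the
determinant of the block for `μ_l = V_l ^ M_l`, `l ≠ j`, and `μ_j` replaced by `0`, and `D_j = mnr X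
b j μ`. At a place above `t = 0` the value of `D_j` is `mnr X b j (w ^ M) ≠ 0` (`at_mnr`), so `D_j ≠
0` (`exists_place_tt`). `OnK X V`: in the block `b` by `det_upd`, the other coordinates are constant
(`onKb_congr`). `bridge` for `F`: above `t = 0` `V_j ^ M_j` has the value `det_0(w) / D_j(w) = w_j ^
M_j` (`det_upd` for `w`, `at_det`), so `V_j` has the value `u w_j`, `u ^ M_j = 1` (`root_limit`),
and `F` has the value `F w` (`Eig.eq_of_pow`, `a_j = 0`). Above `t = 1` the value of `V_i` is `0`,
so `F` has the value `0` (`Eig.zero`; `V_j` may have a pole). So `F w = 0`.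

**`mixed_fin`.** Let `w` be a finite point, `x` a kernel vector of the block `b` (`onK_iff`), `g`
the vector from `exists_good` for `j`, and `V` the family from `exists_line`. Let `Γ` be the set of
`mnr X b j (V ^ M)` and the `V_l ≠ 0`. `mnr X b j (V ^ M) ≠ 0`, because at a place above `t = 1` it
has the value `mnr X b j (lin(g) / g) ≠ 0` (`at_mnr`; the value of `V_l ^ M_l = lin_l(x(t)) /
x_l(t)` is `lin_l(g) / g_l`). At a place where all elements of `Γ` are units the `V_l` have finite
values `c_l`, `OnK X c` (`onK_at`), and `mnr X b j (c ^ M) ≠ 0` (the value of a unit), so `F` has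
the value `0` by `mixed_pair`. By `moving` `F` has the value `0` at a place above `t = 0`; by
`line_zero` this value is a nonzero multiple of `F w`.

**`Eig.mixed`.** `zero_of_fin`.
-/

set_option autoImplicit false

noncomputable section

namespace Pool.Agent.HYG

open Pool.Agent.ZCyc Pool.Agent.Dess Pool.Agent.GT Pool.Agent.TInc
open Pool.Agent.VFP (Om tt)
open scoped Classical

variable {k : Type} [Field k] [IsAlgClosed k] [CharZero k] {X : Dat k} {W : Type} [AddCommGroup W]
  [Module k W] {a : Fin X.N → ℕ} {F : (Fin X.N → Option k) → W}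

omit [IsAlgClosed k] [CharZero k] in
private theorem mnr_congr_CMix {K : Type} [Field K] [Algebra k K] {b : Fin X.n} {j : Fin X.N}
    {μ μ' : Fin X.N → K} (h : ∀ l, l ≠ j → μ l = μ' l) : mnr X b j μ = mnr X b j μ' := by
  unfold mnr
  congr 1
  ext p q
  simp only [Matrix.submatrix_apply, matK, Matrix.sub_apply, Matrix.map_apply,
    Matrix.diagonal_apply]
  rw [h p.1 p.2.2]

omit [IsAlgClosed k] [CharZero k] in
private theorem at_one_CMix {v : Place k (Om k)} {c : k} (hv : v.At (tt k) c) (d : k) :
    v.At ((1 - tt k) * algebraMap k (Om k) d) ((1 - c) * d) := by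
  have h1 := Place.at_const (v := v) (1 : k)
  rw [map_one] at h1
  exact (h1.sub hv).mul (Place.at_const d)

private theorem det_at_CMix {v : Place k (Om k)} {b : Fin X.n} {μ : Fin X.N → Om k}
    {c : Fin X.N → k} (h : ∀ l, v.At (μ l) (c l)) :
    v.At (Matrix.toSquareBlock (matK X.A μ) X.β b).det
      (Matrix.toSquareBlock (matK X.A c) X.β b).det := by
  apply at_det
  intro p q
  simp only [Matrix.toSquareBlock_def, Matrix.of_apply, matK, Matrix.sub_apply,
    Matrix.map_apply, Matrix.diagonal_apply, Algebra.algebraMap_self, RingHom.id_apply]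
  refine (Place.at_const _).sub ?_
  by_cases hpq : (p : Fin X.N) = q
  · rw [if_pos hpq, if_pos hpq]
    exact h _
  · rw [if_neg hpq, if_neg hpq]
    have h1 := Place.at_const (v := v) (0 : k)
    rwa [map_zero] at h1

theorem mixed_pair (hF : Eig X a F) (hM : ∀ i, 0 < X.M i) (ha : ∀ i, a i < X.M i) {b : Fin X.n}
    {i j : Fin X.N} (hi : X.β i = b) (hj : X.β j = b) (hai : a i ≠ 0) (haj : a j = 0)
    {w : Fin X.N → k} (hw : OnK X w) (hD : mnr X b j (fun l => w l ^ X.M l) ≠ 0) :
    F (fun i => some (w i)) = 0 := by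
  have hij : j ≠ i := fun h => hai (h ▸ haj)
  -- the family without the coordinate `j`
  let V₀ : Fin X.N → Om k := fun l =>
    if l = i then (1 - tt k) * algebraMap k (Om k) (w i) else algebraMap k (Om k) (w l)
  have hV₀ : ∀ (v : Place k (Om k)) (c : k), v.At (tt k) c → ∀ l,
      v.At (V₀ l) (if l = i then (1 - c) * w i else w l) := by
    intro v c hv l
    by_cases hl : l = i
    · change v.At (if l = i then _ else _) _
      rw [if_pos hl, if_pos hl]
      exact at_one_CMix hv _
    · change v.At (if l = i then _ else _) _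
      rw [if_neg hl, if_neg hl]
      exact Place.at_const _
  have hV₀0 : ∀ (v : Place k (Om k)), v.At (tt k) 0 → ∀ l, v.At (V₀ l) (w l) := by
    intro v hv l
    have h1 := hV₀ v 0 hv l
    by_cases hl : l = i
    · rw [if_pos hl, sub_zero, one_mul] at h1
      rwa [hl] at h1 ⊢
    · rwa [if_neg hl] at h1
  set μ : Fin X.N → Om k := fun l => V₀ l ^ X.M l with hμ
  have hμ0 : ∀ (v : Place k (Om k)), v.At (tt k) 0 → ∀ l, v.At (μ l) (w l ^ X.M l) :=
    fun v hv l => (hV₀0 v hv l).pow _
  have hmnr : ∀ (v : Place k (Om k)), v.At (tt k) 0 →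
      v.At (mnr X b j μ) (mnr X b j fun l => w l ^ X.M l) :=
    fun v hv => at_mnr fun l _ _ => hμ0 v hv l
  have hDj : mnr X b j μ ≠ 0 := by
    obtain ⟨v, hv⟩ := exists_place_tt (k := k) 0
    intro h0
    have h1 := hmnr v hv
    rw [h0] at h1
    have h2 := Place.at_const (v := v) (0 : k)
    rw [map_zero] at h2
    exact hD (h1.unique h2)
  set d := (Matrix.toSquareBlock (matK X.A (Function.update μ j 0)) X.β b).det with hd
  obtain ⟨r, hr⟩ := exists_root_om (k := k) (hM j) (d / mnr X b j μ)
  let V : Fin X.N → Om k := Function.update V₀ j r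
  have hVj : V j = r := Function.update_self _ _ _
  have hVl : ∀ l, l ≠ j → V l = V₀ l := fun l hl => Function.update_of_ne hl _ _
  have hV : OnK X V := by
    intro b'
    by_cases hb : b' = b
    · subst hb
      rw [det_upd hj]
      have h1 : Function.update (fun l => V l ^ X.M l) j 0 = Function.update μ j 0 := by
        funext l
        by_cases hl : l = j
        · subst hl
          rw [Function.update_self, Function.update_self]
        · rw [Function.update_of_ne hl, Function.update_of_ne hl, hVl l hl]
      have h2 : mnr X b' j (fun l => V l ^ X.M l) = mnr X b' j μ :=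
        mnr_congr_CMix fun l hl => by rw [hVl l hl]
      rw [h1, h2, ← hd, hVj, hr, div_mul_cancel₀ _ hDj, sub_self]
    · have h1 : OnK X fun l => algebraMap k (Om k) (w l) :=
        (onK_alg (Algebra.ofId k (Om k))).2 hw
      refine (onKb_congr fun l hl => ?_).2 (h1 b')
      have h2 : l ≠ j := by
        rintro rfl
        exact hb (hl.symm.trans hj)
      have h3 : l ≠ i := by
        rintro rfl
        exact hb (hl.symm.trans hi)
      rw [hVl l h2]
      exact if_neg h3
  refine bridge hF.cf (tf k) hV (c₀ := 0) (c₁ := 1) (fun v hv => ?_) fun v hv => ?_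
  · have h1 : v.At d (Matrix.toSquareBlock
        (matK X.A (Function.update (fun l => w l ^ X.M l) j 0)) X.β b).det := by
      apply det_at_CMix
      intro l
      by_cases hl : l = j
      · subst hl
        rw [Function.update_self, Function.update_self]
        have h2 := Place.at_const (v := v) (0 : k)
        rwa [map_zero] at h2
      · rw [Function.update_of_ne hl, Function.update_of_ne hl]
        exact hμ0 v hv l
    have h2 := det_upd (K := k) hj (fun l => w l ^ X.M l)
    have h3 : (Matrix.toSquareBlock (matK X.A fun l => w l ^ X.M l) X.β b).det = 0 := hw b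
    rw [h3] at h2
    have h4 := sub_eq_zero.1 h2.symm
    rw [h4] at h1
    have h5 : v.At (r ^ X.M j) (w j ^ X.M j) := by
      rw [hr, div_eq_mul_inv]
      have h6 := h1.mul ((hmnr v hv).inv hD)
      rwa [mul_assoc, mul_inv_cancel₀ hD, mul_one] at h6
    obtain ⟨u, hu, hu'⟩ := root_limit (hM j) h5
    have h6 : ∀ l, v.At (V l) (Function.update w j (u * w j) l) := by
      intro l
      by_cases hl : l = j
      · subst hl
        rw [Function.update_self, hVj]
        exact hu'
      · rw [Function.update_of_ne hl, hVl l hl]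
        exact hV₀0 v hv l
    rw [funext fun l => vl_of_at (h6 l)]
    refine (hF.eq_of_pow hM (fun l => ?_) fun l hl => ?_).symm
    · by_cases hl : l = j
      · subst hl
        rw [Function.update_self, mul_pow, hu, one_mul]
      · rw [Function.update_of_ne hl]
    · rw [Function.update_of_ne]
      rintro rfl
      exact hl haj
  · refine hF.zero hai (ha i) (Or.inr ?_)
    have h1 := hV₀ v 1 hv i
    rw [if_pos rfl, sub_self, zero_mul] at h1
    rw [hVl i hij.symm]
    exact vl_of_at h1

omit [IsAlgClosed k] [CharZero k] in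
private theorem lv_at_CMix {v : Place k (Om k)} (hv : v.At (tt k) 1) (l : Fin X.N)
    (x g : Fin X.N → k) : v.At (lv x g l) (g l) := by
  have h1 := (at_one_CMix hv (x l)).add (hv.mul (Place.at_const (g l)))
  rwa [sub_self, zero_mul, zero_add, one_mul] at h1

omit [IsAlgClosed k] [CharZero k] in
private theorem linB_at_CMix {v : Place k (Om k)} (hv : v.At (tt k) 1) (l : Fin X.N)
    (x g : Fin X.N → k) : v.At (linB X l (lv x g)) (linB X l g) := by
  unfold linB
  exact Place.At.sum fun i _ => (Place.at_const (X.A l i)).mul (lv_at_CMix hv i x g)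

theorem mixed_fin (hF : Eig X a F) (hM : ∀ i, 0 < X.M i) (hG : Gnl X) (ha : ∀ i, a i < X.M i)
    {i j : Fin X.N} (hij : X.β i = X.β j) (hai : a i ≠ 0) (haj : a j = 0)
    {w : Fin X.N → k} (hw : OnK X w) : F (fun i => some (w i)) = 0 := by
  obtain ⟨x, hx⟩ := onK_iff.1 hw (X.β j)
  obtain ⟨g, hg, hg'⟩ := exists_good hG (j := j) rfl
  obtain ⟨V, hV⟩ := exists_line hM hw hx hg
  have hm0 : mnr X (X.β j) j (fun l => V l ^ X.M l) ≠ 0 := by
    obtain ⟨v, hv⟩ := exists_place_tt (k := k) 1
    have h1 : v.At (mnr X (X.β j) j fun l => V l ^ X.M l)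
        (mnr X (X.β j) j fun l => linB X l g / g l) := by
      refine at_mnr fun l hl _ => ?_
      rw [hV.eq l hl, div_eq_mul_inv, div_eq_mul_inv]
      exact (linB_at_CMix hv l x g).mul ((lv_at_CMix hv l x g).inv (hg l hl))
    intro h0
    rw [h0] at h1
    have h2 := Place.at_const (v := v) (0 : k)
    rw [map_zero] at h2
    exact hg' (h1.unique h2)
  set m := mnr X (X.β j) j (fun l => V l ^ X.M l) with hm
  obtain ⟨v₀, hv₀⟩ := exists_place_tt (k := k) 0
  have key : F (fun i => vl v₀ (V i)) = 0 := by
    refine moving hF.cf hV.on ((insert m (Finset.univ.image V)).erase 0)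
      (Finset.notMem_erase _ _) (fun v hv => ?_) v₀
    have h1 : ∀ l, ∃ c : k, v.At (V l) c := by
      intro l
      have h2 : V l ∈ v.ring := by
        by_cases h3 : V l = 0
        · rw [h3]
          exact v.ring.zero_mem
        · exact (hv (V l) (Finset.mem_erase.2 ⟨h3, Finset.mem_insert_of_mem
            (Finset.mem_image_of_mem V (Finset.mem_univ l))⟩)).1
      rcases h4 : vl v (V l) with _ | c
      · exact absurd h2 (vl_none_om.1 h4)
      · exact ⟨c, vl_eq.1 h4⟩
    choose c hc using h1
    have h2 : OnK X c := onK_at hV.on hc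
    have h3 : v.At m (mnr X (X.β j) j fun l => c l ^ X.M l) :=
      at_mnr fun l _ _ => (hc l).pow _
    have h4 : mnr X (X.β j) j (fun l => c l ^ X.M l) ≠ 0 := by
      intro h0
      rw [h0, Place.at_zero_iff, Place.vanishes_iff_or] at h3
      rcases h3 with h3 | h3
      · exact hm0 h3
      · exact h3 (hv m (Finset.mem_erase.2 ⟨hm0, Finset.mem_insert_self _ _⟩)).2
    rw [funext fun l => vl_of_at (hc l)]
    exact mixed_pair hF hM ha hij rfl hai haj h2 h4
  obtain ⟨c, hc, h1⟩ := line_zero hM hF hw hx hg hV hv₀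
  rw [key] at h1
  exact (smul_eq_zero.1 h1.symm).resolve_left hc

theorem Eig.mixed (hF : Eig X a F) (hM : ∀ i, 0 < X.M i) (hG : Gnl X) (ha : ∀ i, a i < X.M i)
    {i j : Fin X.N} (hij : X.β i = X.β j) (hai : a i ≠ 0) (haj : a j = 0)
    {P : Fin X.N → Option k} (hP : OnB X P) : F P = 0 :=
  zero_of_fin hM hF.cf (fun _ hw => mixed_fin hF hM hG ha hij hai haj hw) hP

end Pool.Agent.HYG
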