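import Pool.Agent.HYG.CPerm
import Pool.Agent.HYG.CChar
import Pool.Agent.HYG.CMix

/-!
# Project HYG, block C: combinations of automorphisms which kill all forms, values in a `k`-vector space

`E = ∑_a ea X a E` (`sum_ea`), so it is enough to show `∑_g γ_g • ea X a E (g.app P) = 0` for every `a`
with `a_i < M_i`. `ea X a E (g.app P) = ∏ h_i ^ (a_i) • ea X a E (P ∘ τ_g)` (`ea_app`).

If `a` is not admissible then it is mixed on some block, and `ea X a E (P ∘ τ_g) = 0` by `Eig.mixed`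
(`ea_eig`, `OnB.perm`, `Mon.isPm`).

Let `a` be admissible. Group the sum over `g ∈ γ.support` by `a' = a ∘ τ_g⁻¹` (i.e. `a' ∘ τ_g = a`;
`Finset.sum_fiberwise`-type lemma with the function `g ↦ a ∘ τ_g⁻¹`). For fixed `a'` choose `g₀` in the
support with `a' ∘ τ₀ = a` (if there is none the sum is empty). For the other `g` let
`σ = τ₀⁻¹ τ_g`; `IsPm X σ` (`IsPm.mul`, `IsPm.inv`), `a ∘ σ = a' ∘ τ₀ ∘ τ₀⁻¹ ∘ τ_g = a`. So
`ea X a E (P ∘ τ_g) = ea X a E ((P ∘ τ₀) ∘ σ) = kp X a σ • ea X a E (P ∘ τ₀)` (`Eig.perm_all`), and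
`kp X a τ_g = kp X a τ₀ * kp X a σ` (`kp_mul`), so `kp X a σ = kp X a τ₀ * kp X a τ_g` (`kp_sq`). So the
sum is `kp X a τ₀ • (∑_g γ_g kos g a ∏ h_i ^ (a_i)) • ea X a E (P ∘ τ₀) = 0` by `hγ`.
-/

set_option autoImplicit false

noncomputable section

namespace Pool.Agent.HYG

open Pool.Agent.ZCyc Pool.Agent.Dess Pool.Agent.GT Pool.Agent.TInc
open Pool.Agent.VFP (Om tt)
open scoped Classical

variable {k : Type} [Field k] [IsAlgClosed k] [CharZero k] {X : Dat k} {W : Type} [AddCommGroup W]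
  [Module k W]

omit [IsAlgClosed k] [CharZero k] in
private lemma kp_div_CKillA {a : Fin X.N → ℕ} (hA : ∀ i j, X.β i = X.β j → (a i = 0 ↔ a j = 0))
    {τ σ : Equiv.Perm (Fin X.N)} (hτ : IsPm X τ) (hσ : IsPm X σ) (ha : ∀ i, a (σ i) = a i) :
    kp X a σ = kp X a τ * kp X a (τ * σ) := by
  rw [kp_mul hA hτ hσ ha, ← mul_assoc, kp_sq, one_mul]

theorem kill_part (hS : SwapAll k) (hM : ∀ i, 0 < X.M i) (hG : Gnl X)
    {E : (Fin X.N → Option k) → W} (hE : IsCF X E) {γ : Mon X →₀ ℚ} (hγ : KillsForms γ)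
    {a : Fin X.N → ℕ} (ha : ∀ i, a i < X.M i) {P : Fin X.N → Option k} (hP : OnB X P) :
    γ.sum (fun g c => (c : k) • ea X a E (g.app P)) = 0 := by
  by_cases hA : ∀ i j, X.β i = X.β j → (a i = 0 ↔ a j = 0)
  swap
  · have h1 : ∃ i j, X.β i = X.β j ∧ a i ≠ 0 ∧ a j = 0 := by
      push Not at hA
      obtain ⟨i, j, hij, h⟩ := hA
      rcases h with ⟨h1, h2⟩ | ⟨h1, h2⟩
      · exact ⟨j, i, hij.symm, h2, h1⟩
      · exact ⟨i, j, hij, h1, h2⟩
    obtain ⟨i, j, hij, hai, haj⟩ := h1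
    refine Finset.sum_eq_zero fun g _ => ?_
    beta_reduce
    rw [ea_app hM hE g P, Eig.mixed (ea_eig hM hE a) hM hG ha hij hai haj (hP.perm g.isPm),
      smul_zero, smul_zero]
  have hAdm : Adm X a := ⟨ha, hA⟩
  have hF := ea_eig hM hE a
  set F := ea X a E with hFdef
  set T : Mon X → W := fun g => (γ g : k) • F (g.app P) with hT
  have hmaps : ∀ g ∈ γ.support, (fun i => a (g.τ.symm i)) ∈
      γ.support.image fun g => (fun i => a (g.τ.symm i)) := fun g hg =>
    Finset.mem_image_of_mem _ hg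
  have h1 : γ.sum (fun g c => (c : k) • F (g.app P)) = ∑ g ∈ γ.support, T g := rfl
  rw [h1, ← Finset.sum_fiberwise_of_maps_to hmaps]
  refine Finset.sum_eq_zero fun a' ha' => ?_
  obtain ⟨g0, hg0, hg0a⟩ := Finset.mem_image.1 ha'
  have hcond : ∀ g : Mon X, (fun i => a (g.τ.symm i)) = a' ↔ a' ∘ g.τ = a := by
    intro g
    constructor
    · rintro rfl
      funext i
      simp
    · intro h
      funext i
      rw [← h]
      simp
  have h0 : a' ∘ g0.τ = a := (hcond g0).1 hg0a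
  have hterm : ∀ g ∈ γ.support.filter (fun g => (fun i => a (g.τ.symm i)) = a'),
      T g = ((γ g : k) * (kos g a : k) * ∏ i, g.h i ^ a i) •
        ((kp X a g0.τ : ℤ) : k) • F fun i => P (g0.τ i) := by
    intro g hg
    have hg1 : a' ∘ g.τ = a := (hcond g).1 (Finset.mem_filter.1 hg).2
    have hσ : IsPm X (g0.τ⁻¹ * g.τ) := (g0.isPm.inv).mul g.isPm
    have hτσ : g0.τ * (g0.τ⁻¹ * g.τ) = g.τ := by
      rw [← mul_assoc, mul_inv_cancel, one_mul]
    have haσ : ∀ i, a ((g0.τ⁻¹ * g.τ) i) = a i := by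
      intro i
      have e1 : a ((g0.τ⁻¹ * g.τ) i) = a' (g0.τ ((g0.τ⁻¹ * g.τ) i)) :=
        (congrFun h0 ((g0.τ⁻¹ * g.τ) i)).symm
      have e2 : g0.τ ((g0.τ⁻¹ * g.τ) i) = g.τ i := by
        rw [← Equiv.Perm.mul_apply, hτσ]
      rw [e1, e2]
      exact congrFun hg1 i
    have h2 : F (fun i => P (g.τ i)) =
        (kp X a (g0.τ⁻¹ * g.τ) : k) • F fun i => P (g0.τ i) := by
      rw [← hF.perm_all hS hM hG hAdm hσ haσ (hP.perm g0.isPm)]
      congr 1
      funext i
      have e2 : g0.τ ((g0.τ⁻¹ * g.τ) i) = g.τ i := by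
        rw [← Equiv.Perm.mul_apply, hτσ]
      rw [e2]
    have h3 := kp_div_CKillA hA g0.isPm hσ haσ
    rw [hτσ] at h3
    rw [hT]
    beta_reduce
    rw [hFdef, ea_app hM hE g P, ← hFdef, h2, h3, kos_eq, smul_smul, smul_smul, smul_smul]
    congr 1
    push_cast
    ring
  rw [Finset.sum_congr rfl hterm, ← Finset.sum_smul]
  have h4 := hγ a hAdm a'
  have h5 : γ.support.filter (fun g => (fun i => a (g.τ.symm i)) = a') =
      γ.support.filter (fun g => a' ∘ g.τ = a) := by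
    apply Finset.filter_congr
    intro g _
    exact hcond g
  rw [h5, h4, zero_smul]

theorem kill_k (hS : SwapAll k) (hM : ∀ i, 0 < X.M i) (hG : Gnl X)
    {E : (Fin X.N → Option k) → W} (hE : IsCF X E) {γ : Mon X →₀ ℚ} (hγ : KillsForms γ)
    {P : Fin X.N → Option k} (hP : OnB X P) :
    γ.sum (fun g c => (c : k) • E (g.app P)) = 0 := by
  have h1 : γ.sum (fun g c => (c : k) • E (g.app P)) =
      ∑ a ∈ Fintype.piFinset fun i => Finset.range (X.M i),
        γ.sum (fun g c => (c : k) • ea X a E (g.app P)) := by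
    simp only [Finsupp.sum]
    rw [Finset.sum_comm]
    refine Finset.sum_congr rfl fun g _ => ?_
    rw [← Finset.smul_sum, sum_ea hM]
  rw [h1]
  refine Finset.sum_eq_zero fun a ha => ?_
  exact kill_part hS hM hG hE hγ (fun i => Finset.mem_range.1 (Fintype.mem_piFinset.1 ha i)) hP

end Pool.Agent.HYG
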