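import Pool.Agent.HYG.CMov
import Pool.Agent.HYG.CVal
import Pool.Agent.HYG.CEig

/-!
# Project HYG, block C: lines of kernel vectors

Let `w` be a finite point, `x` a kernel vector of the block `b` for `w`, and `g` a vector with
`g_i ≠ 0` for all `i` in the block. Let `x(t) = (1 - t) x + t g`, `t = tt k`. For `i` in the block
`x_i(t) ≠ 0`, because `g_i ≠ 0` and `t` is transcendental (`VFP.tt_transc`).

* `exists_line`: `W_i` is a root of `W_i ^ M_i = lin_i(x(t)) / x_i(t)` for `i` in the block and
  `W_i = w_i` otherwise; `x(t)` is a kernel vector of the block `b` (`onK_iff`).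
* `cube`: if `w` and `w'` differ only in coordinates `i` of the block `b` with `x_i = 0`, then
  `x` is a kernel vector for all points `W(t) = w + t (w' - w)` of the line between them, because
  `lin_i(x) = 0 = W_i ^ M_i x_i` (`w_i ^ M_i x_i = 0`). `bridge` for this family, `t = 0` and
  `t = 1`.
* `line_zero`: at a place `v` above `t = 0` the value of `lin_i(x(t)) / x_i(t)` is `w_i ^ M_i` if
  `x_i ≠ 0`, and it is the constant `lin_i(g) / g_i` if `x_i = 0` (then also `lin_i(x) = 0`). So the
  values of the `W_i` are the coordinates of a finite point `w''` (`at_root`), and if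
  `w'_i = w''_i` for `x_i = 0` and `w'_i = w_i` otherwise then `F w' = F w` by `cube`, and `F w''`
  is a multiple of `F w'` by `Eig.of_pow`. If `a_i = 0` on the block `b` then `F w'' = F w'` by
  `Eig.eq_of_pow` (outside of the block the coordinates are equal).
* `line_one`: the same at `t = 1`: the value is `lin_i(g) / g_i` for all `i` in the block.
-/

set_option autoImplicit false

noncomputable section

namespace Pool.Agent.HYG

open Pool.Agent.ZCyc Pool.Agent.Dess Pool.Agent.GT Pool.Agent.TInc
open Pool.Agent.VFP (Om tt)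
open scoped Classical

variable {k : Type} [Field k] [IsAlgClosed k] [CharZero k] {X : Dat k} {W : Type} [AddCommGroup W]

/-- the vector `(1 - t) x + t g` -/
def lv {N : ℕ} (x g : Fin N → k) : Fin N → Om k :=
  fun i => (1 - tt k) * algebraMap k (Om k) (x i) + tt k * algebraMap k (Om k) (g i)

/-- the points of the line -/
structure IsLine (X : Dat k) (b : Fin X.n) (w x g : Fin X.N → k) (V : Fin X.N → Om k) : Prop where
  on : OnK X V
  out : ∀ i, X.β i ≠ b → V i = algebraMap k (Om k) (w i)
  ne : ∀ i, X.β i = b → lv x g i ≠ 0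
  eq : ∀ i, X.β i = b → V i ^ X.M i = linB X i (lv x g) / lv x g i

omit [IsAlgClosed k] [CharZero k] in
private theorem linB_alg_CLine (i : Fin X.N) (x : Fin X.N → k) :
    linB X i (fun j => algebraMap k (Om k) (x j)) = algebraMap k (Om k) (linB X i x) := by
  unfold linB
  rw [map_sum]
  refine Finset.sum_congr rfl fun j _ => ?_
  rw [map_mul]
  rfl

omit [IsAlgClosed k] [CharZero k] in
private theorem linB_lv_CLine (i : Fin X.N) (x g : Fin X.N → k) :
    linB X i (lv x g) = (1 - tt k) * algebraMap k (Om k) (linB X i x) +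
      tt k * algebraMap k (Om k) (linB X i g) := by
  rw [← linB_alg_CLine, ← linB_alg_CLine]
  unfold linB lv
  rw [Finset.mul_sum, Finset.mul_sum, ← Finset.sum_add_distrib]
  refine Finset.sum_congr rfl fun j _ => ?_
  ring

omit [IsAlgClosed k] [CharZero k] in
private theorem one_sub_CLine {v : Place k (Om k)} {c : k} (hv : v.At (tt k) c) (a d : k) :
    v.At ((1 - tt k) * algebraMap k (Om k) a + tt k * algebraMap k (Om k) d)
      ((1 - c) * a + c * d) := by
  have h1 := Place.at_const (v := v) (1 : k)
  rw [map_one] at h1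
  exact ((h1.sub hv).mul (Place.at_const a)).add (hv.mul (Place.at_const d))

private theorem lv_ne_CLine {x g : Fin X.N → k} {i : Fin X.N} (h : g i ≠ 0) : lv x g i ≠ 0 := by
  obtain ⟨v, hv⟩ := exists_place_tt (k := k) 1
  intro h0
  have h1 : v.At (lv x g i) ((1 - 1) * x i + 1 * g i) := one_sub_CLine hv _ _
  rw [h0, sub_self, zero_mul, zero_add, one_mul] at h1
  have h2 := Place.at_const (v := v) (0 : k)
  rw [map_zero] at h2
  exact h (h1.unique h2)

omit [IsAlgClosed k] [CharZero k] in
private theorem onK_const_CLine {w : Fin X.N → k} (hw : OnK X w) :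
    OnK X fun i => algebraMap k (Om k) (w i) :=
  (onK_alg (Algebra.ofId k (Om k))).2 hw

theorem exists_line (hM : ∀ i, 0 < X.M i) {b : Fin X.n} {w x g : Fin X.N → k} (hw : OnK X w)
    (hx : IsKer X b x w) (hg : ∀ i, X.β i = b → g i ≠ 0) : ∃ V, IsLine X b w x g V := by
  choose r hr using fun i => exists_root_om (k := k) (hM i) (linB X i (lv x g) / lv x g i)
  have hne : ∀ i, X.β i = b → lv x g i ≠ 0 := fun i hi => lv_ne_CLine (hg i hi)
  refine ⟨fun i => if X.β i = b then r i else algebraMap k (Om k) (w i), ?_, ?_, hne, ?_⟩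
  · intro b'
    by_cases hb : b' = b
    · subst hb
      refine onKb_iff.2 ⟨lv x g, ?_, ?_⟩
      · obtain ⟨i, hi, -⟩ := hx.1
        exact ⟨i, hi, hne i hi⟩
      · intro i hi
        beta_reduce
        rw [if_pos hi, hr i, div_mul_cancel₀ _ (hne i hi)]
    · refine (onKb_congr fun i hi => ?_).2 (onK_const_CLine hw b')
      rw [if_neg fun h => hb (hi.symm.trans h)]
  · intro i hi
    rw [if_neg hi]
  · intro i hi
    rw [if_pos hi, hr i]

theorem cube {F : (Fin X.N → Option k) → W} (hF : IsCF X F)
    (hW : ∀ (n : ℕ) (x : W), n ≠ 0 → n • x = 0 → x = 0) {b : Fin X.n} {w w' x : Fin X.N → k}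
    (hw : OnK X w) (hx : IsKer X b x w) (h : ∀ i, w i ≠ w' i → X.β i = b ∧ x i = 0) :
    OnK X w' ∧ F (fun i => some (w i)) = F fun i => some (w' i) := by
  have hout : ∀ i, X.β i ≠ b → w i = w' i := by
    intro i hi
    by_contra hne
    exact hi (h i hne).1
  constructor
  · intro b'
    by_cases hb : b' = b
    · subst hb
      refine onKb_iff.2 ⟨x, hx.1, fun i hi => ?_⟩
      rw [hx.2 i hi]
      by_cases hi' : w i = w' i
      · rw [hi']
      · rw [(h i hi').2, mul_zero, mul_zero]
    · refine (onKb_congr fun i hi => ?_).1 (hw b')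
      exact hout i fun h => hb (hi.symm.trans h)
  · have hW' : OnK X fun i => (1 - tt k) * algebraMap k (Om k) (w i) +
        tt k * algebraMap k (Om k) (w' i) := by
      have heq : ∀ i, w i = w' i → (1 - tt k) * algebraMap k (Om k) (w i) +
          tt k * algebraMap k (Om k) (w' i) = algebraMap k (Om k) (w i) := by
        intro i hi
        rw [← hi]
        ring
      intro b'
      by_cases hb : b' = b
      · subst hb
        refine onKb_iff.2 ⟨fun i => algebraMap k (Om k) (x i), ?_, fun i hi => ?_⟩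
        · obtain ⟨i, hi, hi'⟩ := hx.1
          exact ⟨i, hi, (map_ne_zero _).2 hi'⟩
        · rw [linB_alg_CLine, hx.2 i hi]
          beta_reduce
          by_cases hi' : w i = w' i
          · rw [heq i hi', map_mul, map_pow]
          · rw [(h i hi').2, mul_zero, map_zero, mul_zero]
      · refine (onKb_congr fun i hi => ?_).2 (onK_const_CLine hw b')
        exact heq i (hout i fun h => hb (hi.symm.trans h))
    refine bridge hF hW hW' (c₀ := 0) (c₁ := 1) (fun v hv => ?_) fun v hv => ?_
    · congr 1
      funext i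
      have h1 := one_sub_CLine hv (w i) (w' i)
      rw [sub_zero, one_mul, zero_mul, add_zero] at h1
      exact vl_of_at h1
    · congr 1
      funext i
      have h1 := one_sub_CLine hv (w i) (w' i)
      rw [sub_self, zero_mul, one_mul, zero_add] at h1
      exact vl_of_at h1

private theorem zero_aux_CLine (hM : ∀ i, 0 < X.M i) {F : (Fin X.N → Option k) → W}
    (hF : IsCF X F) (hW : ∀ (n : ℕ) (x : W), n ≠ 0 → n • x = 0 → x = 0)
    {b : Fin X.n} {w x g : Fin X.N → k}
    (hw : OnK X w) (hx : IsKer X b x w) (hg : ∀ i, X.β i = b → g i ≠ 0) {V : Fin X.N → Om k}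
    (hV : IsLine X b w x g V) {v : Place k (Om k)} (hv : v.At (tt k) 0) :
    ∃ w'' w' : Fin X.N → k, (∀ i, v.At (V i) (w'' i)) ∧ (∀ i, w' i ^ X.M i = w'' i ^ X.M i) ∧
      (∀ i, X.β i ≠ b → w' i = w'' i) ∧
      F (fun i => some (w i)) = F fun i => some (w' i) := by
  have key : ∀ i, ∃ r : k, v.At (V i) r ∧ (X.β i ≠ b → w i = r) ∧
      (x i ≠ 0 → w i ^ X.M i = r ^ X.M i) := by
    intro i
    by_cases hi : X.β i = b
    · by_cases hxi : x i = 0
      · have h0 : linB X i x = 0 := by rw [hx.2 i hi, hxi, mul_zero]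
        have ht : tt k ≠ 0 := by
          intro h0
          have h1 := hV.ne i hi
          obtain ⟨u, hu⟩ := exists_place_tt (k := k) 1
          rw [h0] at hu
          have h2 := Place.at_const (v := u) (0 : k)
          rw [map_zero] at h2
          exact one_ne_zero (hu.unique h2)
        have h1 : V i ^ X.M i = algebraMap k (Om k) (linB X i g / g i) := by
          rw [hV.eq i hi, linB_lv_CLine, h0]
          have h2 : lv x g i = tt k * algebraMap k (Om k) (g i) := by
            unfold lv
            rw [hxi, map_zero, mul_zero, zero_add]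
          rw [h2, map_zero, mul_zero, zero_add, mul_div_mul_left _ _ ht, map_div₀]
        have h2 : v.At (V i ^ X.M i) (linB X i g / g i) := by
          rw [h1]
          exact Place.at_const _
        obtain ⟨r, -, hr⟩ := at_root (hM i) h2
        exact ⟨r, hr, fun h => absurd hi h, fun h => absurd hxi h⟩
      · have h1 : v.At (lv x g i) ((1 - 0) * x i + 0 * g i) := one_sub_CLine hv _ _
        have h2 : v.At (linB X i (lv x g)) ((1 - 0) * linB X i x + 0 * linB X i g) := by
          rw [linB_lv_CLine]
          exact one_sub_CLine hv _ _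
        rw [sub_zero, one_mul, zero_mul, add_zero] at h1 h2
        have h3 : v.At (V i ^ X.M i) (w i ^ X.M i) := by
          rw [hV.eq i hi, div_eq_mul_inv]
          have h4 := h2.mul (h1.inv hxi)
          rwa [hx.2 i hi, mul_assoc, mul_inv_cancel₀ hxi, mul_one] at h4
        obtain ⟨r, hr, hr'⟩ := at_root (hM i) h3
        exact ⟨r, hr', fun h => absurd hi h, fun _ => hr.symm⟩
    · refine ⟨w i, ?_, fun _ => rfl, fun _ => rfl⟩
      rw [hV.out i hi]
      exact Place.at_const _
  choose w'' h1 h2 h3 using key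
  refine ⟨w'', fun i => if X.β i = b ∧ x i = 0 then w'' i else w i, h1, fun i => ?_,
    fun i hi => ?_, ?_⟩
  · beta_reduce
    by_cases hi : X.β i = b ∧ x i = 0
    · rw [if_pos hi]
    · rw [if_neg hi]
      by_cases hi' : X.β i = b
      · exact h3 i fun h => hi ⟨hi', h⟩
      · rw [h2 i hi']
  · beta_reduce
    rw [if_neg fun h => hi h.1]
    exact h2 i hi
  · refine (cube hF hW hw hx fun i hi => ?_).2
    by_contra hcon
    rw [if_neg hcon] at hi
    exact hi rfl

variable [Module k W] {a : Fin X.N → ℕ} {F : (Fin X.N → Option k) → W}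

theorem line_zero (hM : ∀ i, 0 < X.M i) (hF : Eig X a F) {b : Fin X.n} {w x g : Fin X.N → k}
    (hw : OnK X w) (hx : IsKer X b x w) (hg : ∀ i, X.β i = b → g i ≠ 0) {V : Fin X.N → Om k}
    (hV : IsLine X b w x g V) {v : Place k (Om k)} (hv : v.At (tt k) 0) :
    ∃ c : k, c ≠ 0 ∧ F (fun i => vl v (V i)) = c • F fun i => some (w i) := by
  obtain ⟨w'', w', h1, h2, h3, h4⟩ := zero_aux_CLine hM hF.cf (tf k) hw hx hg hV hv
  rw [h4, funext fun i => vl_of_at (h1 i)]
  exact hF.of_pow hM h2

theorem line_zero' (hM : ∀ i, 0 < X.M i) (hF : Eig X a F) {b : Fin X.n} {w x g : Fin X.N → k}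
    (hw : OnK X w) (hx : IsKer X b x w) (hg : ∀ i, X.β i = b → g i ≠ 0) {V : Fin X.N → Om k}
    (hV : IsLine X b w x g V) {v : Place k (Om k)} (hv : v.At (tt k) 0)
    (ha : ∀ i, X.β i = b → a i = 0) : F (fun i => vl v (V i)) = F fun i => some (w i) := by
  obtain ⟨w'', w', h1, h2, h3, h4⟩ := zero_aux_CLine hM hF.cf (tf k) hw hx hg hV hv
  rw [h4, funext fun i => vl_of_at (h1 i)]
  exact (hF.eq_of_pow hM h2 fun i hi => h3 i fun h => hi (ha i h)).symm

theorem line_one (hM : ∀ i, 0 < X.M i) (hF : Eig X a F) {b : Fin X.n} {w x g : Fin X.N → k}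
    (hw : OnK X w) (hx : IsKer X b x w) (hg : ∀ i, X.β i = b → g i ≠ 0) {V : Fin X.N → Om k}
    (hV : IsLine X b w x g V) {v : Place k (Om k)} (hv : v.At (tt k) 1)
    (ha : ∀ i, X.β i = b → a i = 0) {o : Fin X.N → k} (ho : ∀ i, X.β i ≠ b → o i = w i)
    (ho' : ∀ i, X.β i = b → o i ^ X.M i = linB X i g / g i) :
    F (fun i => vl v (V i)) = F fun i => some (o i) := by
  have key : ∀ i, ∃ r : k, v.At (V i) r ∧ (X.β i ≠ b → o i = r) ∧ o i ^ X.M i = r ^ X.M i := by
    intro i
    by_cases hi : X.β i = b
    · have h1 : v.At (lv x g i) ((1 - 1) * x i + 1 * g i) := one_sub_CLine hv _ _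
      have h2 : v.At (linB X i (lv x g)) ((1 - 1) * linB X i x + 1 * linB X i g) := by
        rw [linB_lv_CLine]
        exact one_sub_CLine hv _ _
      rw [sub_self, zero_mul, one_mul, zero_add] at h1 h2
      have h3 : v.At (V i ^ X.M i) (o i ^ X.M i) := by
        rw [hV.eq i hi, ho' i hi, div_eq_mul_inv, div_eq_mul_inv]
        exact h2.mul (h1.inv (hg i hi))
      obtain ⟨r, hr, hr'⟩ := at_root (hM i) h3
      exact ⟨r, hr', fun h => absurd hi h, hr.symm⟩
    · refine ⟨o i, ?_, fun _ => rfl, rfl⟩
      rw [hV.out i hi, ho i hi]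
      exact Place.at_const _
  choose w'' h1 h2 h3 using key
  rw [funext fun i => vl_of_at (h1 i)]
  exact (hF.eq_of_pow hM h3 fun i hi => h2 i fun h => hi (ha i h)).symm

end Pool.Agent.HYG
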