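import Pool.Agent.HYG.CKer
import Pool.Agent.GT.Mov

/-!
# Project HYG, block C: comparison of two values of the parameter, and the moving lemma

Statements as `GT.bridge` and `GT.moving`, for class functions `F` with values in an abelian group
(`IsCF X F`) and a point `w` of the product of hypersurfaces with coordinates in `Om k`, the
algebraic closure of `k(t)`, `t = tt k`.

**Field of definition.** `K = k(tt, w_i, Γ)` (an `IntermediateField k (Om k)`, adjoin of a finite
set) is the function field of a curve (`isCurve_CMov`, as in `GT/Fld.lean`); let `w' i : K` be the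
coordinates. `OnK X w` descends to `OnK X w'` (`onK_alg` for `K.val`). If `V` is a place of `Om k`
and `c` the place of `K` below it (`TInc.exists_below`, `exists_above` for `K.val`) then
`vl V (w i) = vl c (w' i)` (`vl_below`).

**Moving.** As in `GT.moving`: let `c₀` be the place below `v`; `T` = the finite set of places of
`K` where some `g ∈ Γ` has order `≠ 0`; `exists_prescribed`: `f` with the order `1` at `c₀` and `0`
at the other places in `T`. In the relation `hF` for `f` all terms with `c ≠ c₀` vanish (order
zero, or all `g ∈ Γ` are units at `c`, hence at a place of `Om k` above `c`). So `F` vanishes at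
`c₀`.

**Bridge.** As in `GT.bridge`: for the functions `t - c₀` and `t - c₁` of `K` the orders at the
poles agree and the sums of the orders at the zeros are `d = [K : k(t)] > 0` (`deg_zeros'`), so the
difference of the two relations is `d • C₀ - d • C₁ = 0`, with `ℤ`-multiples instead of
`ℚ`-multiples, and `hW` at the end.
-/

set_option autoImplicit false

noncomputable section

namespace Pool.Agent.HYG

open Pool.Agent.ZCyc Pool.Agent.Dess Pool.Agent.GT Pool.Agent.TInc
open Pool.Agent.VFP (Om tt)
open scoped Classical

variable {k : Type} [Field k] [IsAlgClosed k] [CharZero k] {X : Dat k} {W : Type} [AddCommGroup W]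
  {F : (Fin X.N → Option k) → W}

omit [IsAlgClosed k] [CharZero k] in
private theorem transc_CMov : Transcendental k (tt k) := by
  have h : Transcendental k (RatFunc.X : RatFunc k) := RatFunc.transcendental_X
  have h2 := (transcendental_algebraMap_iff (R := k) (S := RatFunc k) (A := Om k)
    (algebraMap (RatFunc k) (Om k)).injective (a := RatFunc.X)).2 h
  exact h2

/-- a field generated by finitely many elements, which contains `tt k`, is the function field of a
curve -/
private theorem isCurve_CMov (S : Set (Om k)) (hS : S.Finite)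
    (ht : tt k ∈ IntermediateField.adjoin k S) : IsCurve k (IntermediateField.adjoin k S) := by
  set K : IntermediateField k (Om k) := IntermediateField.adjoin k S with hKdef
  let t : K := ⟨tt k, ht⟩
  have htK : Transcendental k t := by
    intro h
    apply transc_CMov (k := k)
    exact h.algHom K.val
  refine ⟨t, htK, ?_⟩
  have hess : Algebra.EssFiniteType k K := by
    rw [IntermediateField.essFiniteType_iff]
    exact IntermediateField.fg_adjoin_of_finite hS
  have hess2 : Algebra.EssFiniteType (IntermediateField.adjoin k {t}) K :=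
    Algebra.EssFiniteType.of_comp k _ K
  have halg : Algebra.IsAlgebraic (IntermediateField.adjoin k {t}) K := by
    refine ⟨fun z => ?_⟩
    have h1 : IsAlgebraic (IntermediateField.adjoin k {tt k}) (K.val z) :=
      (alg_adjoin (transc_CMov (k := k))).isAlgebraic _
    have hmap : (IntermediateField.adjoin k {t}).map K.val =
        IntermediateField.adjoin k {tt k} := by
      rw [IntermediateField.adjoin_map, Set.image_singleton]
      rfl
    have hmem : ∀ e : IntermediateField.adjoin k {t},
        ((K.val : K →+* Om k).comp (algebraMap (IntermediateField.adjoin k {t}) K)) e ∈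
          IntermediateField.adjoin k {tt k} := by
      intro e
      rw [← hmap]
      exact ⟨e.1, e.2, rfl⟩
    let f : IntermediateField.adjoin k {t} →+* IntermediateField.adjoin k {tt k} :=
      ((K.val : K →+* Om k).comp (algebraMap (IntermediateField.adjoin k {t}) K)).codRestrict
        (IntermediateField.adjoin k {tt k}).toSubfield hmem
    refine h1.of_ringHom_of_comp_eq (f := f) (g := (K.val : K →+* Om k)) ?_ ?_ ?_
    · rintro ⟨y, hy⟩
      have hy' := hy
      rw [← hmap] at hy'
      obtain ⟨e, he, rfl⟩ := hy'
      exact ⟨⟨e, he⟩, rfl⟩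
    · exact (K.val : K →+* Om k).injective
    · ext x
      rfl
  exact Algebra.finite_of_essFiniteType_of_isAlgebraic

/-- the field of definition of a point and of a finite set -/
private theorem field_CMov {N : ℕ} (w : Fin N → Om k) (Γ : Finset (Om k)) :
    ∃ (K : IntermediateField k (Om k)) (w' : Fin N → K), IsCurve k K ∧
      ↑Γ ⊆ (K : Set (Om k)) ∧ tt k ∈ K ∧ ∀ i, K.val (w' i) = w i := by
  set S : Set (Om k) := insert (tt k) ((Γ : Set (Om k)) ∪ Set.range w) with hSdef
  have hSfin : S.Finite := (Γ.finite_toSet.union (Set.finite_range _)).insert _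
  have htK : tt k ∈ IntermediateField.adjoin k S :=
    IntermediateField.subset_adjoin k S (Set.mem_insert _ _)
  have hΓ : ↑Γ ⊆ (IntermediateField.adjoin k S : Set (Om k)) := fun z hz =>
    IntermediateField.subset_adjoin k S (Set.mem_insert_of_mem _ (Or.inl hz))
  have hwK : ∀ i, w i ∈ IntermediateField.adjoin k S := fun i =>
    IntermediateField.subset_adjoin k S (Set.mem_insert_of_mem _ (Or.inr ⟨i, rfl⟩))
  exact ⟨IntermediateField.adjoin k S, fun i => ⟨w i, hwK i⟩, isCurve_CMov S hSfin htK, hΓ, htK,
    fun i => rfl⟩

omit [IsAlgClosed k] [CharZero k] in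
private theorem vanishes_CMov {K : IntermediateField k (Om k)} {V : Place k (Om k)}
    {c : Place k K} (h : V.ring.comap (K.val : K →+* Om k) = c.ring) (f : K) :
    V.Vanishes (f : Om k) ↔ c.Vanishes f := by
  rw [Place.vanishes_iff_or, Place.vanishes_iff_or, ← h, ValuationSubring.mem_comap]
  constructor
  · rintro (h1 | h1)
    · left
      exact Subtype.ext h1
    · right
      exact h1
  · rintro (h1 | h1)
    · left
      rw [h1]
      rfl
    · right
      exact h1

/-- the moving lemma: if `F` vanishes at all places where the elements of the finite set `Γ` are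
units then it vanishes at all places -/
theorem moving (hF : IsCF X F) {w : Fin X.N → Om k} (hw : OnK X w) (Γ : Finset (Om k))
    (hΓ : (0 : Om k) ∉ Γ)
    (h : ∀ v : Place k (Om k), (∀ g ∈ Γ, g ∈ v.ring ∧ g⁻¹ ∈ v.ring) →
      F (fun i => vl v (w i)) = 0) (v : Place k (Om k)) : F (fun i => vl v (w i)) = 0 := by
  obtain ⟨K, w', hK, hΓK, -, hw'⟩ := field_CMov w Γ
  have hon : OnK X w' := by
    rw [← onK_alg K.val]
    simp only [hw']
    exact hw
  obtain ⟨c₀, hc₀⟩ := exists_below hK v K.val
  have hlim : ∀ (V : Place k (Om k)) (c : Place k K),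
      V.ring.comap (K.val : K →+* Om k) = c.ring →
      F (fun i => vl V (w i)) = F (fun i => vl c (w' i)) := by
    intro V c hV
    congr 1
    funext i
    rw [← hw' i]
    exact vl_below hV (w' i)
  rw [hlim v c₀ hc₀]
  let T : Finset (Place k K) := Γ.attach.biUnion fun g =>
    (finite_ord hK (⟨g.1, hΓK g.2⟩ : K)).toFinset
  obtain ⟨f, hf, hf1, hf0⟩ := exists_prescribed hK c₀ T
  have hsum := hF K hK w' f hf hon
  have key : ∀ c, c ≠ c₀ → ord c f ≠ 0 → F (fun i => vl c (w' i)) = 0 := by
    intro c hc hcf
    have hcT : c ∉ T := fun h => hcf (hf0 c h hc)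
    obtain ⟨V, hV⟩ := exists_above hK c K.val
    rw [← hlim V c hV]
    apply h
    intro g hg
    have h1 : ord c (⟨g, hΓK hg⟩ : K) = 0 := by
      by_contra hne
      apply hcT
      rw [Finset.mem_biUnion]
      exact ⟨⟨g, hg⟩, Finset.mem_attach _ _, (Set.Finite.mem_toFinset _).2 hne⟩
    have h2 : (⟨g, hΓK hg⟩ : K) ≠ 0 := by
      intro h3
      apply hΓ
      have h4 := congrArg Subtype.val h3
      change g = 0 at h4
      rw [← h4]
      exact hg
    rw [ord_eq_zero_iff hK h2, ← hV, ValuationSubring.mem_comap, ValuationSubring.mem_comap] at h1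
    exact h1
  rw [Finsupp.sum, Finset.sum_eq_single c₀] at hsum
  · rw [dv_apply, hf1] at hsum
    simpa using hsum
  · intro c hc hne
    rw [Finsupp.mem_support_iff, dv_apply] at hc
    rw [key c hne hc, smul_zero]
  · intro hc
    rw [Finsupp.notMem_support_iff, dv_apply, hf1] at hc
    exact absurd hc one_ne_zero

/-- if all values of `F` above `t = c₀` are `C₀`, and all values above `t = c₁` are `C₁`, then
`C₀ = C₁` -/
theorem bridge (hF : IsCF X F) (hW : ∀ (n : ℕ) (x : W), n ≠ 0 → n • x = 0 → x = 0)
    {w : Fin X.N → Om k} (hw : OnK X w) {c₀ c₁ : k} {C₀ C₁ : W}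
    (h₀ : ∀ v : Place k (Om k), v.At (tt k) c₀ → F (fun i => vl v (w i)) = C₀)
    (h₁ : ∀ v : Place k (Om k), v.At (tt k) c₁ → F (fun i => vl v (w i)) = C₁) : C₀ = C₁ := by
  obtain ⟨K, w', hK, -, htt, hw'⟩ := field_CMov w ∅
  have hon : OnK X w' := by
    rw [← onK_alg K.val]
    simp only [hw']
    exact hw
  set lm : Place k K → W := fun c => F (fun i => vl c (w' i)) with hlm
  have hlim : ∀ (V : Place k (Om k)) (c : Place k K),
      V.ring.comap (K.val : K →+* Om k) = c.ring →
      F (fun i => vl V (w i)) = lm c := by
    intro V c hV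
    rw [hlm]
    dsimp only
    congr 1
    funext i
    rw [← hw' i]
    exact vl_below hV (w' i)
  set τ : K := ⟨tt k, htt⟩ with hτ
  have hτt : Transcendental k τ := by
    intro h
    apply transc_CMov (k := k)
    have h1 := (isAlgebraic_algHom_iff K.val (K.val : K →+* Om k).injective).2 h
    exact h1
  -- the two functions
  let f : k → K := fun c => τ - algebraMap k K c
  have hft : ∀ c, Transcendental k (f c) := by
    intro c h
    apply hτt
    have h1 : τ = f c + algebraMap k K c := by
      change τ = τ - algebraMap k K c + algebraMap k K c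
      ring
    rw [h1]
    exact h.add (isAlgebraic_algebraMap c)
  have hf0 : ∀ c, f c ≠ 0 := by
    intro c h
    apply hft c
    rw [h]
    exact isAlgebraic_zero
  have hadj : ∀ c, IntermediateField.adjoin k {f c} = IntermediateField.adjoin k {τ} := by
    intro c
    apply le_antisymm
    · rw [IntermediateField.adjoin_simple_le_iff]
      exact sub_mem (IntermediateField.mem_adjoin_simple_self k τ)
        (IntermediateField.algebraMap_mem _ c)
    · rw [IntermediateField.adjoin_simple_le_iff]
      have h1 : τ = f c + algebraMap k K c := by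
        change τ = τ - algebraMap k K c + algebraMap k K c
        ring
      have h2 : f c + algebraMap k K c ∈ IntermediateField.adjoin k {f c} :=
        add_mem (IntermediateField.mem_adjoin_simple_self k (f c))
          (IntermediateField.algebraMap_mem _ c)
      rw [← h1] at h2
      exact h2
  set d : ℕ := Module.finrank (IntermediateField.adjoin k {τ}) K with hd
  have hdpos : 0 < d := by
    have := fin_adjoin hK hτt
    exact Module.finrank_pos
  let S : k → Finset (Place k K) := fun c =>
    (finite_ord hK (f c)).toFinset.filter fun v => v.Vanishes (f c)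
  have hS : ∀ c v, v ∈ S c ↔ v.Vanishes (f c) := by
    intro c v
    rw [Finset.mem_filter, Set.Finite.mem_toFinset]
    constructor
    · exact fun h => h.2
    · intro h
      have h1 := (vanishes_iff_ord hK (hf0 c)).1 h
      exact ⟨ne_of_gt h1, h⟩
  have hdeg : ∀ c, ∑ v ∈ S c, ord v (f c) = d := by
    intro c
    rw [deg_zeros' hK (hft c) (S c) (hS c), hadj c]
  -- the values at the zeros
  have hlimS : ∀ (c : k) (C : W),
      (∀ v : Place k (Om k), v.At (tt k) c → F (fun i => vl v (w i)) = C) →
      ∀ v, v.Vanishes (f c) → lm v = C := by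
    intro c C hC v hv
    obtain ⟨V, hV⟩ := exists_above hK v K.val
    rw [← hlim V v hV]
    apply hC
    have h1 := (vanishes_CMov hV (f c)).2 hv
    exact h1
  -- the orders at the poles agree
  have hpole : ∀ (a b : k) (v : Place k K), ord v (f a) < 0 → ord v (f b) = ord v (f a) := by
    intro a b v hv
    have h1 : f b = f a + algebraMap k K (a - b) := by
      change τ - algebraMap k K b = τ - algebraMap k K a + algebraMap k K (a - b)
      rw [map_sub]
      ring
    rw [h1]
    refine (ord_add_eq hK (hf0 a) fun _ => ?_).2
    rw [ord_const hK]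
    exact hv
  let D : k → (Place k K →₀ ℤ) := fun c => dv hK (f c)
  let T : Finset (Place k K) := (D c₀).support ∪ (D c₁).support
  have hsum : ∀ c, (D c).support ⊆ T → ∑ v ∈ T, (ord v (f c) : ℤ) • lm v = 0 := by
    intro c hc
    have h1 := hF K hK w' (f c) (hf0 c) hon
    rw [Finsupp.sum_of_support_subset _ hc] at h1
    · refine Eq.trans (Finset.sum_congr rfl fun v _ => ?_) h1
      rw [dv_apply]
    · intro v _
      simp
  have hmax : ∀ c, (D c).support ⊆ T → ∑ v ∈ T, max (ord v (f c)) 0 = d := by
    intro c hc
    rw [← hdeg c]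
    symm
    have hsub : S c ⊆ T := by
      intro v hv
      apply hc
      rw [Finsupp.mem_support_iff]
      have h1 := (vanishes_iff_ord hK (hf0 c)).1 ((hS c v).1 hv)
      exact ne_of_gt h1
    rw [← Finset.sum_subset hsub]
    · refine Finset.sum_congr rfl fun v hv => ?_
      have h1 := (vanishes_iff_ord hK (hf0 c)).1 ((hS c v).1 hv)
      exact (max_eq_left h1.le).symm
    · intro v _ hv
      rw [hS, vanishes_iff_ord hK (hf0 c)] at hv
      exact max_eq_right (not_lt.1 hv)
  have hs0 := hsum c₀ Finset.subset_union_left
  have hs1 := hsum c₁ Finset.subset_union_right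
  have hm0 := hmax c₀ Finset.subset_union_left
  have hm1 := hmax c₁ Finset.subset_union_right
  have hterm : ∀ v, (ord v (f c₀) : ℤ) • lm v - (ord v (f c₁) : ℤ) • lm v =
      (max (ord v (f c₀)) 0 : ℤ) • C₀ - (max (ord v (f c₁)) 0 : ℤ) • C₁ := by
    intro v
    have e : ∀ (c : k) (C : W),
        (∀ v : Place k (Om k), v.At (tt k) c → F (fun i => vl v (w i)) = C) →
        (max (ord v (f c)) 0 : ℤ) • C = (max (ord v (f c)) 0 : ℤ) • lm v := by
      intro c C hC
      by_cases hv : v.Vanishes (f c)
      · rw [hlimS c C hC v hv]
      · rw [vanishes_iff_ord hK (hf0 c)] at hv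
        rw [max_eq_right (not_lt.1 hv), zero_smul, zero_smul]
    rw [e c₀ C₀ h₀, e c₁ C₁ h₁, ← sub_smul, ← sub_smul]
    congr 1
    have h1 := hpole c₀ c₁ v
    have h2 := hpole c₁ c₀ v
    rcases lt_or_ge (ord v (f c₀)) 0 with h | h
    · rw [h1 h]
      simp
    · rcases lt_or_ge (ord v (f c₁)) 0 with h' | h'
      · rw [h2 h'] at h
        omega
      · rw [max_eq_left h, max_eq_left h']
  have hfin : (d : ℤ) • C₀ - (d : ℤ) • C₁ = 0 := by
    have h1 : ∑ v ∈ T, ((ord v (f c₀) : ℤ) • lm v - (ord v (f c₁) : ℤ) • lm v) = 0 := by
      rw [Finset.sum_sub_distrib, hs0, hs1, sub_zero]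
    rw [Finset.sum_congr rfl fun v _ => hterm v, Finset.sum_sub_distrib, ← Finset.sum_smul,
      ← Finset.sum_smul, hm0, hm1] at h1
    exact h1
  rw [← smul_sub, natCast_zsmul] at hfin
  exact sub_eq_zero.1 (hW d _ hdpos.ne' hfin)

end Pool.Agent.HYG
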