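import Pool.Agent.HYG.CCf

/-!
# Project HYG, block C: signs

`kp X a τ` is the sign in `kos`. Let `S = {i : a_i ≠ 0}`; by `hA` it is a union of blocks.

* `kp_sq`: all factors are `± 1`.
* `kp_of_fix`: if `τ` fixes the elements of `S` then there are no inversions.
* `kp_mul`: let `a ∘ σ = a`, so `σ` maps `S` to itself. For an unordered pair `{i, j}` of elements of
  `S` the pair is inverted by `τ σ` if and only if exactly one of the following holds: it is
  inverted by `σ`, `{σ i, σ j}` is inverted by `τ`. So the first product is multiplicative, after the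
  substitution `{i, j} ↦ {σ i, σ j}` in the product for `τ`. (For example: the product over `i < j`
  is `∏_{i, j ∈ S, i < j} sgn`; write it as a product over the pairs `(i, j)`, `i < j`, of
  `s_τ(σ i, σ j)` with the symmetric function `s_τ(p, q) = -1` if `p < q` and `τ q < τ p`, or
  `q < p` and `τ p < τ q`, and `1` otherwise; `∏_{i < j} s(σ i, σ j) = ∏_{i < j} s(i, j)` for
  symmetric `s` and a permutation `σ` of `S`: `Finset.prod_bij` with
  `(i, j) ↦ (min (σ i) (σ j), max (σ i) (σ j))`; compare `Equiv.Perm.sign_mul`, `signAux`.)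
  The second product is the same product for the blocks which are contained in `S`, represented by
  their first elements; `τ` and `σ` map blocks to blocks (`IsPm.blk`), so `β (τ i)` depends
  only on `β i`; `σ` permutes the blocks in `S`.
* `kp_exch`: `e` exchanges the blocks `b ≠ b'` (both in `S`) with `m` elements and fixes the other
  coordinates. The first product is the sign of the product of `m` transpositions, `(-1) ^ m`:
  restrict to `S`: the sign of the permutation of `S` (`Equiv.Perm.sign`, or by counting: the number of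
  inversions of an involution without fixed points in a set and fixed elsewhere is odd for each
  transposition...; or by induction with `kp_mul`-type formula for the transpositions `(i, e i)`).
  The second product is the sign of the transposition of the blocks `b` and `b'`, which is `-1`: if
  `b < b'` the inverted pairs of blocks are `(b, c)`, `(c, b')` for `b < c < b'`, and `(b, b')`.
  Suggestion: prove for the general product
  `inv r f = ∏ p ∈ r, ∏ q ∈ r, if p < q ∧ f q < f p then -1 else 1`, for a finite set `r` in a linear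
  order and an injective function `f` on `r`, that it is the sign of the permutation if `f` maps
  `r` to `r`, and use it for both products.
-/

set_option autoImplicit false

noncomputable section

namespace Pool.Agent.HYG

open scoped Classical

variable {k : Type} [Field k] {X : Dat k}

/-- the sign in `kos` as a function of the permutation -/
def kp (X : Dat k) (a : Fin X.N → ℕ) (τ : Equiv.Perm (Fin X.N)) : ℤ :=
  (∏ i, ∏ j, if a i ≠ 0 ∧ a j ≠ 0 ∧ i < j ∧ τ j < τ i then (-1 : ℤ) else 1) *
    ∏ i, ∏ j, if a i ≠ 0 ∧ a j ≠ 0 ∧ Fst X i ∧ Fst X j ∧ X.β i < X.β j ∧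
      X.β (τ j) < X.β (τ i) then (-1 : ℤ) else 1

theorem kos_eq (g : Mon X) (a : Fin X.N → ℕ) : kos g a = kp X a g.τ := rfl

/-- the product for the inversions of `f` with respect to `u` on the set `p` -/
private def inv_CSgn {ι κ μ : Type} [Fintype ι] [LinearOrder κ] [LinearOrder μ] (p : ι → Prop)
    (u : ι → κ) (f : ι → μ) : ℤ :=
  ∏ i, ∏ j, if p i ∧ p j ∧ u i < u j ∧ f j < f i then (-1 : ℤ) else 1

private theorem orient_CSgn {ι κ μ : Type} [Fintype ι] [LinearOrder κ] [LinearOrder μ]
    {p : ι → Prop} {u : ι → κ} {v : ι → μ}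
    (hu : ∀ i j, p i → p j → u i = u j → i = j) (hv : ∀ i j, p i → p j → v i = v j → i = j)
    {s : ι → ι → ℤ} (hs : ∀ i j, s i j = s j i) :
    (∏ i, ∏ j, if p i ∧ p j ∧ u i < u j then s i j else 1) =
      ∏ i, ∏ j, if p i ∧ p j ∧ v i < v j then s i j else 1 := by
  have h1 : (∏ i, ∏ j, if p i ∧ p j ∧ u i < u j then s i j else 1) =
      (∏ i, ∏ j, if p i ∧ p j ∧ u i < u j ∧ v i < v j then s i j else 1) *
        ∏ i, ∏ j, if p i ∧ p j ∧ u i < u j ∧ v j < v i then s i j else 1 := by
    simp_rw [← Finset.prod_mul_distrib]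
    refine Finset.prod_congr rfl fun i _ => Finset.prod_congr rfl fun j _ => ?_
    by_cases hi : p i
    · by_cases hj : p j
      · by_cases h : u i < u j
        · have hij : v i ≠ v j := by
            intro h0
            have := hv i j hi hj h0
            subst this
            exact lt_irrefl _ h
          rcases lt_or_gt_of_ne hij with h2 | h2
          · have h3 : ¬ v j < v i := not_lt.2 h2.le
            simp [hi, hj, h, h2, h3]
          · have h3 : ¬ v i < v j := not_lt.2 h2.le
            simp [hi, hj, h, h2, h3]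
        · simp [h]
      · simp [hj]
    · simp [hi]
  have h2 : (∏ i, ∏ j, if p i ∧ p j ∧ v i < v j then s i j else 1) =
      (∏ i, ∏ j, if p i ∧ p j ∧ u i < u j ∧ v i < v j then s i j else 1) *
        ∏ i, ∏ j, if p i ∧ p j ∧ u j < u i ∧ v i < v j then s i j else 1 := by
    simp_rw [← Finset.prod_mul_distrib]
    refine Finset.prod_congr rfl fun i _ => Finset.prod_congr rfl fun j _ => ?_
    by_cases hi : p i
    · by_cases hj : p j
      · by_cases h : v i < v j
        · have hij : u i ≠ u j := by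
            intro h0
            have := hu i j hi hj h0
            subst this
            exact lt_irrefl _ h
          rcases lt_or_gt_of_ne hij with h2 | h2
          · have h3 : ¬ u j < u i := not_lt.2 h2.le
            simp [hi, hj, h, h2, h3]
          · have h3 : ¬ u i < u j := not_lt.2 h2.le
            simp [hi, hj, h, h2, h3]
        · simp [h]
      · simp [hj]
    · simp [hi]
  rw [h1, h2]
  congr 1
  rw [Finset.prod_comm]
  refine Finset.prod_congr rfl fun i _ => Finset.prod_congr rfl fun j _ => ?_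
  rw [hs j i]
  refine if_congr ?_ rfl rfl
  tauto

private theorem inv_mul_CSgn {ι κ μ : Type} [Fintype ι] [LinearOrder κ] [LinearOrder μ]
    {p : ι → Prop} {u : ι → κ} {f : ι → μ} {g : Equiv.Perm ι}
    (hu : ∀ i j, p i → p j → u i = u j → i = j) (hf : ∀ i j, p i → p j → f i = f j → i = j)
    (hg : ∀ i, p (g i) ↔ p i) :
    inv_CSgn p u (fun i => f (g i)) = inv_CSgn p u f * inv_CSgn p u fun i => u (g i) := by
  set s : ι → ι → ℤ := fun i j => if p i ∧ p j ∧
    ((u i < u j ∧ f j < f i) ∨ (u j < u i ∧ f i < f j)) then (-1 : ℤ) else 1 with hsdef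
  have hs : ∀ i j, s i j = s j i := by
    intro i j
    simp only [hsdef]
    refine if_congr ?_ rfl rfl
    tauto
  have h1 : inv_CSgn p u f = ∏ i, ∏ j, if p i ∧ p j ∧ u i < u j then s i j else 1 := by
    unfold inv_CSgn
    refine Finset.prod_congr rfl fun i _ => Finset.prod_congr rfl fun j _ => ?_
    by_cases h : u i < u j
    · have h3 : ¬ u j < u i := not_lt.2 h.le
      by_cases hi : p i <;> by_cases hj : p j <;> simp [hsdef, h, h3, hi, hj]
    · simp [h]
  have h2 : (∏ i, ∏ j, if p i ∧ p j ∧ u i < u j then s i j else 1) =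
      ∏ i, ∏ j, if p i ∧ p j ∧ u (g i) < u (g j) then s (g i) (g j) else 1 := by
    rw [← Equiv.prod_comp g]
    refine Finset.prod_congr rfl fun i _ => ?_
    rw [← Equiv.prod_comp g]
    refine Finset.prod_congr rfl fun j _ => ?_
    rw [hg i, hg j]
  have h3 : (∏ i, ∏ j, if p i ∧ p j ∧ u (g i) < u (g j) then s (g i) (g j) else 1) =
      ∏ i, ∏ j, if p i ∧ p j ∧ u i < u j then s (g i) (g j) else 1 := by
    refine orient_CSgn (u := fun i => u (g i)) (v := u) (s := fun i j => s (g i) (g j)) ?_ hu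
      fun i j => hs _ _
    intro i j hi hj h
    exact g.injective (hu _ _ ((hg i).2 hi) ((hg j).2 hj) h)
  rw [h1, h2, h3]
  unfold inv_CSgn
  simp_rw [← Finset.prod_mul_distrib]
  refine Finset.prod_congr rfl fun i _ => Finset.prod_congr rfl fun j _ => ?_
  by_cases hi : p i
  · by_cases hj : p j
    · by_cases h : u i < u j
      · have hgi := (hg i).2 hi
        have hgj := (hg j).2 hj
        have hij : i ≠ j := by
          rintro rfl
          exact lt_irrefl _ h
        have hu' : u (g i) ≠ u (g j) := fun h0 => hij (g.injective (hu _ _ hgi hgj h0))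
        have hf' : f (g i) ≠ f (g j) := fun h0 => hij (g.injective (hf _ _ hgi hgj h0))
        rcases lt_or_gt_of_ne hu' with h4 | h4 <;> rcases lt_or_gt_of_ne hf' with h5 | h5 <;>
          simp [hsdef, hi, hj, h, hgi, hgj, h4, h5, not_lt.2 h4.le, not_lt.2 h5.le]
      · simp [h]
    · simp [hj]
  · simp [hi]

private theorem inv_exch_CSgn {ι κ : Type} [Fintype ι] [LinearOrder κ]
    {p c : ι → Prop} {u : ι → κ} {e : Equiv.Perm ι}
    (hu : ∀ i j, p i → p j → u i = u j → i = j)
    (he : ∀ i, p (e i) ↔ p i) (hinv : ∀ i, e (e i) = i)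
    (hc : ∀ i, p i → c i → ¬ c (e i)) (hfix : ∀ i, p i → ¬ c i → ¬ c (e i) → e i = i) :
    (inv_CSgn p u fun i => u (e i)) = (-1) ^ (Finset.univ.filter fun i => p i ∧ c i).card := by
  have h1 : (inv_CSgn p u fun i => u (e i)) =
      (∏ i, ∏ j, if p i ∧ p j ∧ u i < u j ∧ u (e j) < u (e i) ∧ e i ≠ j then (-1 : ℤ) else 1) *
      ∏ i, ∏ j, if p i ∧ p j ∧ u i < u j ∧ u (e j) < u (e i) ∧ e i = j then (-1 : ℤ) else 1 := by
    unfold inv_CSgn
    simp_rw [← Finset.prod_mul_distrib]
    refine Finset.prod_congr rfl fun i _ => Finset.prod_congr rfl fun j _ => ?_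
    by_cases h : e i = j
    · simp [h]
    · simp [h]
  have h2 : (∏ i, ∏ j, if p i ∧ p j ∧ u i < u j ∧ u (e j) < u (e i) ∧ e i ≠ j then
      (-1 : ℤ) else 1) = 1 := by
    rw [← Fintype.prod_prod_type']
    refine Finset.prod_involution (fun x _ => (e x.2, e x.1)) ?_ ?_ ?_ ?_
    · rintro ⟨i, j⟩ -
      simp only [hinv]
      have : (p (e j) ∧ p (e i) ∧ u (e j) < u (e i) ∧ u i < u j ∧ j ≠ e i) ↔
          (p i ∧ p j ∧ u i < u j ∧ u (e j) < u (e i) ∧ e i ≠ j) := by
        rw [he, he]
        have : j ≠ e i ↔ e i ≠ j := ne_comm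
        tauto
      rw [if_congr this rfl rfl]
      split_ifs <;> norm_num
    · rintro ⟨i, j⟩ - h h0
      simp only [Prod.mk.injEq] at h0
      apply h
      simp [h0.2]
    · intro x _
      exact Finset.mem_univ _
    · rintro ⟨i, j⟩ -
      simp only [hinv]
  have h3 : (∏ i, ∏ j, if p i ∧ p j ∧ u i < u j ∧ u (e j) < u (e i) ∧ e i = j then
      (-1 : ℤ) else 1) = ∏ i, if p i ∧ u i < u (e i) then (-1 : ℤ) else 1 := by
    refine Finset.prod_congr rfl fun i _ => ?_
    rw [Finset.prod_eq_single (e i)]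
    · refine if_congr ?_ rfl rfl
      rw [he, hinv]
      tauto
    · intro j _ hj
      rw [if_neg]
      rintro ⟨-, -, -, -, h⟩
      exact hj h.symm
    · intro h
      exact absurd (Finset.mem_univ _) h
  have h4 : (∏ i, if p i ∧ u i < u (e i) then (-1 : ℤ) else 1) =
      (∏ i, if p i ∧ c i ∧ u i < u (e i) then (-1 : ℤ) else 1) *
        ∏ i, if p i ∧ c (e i) ∧ u i < u (e i) then (-1 : ℤ) else 1 := by
    rw [← Finset.prod_mul_distrib]
    refine Finset.prod_congr rfl fun i _ => ?_
    by_cases hi : p i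
    · by_cases h5 : c i
      · have h6 := hc i hi h5
        simp [hi, h5, h6]
      · by_cases h6 : c (e i)
        · simp [hi, h5, h6]
        · have h7 := hfix i hi h5 h6
          simp [h7]
    · simp [hi]
  have h5 : (∏ i, if p i ∧ c (e i) ∧ u i < u (e i) then (-1 : ℤ) else 1) =
      ∏ i, if p i ∧ c i ∧ u (e i) < u i then (-1 : ℤ) else 1 := by
    rw [← Equiv.prod_comp e]
    refine Finset.prod_congr rfl fun i _ => ?_
    rw [he, hinv]
  rw [h1, h2, h3, h4, h5, one_mul, ← Finset.prod_mul_distrib]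
  have h6 : (∏ i, ((if p i ∧ c i ∧ u i < u (e i) then (-1 : ℤ) else 1) *
      if p i ∧ c i ∧ u (e i) < u i then (-1 : ℤ) else 1)) =
      ∏ i, if p i ∧ c i then (-1 : ℤ) else 1 := by
    refine Finset.prod_congr rfl fun i _ => ?_
    by_cases hi : p i
    · by_cases h5 : c i
      · have h7 : u i ≠ u (e i) := by
          intro h0
          have := hu i (e i) hi ((he i).2 hi) h0
          apply hc i hi h5
          rw [← this]
          exact h5
        rcases lt_or_gt_of_ne h7 with h8 | h8
        · simp [hi, h5, h8, not_lt.2 h8.le]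
        · simp [hi, h5, h8, not_lt.2 h8.le]
      · simp [h5]
    · simp [hi]
  rw [h6, Finset.prod_ite]
  simp

private theorem kp_eq_CSgn (a : Fin X.N → ℕ) (τ : Equiv.Perm (Fin X.N)) :
    kp X a τ = (inv_CSgn (fun i => a i ≠ 0) (fun i => i) fun i => τ i) *
      inv_CSgn (fun i => a i ≠ 0 ∧ Fst X i) X.β fun i => X.β (τ i) := by
  unfold kp inv_CSgn
  congr 1
  · refine Finset.prod_congr rfl fun i _ => Finset.prod_congr rfl fun j _ => ?_
    split_ifs with h1 h2 h2 <;> first | rfl | (exfalso; tauto)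
  · refine Finset.prod_congr rfl fun i _ => Finset.prod_congr rfl fun j _ => ?_
    split_ifs with h1 h2 h2 <;> first | rfl | (exfalso; tauto)

private theorem inv_sq_CSgn {ι κ μ : Type} [Fintype ι] [LinearOrder κ] [LinearOrder μ]
    (p : ι → Prop) (u : ι → κ) (f : ι → μ) : inv_CSgn p u f * inv_CSgn p u f = 1 := by
  unfold inv_CSgn
  simp_rw [← Finset.prod_mul_distrib]
  refine Finset.prod_eq_one fun i _ => Finset.prod_eq_one fun j _ => ?_
  split_ifs <;> norm_num

private theorem fst_inj_CSgn {a : Fin X.N → ℕ} :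
    ∀ i j, (a i ≠ 0 ∧ Fst X i) → (a j ≠ 0 ∧ Fst X j) → X.β i = X.β j → i = j := by
  intro i j hi hj h
  exact le_antisymm (hi.2 j h.symm) (hj.2 i h)

private theorem fst_perm_CSgn {σ : Equiv.Perm (Fin X.N)} (hσ : IsPm X σ) (i : Fin X.N) :
    Fst X (σ i) ↔ Fst X i := by
  constructor
  · intro h j hj
    by_contra h0
    have h1 := hσ.mono j i hj (not_le.1 h0)
    have h2 := h (σ j) ((hσ.blk j i).1 hj)
    exact absurd h1 (not_lt.2 h2)
  · intro h j hj
    obtain ⟨j', rfl⟩ := σ.surjective j
    have h1 := (hσ.blk j' i).2 hj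
    have h2 := h j' h1
    rcases h2.eq_or_lt with h3 | h3
    · rw [h3]
    · exact (hσ.mono i j' h1.symm h3).le

theorem kp_sq (a : Fin X.N → ℕ) (τ : Equiv.Perm (Fin X.N)) : kp X a τ * kp X a τ = 1 := by
  rw [kp_eq_CSgn]
  rw [mul_mul_mul_comm, inv_sq_CSgn, inv_sq_CSgn, one_mul]

theorem kp_of_fix {a : Fin X.N → ℕ} {τ : Equiv.Perm (Fin X.N)} (h : ∀ i, a i ≠ 0 → τ i = i) :
    kp X a τ = 1 := by
  unfold kp
  have h1 : (∏ i, ∏ j, if a i ≠ 0 ∧ a j ≠ 0 ∧ i < j ∧ τ j < τ i then (-1 : ℤ) else 1) = 1 := by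
    refine Finset.prod_eq_one fun i _ => Finset.prod_eq_one fun j _ => ?_
    rw [if_neg]
    rintro ⟨hi, hj, h1, h2⟩
    rw [h i hi, h j hj] at h2
    exact absurd h1 (not_lt.2 h2.le)
  have h2 : (∏ i, ∏ j, if a i ≠ 0 ∧ a j ≠ 0 ∧ Fst X i ∧ Fst X j ∧ X.β i < X.β j ∧
      X.β (τ j) < X.β (τ i) then (-1 : ℤ) else 1) = 1 := by
    refine Finset.prod_eq_one fun i _ => Finset.prod_eq_one fun j _ => ?_
    rw [if_neg]
    rintro ⟨hi, hj, -, -, h1, h2⟩
    rw [h i hi, h j hj] at h2
    exact absurd h1 (not_lt.2 h2.le)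
  rw [h1, h2, one_mul]

theorem kp_mul {a : Fin X.N → ℕ} (hA : ∀ i j, X.β i = X.β j → (a i = 0 ↔ a j = 0))
    {τ σ : Equiv.Perm (Fin X.N)} (hτ : IsPm X τ) (hσ : IsPm X σ) (ha : ∀ i, a (σ i) = a i) :
    kp X a (τ * σ) = kp X a τ * kp X a σ := by
  rw [kp_eq_CSgn, kp_eq_CSgn, kp_eq_CSgn]
  have h1 := inv_mul_CSgn (p := fun i => a i ≠ 0) (u := fun i : Fin X.N => i)
    (f := fun i => τ i) (g := σ) (fun i j _ _ h => h) (fun i j _ _ h => τ.injective h)
    (fun i => by rw [ha i])
  have h2 := inv_mul_CSgn (p := fun i => a i ≠ 0 ∧ Fst X i) (u := X.β)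
    (f := fun i => X.β (τ i)) (g := σ) fst_inj_CSgn
    (fun i j hi hj h => fst_inj_CSgn i j hi hj ((hτ.blk i j).2 h))
    (fun i => by rw [ha i, fst_perm_CSgn hσ])
  have h3 : (inv_CSgn (fun i => a i ≠ 0) (fun i : Fin X.N => i) fun i => (τ * σ) i) =
      inv_CSgn (fun i => a i ≠ 0) (fun i : Fin X.N => i) fun i => τ (σ i) := rfl
  have h4 : (inv_CSgn (fun i => a i ≠ 0 ∧ Fst X i) X.β fun i => X.β ((τ * σ) i)) =
      inv_CSgn (fun i => a i ≠ 0 ∧ Fst X i) X.β fun i => X.β (τ (σ i)) := rfl
  rw [h3, h4, h1, h2]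
  ring

theorem kp_exch {a : Fin X.N → ℕ} (hA : ∀ i j, X.β i = X.β j → (a i = 0 ↔ a j = 0))
    {b b' : Fin X.n} (hbb : b ≠ b') {e : Equiv.Perm (Fin X.N)}
    (he : IsPm X e) (hinv : ∀ i, e (e i) = i) (heb : ∀ i, X.β i = b → X.β (e i) = b')
    (heb' : ∀ i, X.β i = b' → X.β (e i) = b)
    (hfix : ∀ i, X.β i ≠ b → X.β i ≠ b' → e i = i) (hab : ∀ i, X.β i = b → a i ≠ 0)
    (hne : ∃ i, X.β i = b) (hae : ∀ i, a (e i) = a i) :
    kp X a e = (-1) ^ ((Finset.univ.filter fun i => X.β i = b).card + 1) := by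
  have hc : ∀ i, X.β i = b → ¬ X.β (e i) = b := by
    intro i h h0
    rw [heb i h] at h0
    exact hbb h0.symm
  have hfix' : ∀ i, ¬ X.β i = b → ¬ X.β (e i) = b → e i = i := by
    intro i h h0
    refine hfix i h fun h1 => h0 (heb' i h1)
  rw [kp_eq_CSgn]
  have h1 := inv_exch_CSgn (p := fun i => a i ≠ 0) (c := fun i => X.β i = b)
    (u := fun i : Fin X.N => i) (e := e) (fun i j _ _ h => h) (fun i => by rw [hae i]) hinv
    (fun i _ => hc i) (fun i _ => hfix' i)
  have h2 := inv_exch_CSgn (p := fun i => a i ≠ 0 ∧ Fst X i) (c := fun i => X.β i = b)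
    (u := X.β) (e := e) fst_inj_CSgn (fun i => by rw [hae i, fst_perm_CSgn he]) hinv
    (fun i _ => hc i) (fun i _ => hfix' i)
  rw [h1, h2, pow_succ]
  congr 2
  · congr 1
    ext i
    simp only [Finset.mem_filter, Finset.mem_univ, true_and]
    exact ⟨fun h => h.2, fun h => ⟨hab i h, h⟩⟩
  · have h3 : (Finset.univ.filter fun i => X.β i = b).Nonempty := by
      obtain ⟨i, hi⟩ := hne
      exact ⟨i, by simpa using hi⟩
    obtain ⟨m, hm, hmin⟩ := Finset.exists_min_image _ (fun i => i) h3
    have hm' : X.β m = b := by simpa using hm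
    have hF : Fst X m := by
      intro j hj
      exact hmin j (by simpa using hj.trans hm')
    refine (congrArg _ (Finset.card_eq_one.2 ⟨m, ?_⟩)).trans (pow_one _)
    ext i
    simp only [Finset.mem_filter, Finset.mem_univ, true_and, Finset.mem_singleton]
    constructor
    · rintro ⟨⟨_, h5⟩, h6⟩
      exact le_antisymm (h5 m (hm'.trans h6.symm)) (hF i (h6.trans hm'.symm))
    · rintro rfl
      exact ⟨⟨hab _ hm', hF⟩, hm'⟩

end Pool.Agent.HYG
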