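import Pool.Agent.HYG.CEx
import Pool.Agent.HYG.CInd
import Pool.Agent.HYG.CSgn

/-!
# Project HYG, block C: permutations of equal factors

Let `σ` be a permutation with `IsPm X σ` and `a ∘ σ = a`. Induction on the number of `i` with
`a i ≠ 0` and `σ i ≠ i`.

**`perm_fix`** (this number is zero). `kp X a σ = 1` (`kp_of_fix`). `P` and `P ∘ σ` agree on the blocks
with `a ≠ 0`. On the other blocks (`a = 0` on the whole block by `hA`) replace the coordinates of `P`
by those of `P ∘ σ`, one block after the other: `Eig.indep`; the intermediate points are on the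
product by `OnB.glue` (induction on a finite set of blocks). So `F (P ∘ σ) = F P`.

**`perm_step`.** Let `a i ≠ 0`, `σ i ≠ i`. Then `σ i` is in another block: otherwise `σ` maps the block
of `i` to itself (`IsPm.blk`), and it is increasing there (`IsPm.mono`), hence the identity on the
block (a strictly increasing bijection of a finite linearly ordered set). Let `b = X.β i`,
`b' = X.β (σ i)`; `σ` maps the block `b` bijectively onto the block `b'`. Let `e j = σ j` if
`X.β j = b`, `e j = σ⁻¹ j` if `X.β j = b'`, `e j = j` otherwise. It is an involution, it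
satisfies `IsPm X e` and `a ∘ e = a`. Let `σ' = e * σ` (`e * σ' = σ`). It has the properties of `σ`,
it fixes the block `b`, and it fixes all `j` with `σ j = j` (such `j` are not in `b`, `b'`), so the number
is smaller. `F (P ∘ σ) = F ((P ∘ e) ∘ σ')`, which is `kp X a σ' • F (P ∘ e)` by induction (`OnB.perm`),
and `F (P ∘ e) = (-1) ^ (m + 1) • F P` by `Eig.exch` (`a ≠ 0` on the block `b` by `hA`), and
`kp X a σ = kp X a e * kp X a σ'` (`kp_mul`), `kp X a e = (-1) ^ (m + 1)` (`kp_exch`).
-/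

set_option autoImplicit false

noncomputable section

namespace Pool.Agent.HYG

open Pool.Agent.ZCyc Pool.Agent.Dess Pool.Agent.GT Pool.Agent.TInc
open Pool.Agent.VFP (Om tt)
open scoped Classical

variable {k : Type} [Field k] [IsAlgClosed k] [CharZero k] {X : Dat k} {W : Type} [AddCommGroup W]
  [Module k W] {a : Fin X.N → ℕ} {F : (Fin X.N → Option k) → W}

theorem perm_fix (hF : Eig X a F) (hM : ∀ i, 0 < X.M i) (hA : Adm X a)
    {σ : Equiv.Perm (Fin X.N)} (hσ : IsPm X σ) (h : ∀ i, a i ≠ 0 → σ i = i)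
    {P : Fin X.N → Option k} (hP : OnB X P) : F (fun i => P (σ i)) = F P := by
  have hP' : OnB X fun i => P (σ i) := hP.perm hσ
  have hon : ∀ s : Finset (Fin X.n), OnB X fun i => if X.β i ∈ s then P (σ i) else P i := by
    intro s
    refine OnB.glue hP hP' fun b => ?_
    by_cases hb : b ∈ s
    · right
      intro i hi
      exact if_pos (hi ▸ hb)
    · left
      intro i hi
      exact if_neg (hi ▸ hb)
  have key : ∀ s : Finset (Fin X.n), (∀ b ∈ s, ∀ i, X.β i = b → a i = 0) →
      F (fun i => if X.β i ∈ s then P (σ i) else P i) = F P := by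
    intro s
    induction s using Finset.induction_on with
    | empty =>
      intro _
      simp
    | insert b s hb ih =>
      intro hs
      rw [← ih fun b' hb' => hs b' (Finset.mem_insert_of_mem hb')]
      refine hF.indep hM (b := b) (hs b (Finset.mem_insert_self b s)) (hon _) (hon _) ?_
      intro i hi
      show (if X.β i ∈ insert b s then P (σ i) else P i) = if X.β i ∈ s then P (σ i) else P i
      by_cases h1 : X.β i ∈ s
      · rw [if_pos h1, if_pos (Finset.mem_insert_of_mem h1)]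
      · rw [if_neg h1, if_neg]
        intro h2
        rcases Finset.mem_insert.1 h2 with h3 | h3
        · exact hi h3
        · exact h1 h3
  rw [← key (Finset.univ.filter fun b => ∀ i, X.β i = b → a i = 0) fun b hb =>
    (Finset.mem_filter.1 hb).2]
  congr 1
  funext i
  by_cases hi : X.β i ∈ Finset.univ.filter fun b => ∀ i, X.β i = b → a i = 0
  · rw [if_pos hi]
  · rw [if_neg hi]
    rw [Finset.mem_filter] at hi
    have h1 : a i ≠ 0 := by
      intro h0
      exact hi ⟨Finset.mem_univ _, fun j hj => (hA.2 j i hj).2 h0⟩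
    rw [h i h1]

omit [Field k] [IsAlgClosed k] [CharZero k] in
/-- a permutation which maps a block to itself is trivial on it -/
private theorem fix_CPerm {σ : Equiv.Perm (Fin X.N)} (hσ : IsPm X σ) {i : Fin X.N}
    (h : X.β (σ i) = X.β i) : σ i = i := by
  have h1 : ∀ j, X.β j = X.β i → X.β (σ j) = X.β i := by
    intro j hj
    rw [(hσ.blk j i).1 hj, h]
  let f : {j // X.β j = X.β i} → {j // X.β j = X.β i} := fun j => ⟨σ j.1, h1 j.1 j.2⟩
  have hf : StrictMono f := by
    intro j j' hjj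
    exact hσ.mono j.1 j'.1 (j.2.trans j'.2.symm) hjj
  have h2 : (⟨i, rfl⟩ : {j // X.β j = X.β i}) ≤ f ⟨i, rfl⟩ := hf.le_apply
  have h3 : f ⟨i, rfl⟩ ≤ (⟨i, rfl⟩ : {j // X.β j = X.β i}) := hf.apply_le
  exact congrArg Subtype.val (le_antisymm h3 h2)

omit [IsAlgClosed k] [CharZero k] in
/-- the exchange of two blocks for a permutation -/
theorem exists_exch {σ : Equiv.Perm (Fin X.N)} (hσ : IsPm X σ) (ha : ∀ i, a (σ i) = a i)
    {i : Fin X.N} (hi : σ i ≠ i) :
    X.β (σ i) ≠ X.β i ∧ ∃ e : Equiv.Perm (Fin X.N), IsPm X e ∧ (∀ j, e (e j) = j) ∧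
      (∀ j, X.β j = X.β i → e j = σ j) ∧ (∀ j, X.β j = X.β i → X.β (e j) = X.β (σ i)) ∧
      (∀ j, X.β j = X.β (σ i) → X.β (e j) = X.β i) ∧
      (∀ j, X.β j ≠ X.β i → X.β j ≠ X.β (σ i) → e j = j) ∧ (∀ j, a (e j) = a j) ∧
      (∀ j, σ j = j → e (σ j) = j) := by
  have hne : X.β (σ i) ≠ X.β i := fun h => hi (fix_CPerm hσ h)
  refine ⟨hne, ?_⟩
  have hσ' : IsPm X σ⁻¹ := hσ.inv
  have hsi : ∀ j, σ (σ⁻¹ j) = j := fun j => σ.apply_symm_apply j
  have his : ∀ j, σ⁻¹ (σ j) = j := fun j => σ.symm_apply_apply j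
  have hb1 : ∀ j, X.β j = X.β i → X.β (σ j) = X.β (σ i) := fun j hj => (hσ.blk j i).1 hj
  have hb2 : ∀ j, X.β j = X.β (σ i) → X.β (σ⁻¹ j) = X.β i := fun j hj => by
    rw [hσ.blk (σ⁻¹ j) i, hsi]
    exact hj
  obtain ⟨f, hf⟩ : ∃ f : Fin X.N → Fin X.N, f = fun j => if X.β j = X.β i then σ j else
    if X.β j = X.β (σ i) then σ⁻¹ j else j := ⟨_, rfl⟩
  have f1 : ∀ j, X.β j = X.β i → f j = σ j := fun j hj => by
    rw [hf]
    exact if_pos hj
  have f2 : ∀ j, X.β j = X.β (σ i) → f j = σ⁻¹ j := fun j hj => by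
    have h1 : X.β j ≠ X.β i := by
      rw [hj]
      exact hne
    rw [hf]
    show (if X.β j = X.β i then σ j else if X.β j = X.β (σ i) then σ⁻¹ j else j) = _
    rw [if_neg h1, if_pos hj]
  have f3 : ∀ j, X.β j ≠ X.β i → X.β j ≠ X.β (σ i) → f j = j := fun j h1 h2 => by
    rw [hf]
    show (if X.β j = X.β i then σ j else if X.β j = X.β (σ i) then σ⁻¹ j else j) = _
    rw [if_neg h1, if_neg h2]
  have finv : Function.Involutive f := by
    intro j
    by_cases h1 : X.β j = X.β i
    · rw [f1 j h1, f2 _ (hb1 j h1), his]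
    · by_cases h2 : X.β j = X.β (σ i)
      · rw [f2 j h2, f1 _ (hb2 j h2), hsi]
      · rw [f3 j h1 h2, f3 j h1 h2]
  have fb : ∀ j, X.β (f j) = Equiv.swap (X.β i) (X.β (σ i)) (X.β j) := by
    intro j
    by_cases h1 : X.β j = X.β i
    · rw [f1 j h1, hb1 j h1, h1, Equiv.swap_apply_left]
    · by_cases h2 : X.β j = X.β (σ i)
      · rw [f2 j h2, hb2 j h2, h2, Equiv.swap_apply_right]
      · rw [f3 j h1 h2, Equiv.swap_apply_of_ne_of_ne h1 h2]
  refine ⟨finv.toPerm, ⟨?_, ?_, ?_, ?_⟩, finv, f1, ?_, ?_, f3, ?_, ?_⟩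
  · intro j j'
    show X.β j = X.β j' ↔ X.β (f j) = X.β (f j')
    rw [fb, fb]
    exact (Equiv.apply_eq_iff_eq _).symm
  · intro j j' hjj hlt
    show f j < f j'
    by_cases h1 : X.β j = X.β i
    · rw [f1 j h1, f1 j' (hjj ▸ h1)]
      exact hσ.mono j j' hjj hlt
    · by_cases h2 : X.β j = X.β (σ i)
      · rw [f2 j h2, f2 j' (hjj ▸ h2)]
        exact hσ'.mono j j' hjj hlt
      · rw [f3 j h1 h2, f3 j' (hjj ▸ h1) (hjj ▸ h2)]
        exact hlt
  · intro j j' hjj
    show X.A (f j) (f j') = X.A j j'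
    by_cases h1 : X.β j = X.β i
    · rw [f1 j h1, f1 j' (hjj ▸ h1)]
      exact hσ.mat j j' hjj
    · by_cases h2 : X.β j = X.β (σ i)
      · rw [f2 j h2, f2 j' (hjj ▸ h2)]
        exact hσ'.mat j j' hjj
      · rw [f3 j h1 h2, f3 j' (hjj ▸ h1) (hjj ▸ h2)]
  · intro j
    show X.M (f j) = X.M j
    by_cases h1 : X.β j = X.β i
    · rw [f1 j h1]
      exact hσ.exp j
    · by_cases h2 : X.β j = X.β (σ i)
      · rw [f2 j h2]
        exact hσ'.exp j
      · rw [f3 j h1 h2]
  · intro j hj
    show X.β (f j) = _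
    rw [f1 j hj]
    exact hb1 j hj
  · intro j hj
    show X.β (f j) = _
    rw [f2 j hj]
    exact hb2 j hj
  · intro j
    show a (f j) = a j
    by_cases h1 : X.β j = X.β i
    · rw [f1 j h1, ha]
    · by_cases h2 : X.β j = X.β (σ i)
      · rw [f2 j h2, ← ha (σ⁻¹ j), hsi]
      · rw [f3 j h1 h2]
  · intro j hj
    show f (σ j) = j
    rw [hj]
    apply f3
    · intro h1
      apply hne
      rw [← hb1 j h1, hj, h1]
    · intro h2
      have h3 := hb2 j h2
      have h4 : σ⁻¹ j = j := by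
        conv_lhs => rw [← hj]
        exact his j
      rw [h4, h2] at h3
      exact hne h3

theorem Eig.perm_all (hS : SwapAll k) (hF : Eig X a F) (hM : ∀ i, 0 < X.M i) (hG : Gnl X)
    (hA : Adm X a) {σ : Equiv.Perm (Fin X.N)} (hσ : IsPm X σ) (ha : ∀ i, a (σ i) = a i)
    {P : Fin X.N → Option k} (hP : OnB X P) : F (fun i => P (σ i)) = (kp X a σ : k) • F P := by
  have key : ∀ (n : ℕ) (σ : Equiv.Perm (Fin X.N)), IsPm X σ → (∀ i, a (σ i) = a i) →
      (Finset.univ.filter fun i => a i ≠ 0 ∧ σ i ≠ i).card = n →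
      ∀ P : Fin X.N → Option k, OnB X P → F (fun i => P (σ i)) = (kp X a σ : k) • F P := by
    intro n
    induction n using Nat.strong_induction_on with
    | _ n ih =>
      intro σ hσ ha hn P hP
      by_cases h0 : ∀ i, a i ≠ 0 → σ i = i
      · rw [perm_fix hF hM hA hσ h0 hP, kp_of_fix h0, Int.cast_one, one_smul]
      push Not at h0
      obtain ⟨i, hai, hi⟩ := h0
      obtain ⟨hbb, e, he, hinv, he1, heb, heb', hfix, hae, hes⟩ := exists_exch hσ ha hi
      have hσ' : IsPm X (e * σ) := he.mul hσ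
      have ha' : ∀ j, a ((e * σ) j) = a j := fun j => by
        rw [Equiv.Perm.mul_apply, hae, ha]
      have hlt : (Finset.univ.filter fun j => a j ≠ 0 ∧ (e * σ) j ≠ j).card < n := by
        rw [← hn]
        apply Finset.card_lt_card
        rw [Finset.ssubset_iff_of_subset]
        · refine ⟨i, Finset.mem_filter.2 ⟨Finset.mem_univ _, hai, hi⟩, ?_⟩
          rw [Finset.mem_filter, not_and, not_and_not_right]
          intro _ _
          rw [Equiv.Perm.mul_apply, ← he1 i rfl, hinv]
        · intro j hj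
          obtain ⟨-, h1, h2⟩ := Finset.mem_filter.1 hj
          refine Finset.mem_filter.2 ⟨Finset.mem_univ _, h1, fun h3 => h2 ?_⟩
          rw [Equiv.Perm.mul_apply]
          exact hes j h3
      have h1 := ih _ hlt (e * σ) hσ' ha' rfl (fun j => P (e j)) (hP.perm he)
      have h2 : (fun j => (fun j => P (e j)) ((e * σ) j)) = fun j => P (σ j) := by
        funext j
        show P (e (e (σ j))) = P (σ j)
        rw [hinv]
      rw [h2] at h1
      have hab : ∀ j, X.β j = X.β i → a j ≠ 0 := fun j hj h3 => hai ((hA.2 j i hj).1 h3)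
      rw [h1, hF.exch hS hM hG hA.1 hbb.symm he hinv heb heb' hfix hab hae hP, smul_smul]
      congr 1
      have h3 : σ = e * (e * σ) := by
        ext j
        rw [Equiv.Perm.mul_apply, Equiv.Perm.mul_apply, hinv]
      have h4 := kp_exch hA.2 hbb.symm he hinv heb heb' hfix hab ⟨i, rfl⟩ hae
      have h5 := kp_mul hA.2 he hσ' ha'
      rw [← h3, h4] at h5
      rw [h5]
      push_cast
      ring
  exact key _ σ hσ ha rfl P hP

end Pool.Agent.HYG
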