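import Pool.Agent.HYG.CoreDefs
import Pool.Agent.HYG.AChn
import Pool.Agent.HYG.ALimC
import Pool.Agent.HYG.AGen

/-!
# The core: exchange of two general points

The line through the solutions of the systems of `ADefs.lean` (`AStep.lean`, `AChn.lean`), general
position by the limit at a vertex (`ALimC.lean`), values at almost all points (`AGen.lean`).
-/

set_option autoImplicit false
set_option linter.unusedSectionVars false

noncomputable section

namespace Pool.Agent.HYG

open Pool.Agent.ZCyc Pool.Agent.Dess Pool.Agent.GT Pool.Agent.TInc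
open scoped Classical LinearAlgebra.Projectivization

variable {k : Type} [Field k] [IsAlgClosed k] [CharZero k] {n : ℕ}

/-- values of `lin A X` -/
private theorem core_at_lin {m : ℕ} {K : Type} [Field K] [Algebra k K] {v : Place k K}
    (A : Matrix (Fin m) (Fin m) k) {X : Fin m → K} {x : Fin m → k}
    (h : ∀ i, v.At (X i) (x i)) (i : Fin m) : v.At (lin A X i) (lin A x i) := by
  have h1 := Chn.at_mulVec A h i
  have h2 : lin A x i = (A.mulVec x) i := by
    unfold lin
    rw [Algebra.algebraMap_self]
    congr 2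
  rw [h2]
  exact h1

private theorem core_at_path {K : Type} [Field K] [Algebra k K] {v : Place k K}
    (x : Fin (n + 1) → k) {T : K} {t : k} (h : v.At T t) (i : Fin (n + 1)) :
    v.At (path x T i) (path x t i) := by
  unfold path
  refine (Place.at_const _).add ?_
  split_ifs
  · exact h.pow 2
  · exact h

private theorem core_nu {m : ℕ} {K : Type} [Field K] [Algebra k K] (A : Matrix (Fin m) (Fin m) k)
    (x : Fin m → K) : Chn.nu (A.map (algebraMap k K)) x = nu A x := rfl

private theorem core_nu_k {m : ℕ} (A : Matrix (Fin m) (Fin m) k) (x : Fin m → k) :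
    Chn.nu A x = nu A x := by
  funext i
  unfold Chn.nu nu lin
  rw [Algebra.algebraMap_self]
  congr 2

/-- for almost all `t` the points `path x (a t)` are interior -/
private theorem core_intr (A : Matrix (Fin (n + 1)) (Fin (n + 1)) k) {x : Fin (n + 1) → k}
    (hx : Intr A x) (a : k) : ∃ S : Finset k, ∀ t ∉ S, Intr A (path x (a * t)) := by
  have hK : IsCurve k (RatFunc k) := isCurve_ratFunc
  have hT : Transcendental k (RatFunc.X : RatFunc k) := RatFunc.transcendental_X
  obtain ⟨v, hv⟩ := exists_place hT 0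
  set T : RatFunc k := RatFunc.X
  have h0 : v.At (algebraMap k (RatFunc k) a * T) 0 := by
    have := (Place.at_const (v := v) a).mul hv
    rwa [mul_zero] at this
  have hp : ∀ i, v.At (path x (algebraMap k (RatFunc k) a * T) i) (x i) := by
    intro i
    have := core_at_path x h0 i
    unfold path at this ⊢
    simpa using this
  have hne : ∀ {f : RatFunc k} {c : k}, v.At f c → c ≠ 0 → f ≠ 0 := by
    rintro f c hf hc rfl
    apply hc
    have h2 : v.At (0 : RatFunc k) 0 := by
      rw [Place.at_zero_iff]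
      exact Place.vanishes_zero (v := v)
    exact Place.At.unique hf h2
  obtain ⟨S, hS⟩ := Chn.exists_good hK hT
    (Sum.elim (fun i : Fin (n + 1) => path x (algebraMap k (RatFunc k) a * T) i)
      (fun i : Fin (n + 1) => lin A (path x (algebraMap k (RatFunc k) a * T)) i)) (by
    rintro (i | i)
    · exact hne (hp i) (hx i).1
    · exact hne (core_at_lin (K := RatFunc k) (v := v) A hp i) (hx i).2)
  refine ⟨S, fun t ht => ?_⟩
  obtain ⟨w, hw, hg⟩ := hS t ht
  have hat : w.At (algebraMap k (RatFunc k) a * T) (a * t) := (Place.at_const (v := w) a).mul hw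
  intro i
  constructor
  · obtain ⟨c, hc, hc'⟩ := hg (Sum.inl i)
    rw [Place.At.unique (core_at_path x hat i) hc']
    exact hc
  · obtain ⟨c, hc, hc'⟩ := hg (Sum.inr i)
    rw [Place.At.unique (core_at_lin A (core_at_path x hat) i) hc']
    exact hc

/-- **The core.** `/team-store/ARR_Proof.md` (with the systems of `ADefs.lean` instead of sections 1, 2).
The second point moves with another speed: `path y (2 t)`. -/
theorem core_line {A : Matrix (Fin (n + 1)) (Fin (n + 1)) k} (hA : LastNZ A)
    {M : Fin (n + 1) → ℕ} (hM : ∀ i, 0 < M i) {R W : Type} [Field R] [CharZero R]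
    [AddCommGroup W] [Module R W] {χ : Fin (n + 1) → k → R} (hχ : Chars M χ)
    {G : (Fin (n + 1) → k) → (Fin (n + 1) → k) → W} (hG : RelG A A M χ G)
    {x y : Fin (n + 1) → k} (hx : Intr A x) (hy : Intr A y) :
    ∃ S : Finset k, ∀ t ∉ S, Intr A (path x t) ∧ Intr A (path y (2 * t)) ∧ ∀ c : Fin (n + 1) → k,
      (∀ i, c i ^ M i = nu A (path x t) i * nu A (path y (2 * t)) i) →
        G (nu A (path y (2 * t))) c = (-1 : R) ^ n • G (nu A (path x t)) c := by
  obtain ⟨S₁, hS₁⟩ := core_intr A hx 1
  obtain ⟨S₂, hS₂⟩ := core_intr A hy 2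
  simp only [one_mul] at hS₁
  rcases Nat.eq_zero_or_pos n with rfl | hn
  · refine ⟨S₁ ∪ S₂, fun t ht => ?_⟩
    rw [Finset.mem_union, not_or] at ht
    refine ⟨hS₁ t ht.1, hS₂ t ht.2, fun c _ => ?_⟩
    have hnu : ∀ z : Fin (0 + 1) → k, Intr A z → nu A z = fun _ => A 0 0 := by
      intro z hz
      funext i
      have hi : i = 0 := by
        apply Fin.ext
        have := i.isLt
        simp only [Fin.val_zero]
        omega
      subst hi
      have h1 : lin A z 0 = A 0 0 * z 0 := by
        unfold lin
        simp [Matrix.mulVec, dotProduct]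
      unfold nu
      rw [h1, mul_div_assoc, div_self (hz 0).1, mul_one]
    rw [hnu _ (hS₁ t ht.1), hnu _ (hS₂ t ht.2), pow_zero, one_smul]
  have hK : IsCurve k (RatFunc k) := isCurve_ratFunc
  have hT : Transcendental k (RatFunc.X : RatFunc k) := RatFunc.transcendental_X
  set T : RatFunc k := RatFunc.X with hTdef
  have hT0 : T ≠ 0 := fun h => by
    rw [h] at hT
    exact hT isAlgebraic_zero
  have hTi : Transcendental k T⁻¹ := by
    intro h
    apply hT
    simpa using h.inv
  obtain ⟨v, he⟩ := exists_place hTi 0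
  set e : RatFunc k := T⁻¹ with hedef
  have he0 : e ≠ 0 := inv_ne_zero hT0
  have hTe : T * e = 1 := mul_inv_cancel₀ hT0
  set L : Fin (n + 1) := Fin.last n with hL
  have hA' : ∀ j, A L j ≠ 0 ∧ A j L ≠ 0 := hA
  set lam : Fin (n + 1) → k := fun i => if i = L then 1 else 2⁻¹ with hlam
  have hm : (Finset.univ.erase L).Nonempty := by
    refine ⟨0, Finset.mem_erase.2 ⟨?_, Finset.mem_univ _⟩⟩
    intro h
    have := congrArg Fin.val h
    simp [hL] at this
    omega
  have hlam0 : ∀ i, lam i ≠ 0 := by
    intro i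
    simp only [hlam]
    split_ifs
    · exact one_ne_zero
    · exact inv_ne_zero two_ne_zero
  have hlam1 : ∀ i, i ≠ L → lam i ≠ 1 := by
    intro i hi h
    simp only [hlam, if_neg hi] at h
    have : (2 : k) = 1 := by
      rw [← inv_inv (2 : k), h, inv_one]
    norm_num at this
  -- the scaled points
  set x' : Fin (n + 1) → RatFunc k := fun i => e ^ 2 * path x T i with hx'
  set y' : Fin (n + 1) → RatFunc k := fun i => (e * algebraMap k (RatFunc k) 2⁻¹) ^ 2 *
    path y (2 * T) i with hy'
  have h2 : algebraMap k (RatFunc k) 2⁻¹ * 2 = 1 := by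
    rw [map_inv₀, map_ofNat]
    exact inv_mul_cancel₀ two_ne_zero
  have hxv : ∀ i, v.At (x' i / Chn.wt e L i) 1 := by
    intro i
    by_cases hi : i = L
    · have h3 : x' i / Chn.wt e L i = e ^ 2 * algebraMap k (RatFunc k) (x i) + 1 := by
        subst hi
        simp only [hx', Chn.wt, path, if_true, div_one, if_pos hL]
        rw [mul_add, ← mul_pow, mul_comm e T, hTe, one_pow]
      rw [h3]
      have h4 := ((he.pow 2).mul (Place.at_const (v := v) (x i))).add (Place.at_const (v := v) 1)
      simpa using h4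
    · have h3 : x' i / Chn.wt e L i = e * algebraMap k (RatFunc k) (x i) + 1 := by
        have hiL : i ≠ Fin.last n := hi
        simp only [hx', Chn.wt, path, if_neg hi, if_neg hiL]
        rw [div_eq_iff he0]
        linear_combination e * hTe
      rw [h3]
      have h4 := (he.mul (Place.at_const (v := v) (x i))).add (Place.at_const (v := v) 1)
      simpa using h4
  have hyv : ∀ i, v.At (y' i / Chn.wt e L i) (lam i) := by
    intro i
    by_cases hi : i = L
    · have h3 : y' i / Chn.wt e L i = (e * algebraMap k (RatFunc k) 2⁻¹) ^ 2 *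
          algebraMap k (RatFunc k) (y i) + 1 := by
        subst hi
        simp only [hy', Chn.wt, path, if_true, div_one, if_pos hL]
        have h5 : e * algebraMap k (RatFunc k) 2⁻¹ * (2 * T) = 1 := by
          linear_combination (algebraMap k (RatFunc k) 2⁻¹ * 2) * hTe + h2
        rw [mul_add, ← mul_pow, h5, one_pow]
      rw [h3]
      have h4 := (((he.mul (Place.at_const (v := v) (2⁻¹ : k))).pow 2).mul
        (Place.at_const (v := v) (y i))).add (Place.at_const (v := v) 1)
      simpa [hlam, hi] using h4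
    · have h3 : y' i / Chn.wt e L i = e * algebraMap k (RatFunc k) 2⁻¹ ^ 2 *
          algebraMap k (RatFunc k) (y i) + algebraMap k (RatFunc k) 2⁻¹ := by
        have hiL : i ≠ Fin.last n := hi
        simp only [hy', Chn.wt, path, if_neg hi, if_neg hiL]
        rw [div_eq_iff he0]
        linear_combination (e * algebraMap k (RatFunc k) 2⁻¹ ^ 2 * 2) * hTe +
          e * algebraMap k (RatFunc k) 2⁻¹ * h2
      rw [h3]
      have h4 := ((he.mul ((Place.at_const (v := v) (2⁻¹ : k)).pow 2)).mul
        (Place.at_const (v := v) (y i))).add (Place.at_const (v := v) (2⁻¹ : k))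
      simpa [hlam, hi] using h4
  obtain ⟨s, X, r, hXx, hXy, hgen⟩ := Chn.exists_gen hK he he0 (i₀ := L) hA' hm
    (by simp [hlam]) hlam0 hlam1 hxv hyv
  have hnux : Chn.nu (A.map (algebraMap k (RatFunc k))) x' = nu A (path x T) := by
    have := Chn.nu_smul (A.map (algebraMap k (RatFunc k))) (X := path x T)
      (a := e ^ 2) (pow_ne_zero 2 he0)
    rw [← core_nu A (path x T), ← this]
  have hnuy : Chn.nu (A.map (algebraMap k (RatFunc k))) y' = nu A (path y (2 * T)) := by
    have := Chn.nu_smul (A.map (algebraMap k (RatFunc k))) (X := path y (2 * T))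
      (a := (e * algebraMap k (RatFunc k) 2⁻¹) ^ 2) (by
        refine pow_ne_zero 2 (mul_ne_zero he0 ?_)
        intro h
        rw [h, zero_mul] at h2
        exact zero_ne_one h2)
    rw [← core_nu A (path y (2 * T)), ← this]
  have hLe : L ∉ Finset.univ.erase L := Finset.notMem_erase _ _
  have hnu0 : ∀ {Z : Fin (n + 1) → RatFunc k}, Chn.Intr (A.map (algebraMap k (RatFunc k))) Z →
      ∀ i, Chn.nu (A.map (algebraMap k (RatFunc k))) Z i ≠ 0 := by
    intro Z hZ i
    exact div_ne_zero (hZ i).2 (hZ i).1
  have hix := hgen.intr _ hLe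
  have hiy := hgen.intr ∅ (Finset.notMem_empty _)
  rw [hXx] at hix
  rw [hXy] at hiy
  obtain ⟨S, hS⟩ := hgen.values hK hT (hnu0 hix) (hnu0 hiy)
  refine ⟨S ∪ (S₁ ∪ S₂), fun t ht => ?_⟩
  rw [Finset.mem_union, Finset.mem_union, not_or, not_or] at ht
  refine ⟨hS₁ t ht.2.1, hS₂ t ht.2.2, fun c hc => ?_⟩
  obtain ⟨w, μ₀, μ'₀, s₀, X₀, r₀, hw, hμ, hμ', hμ0, hμ'0, hX, hg⟩ := hS t ht.1
  rw [hnux] at hμ
  rw [hnuy] at hμ'
  have hw2 : w.At (2 * T) (2 * t) := by
    have := (Place.at_const (v := w) (2 : k)).mul hw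
    rwa [map_ofNat] at this
  have hatx := core_at_path x hw
  have haty := core_at_path y hw2
  have hmx : μ₀ = nu A (path x t) := by
    funext i
    exact Place.At.unique (hμ i)
      ((core_at_lin A hatx i).div (hatx i) ((hS₁ t ht.2.1) i).1)
  have hmy : μ'₀ = nu A (path y (2 * t)) := by
    funext i
    exact Place.At.unique (hμ' i)
      ((core_at_lin A haty i).div (haty i) ((hS₂ t ht.2.2) i).1)
  have hX1 : Chn.nu A (X₀ (Finset.univ.erase L)) = μ₀ := by
    funext i
    have h3 := Chn.at_nu A (hX _ hLe) i ((hg.intr _ hLe) i).1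
    rw [hXx, hnux] at h3
    exact Place.At.unique h3 (hμ i)
  have hX2 : Chn.nu A (X₀ ∅) = μ'₀ := by
    funext i
    have h3 := Chn.at_nu A (hX ∅ (Finset.notMem_empty _)) i
      ((hg.intr ∅ (Finset.notMem_empty _)) i).1
    rw [hXy, hnuy] at h3
    exact Place.At.unique h3 (hμ' i)
  have hc' : ∀ i, c i ^ M i = μ₀ i * μ'₀ i := by
    intro i
    rw [hc i, hmx, hmy]
  have hc0 : ∀ i, c i ≠ 0 := by
    intro i h
    have h3 := hc' i
    rw [h, zero_pow (hM i).ne'] at h3
    exact mul_ne_zero (hμ0 i) (hμ'0 i) h3.symm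
  have hfin := Chn.chain_all hM hG hc' hc0 hg
  rw [hX1, hX2, hmx, hmy] at hfin
  rw [hfin]
  congr 1
  ring

end Pool.Agent.HYG
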