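import Pool.Agent.HYG.Val
import Pool.Agent.HYG.Bd

/-!
# The value of a class function at a place, in the coordinates `μ`, `c`
-/

set_option autoImplicit false

noncomputable section

namespace Pool.Agent.HYG

open Pool.Agent.ZCyc Pool.Agent.Dess Pool.Agent.GT Pool.Agent.TInc
open scoped Classical LinearAlgebra.Projectivization

variable {k : Type} [Field k] [IsAlgClosed k] [CharZero k] {m : ℕ} {A A' : Matrix (Fin m) (Fin m) k}
  {M : Fin m → ℕ} {R W : Type} [Field R] [AddCommGroup W] [Module R W] {χ : Fin m → k → R}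
  {E : (Fin m → Option k) → (Fin m → Option k) → W}

omit [IsAlgClosed k] [CharZero k] in
private theorem covA_opt {o : Option k} (h : ∀ c, c ≠ 0 → o ≠ some c) : o = none ∨ o = some 0 := by
  rcases o with _ | c
  · exact Or.inl rfl
  · by_cases hc : c = 0
    · exact Or.inr (by rw [hc])
    · exact absurd rfl (h c hc)

/-- the roots have values -/
theorem covA_root {M : ℕ} (hM : 0 < M) {K : Type} [Field K] [Algebra k K] (hK : IsCurve k K)
    {w X : K} (hw : w ^ M = X) (v : Place k K) {x : k} (hx : v.At X x) (hx1 : x ≠ 0) :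
    ∃ ω : k, v.At w ω ∧ ω ^ M = x ∧ ω ≠ 0 := by
  have h1 : v.At (w ^ M) x := by rwa [hw]
  have h2 : w ∈ v.ring := by
    rcases v.ring.mem_or_inv_mem w with h | h
    · exact h
    · by_cases hw0 : w = 0
      · rw [hw0]
        exact v.ring.zero_mem
      by_contra h3
      have h4 : v.Vanishes w⁻¹ := by
        rw [Place.vanishes_iff_or]
        right
        rwa [inv_inv]
      have h5 : v.Vanishes ((w⁻¹) ^ M) := Place.Vanishes.pow v h4 hM.ne'
      have h6 : v.Vanishes ((w⁻¹) ^ M * w ^ M) := Place.Vanishes.mul v h5 h1.mem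
      rw [← mul_pow, inv_mul_cancel₀ hw0, one_pow] at h6
      have h7 : ¬ v.Vanishes (algebraMap k K 1) := Place.const_unit v one_ne_zero
      rw [_root_.map_one] at h7
      exact h7 h6
  obtain ⟨ω, hω⟩ := exists_at hK v h2
  have h3 : ω ^ M = x := (hω.pow M).unique h1
  refine ⟨ω, hω, h3, ?_⟩
  rintro rfl
  rw [zero_pow hM.ne'] at h3
  exact hx1 h3.symm

/-- The value of `E` at a place of a curve with roots `w_i` of `μ_i`. If all `μ_i` have finite values
`≠ 0` and all `C_i` have finite values `≠ 0` then `w_i` and `C_i / w_i` have finite values (if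
`w_i` had a pole so had `w_i ^ M i`), use `desc_eq`. If `μ_i` has the value `0` then `w_i` has the
value `0`; if `μ_i` has a pole, so has `w_i` (`left_zero`). If all `μ_i` have finite values `≠ 0` and
`C_i` has the value `0` or a pole, so has `C_i / w_i` (`right_zero`). -/
theorem cls_value (hM : ∀ i, 0 < M i) (hχ : Chars M χ) (hE : IsCls A A' M χ E) {K : Type}
    [Field K] [Algebra k K] (hK : IsCurve k K) {μ C w : Fin m → K} (hμ : ∀ i, μ i ≠ 0)
    (_hC : ∀ i, C i ≠ 0) (hw : ∀ i, w i ^ M i = μ i) (v : Place k K) :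
    E (fun i => vl v (w i)) (fun i => vl v (C i / w i)) = GG (desc M E) v μ C := by
  have hw0 : ∀ i, w i ≠ 0 := by
    intro i h0
    have h1 := hw i
    rw [h0, zero_pow (hM i).ne'] at h1
    exact hμ i h1.symm
  unfold GG
  split_ifs with h
  · obtain ⟨h1, h2, h3, h4⟩ := h.choose_spec
    have h5 : ∀ i, ∃ ω : k, v.At (w i) ω ∧ ω ^ M i = h.choose.1 i ∧ ω ≠ 0 :=
      fun i => covA_root (hM i) hK (hw i) v (h1 i) (h3 i)
    choose ω hω1 hω2 hω3 using h5
    have e1 : (fun i => vl v (w i)) = fun i => some (ω i) := funext fun i => vl_of_at (hω1 i)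
    have e2 : (fun i => vl v (C i / w i)) = fun i => some (h.choose.2 i / ω i) :=
      funext fun i => vl_of_at ((h2 i).div (hω1 i) (hω3 i))
    rw [e1, e2]
    exact desc_eq hM hχ hE hω2 h3
  · by_cases hx : ∀ i, ∃ x : k, v.At (μ i) x ∧ x ≠ 0
    · choose x hx1 hx2 using hx
      have h5 : ∀ i, ∃ ω : k, v.At (w i) ω ∧ ω ^ M i = x i ∧ ω ≠ 0 :=
        fun i => covA_root (hM i) hK (hw i) v (hx1 i) (hx2 i)
      choose ω hω1 hω2 hω3 using h5
      have hc : ∃ i, ∀ c, c ≠ 0 → ¬ v.At (C i) c := by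
        by_contra hcon
        push Not at hcon
        choose c hc1 hc2 using hcon
        exact h ⟨(x, c), hx1, hc2, hx2, hc1⟩
      obtain ⟨i, hi⟩ := hc
      refine right_zero hχ hE (i := i) (covA_opt fun q hq hcon => ?_)
      have h6 : v.At (C i / w i) q := vl_eq.1 hcon
      have h7 := h6.mul (hω1 i)
      rw [div_mul_cancel₀ _ (hw0 i)] at h7
      exact hi _ (mul_ne_zero hq (hω3 i)) h7
    · push Not at hx
      obtain ⟨i, hi⟩ := hx
      refine left_zero hχ hE (i := i) (covA_opt fun q hq hcon => ?_)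
      have h6 : v.At (w i) q := vl_eq.1 hcon
      have h7 : v.At (w i ^ M i) (q ^ M i) := h6.pow (M i)
      rw [hw i] at h7
      exact pow_ne_zero (M i) hq (hi _ h7)

end Pool.Agent.HYG
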