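import Pool.Agent.GTC.Cvr
import Pool.Agent.MPC.Defs
import Mathlib.LinearAlgebra.Matrix.Block

/-!
# Zero-cycles on products of hypersurfaces `det (A - diag (w_i ^ M_i)) = 0`: definitions

`k` is an algebraically closed field of characteristic zero. Points of the projective line over `k` are
elements of `Option k` (`none` is the point at infinity).

1. The value `vl v f` of a function `f` at a place `v`.
2. The hypersurface `Y_A : det (A - diag (w_i ^ M_i)) = 0` in the product of `m` projective lines. Class
functions `E P Q` of a point `P` of `Y_A` and a point `Q` of `Y_A'` which are eigenfunctions for the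
rotations of the coordinates (`IsCls`). If `P = (w_i)`, `Q = (w'_i)`, then `E P Q = G μ c` depends only
on `μ_i = w_i ^ M_i` and `c_i = w_i w'_i` (`desc`). The relations for `G` are `RelG`.
3. Products of hypersurfaces of this kind: the coordinates are indexed by `Fin N`, they are distributed
into blocks by `β : Fin N → Fin n`; there is one matrix `A`, of which only the blocks on the diagonal
are used.
-/

set_option autoImplicit false

noncomputable section

namespace Pool.Agent.HYG

open Pool.Agent.ZCyc Pool.Agent.Dess Pool.Agent.GT Pool.Agent.TInc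
open scoped Classical LinearAlgebra.Projectivization

variable {k : Type} [Field k]

/-! ### Values -/

/-- the value of the function `f` at the place `v` (`none` is the point at infinity) -/
def vl {K : Type} [Field K] [Algebra k K] (v : Place k K) (f : K) : Option k :=
  if h : ∃ c : k, v.At f c then some h.choose else none

/-- the point of the projective line with the coordinate `w` -/
def toP : Option k → ℙ k (Fin 2 → k)
  | some w => Projectivization.mk k ![w, 1] (by
      intro h
      have h1 := congrFun h 1
      simp at h1)
  | none => Projectivization.mk k ![1, 0] (by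
      intro h
      have h1 := congrFun h 0
      simp at h1)

/-! ### Matrices -/

/-- The matrix of a point: the row `i` of `A - diag (w_i ^ M_i)`, or the row `e_i` if `w_i = ∞`. -/
def mat {ι : Type} [DecidableEq ι] (A : Matrix ι ι k) (M : ι → ℕ) (P : ι → Option k) :
    Matrix ι ι k := fun i j =>
  match P i with
  | some w => A i j - if i = j then w ^ M i else 0
  | none => if i = j then 1 else 0

/-- the matrix `A - diag μ` with entries in an extension field -/
def matK {ι : Type} [DecidableEq ι] (A : Matrix ι ι k) {K : Type} [Field K] [Algebra k K]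
    (μ : ι → K) : Matrix ι ι K := A.map (algebraMap k K) - Matrix.diagonal μ

/-! ### Two points -/

section Two

variable {m : ℕ}

/-- the points of the hypersurface `det (A - diag (w_i ^ M_i)) = 0` -/
def OnY (A : Matrix (Fin m) (Fin m) k) (M : Fin m → ℕ) (P : Fin m → Option k) : Prop :=
  (mat A M P).det = 0

/-- the coordinate with the number `i` is multiplied by `u` -/
def rot (i : Fin m) (u : k) (P : Fin m → Option k) : Fin m → Option k :=
  Function.update P i ((P i).map fun w => u * w)

/-- nontrivial characters `χ i` of the groups of the roots of unity of order dividing `M i` -/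
structure Chars {R : Type} [Field R] (M : Fin m → ℕ) (χ : Fin m → k → R) : Prop where
  mul : ∀ i u u', u ^ M i = 1 → u' ^ M i = 1 → χ i (u * u') = χ i u * χ i u'
  nontriv : ∀ i, ∃ u : k, u ^ M i = 1 ∧ χ i u ≠ 1
  one : ∀ i, χ i 1 = 1

/-- `E` is a class function of a point of the hypersurface for `A` and a point of the hypersurface for
`A'`, and an eigenfunction with the characters `χ` for the rotations of the coordinates, for both
points -/
structure IsCls [IsAlgClosed k] [CharZero k] {R W : Type} [Field R] [AddCommGroup W]
    [Module R W] (A A' : Matrix (Fin m) (Fin m) k) (M : Fin m → ℕ)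
    (χ : Fin m → k → R) (E : (Fin m → Option k) → (Fin m → Option k) → W) : Prop where
  rel : ∀ (K : Type) [Field K] [Algebra k K] (hK : IsCurve k K) (w w' : Fin m → K) (f : K),
    f ≠ 0 → (matK A fun i => w i ^ M i).det = 0 → (matK A' fun i => w' i ^ M i).det = 0 →
    ((dv hK f).sum fun v a => a • E (fun i => vl v (w i)) (fun i => vl v (w' i))) = 0
  left : ∀ P Q i (u : k), u ^ M i = 1 → E (rot i u P) Q = χ i u • E P Q
  right : ∀ P Q i (u : k), u ^ M i = 1 → E P (rot i u Q) = χ i u • E P Q

/-- an `M`-th root of `a` (zero if there is none) -/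
def rt (M : ℕ) {K : Type} [Field K] (a : K) : K := if h : ∃ r : K, r ^ M = a then h.choose else 0

/-- the class function in the coordinates `μ_i = w_i ^ M_i` and `c_i = w_i w'_i` -/
def desc {W : Type} (M : Fin m → ℕ) (E : (Fin m → Option k) → (Fin m → Option k) → W)
    (μ c : Fin m → k) : W :=
  E (fun i => some (rt (M i) (μ i))) fun i => some (c i / rt (M i) (μ i))

/-- The value of the class function `G` at the place `v`: zero if `μ_i` or `c_i` is `0` or `∞` at `v`
for some `i`. -/
def GG {W : Type} [AddCommGroup W] (G : (Fin m → k) → (Fin m → k) → W) {K : Type} [Field K]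
    [Algebra k K] (v : Place k K) (μ C : Fin m → K) : W :=
  if h : ∃ p : (Fin m → k) × (Fin m → k), (∀ i, v.At (μ i) (p.1 i)) ∧ (∀ i, v.At (C i) (p.2 i)) ∧
      (∀ i, p.1 i ≠ 0) ∧ ∀ i, p.2 i ≠ 0 then G h.choose.1 h.choose.2 else 0

/-- the coordinates `μ'_i = c_i ^ M_i / μ_i` of the second point -/
def snd (M : Fin m → ℕ) {K : Type} [Field K] (μ c : Fin m → K) : Fin m → K :=
  fun i => c i ^ M i / μ i

/-- `G` is a class function in the coordinates `μ_i`, `c_i`, with the characters `χ` -/
structure RelG [IsAlgClosed k] [CharZero k] {R W : Type} [Field R] [AddCommGroup W]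
    [Module R W] (A A' : Matrix (Fin m) (Fin m) k) (M : Fin m → ℕ)
    (χ : Fin m → k → R) (G : (Fin m → k) → (Fin m → k) → W) : Prop where
  rel : ∀ (K : Type) [Field K] [Algebra k K] (hK : IsCurve k K) (μ C : Fin m → K) (f : K),
    f ≠ 0 → (∀ i, μ i ≠ 0) → (∀ i, C i ≠ 0) → (matK A μ).det = 0 →
    (matK A' (snd M μ C)).det = 0 → ((dv hK f).sum fun v a => a • GG G v μ C) = 0
  tw : ∀ (μ c : Fin m → k) (i : Fin m) (u : k), u ^ M i = 1 →
    G μ (Function.update c i (u * c i)) = χ i u • G μ c

end Two

/-! ### Products of hypersurfaces -/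

/-- The data of a product of hypersurfaces: the coordinate `i` belongs to the block `β i` and has the
exponent `M i`. Only the blocks on the diagonal of the matrix `A` are used. -/
structure Dat (k : Type) where
  /-- the number of coordinates -/
  N : ℕ
  /-- the number of blocks -/
  n : ℕ
  /-- the block of a coordinate -/
  β : Fin N → Fin n
  /-- the matrix -/
  A : Matrix (Fin N) (Fin N) k
  /-- the exponents -/
  M : Fin N → ℕ

/-- the equations for coordinates in an extension field -/
def OnK (X : Dat k) {K : Type} [Field K] [Algebra k K] (w : Fin X.N → K) : Prop :=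
  ∀ b, (Matrix.toSquareBlock (matK X.A fun i => w i ^ X.M i) X.β b).det = 0

/-- the points of the product of hypersurfaces -/
def OnB (X : Dat k) (P : Fin X.N → Option k) : Prop :=
  ∀ b, (Matrix.toSquareBlock (mat X.A X.M P) X.β b).det = 0

/-- the product of hypersurfaces in the product of projective lines -/
def YP (X : Dat k) : Set (Fin X.N → ℙ k (Fin 2 → k)) :=
  {p | ∀ b, (Matrix.toSquareBlock (fun i j => (p i).rep 1 ^ X.M i * X.A i j -
    if i = j then (p i).rep 0 ^ X.M i else 0) X.β b).det = 0}

/-- Every block contains a coordinate `i` such that all entries of its row and its column (in the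
block) are different from zero. -/
def Gnl (X : Dat k) : Prop :=
  ∀ b, ∃ i, X.β i = b ∧ ∀ j, X.β j = b → X.A i j ≠ 0 ∧ X.A j i ≠ 0

/-- `E` is a class function on the product of hypersurfaces -/
def IsCF [IsAlgClosed k] [CharZero k] (X : Dat k) {W : Type} [AddCommGroup W]
    (E : (Fin X.N → Option k) → W) : Prop :=
  ∀ (K : Type) [Field K] [Algebra k K] (hK : IsCurve k K) (w : Fin X.N → K) (f : K),
    f ≠ 0 → OnK X w → ((dv hK f).sum fun v a => a • E fun i => vl v (w i)) = 0

/-- An automorphism of the product of hypersurfaces: `w ↦ (h_i w_(τ i))_i`, where the `h_i` are roots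
of unity, and the permutation `τ` exchanges equal factors: it maps blocks to blocks with the same
matrix and exponents, and preserves the order of the coordinates of a block. -/
structure Mon (X : Dat k) where
  /-- the factors -/
  h : Fin X.N → k
  /-- the permutation -/
  τ : Equiv.Perm (Fin X.N)
  pow : ∀ i, h i ^ X.M i = 1
  blk : ∀ i j, X.β i = X.β j ↔ X.β (τ i) = X.β (τ j)
  mono : ∀ i j, X.β i = X.β j → i < j → τ i < τ j
  mat : ∀ i j, X.β i = X.β j → X.A (τ i) (τ j) = X.A i j
  exp : ∀ i, X.M (τ i) = X.M i

variable {X : Dat k}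

/-- the image of a point -/
def Mon.app (g : Mon X) (P : Fin X.N → Option k) : Fin X.N → Option k :=
  fun i => (P (g.τ i)).map fun w => g.h i * w

/-- The exponents of a form: `a_i < M_i`, and in every block either all exponents are zero (the form
does not contain differentials of these coordinates), or none. -/
def Adm (X : Dat k) (a : Fin X.N → ℕ) : Prop :=
  (∀ i, a i < X.M i) ∧ ∀ i j, X.β i = X.β j → (a i = 0 ↔ a j = 0)

/-- `i` is the first coordinate of its block -/
def Fst (X : Dat k) (i : Fin X.N) : Prop := ∀ j, X.β j = X.β i → i ≤ j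

/-- The sign of the pull-back of the form with the exponents `a`: the number of inversions of `τ` on
the coordinates with `a_i ≠ 0`, plus the number of inversions of the blocks with `a_i ≠ 0`. -/
def kos (g : Mon X) (a : Fin X.N → ℕ) : ℤ :=
  (∏ i, ∏ j, if a i ≠ 0 ∧ a j ≠ 0 ∧ i < j ∧ g.τ j < g.τ i then (-1 : ℤ) else 1) *
    ∏ i, ∏ j, if a i ≠ 0 ∧ a j ≠ 0 ∧ Fst X i ∧ Fst X j ∧ X.β i < X.β j ∧
      X.β (g.τ j) < X.β (g.τ i) then (-1 : ℤ) else 1

/-- The combination `γ` of automorphisms kills all holomorphic forms
`ω_a = ∏ w_i ^ (a_i - 1) dw_i / ∏ d(equations)`. The pull-back of `ω_a` by `g` is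
`kos g a * ∏ h_i ^ a_i * ω_a'` with `a' ∘ τ = a`. -/
def KillsForms (γ : Mon X →₀ ℚ) : Prop :=
  ∀ a, Adm X a → ∀ a' : Fin X.N → ℕ,
    ∑ g ∈ γ.support.filter (fun g => a' ∘ g.τ = a), (γ g : k) * (kos g a : k) *
      ∏ i, g.h i ^ a i = 0

end Pool.Agent.HYG
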