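import Pool.Agent.HYG.Val
import Pool.Agent.HYG.Bd
import Pool.Agent.HYG.Roots
import Pool.Agent.HYG.CoreDefs

/-!
# A curve through two points
-/

set_option autoImplicit false
set_option linter.unusedSectionVars false

noncomputable section

namespace Pool.Agent.HYG

open Pool.Agent.ZCyc Pool.Agent.Dess Pool.Agent.GT Pool.Agent.TInc
open scoped Classical LinearAlgebra.Projectivization

variable {k : Type} [Field k] [IsAlgClosed k] [CharZero k]

private theorem moveC_lin {m : ℕ} {K : Type} [Field K] [Algebra k K] (A : Matrix (Fin m) (Fin m) k)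
    (x : Fin m → K) (i : Fin m) : lin A x i = ∑ j, algebraMap k K (A i j) * x j := rfl

private theorem moveC_map {m : ℕ} {K K' : Type} [Field K] [Algebra k K] [Field K'] [Algebra k K']
    (φ : K →ₐ[k] K') (A : Matrix (Fin m) (Fin m) k) (x : Fin m → K) (i : Fin m) :
    φ (nu A x i) = nu A (fun j => φ (x j)) i := by
  show φ (lin A x i / x i) = lin A (fun j => φ (x j)) i / φ (x i)
  rw [map_div₀, moveC_lin, moveC_lin, map_sum]
  congr 1
  refine Finset.sum_congr rfl fun j _ => ?_
  rw [map_mul, AlgHom.commutes]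

private theorem moveC_path {n : ℕ} {K K' : Type} [Field K] [Algebra k K] [Field K'] [Algebra k K']
    (φ : K →ₐ[k] K') (x : Fin (n + 1) → k) (T : K) :
    (fun j => φ (path x T j)) = path x (φ T) := by
  funext j
  unfold path
  rw [map_add, AlgHom.commutes]
  congr 1
  split_ifs
  · rw [map_pow]
  · rfl

private theorem moveC_at_path {n : ℕ} {K : Type} [Field K] [Algebra k K] {v : Place k K} {T : K}
    (hT : v.At T 0) (x : Fin (n + 1) → k) (i : Fin (n + 1)) : v.At (path x T i) (x i) := by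
  unfold path
  have h2 : v.At (if i = Fin.last n then T ^ 2 else T) (0 : k) := by
    split_ifs
    · have h3 := hT.pow 2
      rwa [zero_pow (by norm_num)] at h3
    · exact hT
  have h4 := (Place.at_const (v := v) (x i)).add h2
  rwa [add_zero] at h4

private theorem moveC_at_lin {n : ℕ} {K : Type} [Field K] [Algebra k K] {v : Place k K} {T : K}
    (hT : v.At T 0) (A : Matrix (Fin (n + 1)) (Fin (n + 1)) k) (x : Fin (n + 1) → k)
    (i : Fin (n + 1)) : v.At (lin A (path x T) i) (lin A x i) := by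
  rw [moveC_lin, moveC_lin]
  exact Place.At.sum fun j _ => (Place.at_const (A i j)).mul (moveC_at_path hT x j)

private theorem moveC_ne {K : Type} [Field K] [Algebra k K] {v : Place k K} {f : K} {c : k}
    (h : v.At f c) (hc : c ≠ 0) : f ≠ 0 := by
  rintro rfl
  apply hc
  have h1 := Place.at_const (v := v) (F := K) (0 : k)
  rw [map_zero] at h1
  exact h.unique h1

private theorem moveC_intr {n : ℕ} {K : Type} [Field K] [Algebra k K] {v : Place k K} {T : K}
    (hT : v.At T 0) {A : Matrix (Fin (n + 1)) (Fin (n + 1)) k} {x : Fin (n + 1) → k}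
    (hx : Intr A x) : Intr A (path x T) := fun i =>
  ⟨moveC_ne (moveC_at_path hT x i) (hx i).1, moveC_ne (moveC_at_lin hT A x i) (hx i).2⟩

private theorem moveC_mem {K : Type} [Field K] [Algebra k K] (v : Place k K) {w : K} {M : ℕ}
    (hM : 0 < M) (h : w ^ M ∈ v.ring) : w ∈ v.ring := by
  rcases v.ring.mem_or_inv_mem w with h1 | h1
  · exact h1
  · by_cases hw : w = 0
    · rw [hw]
      exact zero_mem _
    · have e : w = w ^ M * w⁻¹ ^ (M - 1) := by
        obtain ⟨m, rfl⟩ : ∃ m, M = m + 1 := ⟨M - 1, by omega⟩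
        rw [Nat.add_sub_cancel, pow_succ, mul_assoc, mul_comm w, ← mul_assoc, ← mul_pow,
          mul_inv_cancel₀ hw, one_pow, one_mul]
      rw [e]
      exact mul_mem h (pow_mem h1 _)

private theorem moveC_root {n : ℕ} {K : Type} [Field K] [Algebra k K] (hK : IsCurve k K)
    {v : Place k K} {T : K} (hT : v.At T 0) {A : Matrix (Fin (n + 1)) (Fin (n + 1)) k}
    {x : Fin (n + 1) → k} (hx : Intr A x) {M : ℕ} (hM : 0 < M) {w₀ : k} {i : Fin (n + 1)}
    (hw : w₀ ^ M = nu A x i) {w₁ : K} (hw1 : w₁ ^ M = nu A (path x T) i) :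
    ∃ w : K, w ^ M = nu A (path x T) i ∧ v.At w w₀ := by
  have h1 : v.At (nu A (path x T) i) (nu A x i) :=
    (moveC_at_lin hT A x i).div (moveC_at_path hT x i) (hx i).1
  have h2 : w₁ ∈ v.ring := by
    apply moveC_mem v hM
    rw [hw1]
    exact h1.mem
  obtain ⟨c, hc⟩ := exists_at hK v h2
  have h3 : c ^ M = w₀ ^ M := by
    have h4 := hc.pow M
    rw [hw1] at h4
    rw [hw]
    exact h4.unique h1
  have h5 : nu A x i ≠ 0 := div_ne_zero (hx i).2 (hx i).1
  have h6 : c ≠ 0 := by
    rintro rfl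
    rw [zero_pow hM.ne', hw] at h3
    exact h5 h3.symm
  refine ⟨algebraMap k K (w₀ / c) * w₁, ?_, ?_⟩
  · rw [mul_pow, ← map_pow, div_pow, ← h3, div_self (pow_ne_zero _ h6), map_one, one_mul, hw1]
  · have h7 := (Place.at_const (v := v) (w₀ / c)).mul hc
    rwa [div_mul_cancel₀ _ h6] at h7

/-- A curve through two points: a function field `K` with a transcendental `T`, points `w`, `w'`
with coordinates in `K` with `w_i ^ M_i = ν_i(path x T)`, `w'_i ^ M_i = ν_i(path y (2 T))`, a place
`v₀` above `T = 0` where the values are the given roots `w₀`, `w₀'` of `ν_i(x)`, `ν_i(y)`. Proof: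
`exists_roots` for the `ν_i` of both points over `k(T)` (`Fin.append`), `exists_place` for `φ T` and
`0`; the values of the roots at `v₀` are `u_i w₀_i` with `u_i ^ M_i = 1`, divide by the constants
`u_i`. -/
theorem exists_curve {n : ℕ} {A : Matrix (Fin (n + 1)) (Fin (n + 1)) k} {M : Fin (n + 1) → ℕ}
    (hM : ∀ i, 0 < M i) {x y w₀ w₀' : Fin (n + 1) → k} (hx : Intr A x) (hy : Intr A y)
    (hw : ∀ i, w₀ i ^ M i = nu A x i) (hw' : ∀ i, w₀' i ^ M i = nu A y i) :
    ∃ (K : Type) (_ : Field K) (_ : Algebra k K) (_ : IsCurve k K) (T : K)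
      (w w' : Fin (n + 1) → K) (v₀ : Place k K), Transcendental k T ∧ v₀.At T 0 ∧
      (∀ i, w i ^ M i = nu A (path x T) i) ∧ (∀ i, w' i ^ M i = nu A (path y (2 * T)) i) ∧
      Intr A (path x T) ∧ Intr A (path y (2 * T)) ∧
      (∀ i, v₀.At (w i) (w₀ i)) ∧ ∀ i, v₀.At (w' i) (w₀' i) := by
  have hM' : ∀ i : Fin ((n + 1) + (n + 1)), 0 < Fin.append M M i := by
    intro i
    refine Fin.addCases (fun i => ?_) (fun i => ?_) i
    · rw [Fin.append_left]
      exact hM i
    · rw [Fin.append_right]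
      exact hM i
  obtain ⟨K, hF, hA, hK, φ, W, hW⟩ := exists_roots (isCurve_ratFunc (k := k)) hM'
    (Fin.append (nu A (path x (RatFunc.X : RatFunc k)))
      (nu A (path y (2 * (RatFunc.X : RatFunc k)))))
  have htr : Transcendental k (φ (RatFunc.X : RatFunc k)) := fun h1 =>
    RatFunc.transcendental_X
      ((isAlgebraic_algHom_iff φ (φ : RatFunc k →+* K).injective).1 h1)
  obtain ⟨v₀, hv₀⟩ := exists_place htr (0 : k)
  have h1 : ∀ i, W (Fin.castAdd (n + 1) i) ^ M i = nu A (path x (φ (RatFunc.X : RatFunc k))) i := by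
    intro i
    have h2 := hW (Fin.castAdd (n + 1) i)
    rw [Fin.append_left, Fin.append_left, moveC_map, moveC_path] at h2
    exact h2
  have hv₂ : v₀.At (2 * φ (RatFunc.X : RatFunc k)) (0 : k) := by
    have h2 := (Place.at_const (v := v₀) (2 : k)).mul hv₀
    rwa [map_ofNat, mul_zero] at h2
  have h1' : ∀ i, W (Fin.natAdd (n + 1) i) ^ M i =
      nu A (path y (2 * φ (RatFunc.X : RatFunc k))) i := by
    intro i
    have h2 := hW (Fin.natAdd (n + 1) i)
    rw [Fin.append_right, Fin.append_right, moveC_map, moveC_path, map_mul, map_ofNat] at h2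
    exact h2
  have h3 : ∀ i, ∃ w : K, w ^ M i = nu A (path x (φ (RatFunc.X : RatFunc k))) i ∧
      v₀.At w (w₀ i) := fun i => moveC_root hK hv₀ hx (hM i) (hw i) (h1 i)
  have h3' : ∀ i, ∃ w : K, w ^ M i = nu A (path y (2 * φ (RatFunc.X : RatFunc k))) i ∧
      v₀.At w (w₀' i) := fun i => moveC_root hK hv₂ hy (hM i) (hw' i) (h1' i)
  choose w hwp hwa using h3
  choose w' hwp' hwa' using h3'
  exact ⟨K, hF, hA, hK, φ RatFunc.X, w, w', v₀, htr, hv₀, hwp, hwp', moveC_intr hv₀ hx,
    moveC_intr hv₂ hy, hwa, hwa'⟩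

/-- the kernel vector `path x T` shows that the determinant is zero -/
theorem det_nu {m : ℕ} {K : Type} [Field K] [Algebra k K] (A : Matrix (Fin m) (Fin m) k)
    {x : Fin m → K} (hm : 0 < m) (hx : Intr A x) : (matK A (nu A x)).det = 0 := by
  rw [← Matrix.exists_mulVec_eq_zero_iff]
  refine ⟨x, ?_, ?_⟩
  · intro h
    exact (hx ⟨0, hm⟩).1 (congrFun h _)
  · funext i
    unfold matK
    rw [Matrix.sub_mulVec, Pi.sub_apply, Matrix.mulVec_diagonal]
    show lin A x i - lin A x i / x i * x i = 0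
    rw [div_mul_cancel₀ _ (hx i).1, sub_self]

end Pool.Agent.HYG
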