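import Pool.Agent.HYG.Core
import Pool.Agent.HYG.Cover
import Pool.Agent.HYG.MoveC
import Pool.Agent.HYG.Appr

/-!
# Exchange of two interior points
-/

set_option autoImplicit false

noncomputable section

namespace Pool.Agent.HYG

open Pool.Agent.ZCyc Pool.Agent.Dess Pool.Agent.GT Pool.Agent.TInc
open scoped Classical LinearAlgebra.Projectivization

variable {k : Type} [Field k] [IsAlgClosed k] [CharZero k] {n : ℕ}
  {A : Matrix (Fin (n + 1)) (Fin (n + 1)) k} {M : Fin (n + 1) → ℕ} {R W : Type} [Field R]
  [CharZero R] [AddCommGroup W] [Module R W] {χ : Fin (n + 1) → k → R}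
  {E : (Fin (n + 1) → Option k) → (Fin (n + 1) → Option k) → W}

omit [IsAlgClosed k] [CharZero k] in
/-- the value of `path x T` -/
private lemma swapI_path {K : Type} [Field K] [Algebra k K] {v : Place k K} {T : K} {t : k}
    (hT : v.At T t) (x : Fin (n + 1) → k) (i : Fin (n + 1)) :
    v.At (path x T i) (path x t i) := by
  unfold path
  refine (Place.at_const (x i)).add ?_
  split_ifs
  · exact hT.pow 2
  · exact hT

omit [IsAlgClosed k] [CharZero k] in
/-- the value of `ν_i` -/
private lemma swapI_nu {K : Type} [Field K] [Algebra k K] {v : Place k K} {T : K} {t : k}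
    (hT : v.At T t) {x : Fin (n + 1) → k} (hx : Intr A (path x t)) (i : Fin (n + 1)) :
    v.At (nu A (path x T) i) (nu A (path x t) i) := by
  unfold nu
  refine Place.At.div ?_ (swapI_path hT x i) (hx i).1
  unfold lin
  rw [Matrix.mulVec, Matrix.mulVec, dotProduct, dotProduct]
  refine Place.At.sum fun j _ => ?_
  rw [Matrix.map_apply, Matrix.map_apply]
  exact (Place.at_const (A i j)).mul (swapI_path hT x j)

/-- the value of a root -/
private lemma swapI_root {K : Type} [Field K] [Algebra k K] (hK : IsCurve k K) {v : Place k K}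
    {m : ℕ} (hm : 0 < m) {w g : K} {c : k} (hw : w ^ m = g) (hg : v.At g c) :
    ∃ a : k, v.At w a ∧ a ^ m = c := by
  have h1 : w ∈ v.ring := by
    have h2 : w ^ m ∈ v.ring := by
      rw [hw]
      exact hg.mem
    rw [← v.ring.valuation_le_one_iff] at h2 ⊢
    rw [map_pow] at h2
    exact (pow_le_one_iff hm.ne').1 h2
  obtain ⟨a, ha⟩ := exists_at hK v h1
  refine ⟨a, ha, ?_⟩
  have h3 := ha.pow m
  rw [hw] at h3
  exact h3.unique hg

/-- The class function `D P Q = E Q P - (-1) ^ n • E P Q` (`isCls_sub`, `isCls_swap`) is zero at the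
values of the points of the curve of `exists_curve` for all places with `T = t ∉ S`, `S` from
`core_line` for `G = desc M E` (`relG_desc`): the values `w`, `w'` are finite, `w_i ^ M_i = ν_i(path x t)`
(`At.div`, `At.sum`), use `desc_eq` and `desc_snd` with `c_i = w_i w'_i`. So it is zero at `v₀`
(`eq_zero_of_general`, `det_nu`). -/
theorem swap_intr (hA : LastNZ A) (hM : ∀ i, 0 < M i) (hχ : Chars M χ) (hE : IsCls A A M χ E)
    {x y w w' : Fin (n + 1) → k} (hx : Intr A x) (hy : Intr A y)
    (hw : ∀ i, w i ^ M i = nu A x i) (hw' : ∀ i, w' i ^ M i = nu A y i) :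
    E (fun i => some (w' i)) (fun i => some (w i)) =
      (-1 : R) ^ n • E (fun i => some (w i)) (fun i => some (w' i)) := by
  obtain ⟨K, hF, hAlg, hK, T, u, u', v₀, hT, hT0, hu, hu', hxT, hyT, hv, hv'⟩ :=
    exists_curve hM hx hy hw hw'
  obtain ⟨S, hS⟩ := core_line hA hM hχ (relG_desc hM hχ hE) hx hy
  have hD := isCls_sub (isCls_swap hE) hE ((-1 : R) ^ n)
  have e1 : (fun i => u i ^ M i) = nu A (path x T) := funext hu
  have e2 : (fun i => u' i ^ M i) = nu A (path y (2 * T)) := funext hu'
  have hdet : (matK A fun i => u i ^ M i).det = 0 := by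
    rw [e1]
    exact det_nu A (Nat.succ_pos n) hxT
  have hdet' : (matK A fun i => u' i ^ M i).det = 0 := by
    rw [e2]
    exact det_nu A (Nat.succ_pos n) hyT
  have key := eq_zero_of_general hK
    (F := fun v => E (fun i => vl v (u' i)) (fun i => vl v (u i)) -
      (-1 : R) ^ n • E (fun i => vl v (u i)) (fun i => vl v (u' i)))
    (fun f hf => hD.rel K hK u u' f hf hdet hdet') hT S ?_ v₀
  · have h1 : (fun i => vl v₀ (u i)) = fun i => some (w i) := funext fun i => vl_of_at (hv i)
    have h2 : (fun i => vl v₀ (u' i)) = fun i => some (w' i) := funext fun i => vl_of_at (hv' i)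
    simp only [h1, h2] at key
    exact sub_eq_zero.1 key
  · intro v t hvt ht
    obtain ⟨hxt, hyt, hc⟩ := hS t ht
    have hvt2 : v.At (2 * T) (2 * t) := by
      have h2 := (Place.at_const (v := v) (2 : k)).mul hvt
      rwa [map_ofNat] at h2
    have ha : ∀ i, ∃ a : k, v.At (u i) a ∧ a ^ M i = nu A (path x t) i := fun i =>
      swapI_root hK (hM i) (hu i) (swapI_nu hvt hxt i)
    have hb : ∀ i, ∃ a : k, v.At (u' i) a ∧ a ^ M i = nu A (path y (2 * t)) i := fun i =>
      swapI_root hK (hM i) (hu' i) (swapI_nu hvt2 hyt i)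
    choose a ha1 ha2 using ha
    choose b hb1 hb2 using hb
    have hnx : ∀ i, nu A (path x t) i ≠ 0 := fun i => div_ne_zero (hxt i).2 (hxt i).1
    have hny : ∀ i, nu A (path y (2 * t)) i ≠ 0 := fun i => div_ne_zero (hyt i).2 (hyt i).1
    have ha0 : ∀ i, a i ≠ 0 := by
      intro i h
      apply hnx i
      rw [← ha2 i, h, zero_pow (hM i).ne']
    have hb0 : ∀ i, b i ≠ 0 := by
      intro i h
      apply hny i
      rw [← hb2 i, h, zero_pow (hM i).ne']
    have h1 : (fun i => vl v (u i)) = fun i => some (a i) := funext fun i => vl_of_at (ha1 i)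
    have h2 : (fun i => vl v (u' i)) = fun i => some (b i) := funext fun i => vl_of_at (hb1 i)
    have h3 := hc (fun i => a i * b i) fun i => by rw [mul_pow, ha2, hb2]
    have h4 := desc_eq hM hχ hE (c := fun i => a i * b i) ha2 hnx
    have h5 := desc_eq hM hχ hE (c := fun i => a i * b i) hb2 hny
    have h6 : (fun i => some (a i * b i / a i)) = fun i => some (b i) := by
      funext i
      rw [mul_div_cancel_left₀ _ (ha0 i)]
    have h7 : (fun i => some (a i * b i / b i)) = fun i => some (a i) := by
      funext i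
      rw [mul_div_cancel_right₀ _ (hb0 i)]
    rw [h6] at h4
    rw [h7] at h5
    rw [← h4, ← h5] at h3
    show E (fun i => vl v (u' i)) (fun i => vl v (u i)) -
      (-1 : R) ^ n • E (fun i => vl v (u i)) (fun i => vl v (u' i)) = 0
    rw [h1, h2, h3, sub_self]

end Pool.Agent.HYG
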